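import Mathlib
import Pool.Agent.N302.SP.GenA

/-!
# Multiplicative parametrisation of a large family of tuples of units
-/

set_option autoImplicit false

namespace Pool.Agent.Run7.h983

open MvPolynomial Pool.Agent.N302.SP

variable {P : Type} {Lg : Set P → Prop}

theorem IsLarge.finsplit (hL : IsLarge Lg) {ι : Type} (F : Finset ι) (B : ι → Set P) :
    ∀ A, Lg A → (∀ z ∈ A, ∃ i ∈ F, z ∈ B i) → ∃ i ∈ F, Lg (A ∩ B i) := by
  classical
  induction F using Finset.induction_on with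
  | empty =>
    intro A hA h
    obtain ⟨z, hz⟩ := hL.nonempty A hA
    obtain ⟨i, hi, -⟩ := h z hz
    exact absurd hi (Finset.notMem_empty i)
  | insert a F ha ih =>
    intro A hA h
    rcases hL.split A (B a) (⋃ i ∈ F, B i) hA (fun z hz => by
      obtain ⟨i, hi, hz'⟩ := h z hz
      rcases Finset.mem_insert.1 hi with rfl | hi
      · exact Or.inl hz'
      · exact Or.inr (Set.mem_biUnion hi hz')) with h1 | h1
    · exact ⟨a, Finset.mem_insert_self a F, h1⟩
    · obtain ⟨i, hi, h2⟩ := ih _ h1 (fun z hz => by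
        obtain ⟨i, hi, hz'⟩ := Set.mem_iUnion₂.1 hz.2
        exact ⟨i, hi, hz'⟩)
      refine ⟨i, Finset.mem_insert_of_mem hi, ?_⟩
      have h3 : (A ∩ ⋃ i ∈ F, B i) ∩ B i = A ∩ B i := by
        ext z
        constructor
        · rintro ⟨⟨h1, -⟩, h2⟩
          exact ⟨h1, h2⟩
        · rintro ⟨h1, h2⟩
          exact ⟨⟨h1, Set.mem_biUnion hi h2⟩, h2⟩
      rwa [h3] at h2

variable {Ω : Type} [Field Ω] {n : ℕ}

/-- the monomials in the units which are constant on `A` -/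
def RA (u : P → Fin n → Ω) (hu : ∀ z i, u z i ≠ 0) (A : Set P) : Submodule ℤ (Fin n → ℤ) where
  carrier := {r | ∃ c : Ω, c ≠ 0 ∧ ∀ z ∈ A, ∏ i, u z i ^ r i = c}
  zero_mem' := ⟨1, one_ne_zero, fun z _ => by simp⟩
  add_mem' := by
    rintro r r' ⟨c, hc, h⟩ ⟨c', hc', h'⟩
    refine ⟨c * c', mul_ne_zero hc hc', fun z hz => ?_⟩
    rw [← h z hz, ← h' z hz, ← Finset.prod_mul_distrib]
    exact Finset.prod_congr rfl fun i _ => by rw [Pi.add_apply, zpow_add₀ (hu z i)]
  smul_mem' := by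
    rintro m r ⟨c, hc, h⟩
    refine ⟨c ^ m, zpow_ne_zero _ hc, fun z hz => ?_⟩
    rw [← h z hz, ← Finset.prod_zpow]
    exact Finset.prod_congr rfl fun i _ => by
      rw [Pi.smul_apply, smul_eq_mul, mul_comm, zpow_mul]

theorem mem_RA {u : P → Fin n → Ω} {hu : ∀ z i, u z i ≠ 0} {A : Set P} {r : Fin n → ℤ} :
    r ∈ RA u hu A ↔ ∃ c : Ω, c ≠ 0 ∧ ∀ z ∈ A, ∏ i, u z i ^ r i = c := Iff.rfl

theorem RA_mono {u : P → Fin n → Ω} {hu : ∀ z i, u z i ≠ 0} {A A' : Set P} (h : A' ⊆ A) :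
    RA u hu A ≤ RA u hu A' := by
  rintro r ⟨c, hc, h1⟩
  exact ⟨c, hc, fun z hz => h1 z (h hz)⟩

theorem exists_maxRA (u : P → Fin n → Ω) (hu : ∀ z i, u z i ≠ 0) (A0 : Set P)
    (hA0 : Lg A0) : ∃ A ⊆ A0, Lg A ∧ ∀ A' ⊆ A, Lg A' → RA u hu A' = RA u hu A := by
  obtain ⟨I, ⟨A, hAA, hA, rfl⟩, hmax⟩ := WellFounded.has_min
    (wellFounded_gt : WellFounded (α := Submodule ℤ (Fin n → ℤ)) (· > ·))
    {I | ∃ A, A ⊆ A0 ∧ Lg A ∧ RA u hu A = I} ⟨_, A0, subset_rfl, hA0, rfl⟩
  refine ⟨A, hAA, hA, fun A' hA' hL' => ?_⟩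
  have h1 : RA u hu A ≤ RA u hu A' := RA_mono hA'
  have h2 := hmax (RA u hu A') ⟨A', hA'.trans hAA, hL', rfl⟩
  by_contra h3
  exact h2 (lt_of_le_of_ne h1 (Ne.symm h3))

/-- **Parametrisation by independent units.** -/
theorem stepA (hL : IsLarge Lg) (u : P → Fin n → Ω) (hu : ∀ z i, u z i ≠ 0) (A0 : Set P)
    (hA0 : Lg A0) :
    ∃ A ⊆ A0, Lg A ∧ ∃ (d : ℕ) (w : Fin n → Fin d → ℤ) (w' : Fin d → Fin n → ℤ) (c : Fin n → Ω),
      (∀ i, c i ≠ 0) ∧ (∀ z ∈ A, ∀ i, u z i = c i * ∏ j, (∏ k, u z k ^ w' j k) ^ w i j) ∧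
      ∀ q : Fin d → ℤ, q ≠ 0 → ∀ A' ⊆ A, Lg A' → ∀ c' : Ω,
        ¬ ∀ z ∈ A', ∏ j, (∏ k, u z k ^ w' j k) ^ q j = c' := by
  classical
  obtain ⟨A, hAA, hA, hmax⟩ := exists_maxRA (Lg := Lg) u hu A0 hA0
  have hsat : ∀ (N : ℤ) (r : Fin n → ℤ), N ≠ 0 → N • r ∈ RA u hu A → r ∈ RA u hu A := by
    intro N r hN ⟨c, hc, h⟩
    -- the values are roots
    let pw : ℕ → Ω → Polynomial Ω := fun m c => Polynomial.X ^ m - Polynomial.C c
    let F : Finset Ω := (pw N.natAbs c).roots.toFinset ∪ (pw N.natAbs c⁻¹).roots.toFinset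
    have hNn : N.natAbs ≠ 0 := Int.natAbs_ne_zero.2 hN
    have hpw : ∀ c : Ω, pw N.natAbs c ≠ 0 := fun c =>
      Polynomial.X_pow_sub_C_ne_zero (Nat.pos_of_ne_zero hNn) c
    obtain ⟨ζ, hζ, hB⟩ := IsLarge.finsplit hL F (fun ζ => {z | ∏ i, u z i ^ r i = ζ}) A hA (by
      intro z hz
      refine ⟨∏ i, u z i ^ r i, ?_, rfl⟩
      have h1 : (∏ i, u z i ^ r i) ^ N = c := by
        rw [← h z hz, ← Finset.prod_zpow]
        exact Finset.prod_congr rfl fun i _ => by
          rw [Pi.smul_apply, smul_eq_mul, mul_comm, zpow_mul]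
      rcases Int.natAbs_eq N with h2 | h2
      · refine Finset.mem_union_left _ (Multiset.mem_toFinset.2 ?_)
        rw [Polynomial.mem_roots (hpw c)]
        show Polynomial.eval _ (Polynomial.X ^ N.natAbs - Polynomial.C c) = 0
        rw [Polynomial.eval_sub, Polynomial.eval_pow, Polynomial.eval_X, Polynomial.eval_C,
          sub_eq_zero, ← zpow_natCast, ← h2]
        exact h1
      · refine Finset.mem_union_right _ (Multiset.mem_toFinset.2 ?_)
        rw [Polynomial.mem_roots (hpw c⁻¹)]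
        show Polynomial.eval _ (Polynomial.X ^ N.natAbs - Polynomial.C c⁻¹) = 0
        rw [Polynomial.eval_sub, Polynomial.eval_pow, Polynomial.eval_X, Polynomial.eval_C,
          sub_eq_zero, ← zpow_natCast, ← h1, ← zpow_neg]
        congr 1
        omega)
    have h3 := hmax _ (Set.inter_subset_left : A ∩ {z | ∏ i, u z i ^ r i = ζ} ⊆ A) hB
    rw [← h3]
    obtain ⟨z, hz⟩ := hL.nonempty _ hB
    refine ⟨ζ, ?_, fun z hz => hz.2⟩
    have : ∏ i, u z i ^ r i = ζ := hz.2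
    rw [← this]
    exact Finset.prod_ne_zero_iff.2 fun i _ => zpow_ne_zero _ (hu z i)
  let M := (Fin n → ℤ) ⧸ RA u hu A
  have htf : Module.IsTorsionFree ℤ M := by
    rw [Module.isTorsionFree_iff_smul_eq_zero]
    intro N m h
    obtain ⟨r, rfl⟩ := Submodule.Quotient.mk_surjective _ m
    by_cases hN : N = 0
    · exact Or.inl hN
    · right
      rw [← Submodule.Quotient.mk_smul, Submodule.Quotient.mk_eq_zero] at h
      rw [Submodule.Quotient.mk_eq_zero]
      exact hsat N r hN h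
  have hfree : Module.Free ℤ M := Module.free_of_finite_type_torsion_free'
  let e : Module.Basis (Fin (Module.finrank ℤ M)) ℤ M := Module.finBasis ℤ M
  set d := Module.finrank ℤ M with hd
  choose w' hw' using fun j => Submodule.Quotient.mk_surjective (RA u hu A) (e j)
  let w : Fin n → Fin d → ℤ := fun i j =>
    e.repr (Submodule.Quotient.mk (Pi.single i 1)) j
  have hmem : ∀ i, (Pi.single i 1 - ∑ j, w i j • w' j : Fin n → ℤ) ∈ RA u hu A := by
    intro i
    rw [← Submodule.Quotient.mk_eq_zero, Submodule.Quotient.mk_sub, sub_eq_zero]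
    have h1 := (e.sum_repr (Submodule.Quotient.mk (Pi.single i 1)))
    have h2 : (Submodule.Quotient.mk (∑ j, w i j • w' j) : M) = ∑ j, w i j • e j := by
      have h3 : (Submodule.Quotient.mk (∑ j, w i j • w' j) : M) =
          (RA u hu A).mkQ (∑ j, w i j • w' j) := rfl
      rw [h3, map_sum]
      refine Finset.sum_congr rfl fun j _ => ?_
      rw [map_smul, ← hw' j]
      rfl
    rw [h2]
    exact h1.symm
  have hprod : ∀ (z : P) (q : Fin d → ℤ), ∏ j, (∏ k, u z k ^ w' j k) ^ q j =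
      ∏ k, u z k ^ (∑ j, q j • w' j) k := by
    intro z q
    have h1 : ∀ j, (∏ k, u z k ^ w' j k) ^ q j = ∏ k, u z k ^ (q j * w' j k) := by
      intro j
      rw [← Finset.prod_zpow]
      exact Finset.prod_congr rfl fun k _ => by rw [mul_comm, zpow_mul]
    simp only [h1]
    rw [Finset.prod_comm]
    refine Finset.prod_congr rfl fun k _ => ?_
    rw [Finset.sum_apply]
    have h2 : ∀ (F : Finset (Fin d)), ∏ j ∈ F, u z k ^ (q j * w' j k) =
        u z k ^ ∑ j ∈ F, (q j • w' j) k := by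
      intro F
      induction F using Finset.induction_on with
      | empty => simp
      | insert a F ha ih =>
        rw [Finset.prod_insert ha, Finset.sum_insert ha, zpow_add₀ (hu z k), ih]
        rfl
    exact h2 _
  choose c hc hcz using fun i => mem_RA.1 (hmem i)
  refine ⟨A, hAA, hA, d, w, w', c, hc, fun z hz i => ?_, fun q hq A' hA' hLA c' hcon => hq ?_⟩
  · rw [← hcz i z hz, hprod z (w i)]
    have h1 : (∏ k, u z k ^ (Pi.single i 1 - ∑ j, w i j • w' j : Fin n → ℤ) k) *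
        ∏ k, u z k ^ (∑ j, w i j • w' j) k = ∏ k, u z k ^ (Pi.single i 1 : Fin n → ℤ) k := by
      rw [← Finset.prod_mul_distrib]
      refine Finset.prod_congr rfl fun k _ => ?_
      rw [← zpow_add₀ (hu z k), Pi.sub_apply, sub_add_cancel]
    rw [h1, Finset.prod_eq_single i]
    · rw [Pi.single_eq_same, zpow_one]
    · intro k _ hk
      rw [Pi.single_eq_of_ne hk, zpow_zero]
    · intro h2
      exact absurd (Finset.mem_univ i) h2
  · have h1 : ∑ j, q j • w' j ∈ RA u hu A := by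
      rw [← hmax A' hA' hLA]
      obtain ⟨z, hz⟩ := hL.nonempty _ hLA
      refine ⟨c', ?_, fun z hz => by rw [← hprod, hcon z hz]⟩
      rw [← hcon z hz]
      exact Finset.prod_ne_zero_iff.2 fun j _ => zpow_ne_zero _
        (Finset.prod_ne_zero_iff.2 fun i _ => zpow_ne_zero _ (hu z i))
    rw [← Submodule.Quotient.mk_eq_zero] at h1
    have h2 : (Submodule.Quotient.mk (∑ j, q j • w' j) : M) = ∑ j, q j • e j := by
      have h3 : (Submodule.Quotient.mk (∑ j, q j • w' j) : M) =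
          (RA u hu A).mkQ (∑ j, q j • w' j) := rfl
      rw [h3, map_sum]
      refine Finset.sum_congr rfl fun j _ => ?_
      rw [map_smul, ← hw' j]
      rfl
    rw [h2] at h1
    funext j
    exact Fintype.linearIndependent_iff.1 e.linearIndependent q h1 j

/-- **Independent units are algebraically independent.** -/
theorem indep_of_rel {d : ℕ} (s : P → Fin d → Ω) (hs : ∀ z j, s z j ≠ 0)
    (hrel : UnitRel Lg s (fun j : Fin d => (X j : MvPolynomial (Fin d) Ω))) (A : Set P)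
    (h : ∀ q : Fin d → ℤ, q ≠ 0 → ∀ A' ⊆ A, Lg A' → ∀ c' : Ω, ¬ ∀ z ∈ A', ∏ j, s z j ^ q j = c')
    (Φ : MvPolynomial (Fin d) Ω) (hΦ : Φ ≠ 0) (A' : Set P) (hA' : A' ⊆ A) (hLA : Lg A') :
    ¬ ∀ z ∈ A', eval (s z) Φ = 0 := by
  intro h0
  obtain ⟨w, -, w', -, hww, c, A'', hA'', hLA'', hz⟩ := hrel A' hLA Φ hΦ (fun z hz => by
    simp only [eval_X]
    exact h0 z hz)
  apply h (fun j => (w j : ℤ) - w' j) ?_ A'' (hA''.trans hA') hLA'' c
  · intro z hz'
    have h1 := hz z hz'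
    simp only [eval_X] at h1
    have h2 : (∏ j, s z j ^ ((w j : ℤ) - w' j)) * ∏ j, s z j ^ (w' j) = ∏ j, s z j ^ (w j) := by
      rw [← Finset.prod_mul_distrib]
      refine Finset.prod_congr rfl fun j _ => ?_
      rw [← zpow_natCast (s z j) (w' j), ← zpow_add₀ (hs z j), sub_add_cancel, zpow_natCast]
    have h3 : ∏ j, s z j ^ (w' j) ≠ 0 := Finset.prod_ne_zero_iff.2 fun j _ => pow_ne_zero _ (hs z j)
    apply mul_right_cancel₀ h3
    rw [h2, h1]
  · intro h1
    apply hww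
    ext j
    have := congrFun h1 j
    simp only [Pi.zero_apply] at this
    omega

end Pool.Agent.Run7.h983
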