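import Mathlib

/-!
# Two embeddings
-/

set_option autoImplicit false

namespace Pool.Agent.Run7.h983

open TensorProduct

theorem not_nilp {k F A E : Type} [Field k] [Field F] [Algebra k F] [CommRing A] [Algebra k A]
    [Field E] [Algebra k E] (ψ : A →ₐ[k] F) (hψ : Function.Injective ψ) (y : A)
    (θ θ' : A →ₐ[k] E) (h : θ y ≠ θ' y) :
    ¬ IsNilpotent ((ψ y) ⊗ₜ[k] (1 : F) - (1 : F) ⊗ₜ[k] (ψ y) : F ⊗[k] F) := by
  rintro ⟨n, hn⟩
  let Ψ : A ⊗[k] A →ₐ[k] F ⊗[k] F := Algebra.TensorProduct.map ψ ψ
  have hΨ : Function.Injective Ψ :=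
    TensorProduct.map_injective_of_flat_flat ψ.toLinearMap ψ.toLinearMap hψ hψ
  have h1 : Ψ (y ⊗ₜ[k] 1 - 1 ⊗ₜ[k] y) = (ψ y) ⊗ₜ[k] (1 : F) - (1 : F) ⊗ₜ[k] (ψ y) := by
    rw [map_sub]
    simp [Ψ]
  rw [← h1, ← map_pow, map_eq_zero_iff _ hΨ] at hn
  let Θ : A ⊗[k] A →ₐ[k] E := Algebra.TensorProduct.lift θ θ' fun _ _ => Commute.all _ _
  have h2 := congrArg Θ hn
  rw [map_pow, map_zero, map_sub] at h2
  have h3 : Θ (y ⊗ₜ[k] 1) - Θ (1 ⊗ₜ[k] y) = θ y - θ' y := by
    simp [Θ]
  rw [h3] at h2
  exact h (sub_eq_zero.1 (eq_zero_of_pow_eq_zero h2))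

/-- **Two embeddings** of a field over a subfield which differ at a given element. -/
theorem two_emb {k F : Type} [Field k] [Field F] [Algebra k F] [CharZero k] (x : F)
    (hx : ∀ c : k, algebraMap k F c ≠ x) :
    ∃ (Ω : Type) (_ : Field Ω) (α β : F →+* Ω),
      (∀ c : k, α (algebraMap k F c) = β (algebraMap k F c)) ∧ α x ≠ β x := by
  have hnil : ¬ IsNilpotent (x ⊗ₜ[k] (1 : F) - (1 : F) ⊗ₜ[k] x : F ⊗[k] F) := by
    by_cases htr : Transcendental k x
    · have hinj : Function.Injective (Polynomial.aeval x : Polynomial k →ₐ[k] F) :=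
        transcendental_iff_injective.1 htr
      have h1 := not_nilp (E := F) (Polynomial.aeval x : Polynomial k →ₐ[k] F) hinj
        Polynomial.X (Polynomial.aeval x) (Polynomial.aeval (x + 1)) (by
          rw [Polynomial.aeval_X, Polynomial.aeval_X]
          intro h
          exact one_ne_zero (add_left_cancel (a := x) (by rw [add_zero]; exact h.symm)))
      rwa [Polynomial.aeval_X] at h1
    · have halg : IsAlgebraic k x := by
        rwa [Transcendental, not_not] at htr
      have hint : IsIntegral k x := halg.isIntegral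
      let E := AlgebraicClosure F
      -- another root
      obtain ⟨x', hx', hne⟩ : ∃ x' ∈ (minpoly k x).aroots E, x' ≠ algebraMap F E x := by
        by_contra hcon
        push Not at hcon
        have hsep : (minpoly k x).Separable := (minpoly.irreducible hint).separable
        have h1 := Polynomial.card_rootSet_eq_natDegree (K := E) hsep
          (IsAlgClosed.splits _)
        have h2 : Fintype.card ((minpoly k x).rootSet E) ≤ 1 := by
          rw [Fintype.card_le_one_iff]
          intro a b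
          apply Subtype.ext
          have ha : a.1 ∈ (minpoly k x).aroots E :=
            Polynomial.mem_aroots.2 (Polynomial.mem_rootSet.1 a.2)
          have hb : b.1 ∈ (minpoly k x).aroots E :=
            Polynomial.mem_aroots.2 (Polynomial.mem_rootSet.1 b.2)
          rw [hcon a.1 ha, hcon b.1 hb]
        rw [h1] at h2
        have h3 : (minpoly k x).natDegree = 1 := le_antisymm h2 (minpoly.natDegree_pos hint)
        obtain ⟨c, hc⟩ := minpoly.natDegree_eq_one_iff.1 h3
        exact hx c hc
      have h1 := not_nilp (E := E) (IntermediateField.adjoin k {x}).val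
        (IntermediateField.adjoin k {x}).val.injective
        (IntermediateField.AdjoinSimple.gen k x)
        ((IsScalarTower.toAlgHom k F E).comp (IntermediateField.adjoin k {x}).val)
        ((IntermediateField.algHomAdjoinIntegralEquiv k (K := E) hint).symm ⟨x', hx'⟩) (by
          rw [IntermediateField.algHomAdjoinIntegralEquiv_symm_apply_gen]
          intro h
          exact hne h.symm)
      exact h1
  rw [nilpotent_iff_mem_prime] at hnil
  push Not at hnil
  obtain ⟨q, hq, hxq⟩ := hnil
  let R := (F ⊗[k] F) ⧸ q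
  have hdom : IsDomain R := Ideal.Quotient.isDomain q
  let Ω := FractionRing R
  let π : (F ⊗[k] F) →+* Ω := (algebraMap R Ω).comp (Ideal.Quotient.mk q)
  refine ⟨Ω, inferInstance, π.comp (Algebra.TensorProduct.includeLeft : F →ₐ[k] F ⊗[k] F).toRingHom,
    π.comp (Algebra.TensorProduct.includeRight : F →ₐ[k] F ⊗[k] F).toRingHom, fun c => ?_, ?_⟩
  · have h1 : (Algebra.TensorProduct.includeLeft : F →ₐ[k] F ⊗[k] F) (algebraMap k F c) =
        (Algebra.TensorProduct.includeRight : F →ₐ[k] F ⊗[k] F) (algebraMap k F c) := by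
      rw [AlgHom.commutes, AlgHom.commutes]
    exact congrArg π h1
  · intro h
    apply hxq
    have h2 : π (x ⊗ₜ[k] (1 : F) - (1 : F) ⊗ₜ[k] x) = 0 := by
      rw [map_sub, sub_eq_zero]
      exact h
    have h3 : algebraMap R Ω (Ideal.Quotient.mk q (x ⊗ₜ[k] (1 : F) - (1 : F) ⊗ₜ[k] x)) = 0 := h2
    rw [FaithfulSMul.algebraMap_eq_zero_iff, Ideal.Quotient.eq_zero_iff_mem] at h3
    exact h3

end Pool.Agent.Run7.h983
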