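import Mathlib
import Pool.Agent.N302.SP.GenA
import Pool.Agent.Q285.GT.ExtPt
import Pool.Agent.Run7.h983.B2

/-!
# Points which are determined by the values of the independent units are rational functions of them
-/

set_option autoImplicit false

namespace Pool.Agent.Run7.h983

open MvPolynomial Pool.Agent.N302.SP

variable {P : Type} {Lg : Set P → Prop}

theorem exists_minA' {Ω : Type} [Field Ω] {σ : Type} [Finite σ] (y : P → σ → Ω) (A0 : Set P)
    (hA0 : Lg A0) : ∃ A ⊆ A0, Lg A ∧ ∀ A' ⊆ A, Lg A' → vA y A' ≤ vA y A := by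
  obtain ⟨I, ⟨A, hAA, hA, rfl⟩, hmax⟩ := WellFounded.has_min
    (wellFounded_gt : WellFounded (α := Ideal (MvPolynomial σ Ω)) (· > ·))
    {I | ∃ A, A ⊆ A0 ∧ Lg A ∧ vA y A = I} ⟨_, A0, subset_rfl, hA0, rfl⟩
  refine ⟨A, hAA, hA, fun A' hA' hinf => ?_⟩
  have h1 : vA y A ≤ vA y A' := fun p hp z hz => hp z (hA' hz)
  have h2 := hmax (vA y A') ⟨A', hA'.trans hAA, hinf, rfl⟩
  by_contra h3
  exact h2 (lt_of_le_not_ge h1 h3)

/-- **Rationality.** -/
theorem rational (hL : IsLarge Lg) {N d : ℕ} (x : P → Fin N → ℂ) (s : P → Fin d → ℂ) (A0 : Set P)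
    (hA0 : Lg A0)
    (hind : ∀ Φ : MvPolynomial (Fin d) ℂ, Φ ≠ 0 → ∀ A' ⊆ A0, Lg A' → ¬ ∀ z ∈ A', eval (s z) Φ = 0)
    (R : Set (MvPolynomial (Fin N ⊕ Fin d) ℂ))
    (hR : ∀ z ∈ A0, ∀ ρ ∈ R, eval (Sum.elim (x z) (s z)) ρ = 0)
    (huniq : ∀ z ∈ A0, ∀ x' : Fin N → ℂ, (∀ ρ ∈ R, eval (Sum.elim x' (s z)) ρ = 0) → x' = x z) :
    ∃ A ⊆ A0, Lg A ∧ ∀ k, ∃ a b : MvPolynomial (Fin d) ℂ, b ≠ 0 ∧
      ∀ z ∈ A, x z k * eval (s z) b = eval (s z) a := by
  classical
  obtain ⟨A, hAA, hA, hmin⟩ := exists_minA' (Lg := Lg) (fun z => Sum.elim (x z) (s z)) A0 hA0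
  refine ⟨A, hAA, hA, fun k => ?_⟩
  obtain ⟨F, iF, iA, ξ, hξ, -⟩ := exists_fieldA A (vA_prime hL A hA hmin)
  have hcz : CharZero F := charZero_of_injective_algebraMap (algebraMap ℂ F).injective
  let σ' : Fin d → F := fun j => ξ (Sum.inr j)
  have hσ : ∀ Φ : MvPolynomial (Fin d) ℂ, aeval σ' Φ = 0 → Φ = 0 := by
    intro Φ h
    by_contra hne
    apply hind Φ hne A hAA hA
    intro z hz
    have h1 : aeval ξ (rename Sum.inr Φ) = 0 := by
      rw [aeval_rename]
      exact h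
    have h2 := (hξ _).1 h1 z hz
    rw [eval_rename] at h2
    exact h2
  let k0 := IntermediateField.adjoin ℂ (Set.range σ')
  have hσk : ∀ j, ∃ c : k0, algebraMap k0 F c = σ' j := fun j =>
    ⟨⟨σ' j, IntermediateField.subset_adjoin ℂ _ ⟨j, rfl⟩⟩, rfl⟩
  by_cases hmem : ∃ c : k0, algebraMap k0 F c = ξ (Sum.inl k)
  · obtain ⟨c, hc⟩ := hmem
    obtain ⟨r, t, hrt⟩ := (IntermediateField.mem_adjoin_range_iff ℂ σ' (c : F)).1 c.2
    have hc' : (c : F) = ξ (Sum.inl k) := hc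
    rw [hc'] at hrt
    have key : ∀ a b : MvPolynomial (Fin d) ℂ, ξ (Sum.inl k) * aeval σ' b = aeval σ' a →
        ∀ z ∈ A, x z k * eval (s z) b = eval (s z) a := by
      intro a b h z hz
      have h1 : aeval ξ (X (Sum.inl k) * rename Sum.inr b - rename Sum.inr a :
          MvPolynomial (Fin N ⊕ Fin d) ℂ) = 0 := by
        rw [map_sub, map_mul, aeval_X, aeval_rename, aeval_rename, sub_eq_zero]
        exact h
      have h2 := (hξ _).1 h1 z hz
      rw [map_sub, map_mul, eval_X, eval_rename, eval_rename, sub_eq_zero] at h2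
      exact h2
    by_cases ht : aeval σ' t = 0
    · refine ⟨0, 1, one_ne_zero, key 0 1 ?_⟩
      rw [hrt, ht, div_zero, zero_mul, map_zero]
    · refine ⟨r, t, fun h => ht (by rw [h, map_zero]), key r t ?_⟩
      rw [hrt, div_mul_cancel₀ _ ht]
  · exfalso
    push Not at hmem
    have hcz0 : CharZero k0 := charZero_of_injective_algebraMap (algebraMap ℂ k0).injective
    obtain ⟨Ω, iΩ, α, β, hαβ, hne⟩ := two_emb (k := k0) (F := F) (ξ (Sum.inl k)) hmem
    let _ : Algebra ℂ Ω := (α.comp (algebraMap ℂ F)).toAlgebra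
    have halgα : algebraMap ℂ Ω = α.comp (algebraMap ℂ F) := rfl
    have halgβ : algebraMap ℂ Ω = β.comp (algebraMap ℂ F) := by
      rw [halgα]
      ext c
      exact hαβ (algebraMap ℂ k0 c)
    have hα : ∀ ρ : MvPolynomial (Fin N ⊕ Fin d) ℂ, aeval (fun i => α (ξ i)) ρ =
        α (aeval ξ ρ) := by
      intro ρ
      rw [aeval_def, aeval_def, halgα, hom_eval₂]
    have hβ : ∀ ρ : MvPolynomial (Fin N ⊕ Fin d) ℂ, aeval (fun i => β (ξ i)) ρ =
        β (aeval ξ ρ) := by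
      intro ρ
      rw [aeval_def, aeval_def, halgβ, hom_eval₂]
    have hσαβ : ∀ j, α (σ' j) = β (σ' j) := by
      intro j
      obtain ⟨c, hc⟩ := hσk j
      rw [← hc]
      exact hαβ c
    let Q : Fin N ⊕ Fin N ⊕ Unit ⊕ Fin d → Ω := Sum.elim (fun i => α (ξ (Sum.inl i)))
      (Sum.elim (fun i => β (ξ (Sum.inl i))) (Sum.elim
        (fun _ => (α (ξ (Sum.inl k)) - β (ξ (Sum.inl k)))⁻¹) fun j => α (σ' j)))
    let jj : Fin d → Fin N ⊕ Fin N ⊕ Unit ⊕ Fin d := fun j => Sum.inr (Sum.inr (Sum.inr j))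
    obtain ⟨h, hh, hext⟩ := Pool.Agent.Q285.GT.ext_points (k := ℂ) (K := Ω) Q jj
    have hQj : ∀ g : MvPolynomial (Fin d) ℂ, aeval (fun i => Q (jj i)) g = α (aeval σ' g) := by
      intro g
      rw [aeval_def, aeval_def, halgα, hom_eval₂]
      rfl
    have hh0 : h ≠ 0 := by
      rintro rfl
      rw [map_zero] at hh
      exact hh rfl
    obtain ⟨z, hz, hzh⟩ : ∃ z ∈ A, eval (s z) h ≠ 0 := by
      by_contra hcon
      push Not at hcon
      exact hind h hh0 A hAA hA hcon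
    obtain ⟨y, hy1, hy2⟩ := hext (s z) (by
      intro g hg
      rw [hQj, map_eq_zero] at hg
      rw [hσ g hg, map_zero]) hzh
    have hrel1 : ∀ ρ ∈ R, eval (Sum.elim (fun i => y (Sum.inl i)) (s z)) ρ = 0 := by
      intro ρ hρ
      let τ : Fin N ⊕ Fin d → Fin N ⊕ Fin N ⊕ Unit ⊕ Fin d := Sum.elim Sum.inl jj
      have h1 : aeval Q (rename τ ρ) = 0 := by
        rw [aeval_rename]
        have : (Q ∘ τ) = fun i => α (ξ i) := by
          funext i
          rcases i with i | i <;> rfl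
        rw [this, hα, (hξ ρ).2 fun z hz => hR z (hAA hz) ρ hρ, map_zero]
      have h2 := hy1 _ h1
      rw [eval_rename] at h2
      have : (y ∘ τ) = Sum.elim (fun i => y (Sum.inl i)) (s z) := by
        funext i
        rcases i with i | i
        · rfl
        · exact hy2 i
      rwa [this] at h2
    have hrel2 : ∀ ρ ∈ R, eval (Sum.elim (fun i => y (Sum.inr (Sum.inl i))) (s z)) ρ = 0 := by
      intro ρ hρ
      let τ : Fin N ⊕ Fin d → Fin N ⊕ Fin N ⊕ Unit ⊕ Fin d :=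
        Sum.elim (fun i => Sum.inr (Sum.inl i)) jj
      have h1 : aeval Q (rename τ ρ) = 0 := by
        rw [aeval_rename]
        have : (Q ∘ τ) = fun i => β (ξ i) := by
          funext i
          rcases i with i | i
          · rfl
          · exact hσαβ i
        rw [this, hβ, (hξ ρ).2 fun z hz => hR z (hAA hz) ρ hρ, map_zero]
      have h2 := hy1 _ h1
      rw [eval_rename] at h2
      have : (y ∘ τ) = Sum.elim (fun i => y (Sum.inr (Sum.inl i))) (s z) := by
        funext i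
        rcases i with i | i
        · rfl
        · exact hy2 i
      rwa [this] at h2
    have e1 := huniq z (hAA hz) _ hrel1
    have e2 := huniq z (hAA hz) _ hrel2
    have e3 : y (Sum.inl k) = y (Sum.inr (Sum.inl k)) := by
      have := congrFun (e1.trans e2.symm) k
      exact this
    have h4 := hy1 ((X (Sum.inl k) - X (Sum.inr (Sum.inl k))) * X (Sum.inr (Sum.inr (Sum.inl ()))) -
      1) (by
        rw [map_sub, map_mul, map_sub, aeval_X, aeval_X, aeval_X, map_one]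
        show (α (ξ (Sum.inl k)) - β (ξ (Sum.inl k))) *
          (α (ξ (Sum.inl k)) - β (ξ (Sum.inl k)))⁻¹ - 1 = 0
        rw [mul_inv_cancel₀ (sub_ne_zero.2 hne), sub_self])
    rw [map_sub, map_mul, map_sub, eval_X, eval_X, eval_X, map_one, e3, sub_self, zero_mul,
      zero_sub] at h4
    exact one_ne_zero (neg_eq_zero.1 h4)

/-- The common factor can be removed. -/
theorem reduce {Ω : Type} [Field Ω] {d : ℕ} (a b : MvPolynomial (Fin d) Ω) (hb : b ≠ 0) :
    ∃ a' b' g : MvPolynomial (Fin d) Ω, b' ≠ 0 ∧ g ≠ 0 ∧ IsRelPrime a' b' ∧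
      ∀ (s : Fin d → Ω) (x : Ω), eval s g ≠ 0 → x * eval s b = eval s a →
        x * eval s b' = eval s a' := by
  obtain ⟨b', a', g, hrel, h1, h2⟩ := UniqueFactorizationMonoid.exists_reduced_factors b hb a
  refine ⟨a', b', g, ?_, ?_, hrel.symm, fun s x hg hx => ?_⟩
  · rintro rfl
    rw [mul_zero] at h1
    exact hb h1.symm
  · rintro rfl
    rw [zero_mul] at h1
    exact hb h1.symm
  · rw [← h1, ← h2, map_mul, map_mul] at hx
    apply mul_left_cancel₀ hg
    linear_combination hx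

end Pool.Agent.Run7.h983
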