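import Mathlib
import Pool.Agent.H159R3.Exp.Laur

/-!
# The rational curve through a point, in a direction along which all denominators are homogeneous
-/

set_option autoImplicit false

namespace Pool.Agent.Run7.h983

open MvPolynomial Pool.Agent.H159R3.Exp

/-- Clearing denominators in a polynomial of fractions. -/
theorem clear {Ω : Type} [Field Ω] {N d : ℕ} (a b : Fin N → MvPolynomial (Fin d) Ω)
    (Q : MvPolynomial (Fin N) Ω) :
    ∃ (m : ℕ) (Num : MvPolynomial (Fin d) Ω), ∀ (s : Fin d → Ω) (y : Fin N → Ω),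
      (∀ k, y k * eval s (b k) = eval s (a k)) →
        eval s (∏ k, b k) ^ m * eval y Q = eval s Num := by
  classical
  induction Q using MvPolynomial.induction_on with
  | C c => exact ⟨0, C c, fun s y _ => by simp⟩
  | add p q hp hq =>
    obtain ⟨m, Num, h⟩ := hp
    obtain ⟨m', Num', h'⟩ := hq
    refine ⟨m + m', (∏ k, b k) ^ m' * Num + (∏ k, b k) ^ m * Num', fun s y hy => ?_⟩
    rw [map_add, map_add, map_mul, map_mul, map_pow, map_pow, ← h s y hy, ← h' s y hy]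
    ring
  | mul_X p j hp =>
    obtain ⟨m, Num, h⟩ := hp
    refine ⟨m + 1, Num * (a j * ∏ k ∈ Finset.univ.erase j, b k), fun s y hy => ?_⟩
    rw [map_mul, map_mul, map_mul, ← h s y hy, ← hy j, eval_X, pow_succ]
    have h1 : eval s (∏ k, b k) = eval s (b j) * eval s (∏ k ∈ Finset.univ.erase j, b k) := by
      rw [← map_mul, Finset.mul_prod_erase _ _ (Finset.mem_univ j)]
    calc eval s (∏ k, b k) ^ m * eval s (∏ k, b k) * (eval y p * y j)
        = eval s (∏ k, b k) ^ m * eval y p * (y j * eval s (∏ k, b k)) := by ring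
      _ = eval s (∏ k, b k) ^ m * eval y p * (y j * eval s (b j) *
          eval s (∏ k ∈ Finset.univ.erase j, b k)) := by rw [h1]; ring

/-- moving the point along a one parameter group -/
noncomputable def mv {d : ℕ} (s : Fin d → ℂ) (l : Fin d → ℤ) (t : ℂ) : Fin d → ℂ :=
  fun j => s j * t ^ l j

theorem eval_mv {d : ℕ} (b : MvPolynomial (Fin d) ℂ) (l : Fin d → ℤ) (γ0 : ℤ)
    (h : ∀ e ∈ b.support, ∑ i, l i * (e i : ℤ) = γ0) (s : Fin d → ℂ) (t : ℂ) (ht : t ≠ 0) :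
    eval (mv s l t) b = t ^ γ0 * eval s b := by
  rw [eval_eq, eval_eq, Finset.mul_sum]
  refine Finset.sum_congr rfl fun e he => ?_
  have h1 : ∏ i ∈ e.support, mv s l t i ^ e i = (∏ i ∈ e.support, s i ^ e i) * t ^ γ0 := by
    have h2 : ∏ i ∈ e.support, mv s l t i ^ e i =
        (∏ i ∈ e.support, s i ^ e i) * ∏ i ∈ e.support, t ^ (l i * (e i : ℤ)) := by
      rw [← Finset.prod_mul_distrib]
      refine Finset.prod_congr rfl fun i _ => ?_
      unfold mv
      rw [mul_pow, ← zpow_natCast (t ^ l i), ← zpow_mul]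
    rw [h2]
    congr 1
    have h3 : ∀ Fs : Finset (Fin d), ∏ i ∈ Fs, t ^ (l i * (e i : ℤ)) =
        t ^ ∑ i ∈ Fs, l i * (e i : ℤ) := by
      intro Fs
      induction Fs using Finset.induction_on with
      | empty => simp
      | insert a Fs ha ih => rw [Finset.prod_insert ha, Finset.sum_insert ha, zpow_add₀ ht, ih]
    rw [h3, ← h e he]
    congr 1
    refine Finset.sum_subset (Finset.subset_univ _) fun i _ hi => ?_
    rw [Finsupp.notMem_support_iff.1 hi]
    simp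
  rw [h1]
  ring

/-- **The curve through a point.** -/
theorem curve {N d : ℕ} {P ι : Type} (F : ι → MvPolynomial (Fin N) ℂ)
    (x : P → Fin N → ℂ) (s : P → Fin d → ℂ) (hs0 : ∀ z j, s z j ≠ 0) (A : Set P)
    (hdens : ∀ Φ : MvPolynomial (Fin d) ℂ, (∀ z ∈ A, eval (s z) Φ = 0) → Φ = 0)
    (hF : ∀ z ∈ A, ∀ i, eval (x z) (F i) = 0)
    (a b : Fin N → MvPolynomial (Fin d) ℂ)
    (hab : ∀ z ∈ A, ∀ k, x z k * eval (s z) (b k) = eval (s z) (a k))
    (Sp : Fin d → MvPolynomial (Fin N) ℂ) (hSp : ∀ z ∈ A, ∀ j, eval (x z) (Sp j) = s z j)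
    (l : Fin d → ℤ) (hl : l ≠ 0)
    (hlb : ∀ k, ∀ γ ∈ (b k).support, ∀ γ' ∈ (b k).support,
      ∑ i, l i * (γ i : ℤ) = ∑ i, l i * (γ' i : ℤ))
    (z1 : P) (hz1A : z1 ∈ A) (hz1 : ∀ k, eval (s z1) (b k) ≠ 0) :
    ∃ v : ℂ → Fin N → ℂ, (∀ j, Laur fun t => v t j) ∧
      (∀ i t, t ≠ 0 → eval (v t) (F i) = 0) ∧ v 1 = x z1 ∧
      ∃ t s', t ≠ 0 ∧ s' ≠ 0 ∧ v t ≠ v s' := by
  classical
  have hb : ∀ k, b k ≠ 0 := fun k hk => hz1 k (by rw [hk, map_zero])
  have hγ : ∀ k, ∃ γ0 : ℤ, ∀ e ∈ (b k).support, ∑ i, l i * (e i : ℤ) = γ0 := by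
    intro k
    obtain ⟨e0, he0⟩ := MvPolynomial.support_nonempty.2 (hb k)
    exact ⟨_, fun e he => hlb k e he e0 he0⟩
  choose γ hγ using hγ
  have hbmv : ∀ k t, t ≠ 0 → eval (mv (s z1) l t) (b k) = t ^ γ k * eval (s z1) (b k) :=
    fun k t ht => eval_mv (b k) l (γ k) (hγ k) (s z1) t ht
  let v : ℂ → Fin N → ℂ := fun t k =>
    eval (mv (s z1) l t) (a k) * (t ^ (-γ k) * (eval (s z1) (b k))⁻¹)
  have hv : ∀ t, t ≠ 0 → ∀ k, v t k * eval (mv (s z1) l t) (b k) = eval (mv (s z1) l t) (a k) := by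
    intro t ht k
    rw [hbmv k t ht]
    show eval (mv (s z1) l t) (a k) * (t ^ (-γ k) * (eval (s z1) (b k))⁻¹) *
      (t ^ γ k * eval (s z1) (b k)) = _
    have h1 : t ^ (-γ k) * t ^ γ k = 1 := by
      rw [← zpow_add₀ ht, neg_add_cancel, zpow_zero]
    have h2 : (eval (s z1) (b k))⁻¹ * eval (s z1) (b k) = 1 := inv_mul_cancel₀ (hz1 k)
    calc _ = eval (mv (s z1) l t) (a k) * ((t ^ (-γ k) * t ^ γ k) *
          ((eval (s z1) (b k))⁻¹ * eval (s z1) (b k))) := by ring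
      _ = _ := by rw [h1, h2, mul_one, mul_one]
  have hBne : ∀ t, t ≠ 0 → ∀ m : ℕ, eval (mv (s z1) l t) (∏ k, b k) ^ m ≠ 0 := by
    intro t ht m
    apply pow_ne_zero
    rw [map_prod]
    refine Finset.prod_ne_zero_iff.2 fun k _ => ?_
    rw [hbmv k t ht]
    exact mul_ne_zero (zpow_ne_zero _ ht) (hz1 k)
  have hvan : ∀ Q : MvPolynomial (Fin N) ℂ, (∀ z ∈ A, eval (x z) Q = 0) →
      ∀ t, t ≠ 0 → eval (v t) Q = 0 := by
    intro Q hQ t ht
    obtain ⟨m, Num, h⟩ := clear a b Q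
    have h1 : Num = 0 := by
      apply hdens
      intro z hz
      rw [← h (s z) (x z) (hab z hz), hQ z hz, mul_zero]
    have h2 := h (mv (s z1) l t) (v t) (hv t ht)
    rw [h1, map_zero] at h2
    exact (mul_eq_zero.1 h2).resolve_left (hBne t ht m)
  have hvS : ∀ j t, t ≠ 0 → eval (v t) (Sp j) = mv (s z1) l t j := by
    intro j t ht
    obtain ⟨m, Num, h⟩ := clear a b (Sp j)
    have h1 : Num - (∏ k, b k) ^ m * X j = 0 := by
      apply hdens
      intro z hz
      rw [map_sub, ← h (s z) (x z) (hab z hz), hSp z hz, map_mul, map_pow, eval_X, sub_self]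
    have h2 := h (mv (s z1) l t) (v t) (hv t ht)
    rw [sub_eq_zero.1 h1, map_mul, map_pow, eval_X] at h2
    exact mul_left_cancel₀ (hBne t ht m) h2
  refine ⟨v, fun k => ?_, fun i t ht => hvan (F i) (fun z hz => hF z hz i) t ht, ?_, ?_⟩
  · have h1 : ∀ j, Laur fun t => mv (s z1) l t j := fun j =>
      (Laur.const (s z1 j)).mul (Laur.zpow (l j))
    have h2 : Laur fun t => eval (mv (s z1) l t) (a k) := Laur.eval (mv (s z1) l) h1 (a k)
    exact h2.mul ((Laur.zpow (-γ k)).mul (Laur.const _))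
  · funext k
    have h1 : mv (s z1) l 1 = s z1 := by
      funext j
      unfold mv
      rw [one_zpow, mul_one]
    show eval (mv (s z1) l 1) (a k) * ((1 : ℂ) ^ (-γ k) * (eval (s z1) (b k))⁻¹) = x z1 k
    rw [h1, one_zpow, one_mul, ← hab z1 hz1A k, mul_assoc, mul_inv_cancel₀ (hz1 k), mul_one]
  · obtain ⟨j, hj⟩ : ∃ j, l j ≠ 0 := by
      by_contra hcon
      push Not at hcon
      exact hl (funext hcon)
    refine ⟨2, 1, two_ne_zero, one_ne_zero, fun heq => ?_⟩
    have h1 := hvS j 2 two_ne_zero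
    rw [heq, hvS j 1 one_ne_zero] at h1
    unfold mv at h1
    rw [one_zpow] at h1
    have h2 := mul_left_cancel₀ (hs0 z1 j) h1
    have h3 : ((2 : ℂ) ^ l j) = 1 := h2.symm
    have h4 : ((2 : ℝ) ^ l j) = 1 := by
      have := congrArg (fun z : ℂ => ‖z‖) h3
      simpa [norm_zpow] using this
    rw [zpow_eq_one_iff_right₀ (by norm_num) (by norm_num)] at h4
    exact hj h4

end Pool.Agent.Run7.h983
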