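import Mathlib
import Pool.Agent.Run7.h983.B1
import Pool.Agent.Run7.h983.B3
import Pool.Agent.Run7.h983.B4

/-!
# The common part of the analytic and of the arithmetic case
-/

set_option autoImplicit false

namespace Pool.Agent.Run7.h983

open MvPolynomial Pool.Agent.N302.SP Pool.Agent.H159R3.Exp

/-- coefficientwise image under an additive map -/
noncomputable def cmap {Ω : Type} [Field Ω] {d : ℕ} (ℓ : ℂ →+ Ω) (b : MvPolynomial (Fin d) ℂ) :
    MvPolynomial (Fin d) Ω := ∑ e ∈ b.support, monomial e (ℓ (coeff e b))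

theorem coeff_cmap {Ω : Type} [Field Ω] {d : ℕ} (ℓ : ℂ →+ Ω) (b : MvPolynomial (Fin d) ℂ)
    (e : Fin d →₀ ℕ) : coeff e (cmap ℓ b) = ℓ (coeff e b) := by
  classical
  unfold cmap
  rw [coeff_sum]
  simp only [coeff_monomial]
  rw [Finset.sum_ite_eq']
  split_ifs with h
  · rfl
  · rw [notMem_support_iff.1 h, map_zero]

theorem eval_cmap {Ω : Type} [Field Ω] (τ : Ω →+* ℂ) {d : ℕ} (ℓ : ℂ →+ Ω)
    (hℓ : ∀ (c : Ω) (y : ℂ), ℓ (τ c * y) = c * ℓ y) (b : MvPolynomial (Fin d) ℂ)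
    (s : Fin d → Ω) : eval s (cmap ℓ b) = ℓ (eval (fun j => τ (s j)) b) := by
  unfold cmap
  rw [map_sum, eval_eq, map_sum]
  refine Finset.sum_congr rfl fun e _ => ?_
  rw [eval_monomial]
  have h1 : (∏ i ∈ e.support, τ (s i) ^ e i) = τ (e.prod fun n e => s n ^ e) := by
    rw [Finsupp.prod, map_prod]
    exact Finset.prod_congr rfl fun i _ => by rw [map_pow]
  rw [h1, mul_comm (coeff e b), hℓ, mul_comm]

theorem exists_functional {Ω : Type} [Field Ω] (τ : Ω →+* ℂ) (c : ℂ) (hc : c ≠ 0) :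
    ∃ ℓ : ℂ →+ Ω, (∀ (c : Ω) (y : ℂ), ℓ (τ c * y) = c * ℓ y) ∧ ℓ c ≠ 0 := by
  let _ : Algebra Ω ℂ := τ.toAlgebra
  have h := (Module.forall_dual_apply_eq_zero_iff Ω c).not.2 hc
  push Not at h
  obtain ⟨f, hf⟩ := h
  refine ⟨f.toAddMonoidHom, fun a y => ?_, hf⟩
  exact f.map_smul a y

/-- Linear disjointness, for one relation. -/
theorem descend {Ω : Type} [Field Ω] (τ : Ω →+* ℂ) {d : ℕ} (a b : MvPolynomial (Fin d) ℂ)
    (hb : b ≠ 0) : ∃ a' b' : MvPolynomial (Fin d) Ω, b' ≠ 0 ∧ ∀ (s : Fin d → Ω) (x : Ω),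
      τ x * eval (fun j => τ (s j)) b = eval (fun j => τ (s j)) a →
        x * eval s b' = eval s a' := by
  obtain ⟨e, he⟩ := (support_nonempty (p := b)).2 hb
  obtain ⟨ℓ, hℓ, hne⟩ := exists_functional τ (coeff e b) (mem_support_iff.1 he)
  refine ⟨cmap ℓ a, cmap ℓ b, fun h => hne ?_, fun s x h => ?_⟩
  · rw [← coeff_cmap, h, coeff_zero]
  · rw [eval_cmap τ ℓ hℓ, eval_cmap τ ℓ hℓ, ← h, hℓ]

/-- Density over the complex numbers. -/
theorem dens_complex {P : Type} {Ω : Type} [Field Ω] (τ : Ω →+* ℂ) {d : ℕ} (s : P → Fin d → Ω)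
    (A' : Set P) (h : ∀ Φ : MvPolynomial (Fin d) Ω, Φ ≠ 0 → ¬ ∀ z ∈ A', eval (s z) Φ = 0)
    (Φ : MvPolynomial (Fin d) ℂ) (hΦ : Φ ≠ 0) :
    ¬ ∀ z ∈ A', eval (fun j => τ (s z j)) Φ = 0 := by
  intro h0
  obtain ⟨a', b', hb', hab⟩ := descend τ (0 : MvPolynomial (Fin d) ℂ) Φ hΦ
  apply h b' hb'
  intro z hz
  have h1 := hab (s z) 1 (by rw [h0 z hz, mul_zero, map_zero])
  have h2 := hab (s z) 0 (by rw [h0 z hz, mul_zero, map_zero])
  rw [one_mul] at h1
  rw [zero_mul] at h2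
  rw [h1, ← h2]

theorem Lsub {P : Type} {Lg : Set P → Prop} (hL : IsLarge Lg) {Ω : Type} [Field Ω] {d : ℕ}
    (s : P → Fin d → Ω) (A : Set P)
    (hind : ∀ Φ : MvPolynomial (Fin d) Ω, Φ ≠ 0 → ∀ A' ⊆ A, Lg A' → ¬ ∀ z ∈ A', eval (s z) Φ = 0)
    (A1 : Set P) (hA1 : A1 ⊆ A) (hLA : Lg A1) (g : MvPolynomial (Fin d) Ω) (hg : g ≠ 0) :
    Lg (A1 ∩ {z | eval (s z) g ≠ 0}) := by
  rcases hL.split A1 {z | eval (s z) g ≠ 0} {z | eval (s z) g = 0} hLA (fun z _ => by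
    by_cases h : eval (s z) g = 0
    · exact Or.inr h
    · exact Or.inl h) with h | h
  · exact h
  · exfalso
    exact hind g hg _ (Set.inter_subset_left.trans hA1) h fun z hz => hz.2

/-- Laurent monomials in units are polynomials on the variety. -/
theorem exists_Sp {Ω : Type} [Field Ω] {N n : ℕ} (U W : Fin n → MvPolynomial (Fin N) Ω)
    (q : Fin n → ℤ) : ∃ Sp : MvPolynomial (Fin N) Ω, ∀ y : Fin N → Ω,
      (∀ i, eval y (U i) * eval y (W i) = 1) → eval y Sp = ∏ k, eval y (U k) ^ q k := by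
  classical
  refine ⟨∏ k, if 0 ≤ q k then U k ^ (q k).toNat else W k ^ (-q k).toNat, fun y hy => ?_⟩
  rw [map_prod]
  refine Finset.prod_congr rfl fun k _ => ?_
  split_ifs with h
  · rw [map_pow]
    conv_rhs => rw [← Int.toNat_of_nonneg h]
    rw [zpow_natCast]
  · rw [map_pow]
    have h1 : q k = -((-q k).toNat : ℤ) := by omega
    conv_rhs => rw [h1]
    rw [zpow_neg, zpow_natCast, ← inv_pow]
    congr 1
    exact eq_inv_of_mul_eq_one_right (hy k)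

/-- **The common part.** -/
theorem common {P : Type} {Lg : Set P → Prop} (hL : IsLarge Lg) {Ω : Type} [Field Ω] (τ : Ω →+* ℂ)
    {N n : ℕ} {ι : Type} (F : ι → MvPolynomial (Fin N) Ω) (U W : Fin n → MvPolynomial (Fin N) Ω)
    (g0 : MvPolynomial (Fin N) Ω)
    (x : P → Fin N → Ω) (hxF : ∀ z i, eval (x z) (F i) = 0)
    (hUW : ∀ z i, eval (x z) (U i) * eval (x z) (W i) = 1)
    (A0 : Set P) (hA0 : Lg A0) (hg0 : ∀ z ∈ A0, eval (x z) g0 ≠ 0)
    (huq : ∀ z ∈ A0, ∀ y : Fin N → ℂ, (∀ i, eval₂ τ y (F i) = 0) → eval₂ τ y g0 ≠ 0 →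
      (∀ i, eval₂ τ y (U i) = τ (eval (x z) (U i))) → y = fun k => τ (x z k))
    (hrel : ∀ (d : ℕ) (w' : Fin d → Fin n → ℤ),
      UnitRel Lg (fun z j => ∏ k, eval (x z) (U k) ^ w' j k)
        (fun j : Fin d => (X j : MvPolynomial (Fin d) Ω))) :
    ∃ A ⊆ A0, Lg A ∧ ∃ (d : ℕ) (w' : Fin d → Fin n → ℤ) (s : P → Fin d → Ω)
      (Sp : Fin d → MvPolynomial (Fin N) Ω) (a b : Fin N → MvPolynomial (Fin d) Ω),
      (∀ z j, s z j = ∏ k, eval (x z) (U k) ^ w' j k) ∧ (∀ z j, s z j = eval (x z) (Sp j)) ∧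
      (∀ Φ : MvPolynomial (Fin d) Ω, Φ ≠ 0 → ∀ A' ⊆ A, Lg A' → ¬ ∀ z ∈ A', eval (s z) Φ = 0) ∧
      (∀ k, b k ≠ 0) ∧ (∀ k, IsRelPrime (a k) (b k)) ∧
      (∀ z ∈ A, ∀ k, eval (s z) (b k) ≠ 0) ∧
      (∀ z ∈ A, ∀ k, x z k * eval (s z) (b k) = eval (s z) (a k)) := by
  classical
  have hu : ∀ z i, eval (x z) (U i) ≠ 0 := fun z i h => by
    have := hUW z i
    rw [h, zero_mul] at this
    exact zero_ne_one this
  obtain ⟨A, hAA, hA, d, w, w', c, hc, hpar, hnm⟩ := stepA hL (fun z i => eval (x z) (U i)) hu A0 hA0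
  let s : P → Fin d → Ω := fun z j => ∏ k, eval (x z) (U k) ^ w' j k
  have hs0 : ∀ z j, s z j ≠ 0 := fun z j =>
    Finset.prod_ne_zero_iff.2 fun i _ => zpow_ne_zero _ (hu z i)
  have hind : ∀ Φ : MvPolynomial (Fin d) Ω, Φ ≠ 0 → ∀ A' ⊆ A, Lg A' →
      ¬ ∀ z ∈ A', eval (s z) Φ = 0 := fun Φ hΦ A' hA' hLA' =>
    indep_of_rel s hs0 (hrel d w') A hnm Φ hΦ A' hA' hLA'
  have hindC : ∀ Φ : MvPolynomial (Fin d) ℂ, Φ ≠ 0 → ∀ A' ⊆ A, Lg A' →
      ¬ ∀ z ∈ A', eval (fun j => τ (s z j)) Φ = 0 := fun Φ hΦ A' hA' hLA' =>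
    dens_complex τ s A' (fun Φ hΦ => hind Φ hΦ A' hA' hLA') Φ hΦ
  choose Sp hSp using fun j : Fin d => exists_Sp U W (w' j)
  -- the points, with the inverse of `g0` as a further coordinate
  let xx : P → Fin (N + 1) → ℂ := fun z => Fin.snoc (fun k => τ (x z k)) (τ (eval (x z) g0))⁻¹
  let em : Fin N → Fin (N + 1) ⊕ Fin d := fun k => Sum.inl (Fin.castSucc k)
  -- the relations
  let ρ1 : ι → MvPolynomial (Fin (N + 1) ⊕ Fin d) ℂ := fun i => rename em (map τ (F i))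
  let ρ2 : Fin n → MvPolynomial (Fin (N + 1) ⊕ Fin d) ℂ := fun i =>
    rename em (map τ (U i)) * (∏ j, X (Sum.inr j) ^ (-w i j).toNat) -
      C (τ (c i)) * ∏ j, X (Sum.inr j) ^ (w i j).toNat
  let ρ3 : MvPolynomial (Fin (N + 1) ⊕ Fin d) ℂ :=
    rename em (map τ g0) * X (Sum.inl (Fin.last N)) - 1
  have hem : ∀ (y : Fin (N + 1) → ℂ) (s : Fin d → ℂ) (Q : MvPolynomial (Fin N) Ω),
      eval (Sum.elim y s) (rename em (map τ Q)) = eval₂ τ (fun k => y (Fin.castSucc k)) Q := by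
    intro y s Q
    rw [eval_rename, eval_map]
    rfl
  have hpos : ∀ (y : ℂ) (m : ℤ), y ≠ 0 → y ^ m * y ^ (-m).toNat = y ^ m.toNat := by
    intro y m hy
    rw [← zpow_natCast, ← zpow_natCast, ← zpow_add₀ hy]
    congr 1
    omega
  have hρ2 : ∀ z ∈ A, ∀ (i : Fin n) (y : Fin (N + 1) → ℂ),
      eval (Sum.elim y (fun j => τ (s z j))) (ρ2 i) = 0 ↔
        eval₂ τ (fun k => y (Fin.castSucc k)) (U i) = τ (eval (x z) (U i)) := by
    intro z hz i y
    have h1 : eval (Sum.elim y (fun j => τ (s z j))) (ρ2 i) =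
        eval₂ τ (fun k => y (Fin.castSucc k)) (U i) * (∏ j, τ (s z j) ^ (-w i j).toNat) -
          τ (c i) * ∏ j, τ (s z j) ^ (w i j).toNat := by
      show eval (Sum.elim y (fun j => τ (s z j))) (rename em (map τ (U i)) *
        (∏ j, X (Sum.inr j) ^ (-w i j).toNat) - C (τ (c i)) * ∏ j, X (Sum.inr j) ^ (w i j).toNat) = _
      rw [map_sub, map_mul, map_mul, hem, map_prod, map_prod, eval_C]
      simp only [map_pow, eval_X, Sum.elim_inr]
    have h2 : τ (eval (x z) (U i)) = τ (c i) * ∏ j, τ (s z j) ^ w i j := by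
      rw [hpar z hz i, map_mul, map_prod]
      congr 1
      exact Finset.prod_congr rfl fun j _ => map_zpow₀ _ _ _
    have h3 : (∏ j, τ (s z j) ^ w i j) * (∏ j, τ (s z j) ^ (-w i j).toNat) =
        ∏ j, τ (s z j) ^ (w i j).toNat := by
      rw [← Finset.prod_mul_distrib]
      exact Finset.prod_congr rfl fun j _ => hpos _ _ ((map_ne_zero τ).2 (hs0 z j))
    have h4 : (∏ j, τ (s z j) ^ (-w i j).toNat) ≠ 0 :=
      Finset.prod_ne_zero_iff.2 fun j _ => pow_ne_zero _ ((map_ne_zero τ).2 (hs0 z j))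
    rw [h1, ← h3, sub_eq_zero, ← mul_assoc, h2]
    exact mul_left_inj' h4
  have hρ3 : ∀ (z : P) (y : Fin (N + 1) → ℂ),
      eval (Sum.elim y (fun j => τ (s z j))) ρ3 =
        eval₂ τ (fun k => y (Fin.castSucc k)) g0 * y (Fin.last N) - 1 := by
    intro z y
    show eval (Sum.elim y (fun j => τ (s z j))) (rename em (map τ g0) *
      X (Sum.inl (Fin.last N)) - 1) = _
    rw [map_sub, map_mul, hem, map_one, eval_X]
    rfl
  have hxx : ∀ z, (fun k => xx z (Fin.castSucc k)) = fun k => τ (x z k) := by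
    intro z
    funext k
    exact Fin.snoc_castSucc (α := fun _ => ℂ) _ _ _
  have hxl : ∀ z, xx z (Fin.last N) = (τ (eval (x z) g0))⁻¹ := fun z =>
    Fin.snoc_last (α := fun _ => ℂ) _ _
  have hev : ∀ (z : P) (Q : MvPolynomial (Fin N) Ω),
      eval₂ τ (fun k => τ (x z k)) Q = τ (eval (x z) Q) := by
    intro z Q
    rw [eval, coe_eval₂Hom, hom_eval₂, RingHom.comp_id]
  obtain ⟨A1, hA1, hLA1, hrat⟩ := rational hL xx (fun z j => τ (s z j)) A hA hindC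
    (Set.range ρ1 ∪ Set.range ρ2 ∪ {ρ3}) (by
      rintro z hz _ ((⟨i, rfl⟩ | ⟨i, rfl⟩) | rfl)
      · rw [hem, hxx, hev, hxF, map_zero]
      · rw [hρ2 z hz, hxx, hev]
      · rw [hρ3, hxx, hev, hxl, mul_inv_cancel₀ ((map_ne_zero τ).2 (hg0 z (hAA hz))), sub_self]) (by
      intro z hz y hy
      have h3 : eval₂ τ (fun k => y (Fin.castSucc k)) g0 * y (Fin.last N) = 1 := by
        rw [← sub_eq_zero, ← hρ3 z y]
        exact hy _ (Or.inr rfl)
      have h1 := huq z (hAA hz) (fun k => y (Fin.castSucc k)) (fun i => by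
        rw [← hem y (fun j => τ (s z j))]
        exact hy _ (Or.inl (Or.inl ⟨i, rfl⟩))) (fun h => by
        rw [h, zero_mul] at h3
        exact zero_ne_one h3) fun i => by
        rw [← hρ2 z hz i]
        exact hy _ (Or.inl (Or.inr ⟨i, rfl⟩))
      have h2 : y (Fin.last N) = xx z (Fin.last N) := by
        rw [h1, hev] at h3
        rw [hxl]
        exact eq_inv_of_mul_eq_one_right h3
      funext k
      refine Fin.lastCases ?_ (fun k => ?_) k
      · exact h2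
      · have h4 := congrFun h1 k
        have h5 := congrFun (hxx z) k
        exact h4.trans h5.symm)
  choose a0 b0 hb0 hab0 using fun k : Fin N => hrat (Fin.castSucc k)
  choose a1 b1 hb1 hab1 using fun k => descend τ (a0 k) (b0 k) (hb0 k)
  choose a2 b2 g hb2 hg hrp hab2 using fun k => reduce (a1 k) (b1 k) (hb1 k)
  have hG : (∏ k, g k) * ∏ k, b2 k ≠ 0 := mul_ne_zero
    (Finset.prod_ne_zero_iff.2 fun k _ => hg k) (Finset.prod_ne_zero_iff.2 fun k _ => hb2 k)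
  have hLA2 := Lsub hL s A hind A1 hA1 hLA1 _ hG
  refine ⟨_, Set.inter_subset_left.trans (hA1.trans hAA), hLA2, d, w', s, Sp, a2, b2,
    fun z j => rfl, fun z j => (hSp j (x z) (hUW z)).symm,
    fun Φ hΦ A' hA' => hind Φ hΦ A' (hA'.trans (Set.inter_subset_left.trans hA1)), hb2, hrp, ?_, ?_⟩
  · rintro z ⟨-, hz⟩ k
    have hz' : eval (s z) ((∏ k, g k) * ∏ k, b2 k) ≠ 0 := hz
    rw [map_mul, map_prod, map_prod] at hz'
    exact Finset.prod_ne_zero_iff.1 (right_ne_zero_of_mul hz') k (Finset.mem_univ k)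
  · rintro z ⟨hz1, hz⟩ k
    have hz' : eval (s z) ((∏ k, g k) * ∏ k, b2 k) ≠ 0 := hz
    rw [map_mul, map_prod, map_prod] at hz'
    have hgz := Finset.prod_ne_zero_iff.1 (left_ne_zero_of_mul hz') k (Finset.mem_univ k)
    have h1 := hab0 k z hz1
    have h2 : xx z (Fin.castSucc k) = τ (x z k) := congrFun (hxx z) k
    rw [h2] at h1
    exact hab2 k (s z) (x z k) hgz (hab1 k (s z) (x z k) h1)

end Pool.Agent.Run7.h983
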