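import Mathlib
import Pool.Agent.N302.SP.Ar
import Pool.Agent.Y734.N.SG.Main

/-!
# Extension of the number field
-/

set_option autoImplicit false

namespace Pool.Agent.Run7.h983

open MvPolynomial NumberField IsDedekindDomain Pool.Agent.N302.SP Pool.Agent.Helper259.AbsHt

theorem ext_field {L : Type} [Field L] [NumberField L] (τ : L →+* ℂ) :
    ∃ (M : Type) (_ : Field M) (_ : NumberField M) (_ : IsGalois ℚ M) (ψ : M →+* ℂ) (e : L →+* M),
      (∃ z : M, z ^ 2 = -1) ∧ ∀ x, ψ (e x) = τ x := by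
  let τ' : L →ₐ[ℚ] ℂ := τ.toRatAlgHom
  let E1 : IntermediateField ℚ ℂ := τ'.fieldRange
  let E2 : IntermediateField ℚ ℂ := IntermediateField.adjoin ℚ {Complex.I}
  have hI : IsIntegral ℚ Complex.I := by
    refine ⟨Polynomial.X ^ 2 + 1, by monicity!, ?_⟩
    simp
  have h1 : FiniteDimensional ℚ E1 := by
    have h0 : FiniteDimensional ℚ L := inferInstance
    let e0 : L ≃ₗ[ℚ] τ'.range := (AlgEquiv.ofInjectiveField τ').toLinearEquiv
    exact Module.Finite.equiv e0
  have h2 : FiniteDimensional ℚ E2 := IntermediateField.adjoin.finiteDimensional hI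
  let E : IntermediateField ℚ ℂ := E1 ⊔ E2
  have h3 : FiniteDimensional ℚ E := IntermediateField.finiteDimensional_sup E1 E2
  have hN : IsNormalClosure ℚ E (IntermediateField.normalClosure ℚ E ℂ) :=
    Algebra.IsAlgebraic.isNormalClosure_normalClosure fun x => IsAlgClosed.splits _
  have hnorm : Normal ℚ (IntermediateField.normalClosure ℚ E ℂ) := hN.normal
  have hfd : FiniteDimensional ℚ (IntermediateField.normalClosure ℚ E ℂ) := inferInstance
  have hE : ∀ x : E, (x : ℂ) ∈ IntermediateField.normalClosure ℚ E ℂ := fun x =>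
    AlgHom.fieldRange_le_normalClosure E.val ⟨x, rfl⟩
  refine ⟨IntermediateField.normalClosure ℚ E ℂ, inferInstance, ⟨⟩, ⟨⟩,
    (algebraMap _ ℂ), τ.codRestrict (IntermediateField.normalClosure ℚ E ℂ).toSubfield ?_,
      ⟨⟨Complex.I, ?_⟩, ?_⟩, fun x => rfl⟩
  · intro x
    exact hE ⟨τ x, (le_sup_left : E1 ≤ E) ⟨x, rfl⟩⟩
  · exact hE ⟨Complex.I, (le_sup_right : E2 ≤ E)
      (IntermediateField.subset_adjoin ℚ _ (Set.mem_singleton _))⟩
  · ext
    simp

theorem ext_primes {L M : Type} [Field L] [NumberField L] [Field M] [NumberField M] (e : L →+* M)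
    (S : Set (HeightOneSpectrum (𝓞 L))) (hS : S.Finite) :
    ∃ S' : Finset (HeightOneSpectrum (𝓞 M)), ∀ x ∈ S.integer L, ∀ w ∉ S',
      w.valuation M (e x) ≤ 1 := by
  classical
  let _ : Algebra L M := e.toAlgebra
  let T : Set (HeightOneSpectrum (𝓞 M)) := ⋃ v ∈ S, {w | w.asIdeal ∈ v.asIdeal.primesOver (𝓞 M)}
  have hT : T.Finite := by
    refine hS.biUnion fun v _ => ?_
    have hm : v.asIdeal.IsMaximal := v.isMaximal
    have h1 : (v.asIdeal.primesOver (𝓞 M)).Finite := IsDedekindDomain.primesOver_finite v.asIdeal _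
    exact h1.preimage (fun w _ w' _ h => HeightOneSpectrum.ext h)
  refine ⟨hT.toFinset, fun x hx w hw => ?_⟩
  rw [Set.Finite.mem_toFinset] at hw
  have hne : w.asIdeal.under (𝓞 L) ≠ ⊥ := by
    have := w.isPrime
    exact mt Ideal.eq_bot_of_comap_eq_bot w.ne_bot
  have hp : (w.asIdeal.under (𝓞 L)).IsPrime := by
    have := w.isPrime
    infer_instance
  let v : HeightOneSpectrum (𝓞 L) := ⟨w.asIdeal.under (𝓞 L), hp, hne⟩
  have hlo : w.asIdeal.LiesOver v.asIdeal := ⟨rfl⟩
  have hv : v ∉ S := by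
    intro hv
    apply hw
    refine Set.mem_biUnion hv ?_
    exact ⟨w.isPrime, hlo⟩
  have h1 := HeightOneSpectrum.valuation_liesOver M v w x
  have h2 : v.valuation L x ≤ 1 := hx v hv
  show w.valuation M (algebraMap L M x) ≤ 1
  rw [← h1]
  exact pow_le_one₀ zero_le h2

end Pool.Agent.Run7.h983
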