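import Mathlib

/-!
# Ideals generated by two coprime polynomials in boxes
-/

set_option autoImplicit false

namespace Pool.Agent.Run7.h983

open MvPolynomial Filter Topology

variable {Ω : Type} [Field Ω] {d : ℕ}

/-- the exponents `γ` with `γ i < n i` -/
noncomputable def bx (n : Fin d → ℕ) : Finset (Fin d →₀ ℕ) :=
  (Fintype.piFinset fun i => Finset.range (n i)).map Finsupp.equivFunOnFinite.symm.toEmbedding

theorem mem_bx {n : Fin d → ℕ} {γ : Fin d →₀ ℕ} : γ ∈ bx n ↔ ∀ i, γ i < n i := by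
  unfold bx
  rw [Finset.mem_map_equiv, Fintype.mem_piFinset]
  simp only [Finset.mem_range]
  rfl

theorem card_bx (n : Fin d → ℕ) : (bx n).card = ∏ i, n i := by
  unfold bx
  rw [Finset.card_map, Fintype.card_piFinset]
  simp

/-- the polynomials with exponents in the box -/
noncomputable def BX (Ω : Type) [Field Ω] (n : Fin d → ℕ) : Submodule Ω (MvPolynomial (Fin d) Ω) :=
  restrictSupport Ω (bx n : Set (Fin d →₀ ℕ))

theorem mem_BX {n : Fin d → ℕ} {p : MvPolynomial (Fin d) Ω} : p ∈ BX Ω n ↔ p.support ⊆ bx n := by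
  unfold BX
  rw [mem_restrictSupport_iff, Finset.coe_subset]

instance (n : Fin d → ℕ) : FiniteDimensional Ω (BX Ω n) :=
  (basisRestrictSupport Ω (bx n : Set (Fin d →₀ ℕ))).finiteDimensional_of_finite

theorem finrank_BX (n : Fin d → ℕ) : Module.finrank Ω (BX Ω n) = ∏ i, n i := by
  unfold BX
  rw [Module.finrank_eq_card_basis (basisRestrictSupport Ω (bx n : Set (Fin d →₀ ℕ))), ← card_bx]
  simp

theorem mem_BX_of_degree {n : Fin d → ℕ} {p : MvPolynomial (Fin d) Ω}
    (h : ∀ i, degreeOf i p < n i) : p ∈ BX Ω n := by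
  rw [mem_BX]
  intro γ hγ
  rw [mem_bx]
  intro i
  exact (monomial_le_degreeOf i hγ).trans_lt (h i)

theorem degree_of_mem_BX {n : Fin d → ℕ} {p : MvPolynomial (Fin d) Ω} (hp0 : p ≠ 0)
    (hp : p ∈ BX Ω n) (i : Fin d) : degreeOf i p < n i := by
  rw [mem_BX] at hp
  obtain ⟨γ, hγ⟩ := support_nonempty.2 hp0
  have h0 : 0 < n i := (Nat.zero_le _).trans_lt (mem_bx.1 (hp hγ) i)
  rw [degreeOf_lt_iff h0]
  intro m hm
  exact mem_bx.1 (hp hm) i

theorem mul_mem_BX {n m : Fin d → ℕ} {p a : MvPolynomial (Fin d) Ω} (hp : p ∈ BX Ω m)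
    (h : ∀ i, m i + degreeOf i a ≤ n i) : p * a ∈ BX Ω n := by
  by_cases hp0 : p = 0
  · rw [hp0, zero_mul]
    exact zero_mem _
  apply mem_BX_of_degree
  intro i
  have h1 := degree_of_mem_BX hp0 hp i
  have h2 := degreeOf_mul_le i p a
  have h3 := h i
  omega

/-- the elements of the ideal generated by `a` and `b` in the box of size `N` -/
noncomputable def WN (a b : MvPolynomial (Fin d) Ω) (N : ℕ) : Submodule Ω (MvPolynomial (Fin d) Ω) :=
  BX Ω (fun _ => N) ⊓ (Ideal.span {a, b}).restrictScalars Ω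

instance (a b : MvPolynomial (Fin d) Ω) (N : ℕ) : FiniteDimensional Ω (WN a b N) :=
  Submodule.finiteDimensional_inf_left _ _

theorem mem_WN {a b p : MvPolynomial (Fin d) Ω} {N : ℕ} :
    p ∈ WN a b N ↔ p.support ⊆ bx (fun _ => N) ∧ ∃ f g, f * a + g * b = p := by
  unfold WN
  rw [Submodule.mem_inf, mem_BX, Submodule.restrictScalars_mem, Ideal.mem_span_pair]

/-- **The dimension.** -/
theorem finrank_WN (a b : MvPolynomial (Fin d) Ω) (ha : a ≠ 0) (hb : b ≠ 0)
    (hab : IsRelPrime a b) (N : ℕ) (hN : ∀ i, degreeOf i a + degreeOf i b ≤ N) :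
    ∏ i : Fin d, (N - degreeOf i a) + ∏ i : Fin d, (N - degreeOf i b) ≤
      Module.finrank Ω (WN a b N) + ∏ i : Fin d, (N - degreeOf i a - degreeOf i b) := by
  classical
  let A := BX Ω (fun i : Fin d => N - degreeOf i a)
  let B := BX Ω (fun i : Fin d => N - degreeOf i b)
  let C := BX Ω (fun i : Fin d => N - degreeOf i a - degreeOf i b)
  let Ψ : (A × B) →ₗ[Ω] MvPolynomial (Fin d) Ω :=
    ((LinearMap.mulRight Ω a).comp A.subtype).coprod ((LinearMap.mulRight Ω b).comp B.subtype)
  have hΨ : ∀ x : A × B, Ψ x = x.1.1 * a + x.2.1 * b := fun x => rfl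
  have hr : LinearMap.range Ψ ≤ WN a b N := by
    rintro _ ⟨x, rfl⟩
    rw [hΨ]
    refine ⟨?_, Ideal.mem_span_pair.2 ⟨_, _, rfl⟩⟩
    refine add_mem (mul_mem_BX x.1.2 fun i => ?_) (mul_mem_BX x.2.2 fun i => ?_)
    · have := hN i
      omega
    · have := hN i
      omega
  have h1 := LinearMap.finrank_range_add_finrank_ker Ψ
  have h2 := Submodule.finrank_mono hr
  -- the kernel
  have hk : Module.finrank Ω (LinearMap.ker Ψ) ≤ Module.finrank Ω C := by
    have hex : ∀ x : LinearMap.ker Ψ, ∃ h : C, x.1.1.1 = h.1 * b ∧ x.1.2.1 = - (h.1 * a) := by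
      intro x
      have h3 : x.1.1.1 * a + x.1.2.1 * b = 0 := by
        rw [← hΨ]
        exact x.2
      have h4 : b ∣ x.1.1.1 * a := ⟨-x.1.2.1, by linear_combination h3⟩
      obtain ⟨h, hh⟩ := hab.symm.dvd_of_dvd_mul_right h4
      have h5 : x.1.2.1 = - (h * a) := by
        have : b * (x.1.2.1 + h * a) = 0 := by
          rw [hh] at h3
          linear_combination h3
        rcases mul_eq_zero.1 this with h | h
        · exact absurd h hb
        · exact eq_neg_of_add_eq_zero_left h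
      refine ⟨⟨h, ?_⟩, by rw [hh, mul_comm], h5⟩
      by_cases hh0 : h = 0
      · rw [hh0]
        exact zero_mem _
      apply mem_BX_of_degree
      intro i
      have h6 := degree_of_mem_BX (p := x.1.1.1) (by
        rw [hh]
        exact mul_ne_zero hb hh0) x.1.1.2 i
      rw [hh, degreeOf_mul_eq hb hh0] at h6
      omega
    choose h hh1 hh2 using hex
    let θ : C →ₗ[Ω] MvPolynomial (Fin d) Ω × MvPolynomial (Fin d) Ω :=
      (((LinearMap.mulRight Ω b).comp C.subtype).prod
        (-((LinearMap.mulRight Ω a).comp C.subtype)))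
    have hle : (LinearMap.ker Ψ).map (A.subtype.prodMap B.subtype) ≤ LinearMap.range θ := by
      rintro _ ⟨x, hx, rfl⟩
      refine ⟨h ⟨x, hx⟩, ?_⟩
      exact Prod.ext (hh1 ⟨x, hx⟩).symm (hh2 ⟨x, hx⟩).symm
    have hinj : Function.Injective (A.subtype.prodMap B.subtype) := by
      rintro ⟨x1, x2⟩ ⟨y1, y2⟩ hxy
      have e1 := congrArg Prod.fst hxy
      have e2 := congrArg Prod.snd hxy
      exact Prod.ext (Subtype.ext e1) (Subtype.ext e2)
    have h3 := (Submodule.equivMapOfInjective (A.subtype.prodMap B.subtype) hinj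
      (LinearMap.ker Ψ)).finrank_eq
    rw [h3]
    exact (Submodule.finrank_mono hle).trans (LinearMap.finrank_range_le θ)
  rw [Module.finrank_prod, finrank_BX, finrank_BX] at h1
  rw [finrank_BX] at hk
  omega

theorem WN_le_BX (a b : MvPolynomial (Fin d) Ω) (N : ℕ) :
    Module.finrank Ω (WN a b N) ≤ N ^ d := by
  have h1 : Module.finrank Ω (WN a b N) ≤ Module.finrank Ω (BX Ω (fun _ : Fin d => N)) :=
    Submodule.finrank_mono inf_le_left
  rw [finrank_BX] at h1
  simpa using h1

theorem hasDeriv_prod (x : Fin d → ℝ) :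
    HasDerivAt (fun τ : ℝ => ∏ i, (1 - x i * τ)) (-∑ i, x i) 0 := by
  have h1 : ∀ i ∈ (Finset.univ : Finset (Fin d)),
      HasDerivAt (fun τ : ℝ => 1 - x i * τ) (-(x i)) 0 := by
    intro i _
    have := ((hasDerivAt_id (0 : ℝ)).const_mul (x i)).const_sub 1
    simpa using this
  have h2 := HasDerivAt.fun_finsetProd h1
  refine h2.congr_deriv ?_
  simp

/-- **The codimension is small.** -/
theorem exists_N (a b : MvPolynomial (Fin d) Ω) (hb : b ≠ 0)
    (hab : IsRelPrime a b) (η : ℝ) (hη : 0 < η) :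
    ∃ N : ℕ, 1 ≤ N ∧ 1 ≤ Module.finrank Ω (WN a b N) ∧
      ((N : ℝ) ^ d - Module.finrank Ω (WN a b N)) * N ≤ η * Module.finrank Ω (WN a b N) := by
  classical
  by_cases ha : a = 0
  · -- `b` is a unit
    have hu : IsUnit b := by
      rw [ha] at hab
      exact hab (dvd_zero b) dvd_rfl
    obtain ⟨c, hc⟩ := hu.exists_left_inv
    have h1 : Module.finrank Ω (WN a b 1) = 1 := by
      apply le_antisymm
      · have := WN_le_BX a b 1
        simpa using this
      · have hmem : (1 : MvPolynomial (Fin d) Ω) ∈ WN a b 1 := by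
          rw [mem_WN]
          refine ⟨?_, 0, c, by rw [hc]; ring⟩
          intro γ hγ
          rw [mem_bx]
          intro i
          have h2 : (1 : MvPolynomial (Fin d) Ω) = monomial 0 1 := rfl
          rw [h2] at hγ
          have h3 := support_monomial_subset hγ
          rw [Finset.mem_singleton] at h3
          rw [h3]
          simp
        have h2 : 0 < Module.finrank Ω (WN a b 1) := by
          rw [Module.finrank_pos_iff]
          exact ⟨⟨⟨1, hmem⟩, 0, fun h => one_ne_zero (congrArg Subtype.val h)⟩⟩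
        exact h2
    refine ⟨1, le_rfl, h1.ge, ?_⟩
    rw [h1]
    simp only [Nat.cast_one, one_pow, sub_self, zero_mul, mul_one]
    exact hη.le
  set x : Fin d → ℝ := fun i => degreeOf i a with hx
  set y : Fin d → ℝ := fun i => degreeOf i b with hy
  let H : ℝ → ℝ := fun τ => 1 - ∏ i, (1 - x i * τ) - ∏ i, (1 - y i * τ) +
    ∏ i, (1 - (x i + y i) * τ)
  have hH : HasDerivAt H 0 0 := by
    have h1 := (((hasDeriv_prod x).const_sub 1).sub (hasDeriv_prod y)).add
      (hasDeriv_prod fun i => x i + y i)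
    refine h1.congr_deriv ?_
    rw [Finset.sum_add_distrib]
    ring
  have hH0 : H 0 = 0 := by simp [H]
  have hlim : Tendsto (fun N : ℕ => (N : ℝ) * H (1 / N)) atTop (𝓝 0) := by
    have h1 := hH.tendsto_slope
    have h2 : Tendsto (fun N : ℕ => (1 / (N : ℝ))) atTop (𝓝[≠] 0) := by
      refine tendsto_nhdsWithin_iff.2 ⟨tendsto_one_div_atTop_nhds_zero_nat, ?_⟩
      filter_upwards [eventually_ge_atTop 1] with N hN
      have : (N : ℝ) ≠ 0 := by positivity
      exact one_div_ne_zero this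
    have h3 := h1.comp h2
    refine h3.congr fun N => ?_
    simp only [Function.comp, slope_def_field, hH0, sub_zero]
    rw [div_div_eq_mul_div, div_one, mul_comm]
  have hη' : (0 : ℝ) < min (η / 2) (1 / 2) := by positivity
  have hev := hlim.eventually (gt_mem_nhds hη')
  obtain ⟨N, hN1, hN2, hN3⟩ := (hev.and ((eventually_ge_atTop 1).and
    (eventually_ge_atTop (∑ i, (degreeOf i a + degreeOf i b))))).exists
  have hN : ∀ i, degreeOf i a + degreeOf i b ≤ N := fun i =>
    (Finset.single_le_sum (f := fun i => degreeOf i a + degreeOf i b) (fun _ _ => Nat.zero_le _)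
      (Finset.mem_univ i)).trans hN3
  have hNpos : (0 : ℝ) < N := by exact_mod_cast hN2
  have hfr := finrank_WN a b ha hb hab N hN
  set M := Module.finrank Ω (WN a b N) with hM
  have hcast : ∀ z : Fin d → ℕ, (∀ i, z i ≤ N) →
      ((∏ i : Fin d, (N - z i) : ℕ) : ℝ) = (N : ℝ) ^ d * ∏ i, (1 - (z i : ℝ) * (1 / N)) := by
    intro z hz
    have e1 : (N : ℝ) ^ d = ∏ _i : Fin d, (N : ℝ) := by simp
    rw [e1, ← Finset.prod_mul_distrib, Nat.cast_prod]
    refine Finset.prod_congr rfl fun i _ => ?_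
    rw [Nat.cast_sub (hz i)]
    field_simp
  have hfr' : (N : ℝ) ^ d * (1 - H (1 / N)) ≤ M := by
    have h1 : (((∏ i : Fin d, (N - degreeOf i a) + ∏ i : Fin d, (N - degreeOf i b) : ℕ)) : ℝ) ≤
        ((M + ∏ i : Fin d, (N - degreeOf i a - degreeOf i b) : ℕ) : ℝ) := by
      exact_mod_cast hfr
    rw [Nat.cast_add, Nat.cast_add, hcast _ fun i => (Nat.le_add_right _ _).trans (hN i),
      hcast _ fun i => (Nat.le_add_left _ _).trans (hN i)] at h1
    simp only [Nat.sub_sub] at h1
    rw [hcast _ hN] at h1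
    simp only [H, hx, hy]
    push_cast at h1
    linarith
  have hHlt : H (1 / N) ≤ 1 / 2 := by
    by_contra hcon
    push Not at hcon
    have h1 : (1 : ℝ) ≤ N := by exact_mod_cast hN2
    have h2 : (N : ℝ) * H (1 / N) < 1 / 2 := hN1.trans_le (min_le_right _ _)
    nlinarith
  have hNd : (0 : ℝ) < (N : ℝ) ^ d := by positivity
  have hMpos : (N : ℝ) ^ d / 2 ≤ M := by
    have : (N : ℝ) ^ d * (1 / 2) ≤ (N : ℝ) ^ d * (1 - H (1 / N)) :=
      mul_le_mul_of_nonneg_left (by linarith) hNd.le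
    linarith
  refine ⟨N, hN2, ?_, ?_⟩
  · by_contra hcon
    have : M = 0 := by omega
    rw [this] at hMpos
    simp only [Nat.cast_zero] at hMpos
    linarith
  · have h1 : (N : ℝ) ^ d - M ≤ (N : ℝ) ^ d * H (1 / N) := by linarith
    have h2 : ((N : ℝ) ^ d - M) * N ≤ (N : ℝ) ^ d * H (1 / N) * N :=
      mul_le_mul_of_nonneg_right h1 hNpos.le
    have h3 : (N : ℝ) ^ d * H (1 / N) * N ≤ (N : ℝ) ^ d * (η / 2) := by
      have : (N : ℝ) * H (1 / N) ≤ η / 2 := hN1.le.trans (min_le_left _ _)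
      calc (N : ℝ) ^ d * H (1 / N) * N = (N : ℝ) ^ d * ((N : ℝ) * H (1 / N)) := by ring
        _ ≤ _ := mul_le_mul_of_nonneg_left this hNd.le
    have h4 : (N : ℝ) ^ d * (η / 2) ≤ η * M := by
      have := mul_le_mul_of_nonneg_left hMpos hη.le
      linarith
    linarith

end Pool.Agent.Run7.h983
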