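import Mathlib

/-!
# Echelon bases with respect to an order of the coordinates
-/

set_option autoImplicit false

namespace Pool.Agent.Run7.h983

variable {Ω E J : Type} [Field Ω] [AddCommGroup E] [Module Ω E]

/-- A triangular family is independent. -/
theorem indep_tri (B P : Finset J) (hPB : P ⊆ B) (c : J → E →ₗ[Ω] Ω) (ord : J → ℕ)
    (hord : Set.InjOn ord (B : Set J)) (φ : J → E)
    (h : ∀ j ∈ P, c j (φ j) ≠ 0 ∧ ∀ l ∈ B, ord j < ord l → c l (φ j) = 0) :
    LinearIndependent Ω (fun j : P => φ j) := by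
  classical
  rw [Fintype.linearIndependent_iff]
  intro g hg
  by_contra hcon
  push Not at hcon
  obtain ⟨i0, hi0⟩ := hcon
  obtain ⟨i, hi, hmax⟩ := Finset.exists_max_image (Finset.univ.filter fun i : P => g i ≠ 0)
    (fun i => ord i.1) ⟨i0, by simpa using hi0⟩
  have hgi : g i ≠ 0 := (Finset.mem_filter.1 hi).2
  have h1 := congrArg (c i.1) hg
  rw [map_sum, map_zero, Finset.sum_eq_single i] at h1
  · rw [map_smul, smul_eq_mul] at h1
    exact mul_ne_zero hgi (h i.1 i.2).1 h1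
  · intro b _ hb
    rw [map_smul, smul_eq_mul]
    by_cases hgb : g b = 0
    · rw [hgb, zero_mul]
    · have h2 := hmax b (by simpa using hgb)
      have h3 : ord b.1 ≠ ord i.1 := fun h4 =>
        hb (Subtype.ext (hord (hPB b.2) (hPB i.2) h4))
      rw [(h b.1 b.2).2 i.1 (hPB i.2) (lt_of_le_of_ne h2 h3), mul_zero]
  · intro h2
    exact absurd (Finset.mem_univ i) h2

/-- **Echelon bases.** -/
theorem echelon (W : Submodule Ω E) [FiniteDimensional Ω W] (B : Finset J) (c : J → E →ₗ[Ω] Ω)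
    (hinj : ∀ w ∈ W, (∀ j ∈ B, c j w = 0) → w = 0) (ord : J → ℕ)
    (hord : Set.InjOn ord (B : Set J)) :
    ∃ (P : Finset J) (φ : J → E), P ⊆ B ∧ P.card = Module.finrank Ω W ∧
      (∀ j ∈ P, φ j ∈ W ∧ ∀ l ∈ B, ord j < ord l → c l (φ j) = 0) ∧
      LinearIndependent Ω (fun j : P => φ j) := by
  classical
  let P : Finset J := B.filter fun j => ∃ w ∈ W, c j w ≠ 0 ∧ ∀ l ∈ B, ord j < ord l → c l w = 0
  have hP : ∀ j, ∃ w, j ∈ P → w ∈ W ∧ c j w ≠ 0 ∧ ∀ l ∈ B, ord j < ord l → c l w = 0 := by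
    intro j
    by_cases hj : j ∈ P
    · obtain ⟨w, hw⟩ := (Finset.mem_filter.1 hj).2
      exact ⟨w, fun _ => hw⟩
    · exact ⟨0, fun h => absurd h hj⟩
  choose φ hφ using hP
  have hPB : P ⊆ B := Finset.filter_subset _ _
  have hli := indep_tri B P hPB c ord hord φ fun j hj => ⟨(hφ j hj).2.1, (hφ j hj).2.2⟩
  refine ⟨P, φ, hPB, ?_, fun j hj => ⟨(hφ j hj).1, (hφ j hj).2.2⟩, hli⟩
  apply le_antisymm
  · have h1 : LinearIndependent Ω (fun j : P => (⟨φ j, (hφ j.1 j.2).1⟩ : W)) := by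
      apply LinearIndependent.of_comp W.subtype
      exact hli
    have h2 := h1.fintype_card_le_finrank
    rwa [Fintype.card_coe] at h2
  · let π : W →ₗ[Ω] (P → Ω) := LinearMap.pi fun j => (c j.1).comp W.subtype
    have hπ : Function.Injective π := by
      rw [← LinearMap.ker_eq_bot, LinearMap.ker_eq_bot']
      intro w hw
      apply Subtype.ext
      apply hinj w.1 w.2
      by_contra hcon
      push Not at hcon
      obtain ⟨j0, hj0, hj1⟩ := hcon
      obtain ⟨j, hj, hmax⟩ := Finset.exists_max_image (B.filter fun j => c j w.1 ≠ 0) ord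
        ⟨j0, Finset.mem_filter.2 ⟨hj0, hj1⟩⟩
      obtain ⟨hjB, hjne⟩ := Finset.mem_filter.1 hj
      have hjP : j ∈ P := by
        refine Finset.mem_filter.2 ⟨hjB, w.1, w.2, hjne, fun l hl hlt => ?_⟩
        by_contra hne
        have := hmax l (Finset.mem_filter.2 ⟨hl, hne⟩)
        omega
      exact hjne (congrFun hw ⟨j, hjP⟩)
    have h1 := LinearMap.finrank_le_finrank_of_injective hπ
    rw [Module.finrank_fintype_fun_eq_card, Fintype.card_coe] at h1
    exact h1

end Pool.Agent.Run7.h983
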