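import Mathlib
import Pool.Agent.Run7.h983.Ech
import Pool.Agent.Run7.h983.Box

/-!
# Scales and the numerical core
-/

set_option autoImplicit false

namespace Pool.Agent.Run7.h983

open MvPolynomial

/-- A scale: a positive functional (sum over places, mean over a circle) together with the values
of `d` units. -/
structure Sc (Ω : Type) [Field Ω] {T : Type} (f : T → AbsoluteValue Ω ℝ) (d : ℕ) where
  V : Type
  [top : TopologicalSpace V]
  I : C(V, ℝ) →ₗ[ℝ] ℝ
  pos : ∀ g : C(V, ℝ), (∀ v, 0 ≤ g v) → 0 ≤ I g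
  t : V → T
  s : V → Fin d → Ω
  s_ne : ∀ v j, s v j ≠ 0
  lam : Fin d → C(V, ℝ)
  lam_eq : ∀ v j, lam j v = Real.log (f (t v) (s v j))

attribute [instance] Sc.top

/-- The data for the subspace theorem. -/
structure Dat {Ω : Type} [Field Ω] {d : ℕ} (a b : MvPolynomial (Fin d) Ω) where
  M : ℕ
  E : Type
  fin : Fintype E
  x : Fin M → MvPolynomial (Fin d) Ω
  ind : LinearIndependent Ω x
  mem : ∀ i, ∃ f g, f * a + g * b = x i
  A : E → Matrix (Fin M) (Fin M) Ω
  det : ∀ e, (A e).det ≠ 0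

attribute [instance] Dat.fin

variable {Ω : Type} [Field Ω] {T : Type} {f : T → AbsoluteValue Ω ℝ} {d : ℕ}

/-- the linear forms -/
noncomputable def Dat.φ {a b : MvPolynomial (Fin d) Ω} (D : Dat a b) (e : D.E) (i : Fin D.M) :
    MvPolynomial (Fin d) Ω := ∑ j, C (D.A e i j) * D.x j

namespace Sc

variable (q : Sc Ω f d)

theorem mono {g g' : C(q.V, ℝ)} (h : ∀ v, g v ≤ g' v) : q.I g ≤ q.I g' := by
  have := q.pos (g' - g) fun v => by
    rw [ContinuousMap.sub_apply]
    exact sub_nonneg.2 (h v)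
  rw [map_sub] at this
  linarith

/-- the height -/
noncomputable def h : ℝ := ∑ j, q.I |q.lam j|

theorem h_nonneg : 0 ≤ q.h := Finset.sum_nonneg fun j _ => q.pos _ fun v => by
  rw [ContinuousMap.abs_apply]
  exact abs_nonneg _

/-- the logarithm of the size of a monomial -/
noncomputable def ml (w : Fin d → ℝ) : C(q.V, ℝ) := ∑ j, w j • q.lam j

theorem ml_apply (w : Fin d → ℝ) (v : q.V) : q.ml w v = ∑ j, w j * q.lam j v := by
  unfold ml
  rw [ContinuousMap.sum_apply]
  rfl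

theorem ml_sub (w w' : Fin d → ℝ) : q.ml (w - w') = q.ml w - q.ml w' := by
  unfold ml
  rw [← Finset.sum_sub_distrib]
  exact Finset.sum_congr rfl fun j _ => by rw [Pi.sub_apply, sub_smul]

theorem ml_add (w w' : Fin d → ℝ) : q.ml (w + w') = q.ml w + q.ml w' := by
  unfold ml
  rw [← Finset.sum_add_distrib]
  exact Finset.sum_congr rfl fun j _ => by rw [Pi.add_apply, add_smul]

theorem ml_smul (c : ℝ) (w : Fin d → ℝ) : q.ml (c • w) = c • q.ml w := by
  unfold ml
  rw [Finset.smul_sum]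
  exact Finset.sum_congr rfl fun j _ => by rw [Pi.smul_apply, smul_eq_mul, mul_smul]

/-- the exponent as a real vector -/
def rv (γ : Fin d →₀ ℕ) : Fin d → ℝ := fun j => (γ j : ℝ)

theorem abs_mon (γ : Fin d →₀ ℕ) (v : q.V) :
    f (q.t v) (∏ j, q.s v j ^ γ j) = Real.exp (q.ml (rv γ) v) := by
  rw [ml_apply, Real.exp_sum, map_prod]
  refine Finset.prod_congr rfl fun j _ => ?_
  have h1 : 0 < f (q.t v) (q.s v j) := AbsoluteValue.pos _ (q.s_ne v j)
  rw [map_pow, q.lam_eq, rv, Real.exp_nat_mul, Real.exp_log h1]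

theorem I_ml_le {Er : ℝ} (hE : ∀ j, |q.I (q.lam j)| ≤ Er) (w : Fin d → ℝ) :
    |q.I (q.ml w)| ≤ (∑ j, |w j|) * Er := by
  unfold ml
  rw [map_sum, Finset.sum_mul]
  refine (Finset.abs_sum_le_sum_abs _ _).trans (Finset.sum_le_sum fun j _ => ?_)
  rw [map_smul, smul_eq_mul, abs_mul]
  exact mul_le_mul_of_nonneg_left (hE j) (abs_nonneg _)

/-- the conclusion of the subspace theorem -/
def ST {a b : MvPolynomial (Fin d) Ω} (D : Dat a b) (β : C(q.V, ℝ)) (Er : ℝ) : Prop :=
  ∀ G : C(q.V, ℝ), (∀ v, ∃ e, ∏ i, f (q.t v) (eval (q.s v) (D.φ e i)) ≤ Real.exp (G v)) →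
    D.M * q.I β ≤ q.I G + Er

/-- `β` is the logarithm of the size of `b` -/
def Rep (b : MvPolynomial (Fin d) Ω) (β : C(q.V, ℝ)) : Prop :=
  ∀ v, eval (q.s v) b ≠ 0 ∧ β v = Real.log (f (q.t v) (eval (q.s v) b))

end Sc

section

variable (a b : MvPolynomial (Fin d) Ω) (W : Submodule Ω (MvPolynomial (Fin d) Ω))
  [FiniteDimensional Ω W] (hW : ∀ w ∈ W, ∃ f g, f * a + g * b = w) (M : ℕ)
  (hM : Module.finrank Ω W = M) (E : Type) [Fintype E]
  (φ : E → Fin M → MvPolynomial (Fin d) Ω) (hφ : ∀ e i, φ e i ∈ W)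

omit [Fintype E] in
theorem det_repr (B : Module.Basis (Fin M) Ω W) (hM : Module.finrank Ω W = M) (hli : ∀ e, LinearIndependent Ω (φ e)) (e : E) :
    (Matrix.of fun i j => B.repr ⟨φ e i, hφ e i⟩ j).det ≠ 0 := by
  classical
  have h1 : LinearIndependent Ω fun i => (⟨φ e i, hφ e i⟩ : W) := by
    apply LinearIndependent.of_comp W.subtype
    exact hli e
  have h2 : Submodule.span Ω (Set.range fun i => (⟨φ e i, hφ e i⟩ : W)) = ⊤ :=
    h1.span_eq_top_of_card_eq_finrank' (by rw [Fintype.card_fin, hM])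
  have h3 := (Module.Basis.is_basis_iff_det B).1 ⟨h1, h2⟩
  rw [Module.Basis.det_apply] at h3
  have h4 : (Matrix.of fun i j => B.repr ⟨φ e i, hφ e i⟩ j) =
      (B.toMatrix fun i => (⟨φ e i, hφ e i⟩ : W)).transpose := by
    ext i j
    rfl
  rw [h4, Matrix.det_transpose]
  exact h3.ne_zero

/-- Data from a subspace and finitely many bases. -/
noncomputable def mkDat (hli : ∀ e, LinearIndependent Ω (φ e)) : Dat a b where
  M := M
  E := E
  fin := inferInstance
  x := fun i => (Module.finBasisOfFinrankEq Ω W hM i : MvPolynomial (Fin d) Ω)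
  ind := (Module.finBasisOfFinrankEq Ω W hM).linearIndependent.map' W.subtype W.ker_subtype
  mem := fun i => hW _ (Module.finBasisOfFinrankEq Ω W hM i).2
  A := fun e => Matrix.of fun i j => (Module.finBasisOfFinrankEq Ω W hM).repr ⟨φ e i, hφ e i⟩ j
  det := det_repr W M E φ hφ _ hM hli

theorem mkDat_φ (hli : ∀ e, LinearIndependent Ω (φ e)) (e : E) (i : Fin M) :
    (mkDat a b W hW M hM E φ hφ hli).φ e i = φ e i := by
  set B := Module.finBasisOfFinrankEq Ω W hM with hB
  have h1 := congrArg (Subtype.val : W → _) (B.sum_repr ⟨φ e i, hφ e i⟩)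
  rw [AddSubmonoidClass.coe_finsetSum] at h1
  have h2 : ∀ j, ((B.repr ⟨φ e i, hφ e i⟩ j • B j : W) : MvPolynomial (Fin d) Ω) =
      C (B.repr ⟨φ e i, hφ e i⟩ j) * (B j : MvPolynomial (Fin d) Ω) := by
    intro j
    rw [Submodule.coe_smul, smul_eq_C_mul]
  simp only [h2] at h1
  exact h1

end

end Pool.Agent.Run7.h983
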