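import Mathlib
import Pool.Agent.Run7.h983.Sc

/-!
# The gcd estimate
-/

set_option autoImplicit false

namespace Pool.Agent.Run7.h983

open MvPolynomial

variable {Ω : Type} [Field Ω] {T : Type} {f : T → AbsoluteValue Ω ℝ} {d : ℕ}

/-- an order of a finite set along which a function increases -/
theorem exists_sort {B : Type} {m : ℕ} (e0 : B ≃ Fin m) (g : B → ℝ) :
    ∃ e : B ≃ Fin m, ∀ γ γ', e γ ≤ e γ' → g γ ≤ g γ' := by
  let σ := Tuple.sort (g ∘ e0.symm)
  have hσ : Monotone ((g ∘ e0.symm) ∘ σ) := Tuple.monotone_sort _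
  refine ⟨e0.trans σ.symm, fun γ γ' h => ?_⟩
  have h1 := hσ h
  simpa using h1

/-- the triangle inequality for the values of a polynomial -/
theorem abs_eval_le (q : Sc Ω f d) (v : q.V) (p : MvPolynomial (Fin d) Ω) (c : ℝ)
    (hc : ∀ γ ∈ p.support, q.ml (Sc.rv γ) v ≤ c) :
    f (q.t v) (eval (q.s v) p) ≤ (∑ γ ∈ p.support, f (q.t v) (coeff γ p)) * Real.exp c := by
  rw [eval_eq', Finset.sum_mul]
  refine ((f (q.t v)).sum_le _ _).trans (Finset.sum_le_sum fun γ hγ => ?_)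
  rw [map_mul, q.abs_mon]
  exact mul_le_mul_of_nonneg_left (Real.exp_le_exp.2 (hc γ hγ)) ((f (q.t v)).nonneg _)

/-- **The gcd estimate.** -/
theorem I1 [Fintype T] (f : T → AbsoluteValue Ω ℝ) (a b : MvPolynomial (Fin d) Ω) (hb : b ≠ 0)
    (hab : IsRelPrime a b) (η : ℝ) (hη : 0 < η) :
    ∃ (D : Dat a b) (K : ℝ), 0 ≤ K ∧ ∀ (q : Sc Ω f d) (β : C(q.V, ℝ)) (Er : ℝ), q.I 1 ≤ Er →
      (∀ j, |q.I (q.lam j)| ≤ Er) → q.ST D β Er → q.I β ≤ K * Er + η * q.h := by
  classical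
  obtain ⟨N, hN1, hM1, hN⟩ := exists_N a b hb hab η hη
  set B : Finset (Fin d →₀ ℕ) := bx (fun _ => N) with hB
  have hBc : B.card = N ^ d := by
    rw [hB, card_bx]
    simp
  let E := B ≃ Fin B.card
  let ord : E → (Fin d →₀ ℕ) → ℕ := fun e γ => if h : γ ∈ B then (e ⟨γ, h⟩ : ℕ) else 0
  have hord1 : ∀ (e : E) γ (h : γ ∈ B), ord e γ = (e ⟨γ, h⟩ : ℕ) := fun e γ h => dif_pos h
  have hord : ∀ e : E, Set.InjOn (ord e) (B : Set (Fin d →₀ ℕ)) := by
    intro e γ hγ γ' hγ' h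
    rw [hord1 e γ hγ, hord1 e γ' hγ'] at h
    have := e.injective (Fin.ext h)
    exact congrArg Subtype.val this
  have hech := fun e : E => echelon (WN a b N) B (fun γ => lcoeff Ω γ) (by
    intro w hw h0
    have h1 := (mem_WN.1 hw).1
    by_contra hne
    obtain ⟨γ, hγ⟩ := support_nonempty.2 hne
    exact mem_support_iff.1 hγ (h0 γ (h1 hγ))) (ord e) (hord e)
  choose P φ hPB hcard hφ hli using hech
  set M := Module.finrank Ω (WN a b N) with hM
  let ee : ∀ e : E, P e ≃ Fin M := fun e => Finset.equivFinOfCardEq (hcard e)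
  let φ' : E → Fin M → MvPolynomial (Fin d) Ω := fun e i => φ e ((ee e).symm i)
  let D : Dat a b := mkDat a b (WN a b N) (fun w hw => (mem_WN.1 hw).2) M rfl E φ'
    (fun e i => (hφ e _ ((ee e).symm i).2).1)
    (fun e => (hli e).comp (ee e).symm (ee e).symm.injective)
  have hDφ : ∀ (e : E) (i : Fin M), D.φ e i = φ' e i := mkDat_φ a b (WN a b N) _ M rfl E φ' _ _
  set C0 : ℝ := 1 + ∑ t, ∑ e, ∑ j ∈ P e, ∑ γ ∈ (φ e j).support, f t (coeff γ (φ e j)) with hC0
  have hnn : ∀ t e j, 0 ≤ ∑ γ ∈ (φ e j).support, f t (coeff γ (φ e j)) := fun t e j =>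
    Finset.sum_nonneg fun γ _ => (f t).nonneg _
  have hC01 : 1 ≤ C0 := by
    have : 0 ≤ ∑ t, ∑ e, ∑ j ∈ P e, ∑ γ ∈ (φ e j).support, f t (coeff γ (φ e j)) :=
      Finset.sum_nonneg fun t _ => Finset.sum_nonneg fun e _ => Finset.sum_nonneg fun j _ =>
        hnn t e j
    linarith
  have hC0' : ∀ t e, ∀ j ∈ P e, ∑ γ ∈ (φ e j).support, f t (coeff γ (φ e j)) ≤ C0 := by
    intro t e j hj
    have h1 := Finset.single_le_sum (f := fun j => ∑ γ ∈ (φ e j).support, f t (coeff γ (φ e j)))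
      (fun j _ => hnn t e j) hj
    have h2 := Finset.single_le_sum
      (f := fun e => ∑ j ∈ P e, ∑ γ ∈ (φ e j).support, f t (coeff γ (φ e j)))
      (fun e _ => Finset.sum_nonneg fun j _ => hnn t e j) (Finset.mem_univ e)
    have h3 := Finset.single_le_sum
      (f := fun t => ∑ e, ∑ j ∈ P e, ∑ γ ∈ (φ e j).support, f t (coeff γ (φ e j)))
      (fun t _ => Finset.sum_nonneg fun e _ => Finset.sum_nonneg fun j _ => hnn t e j)
      (Finset.mem_univ t)
    linarith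
  have hlog : 0 ≤ Real.log C0 := Real.log_nonneg hC01
  have hMpos : (0 : ℝ) < M := by exact_mod_cast hM1
  set K0 : ℝ := M * Real.log C0 + ∑ γ ∈ B, ∑ j, |Sc.rv γ j| + 1 with hK0
  have hK00 : 0 ≤ K0 := by
    have : 0 ≤ ∑ γ ∈ B, ∑ j, |Sc.rv γ j| :=
      Finset.sum_nonneg fun γ _ => Finset.sum_nonneg fun j _ => abs_nonneg _
    positivity
  refine ⟨D, K0 / M, by positivity, fun q β Er h1 hE hST => ?_⟩
  let L : C(q.V, ℝ) := ∑ j, |q.lam j|
  have hL : ∀ v, L v = ∑ j, |q.lam j v| := by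
    intro v
    show (∑ j, |q.lam j| : C(q.V, ℝ)) v = _
    rw [ContinuousMap.sum_apply]
    rfl
  have hIL : q.I L = q.h := by
    show q.I (∑ j, |q.lam j| : C(q.V, ℝ)) = _
    rw [map_sum]
    rfl
  let G : C(q.V, ℝ) := (M * Real.log C0) • (1 : C(q.V, ℝ)) + ∑ γ ∈ B, q.ml (Sc.rv γ) +
    (((N : ℝ) ^ d - M) * N) • L
  have hG : ∀ v, G v = M * Real.log C0 + ∑ γ ∈ B, q.ml (Sc.rv γ) v +
      (((N : ℝ) ^ d - M) * N) * ∑ j, |q.lam j v| := by
    intro v
    show ((M * Real.log C0) • (1 : C(q.V, ℝ)) + ∑ γ ∈ B, q.ml (Sc.rv γ) +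
      (((N : ℝ) ^ d - M) * N) • L : C(q.V, ℝ)) v = _
    rw [ContinuousMap.add_apply, ContinuousMap.add_apply, ContinuousMap.sum_apply]
    simp only [ContinuousMap.smul_apply, ContinuousMap.one_apply, smul_eq_mul, mul_one, hL]
  have hIG : q.I G ≤ (M * Real.log C0) * Er + (∑ γ ∈ B, ∑ j, |Sc.rv γ j|) * Er +
      (((N : ℝ) ^ d - M) * N) * q.h := by
    show q.I ((M * Real.log C0) • (1 : C(q.V, ℝ)) + ∑ γ ∈ B, q.ml (Sc.rv γ) +
      (((N : ℝ) ^ d - M) * N) • L) ≤ _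
    rw [map_add, map_add, map_smul, map_smul, map_sum, smul_eq_mul, smul_eq_mul, hIL]
    have h2 : (M * Real.log C0) * q.I 1 ≤ (M * Real.log C0) * Er :=
      mul_le_mul_of_nonneg_left h1 (by positivity)
    have h3 : ∑ γ ∈ B, q.I (q.ml (Sc.rv γ)) ≤ (∑ γ ∈ B, ∑ j, |Sc.rv γ j|) * Er := by
      rw [Finset.sum_mul]
      exact Finset.sum_le_sum fun γ _ => (le_abs_self _).trans (q.I_ml_le hE _)
    linarith
  have hST' := hST G ?_
  · have h2 : (M : ℝ) * q.I β ≤ K0 * Er + η * M * q.h := by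
      have h3 : (((N : ℝ) ^ d - M) * N) * q.h ≤ η * M * q.h :=
        mul_le_mul_of_nonneg_right hN q.h_nonneg
      have h4 : (D.M : ℝ) = M := rfl
      rw [h4] at hST'
      rw [hK0]
      linarith
    have h5 : q.I β = (M * q.I β) / M := by field_simp
    rw [h5, div_le_iff₀ hMpos]
    have h6 : (K0 / M * Er + η * q.h) * M = K0 * Er + η * M * q.h := by
      field_simp
    rw [h6]
    exact h2
  · intro v
    obtain ⟨e, he⟩ := exists_sort B.equivFin (fun γ : B => q.ml (Sc.rv γ.1) v)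
    refine ⟨e, ?_⟩
    have hprod : ∏ i : Fin D.M, f (q.t v) (eval (q.s v) (D.φ e i)) =
        ∏ j ∈ P e, f (q.t v) (eval (q.s v) (φ e j)) := by
      have h2 : ∏ i : Fin M, f (q.t v) (eval (q.s v) (φ e ((ee e).symm i))) =
          ∏ j : P e, f (q.t v) (eval (q.s v) (φ e j)) :=
        Equiv.prod_comp (ee e).symm fun j : P e => f (q.t v) (eval (q.s v) (φ e j))
      rw [← Finset.prod_coe_sort (P e) fun j => f (q.t v) (eval (q.s v) (φ e j)), ← h2]
      exact Finset.prod_congr rfl fun i _ => congrArg (fun p => f (q.t v) (eval (q.s v) p))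
        (hDφ e i)
    rw [hprod]
    have hstep : ∀ j ∈ P e, f (q.t v) (eval (q.s v) (φ e j)) ≤
        C0 * Real.exp (q.ml (Sc.rv j) v) := by
      intro j hj
      have hjB := hPB e hj
      refine (abs_eval_le q v (φ e j) (q.ml (Sc.rv j) v) fun γ hγ => ?_).trans
        (mul_le_mul_of_nonneg_right (hC0' _ _ _ hj) (Real.exp_pos _).le)
      have hγB : γ ∈ B := (mem_WN.1 (hφ e j hj).1).1 hγ
      have h2 : ¬ ord e j < ord e γ := fun h3 => mem_support_iff.1 hγ ((hφ e j hj).2 γ hγB h3)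
      rw [hord1 e j hjB, hord1 e γ hγB, not_lt] at h2
      exact he ⟨γ, hγB⟩ ⟨j, hjB⟩ h2
    refine (Finset.prod_le_prod (fun j _ => (f (q.t v)).nonneg _) hstep).trans ?_
    rw [Finset.prod_mul_distrib, Finset.prod_const, hcard, ← Real.exp_sum]
    have h3 : C0 ^ M = Real.exp (M * Real.log C0) := by
      rw [Real.exp_nat_mul, Real.exp_log (by linarith)]
    rw [h3, ← Real.exp_add, Real.exp_le_exp, hG]
    have h4 : ∑ γ ∈ B, q.ml (Sc.rv γ) v = ∑ γ ∈ B \ P e, q.ml (Sc.rv γ) v +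
        ∑ γ ∈ P e, q.ml (Sc.rv γ) v := (Finset.sum_sdiff (hPB e)).symm
    have h5 : -(((N : ℝ) ^ d - M) * N * ∑ j, |q.lam j v|) ≤ ∑ γ ∈ B \ P e, q.ml (Sc.rv γ) v := by
      have h6 : ((B \ P e).card : ℝ) = (N : ℝ) ^ d - M := by
        rw [Finset.card_sdiff_of_subset (hPB e), hcard, hBc, Nat.cast_sub (WN_le_BX a b N)]
        push_cast
        rfl
      rw [← h6, mul_assoc, ← nsmul_eq_mul, ← smul_neg, ← Finset.sum_const]
      refine Finset.sum_le_sum fun γ hγ => ?_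
      have hγB := Finset.mem_sdiff.1 hγ
      have h7 := mem_bx.1 hγB.1
      rw [q.ml_apply, neg_le, Finset.mul_sum, ← Finset.sum_neg_distrib]
      refine Finset.sum_le_sum fun j _ => ?_
      have h8 : (Sc.rv γ j : ℝ) ≤ N := by
        unfold Sc.rv
        exact_mod_cast (h7 j).le
      have h9 : 0 ≤ Sc.rv γ j := Nat.cast_nonneg _
      calc -(Sc.rv γ j * q.lam j v) ≤ Sc.rv γ j * |q.lam j v| := by
            have := neg_abs_le (q.lam j v)
            nlinarith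
        _ ≤ _ := mul_le_mul_of_nonneg_right h8 (abs_nonneg _)
    linarith

end Pool.Agent.Run7.h983
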