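import Mathlib
import Pool.Agent.Run7.h983.I1

/-!
# The size of a polynomial in units is the size of its largest monomial
-/

set_option autoImplicit false

namespace Pool.Agent.Run7.h983

open MvPolynomial

variable {Ω : Type} [Field Ω] {T : Type} {d : ℕ}

/-- the data -/
noncomputable def dat2 (b : MvPolynomial (Fin d) Ω) : Dat (0 : MvPolynomial (Fin d) Ω) 1 where
  M := b.support.card
  E := Fin b.support.card
  fin := inferInstance
  x := fun i => monomial (b.support.equivFin.symm i : Fin d →₀ ℕ) 1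
  ind := by
    have h1 := (basisMonomials (Fin d) Ω).linearIndependent
    have h2 := h1.comp (fun i : Fin b.support.card => (b.support.equivFin.symm i : Fin d →₀ ℕ))
      (Subtype.val_injective.comp b.support.equivFin.symm.injective)
    rw [coe_basisMonomials] at h2
    exact h2
  mem := fun i => ⟨0, monomial (b.support.equivFin.symm i : Fin d →₀ ℕ) 1, by ring⟩
  A := fun e => (1 : Matrix (Fin b.support.card) (Fin b.support.card) Ω).updateRow e
    fun j => coeff (b.support.equivFin.symm j : Fin d →₀ ℕ) b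
  det := by
    intro e
    have h1 := Matrix.cramer_transpose_apply
      (1 : Matrix (Fin b.support.card) (Fin b.support.card) Ω)
      (fun j => coeff (b.support.equivFin.symm j : Fin d →₀ ℕ) b) e
    rw [← h1, Matrix.transpose_one, Matrix.cramer_one]
    exact mem_support_iff.1 (b.support.equivFin.symm e).2

theorem dat2_φ (b : MvPolynomial (Fin d) Ω) (e i : Fin b.support.card) :
    (dat2 b).φ e i = if i = e then b else monomial (b.support.equivFin.symm i : Fin d →₀ ℕ) 1 := by
  classical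
  show ∑ j : Fin b.support.card, C ((1 : Matrix (Fin b.support.card) (Fin b.support.card)
    Ω).updateRow e (fun j => coeff (b.support.equivFin.symm j : Fin d →₀ ℕ) b) i j) *
      monomial (b.support.equivFin.symm j : Fin d →₀ ℕ) 1 = _
  split_ifs with h
  · rw [h]
    simp only [Matrix.updateRow_self, C_mul_monomial, mul_one]
    have h1 : ∑ j : Fin b.support.card, monomial (b.support.equivFin.symm j : Fin d →₀ ℕ)
        (coeff (b.support.equivFin.symm j : Fin d →₀ ℕ) b) =
          ∑ γ : b.support, monomial (γ : Fin d →₀ ℕ) (coeff (γ : Fin d →₀ ℕ) b) :=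
      Equiv.sum_comp b.support.equivFin.symm fun γ : b.support =>
        monomial (γ : Fin d →₀ ℕ) (coeff (γ : Fin d →₀ ℕ) b)
    rw [h1, Finset.sum_coe_sort b.support fun γ => monomial γ (coeff γ b)]
    exact b.as_sum.symm
  · simp only [Matrix.updateRow_ne h, Matrix.one_apply]
    rw [Finset.sum_eq_single i]
    · simp
    · intro j _ hj
      rw [if_neg (Ne.symm hj), C_0, zero_mul]
    · intro h2
      exact absurd (Finset.mem_univ i) h2

/-- **The size of a polynomial in units.** -/
theorem I2 (f : T → AbsoluteValue Ω ℝ) (b : MvPolynomial (Fin d) Ω) (hb : b ≠ 0) :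
    ∃ K : ℝ, 0 ≤ K ∧ ∀ (q : Sc Ω f d) (β : C(q.V, ℝ)) (Er : ℝ), q.I 1 ≤ Er →
      (∀ j, |q.I (q.lam j)| ≤ Er) → q.Rep b β → q.ST (dat2 b) 0 Er →
        ∀ γ ∈ b.support, ∀ γ' ∈ b.support,
          q.I |q.ml (Sc.rv γ) - q.ml (Sc.rv γ')| ≤ 2 * q.I β + K * Er := by
  classical
  have hne : b.support.Nonempty := support_nonempty.2 hb
  set K1 : ℝ := ∑ γ ∈ b.support, ∑ j, |Sc.rv γ j| + 1 with hK1
  have hK10 : 0 ≤ ∑ γ ∈ b.support, ∑ j, |Sc.rv γ j| :=
    Finset.sum_nonneg fun γ _ => Finset.sum_nonneg fun j _ => abs_nonneg _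
  refine ⟨4 * K1, by positivity, fun q β Er h1 hE hR hST γ hγ γ' hγ' => ?_⟩
  have hEr : 0 ≤ Er := (q.pos 1 fun v => zero_le_one).trans h1
  let S : C(q.V, ℝ) := b.support.sup' hne fun γ => q.ml (Sc.rv γ)
  have hS : ∀ v, S v = b.support.sup' hne fun γ => q.ml (Sc.rv γ) v := by
    intro v
    exact ContinuousMap.sup'_apply _ _ v
  let G : C(q.V, ℝ) := β + ∑ γ ∈ b.support, q.ml (Sc.rv γ) - S
  have hG : ∀ v, G v = β v + ∑ γ ∈ b.support, q.ml (Sc.rv γ) v - S v := by
    intro v
    show (β + ∑ γ ∈ b.support, q.ml (Sc.rv γ) - S : C(q.V, ℝ)) v = _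
    rw [ContinuousMap.sub_apply, ContinuousMap.add_apply, ContinuousMap.sum_apply]
  have hle : ∀ γ ∈ b.support, |q.I (q.ml (Sc.rv γ))| ≤ (K1 - 1) * Er := by
    intro γ hγ
    refine (q.I_ml_le hE _).trans (mul_le_mul_of_nonneg_right ?_ hEr)
    have := Finset.single_le_sum (f := fun γ => ∑ j, |Sc.rv γ j|)
      (fun γ _ => Finset.sum_nonneg fun j _ => abs_nonneg _) hγ
    linarith
  have hsum : q.I (∑ γ ∈ b.support, q.ml (Sc.rv γ)) ≤ (K1 - 1) * Er := by
    rw [map_sum, hK1, add_sub_cancel_right, Finset.sum_mul]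
    exact Finset.sum_le_sum fun γ _ => (le_abs_self _).trans (q.I_ml_le hE _)
  have hST' := hST G ?_
  · rw [map_zero, mul_zero] at hST'
    have h2 : q.I G = q.I β + q.I (∑ γ ∈ b.support, q.ml (Sc.rv γ)) - q.I S := by
      show q.I (β + ∑ γ ∈ b.support, q.ml (Sc.rv γ) - S) = _
      rw [map_sub, map_add]
    have h3 : q.I S ≤ q.I β + K1 * Er := by linarith
    have h4 : q.I |q.ml (Sc.rv γ) - q.ml (Sc.rv γ')| ≤
        q.I ((2 : ℝ) • S - q.ml (Sc.rv γ) - q.ml (Sc.rv γ')) := by
      apply q.mono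
      intro v
      rw [ContinuousMap.abs_apply, ContinuousMap.sub_apply, ContinuousMap.sub_apply,
        ContinuousMap.sub_apply, ContinuousMap.smul_apply, smul_eq_mul, hS]
      have e1 := Finset.le_sup' (fun γ => q.ml (Sc.rv γ) v) hγ
      have e2 := Finset.le_sup' (fun γ => q.ml (Sc.rv γ) v) hγ'
      rw [abs_le]
      constructor <;> linarith
    rw [map_sub, map_sub, map_smul, smul_eq_mul] at h4
    have h5 := (abs_le.1 (hle γ hγ)).1
    have h6 := (abs_le.1 (hle γ' hγ')).1
    linarith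
  · intro v
    obtain ⟨γ0, hγ0, hmax⟩ := Finset.exists_max_image b.support
      (fun γ => q.ml (Sc.rv γ) v) hne
    set e : Fin b.support.card := b.support.equivFin ⟨γ0, hγ0⟩ with he
    have hee : (b.support.equivFin.symm e : Fin d →₀ ℕ) = γ0 := by
      rw [he, Equiv.symm_apply_apply]
    refine ⟨e, ?_⟩
    have hSv : S v = q.ml (Sc.rv γ0) v := by
      rw [hS]
      apply le_antisymm
      · exact Finset.sup'_le hne _ hmax
      · exact Finset.le_sup' (fun γ => q.ml (Sc.rv γ) v) hγ0
    have h2 : ∀ i : Fin b.support.card, f (q.t v) (eval (q.s v) ((dat2 b).φ e i)) =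
        if i = e then Real.exp (β v) else
          Real.exp (q.ml (Sc.rv (b.support.equivFin.symm i : Fin d →₀ ℕ)) v) := by
      intro i
      rw [dat2_φ]
      split_ifs with h
      · rw [(hR v).2, Real.exp_log (AbsoluteValue.pos _ (hR v).1)]
      · rw [eval_monomial, one_mul, Finsupp.prod_fintype _ _ (fun j => pow_zero _), q.abs_mon]
    have h3 : ∏ i : Fin b.support.card, f (q.t v) (eval (q.s v) ((dat2 b).φ e i)) =
        Real.exp (β v) * ∏ i ∈ Finset.univ.erase e,
          Real.exp (q.ml (Sc.rv (b.support.equivFin.symm i : Fin d →₀ ℕ)) v) := by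
      rw [← Finset.mul_prod_erase Finset.univ _ (Finset.mem_univ e), h2, if_pos rfl]
      congr 1
      refine Finset.prod_congr rfl fun i hi => ?_
      rw [h2, if_neg (Finset.ne_of_mem_erase hi)]
    have h4 : ∑ i ∈ Finset.univ.erase e,
        q.ml (Sc.rv (b.support.equivFin.symm i : Fin d →₀ ℕ)) v =
        ∑ γ ∈ b.support, q.ml (Sc.rv γ) v - q.ml (Sc.rv γ0) v := by
      have h5 : ∑ i : Fin b.support.card,
          q.ml (Sc.rv (b.support.equivFin.symm i : Fin d →₀ ℕ)) v =
            ∑ γ : b.support, q.ml (Sc.rv (γ : Fin d →₀ ℕ)) v :=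
        Equiv.sum_comp b.support.equivFin.symm fun γ : b.support =>
          q.ml (Sc.rv (γ : Fin d →₀ ℕ)) v
      rw [← Finset.sum_coe_sort b.support fun γ => q.ml (Sc.rv γ) v, ← h5,
        ← Finset.add_sum_erase Finset.univ _ (Finset.mem_univ e), hee]
      ring
    have h6 : ∏ i : Fin (dat2 b).M, f (q.t v) (eval (q.s v) ((dat2 b).φ e i)) =
        ∏ i : Fin b.support.card, f (q.t v) (eval (q.s v) ((dat2 b).φ e i)) := rfl
    rw [h6, h3, ← Real.exp_sum, ← Real.exp_add, h4, hG, hSv]
    apply le_of_eq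
    congr 1
    ring

end Pool.Agent.Run7.h983
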