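import Mathlib
import Pool.Agent.Run7.h983.I2

/-!
# The core inequality
-/

set_option autoImplicit false

namespace Pool.Agent.Run7.h983

open MvPolynomial

variable {Ω : Type} [Field Ω] {T : Type} {d : ℕ}

theorem I3 (f : T → AbsoluteValue Ω ℝ) (Δ : Set (Fin d → ℝ)) (hΔ : Submodule.span ℝ Δ = ⊤) :
    ∃ K : ℝ, 0 ≤ K ∧ ∀ (q : Sc Ω f d) (X : ℝ), (∀ δ ∈ Δ, q.I |q.ml δ| ≤ X) → q.h ≤ K * X := by
  have key : ∀ w ∈ Submodule.span ℝ Δ, ∃ K : ℝ, 0 ≤ K ∧ ∀ (q : Sc Ω f d) (X : ℝ),
      (∀ δ ∈ Δ, q.I |q.ml δ| ≤ X) → q.I |q.ml w| ≤ K * X := by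
    intro w hw
    induction hw using Submodule.span_induction with
    | mem x hx => exact ⟨1, zero_le_one, fun q X h => by rw [one_mul]; exact h x hx⟩
    | zero =>
      refine ⟨0, le_rfl, fun q X _ => ?_⟩
      have : q.ml 0 = 0 := by
        unfold Sc.ml
        simp
      rw [this, abs_zero, map_zero, zero_mul]
    | add x y _ _ hx hy =>
      obtain ⟨K, hK, h1⟩ := hx
      obtain ⟨K', hK', h2⟩ := hy
      refine ⟨K + K', add_nonneg hK hK', fun q X h => ?_⟩
      have h3 : q.I |q.ml (x + y)| ≤ q.I (|q.ml x| + |q.ml y|) := by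
        apply q.mono
        intro v
        rw [q.ml_add, ContinuousMap.abs_apply, ContinuousMap.add_apply, ContinuousMap.add_apply,
          ContinuousMap.abs_apply, ContinuousMap.abs_apply]
        exact abs_add_le _ _
      rw [map_add] at h3
      have h4 := h1 q X h
      have h5 := h2 q X h
      rw [add_mul]
      linarith
    | smul c x _ hx =>
      obtain ⟨K, hK, h1⟩ := hx
      refine ⟨|c| * K, by positivity, fun q X h => ?_⟩
      have h3 : q.I |q.ml (c • x)| ≤ q.I (|c| • |q.ml x|) := by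
        apply q.mono
        intro v
        rw [q.ml_smul, ContinuousMap.abs_apply, ContinuousMap.smul_apply, ContinuousMap.smul_apply,
          ContinuousMap.abs_apply, smul_eq_mul, smul_eq_mul, abs_mul]
      rw [map_smul, smul_eq_mul] at h3
      refine h3.trans ?_
      rw [mul_assoc]
      exact mul_le_mul_of_nonneg_left (h1 q X h) (abs_nonneg _)
  choose K hK0 hK using fun j : Fin d => key (Pi.single j 1) (by rw [hΔ]; trivial)
  refine ⟨∑ j, K j, Finset.sum_nonneg fun j _ => hK0 j, fun q X h => ?_⟩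
  unfold Sc.h
  rw [Finset.sum_mul]
  refine Finset.sum_le_sum fun j _ => ?_
  have h1 := hK j q X h
  have h2 : q.ml (Pi.single j 1) = q.lam j := by
    unfold Sc.ml
    rw [Finset.sum_eq_single j]
    · rw [Pi.single_eq_same, one_smul]
    · intro i _ hi
      rw [Pi.single_eq_of_ne hi, zero_smul]
    · intro h3
      exact absurd (Finset.mem_univ j) h3
  rwa [h2] at h1

/-- the differences of the exponents -/
def dif {J : Type} (b : J → MvPolynomial (Fin d) Ω) : Set (Fin d → ℝ) :=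
  {w | ∃ j, ∃ γ ∈ (b j).support, ∃ γ' ∈ (b j).support, w = Sc.rv γ - Sc.rv γ'}

/-- **The core inequality.** -/
theorem core [Fintype T] (f : T → AbsoluteValue Ω ℝ) {J : Type} [Fintype J]
    (a b : J → MvPolynomial (Fin d) Ω) (hb : ∀ j, b j ≠ 0) (hab : ∀ j, IsRelPrime (a j) (b j))
    (hspan : Submodule.span ℝ (dif b) = ⊤) :
    ∃ (D : ∀ j, Dat (a j) (b j)) (K : ℝ), 0 ≤ K ∧ ∀ (q : Sc Ω f d) (β : J → C(q.V, ℝ)) (Er : ℝ),
      q.I 1 ≤ Er → (∀ j, |q.I (q.lam j)| ≤ Er) → (∀ j, q.Rep (b j) (β j)) →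
        (∀ j, q.ST (D j) (β j) Er) → (∀ j, q.ST (dat2 (b j)) 0 Er) → q.h ≤ K * Er := by
  classical
  obtain ⟨K, hK0, hK⟩ := I3 f (dif b) hspan
  set η : ℝ := 1 / (4 * (K + 1)) with hη
  have hηpos : 0 < η := by positivity
  choose D K1 hK1 hD using fun j => I1 f (a j) (b j) (hb j) (hab j) η hηpos
  choose K2 hK2 hD2 using fun j => I2 f (b j) (hb j)
  have hs1 : 0 ≤ ∑ j, K1 j := Finset.sum_nonneg fun j _ => hK1 j
  have hs2 : 0 ≤ ∑ j, K2 j := Finset.sum_nonneg fun j _ => hK2 j
  refine ⟨D, 2 * K * (2 * ∑ j, K1 j + ∑ j, K2 j), by positivity,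
    fun q β Er h1 hE hR hST hST2 => ?_⟩
  have hEr : 0 ≤ Er := (q.pos 1 fun v => zero_le_one).trans h1
  have h2 := hK q ((2 * ∑ j, K1 j + ∑ j, K2 j) * Er + 2 * η * q.h) (by
    rintro _ ⟨j, γ, hγ, γ', hγ', rfl⟩
    have h3 := hD j q (β j) Er h1 hE (hST j)
    have h4 := hD2 j q (β j) Er h1 hE (hR j) (hST2 j) γ hγ γ' hγ'
    rw [q.ml_sub]
    have h5 : K1 j * Er ≤ (∑ j, K1 j) * Er := mul_le_mul_of_nonneg_right
      (Finset.single_le_sum (f := K1) (fun j _ => hK1 j) (Finset.mem_univ j)) hEr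
    have h6 : K2 j * Er ≤ (∑ j, K2 j) * Er := mul_le_mul_of_nonneg_right
      (Finset.single_le_sum (f := K2) (fun j _ => hK2 j) (Finset.mem_univ j)) hEr
    linarith)
  have h3 : K * (2 * η * q.h) ≤ q.h / 2 := by
    have h4 : K * (2 * η) ≤ 1 / 2 := by
      rw [hη]
      have : K * (2 * (1 / (4 * (K + 1)))) = (K / (K + 1)) / 2 := by
        field_simp
        ring
      rw [this]
      have : K / (K + 1) ≤ 1 := by
        rw [div_le_one (by linarith)]
        linarith
      linarith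
    have h5 := mul_le_mul_of_nonneg_right h4 q.h_nonneg
    linarith
  linarith

/-- Either the differences span or there is a common direction of homogeneity. -/
theorem exists_dir {J : Type} (b : J → MvPolynomial (Fin d) Ω)
    (hspan : Submodule.span ℝ (dif b) ≠ ⊤) :
    ∃ l : Fin d → ℤ, l ≠ 0 ∧ ∀ j, ∀ γ ∈ (b j).support, ∀ γ' ∈ (b j).support,
      ∑ i, l i * (γ i : ℤ) = ∑ i, l i * (γ' i : ℤ) := by
  classical
  -- the rational span
  let Δ : Set (Fin d → ℚ) := {w | ∃ j, ∃ γ ∈ (b j).support, ∃ γ' ∈ (b j).support,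
    w = fun i => (γ i : ℚ) - (γ' i : ℚ)}
  have hQ : Submodule.span ℚ Δ ≠ ⊤ := by
    intro htop
    apply hspan
    have h1 : ∀ w ∈ Submodule.span ℚ Δ, (fun i => ((w i : ℚ) : ℝ)) ∈
        Submodule.span ℝ (dif b) := by
      intro w hw
      induction hw using Submodule.span_induction with
      | mem x hx =>
        obtain ⟨j, γ, hγ, γ', hγ', rfl⟩ := hx
        refine Submodule.subset_span ⟨j, γ, hγ, γ', hγ', ?_⟩
        funext i
        simp [Sc.rv]
      | zero =>
        have : (fun i => (((0 : Fin d → ℚ) i : ℚ) : ℝ)) = 0 := by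
          funext i
          simp
        rw [this]
        exact zero_mem _
      | add x y _ _ hx hy =>
        have : (fun i => (((x + y : Fin d → ℚ) i : ℚ) : ℝ)) =
            (fun i => ((x i : ℚ) : ℝ)) + fun i => ((y i : ℚ) : ℝ) := by
          funext i
          simp
        rw [this]
        exact add_mem hx hy
      | smul c x _ hx =>
        have : (fun i => (((c • x : Fin d → ℚ) i : ℚ) : ℝ)) =
            (c : ℝ) • fun i => ((x i : ℚ) : ℝ) := by
          funext i
          simp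
        rw [this]
        exact Submodule.smul_mem _ _ hx
    rw [eq_top_iff]
    rintro w -
    have h2 : w = ∑ i, w i • (Pi.single i 1 : Fin d → ℝ) := by
      funext k
      rw [Finset.sum_apply, Finset.sum_eq_single k]
      · simp
      · intro i _ hi
        rw [Pi.smul_apply, Pi.single_eq_of_ne (Ne.symm hi), smul_zero]
      · intro h3
        exact absurd (Finset.mem_univ k) h3
    rw [h2]
    refine sum_mem fun i _ => Submodule.smul_mem _ _ ?_
    have h3 := h1 (Pi.single i 1) (by rw [htop]; trivial)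
    have h4 : (fun k => (((Pi.single i 1 : Fin d → ℚ) k : ℚ) : ℝ)) = Pi.single i 1 := by
      funext k
      by_cases hk : k = i
      · rw [hk]
        simp
      · rw [Pi.single_eq_of_ne hk, Pi.single_eq_of_ne hk]
        simp
    rwa [h4] at h3
  obtain ⟨φ, hφ, hker⟩ := Submodule.exists_le_ker_of_lt_top _ (lt_top_iff_ne_top.2 hQ)
  have hφe : ∀ w : Fin d → ℚ, φ w = ∑ i, w i * φ (Pi.single i 1) := by
    intro w
    have h2 : w = ∑ i, w i • (Pi.single i 1 : Fin d → ℚ) := by
      funext k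
      rw [Finset.sum_apply, Finset.sum_eq_single k]
      · simp
      · intro i _ hi
        rw [Pi.smul_apply, Pi.single_eq_of_ne (Ne.symm hi), smul_zero]
      · intro h3
        exact absurd (Finset.mem_univ k) h3
    conv_lhs => rw [h2]
    rw [map_sum]
    exact Finset.sum_congr rfl fun i _ => by rw [map_smul, smul_eq_mul]
  set c : Fin d → ℚ := fun i => φ (Pi.single i 1) with hc
  set Dn : ℕ := ∏ i, (c i).den with hDn
  have hDn0 : (Dn : ℚ) ≠ 0 := by
    rw [hDn]
    exact_mod_cast Finset.prod_ne_zero_iff.2 fun i _ => (c i).den_nz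
  have hint : ∀ i, ∃ z : ℤ, (z : ℚ) = Dn * c i := by
    intro i
    refine ⟨(∏ k ∈ Finset.univ.erase i, ((c k).den : ℤ)) * (c i).num, ?_⟩
    rw [hDn, ← Finset.mul_prod_erase Finset.univ _ (Finset.mem_univ i)]
    push_cast
    have h3 : ((c i).den : ℚ) * c i = (c i).num := by
      rw [mul_comm]
      exact Rat.mul_den_eq_num (c i)
    rw [mul_comm ((c i).den : ℚ), mul_assoc, h3]
  choose l hl using hint
  refine ⟨l, ?_, fun j γ hγ γ' hγ' => ?_⟩
  · rintro rfl
    apply hφ
    ext i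
    have h3 := hl i
    simp only [Pi.zero_apply, Int.cast_zero] at h3
    rcases mul_eq_zero.1 h3.symm with h | h
    · exact absurd h hDn0
    · simpa [hc] using h
  · have h3 : φ (fun i => (γ i : ℚ) - (γ' i : ℚ)) = 0 :=
      hker (Submodule.subset_span ⟨j, γ, hγ, γ', hγ', rfl⟩)
    rw [hφe] at h3
    have h4 : ∑ i, (l i : ℚ) * (γ i : ℚ) - ∑ i, (l i : ℚ) * (γ' i : ℚ) = 0 := by
      rw [← Finset.sum_sub_distrib]
      calc ∑ i, ((l i : ℚ) * (γ i : ℚ) - (l i : ℚ) * (γ' i : ℚ)) =
          Dn * ∑ i, ((γ i : ℚ) - (γ' i : ℚ)) * c i := by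
            rw [Finset.mul_sum]
            refine Finset.sum_congr rfl fun i _ => ?_
            rw [hl]
            ring
        _ = 0 := by rw [h3, mul_zero]
    have h5 := sub_eq_zero.1 h4
    exact_mod_cast h5

end Pool.Agent.Run7.h983
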