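import Mathlib
import Pool.Agent.Run7.h983.Core
import Pool.Agent.R405.SchP

/-!
# Heights of integral points; the scale given by finitely many places
-/

set_option autoImplicit false

namespace Pool.Agent.Run7.h983

open MvPolynomial NumberField IsDedekindDomain Height
open Pool.Agent.W180.OP (Pl av wt nrm le_nrm nrm_pos nrm_nonneg exists_nrm wt_nonneg fv
  fv_support_finite)

variable {L : Type} [Field L] [NumberField L]

/-- all archimedean places and the places in `S` -/
noncomputable def SS (S : Finset (HeightOneSpectrum (𝓞 L))) : Finset (Pl L) :=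
  Finset.univ.disjSum S

/-- The height of an integral vector. -/
theorem height_le (S : Finset (HeightOneSpectrum (𝓞 L))) {M : ℕ} (x : Fin M → L) (hx : x ≠ 0)
    (hint : ∀ v ∉ S, ∀ j, fv v (x j) ≤ 1) :
    logHeight x ≤ ∑ p ∈ SS S, wt p * Real.log (nrm (av p) x) := by
  classical
  obtain ⟨j0, hj0⟩ := Function.ne_iff.1 hx
  have hM : 0 < M := Fin.pos j0
  have hM' : Nonempty (Fin M) := ⟨j0⟩
  set g : HeightOneSpectrum (𝓞 L) → ℝ := fun v => nrm (fv v) x with hg
  have hg1 : ∀ v ∉ S, g v ≤ 1 := fun v hv => ciSup_le fun j => hint v hv j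
  have hgpos : ∀ v, 0 < g v := fun v => nrm_pos _ hx
  have hsupp : (Function.mulSupport g).Finite := by
    have h1 : (⋃ i : {i : Fin M // x i ≠ 0}, {v : HeightOneSpectrum (𝓞 L) | fv v (x i) ≠ 1}).Finite :=
      Set.finite_iUnion fun i => fv_support_finite i.2
    refine h1.subset fun v hv => ?_
    by_contra hc
    apply hv
    simp only [Set.mem_iUnion, not_exists, Set.mem_ofPred_eq, not_not] at hc
    show nrm (fv v) x = 1
    obtain ⟨i, hi⟩ := exists_nrm (fv v) hM x
    have hge := le_nrm (fv v) x j0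
    have h2 : fv v (x j0) = 1 := hc ⟨j0, hj0⟩
    by_cases h0 : x i = 0
    · rw [h0, map_zero] at hi
      rw [← hi, h2] at hge
      linarith
    · rw [← hi]
      exact hc ⟨i, h0⟩
  have e : ∏ᶠ v : FinitePlace L, ⨆ i, v (x i) = ∏ᶠ v : HeightOneSpectrum (𝓞 L), g v := by
    rw [← finprod_comp_equiv (FinitePlace.equivHeightOneSpectrum (K := L)).symm]
    rfl
  have e2 : ∏ᶠ v : HeightOneSpectrum (𝓞 L), g v = ∏ v ∈ hsupp.toFinset ∪ S, g v := by
    refine finprod_eq_prod_of_mulSupport_subset _ fun v hv => ?_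
    rw [Finset.coe_union, Set.Finite.coe_toFinset]
    exact Or.inl hv
  have hw : ∀ w : InfinitePlace L, (⨆ i, w (x i)) = nrm w.1 x := fun w => rfl
  have hwpos : ∀ w : InfinitePlace L, 0 < nrm w.1 x := fun w => nrm_pos _ hx
  have h4 : 0 < ∏ w : InfinitePlace L, (⨆ i, w (x i)) ^ w.mult :=
    Finset.prod_pos fun w _ => pow_pos (by rw [hw]; exact hwpos w) _
  have h5 : 0 < ∏ v ∈ hsupp.toFinset ∪ S, g v := Finset.prod_pos fun v _ => hgpos v
  rw [logHeight_eq_log_mulHeight, NumberField.mulHeight_eq hx, e, e2,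
    Real.log_mul h4.ne' h5.ne', Real.log_prod fun w _ => (pow_pos (by rw [hw]; exact hwpos w) _).ne',
    Real.log_prod fun v _ => (hgpos v).ne']
  unfold SS
  rw [Finset.sum_disjSum]
  refine add_le_add (le_of_eq ?_) ?_
  · exact Finset.sum_congr rfl fun w _ => by
      rw [Real.log_pow, hw]
      rfl
  · have h6 : ∑ v ∈ hsupp.toFinset ∪ S, Real.log (g v) ≤ ∑ v ∈ S, Real.log (g v) := by
      rw [← Finset.sum_sdiff (Finset.subset_union_right : S ⊆ hsupp.toFinset ∪ S)]
      have h7 : ∑ v ∈ (hsupp.toFinset ∪ S) \ S, Real.log (g v) ≤ 0 :=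
        Finset.sum_nonpos fun v hv => Real.log_nonpos (hgpos v).le
          (hg1 v (Finset.mem_sdiff.1 hv).2)
      linarith
    refine h6.trans (le_of_eq ?_)
    exact Finset.sum_congr rfl fun v _ => (one_mul _).symm

/-- the product formula for units -/
theorem unit_sum (S : Finset (HeightOneSpectrum (𝓞 L))) (u : L) (hu : u ≠ 0)
    (hint : ∀ v ∉ S, fv v u = 1) : ∑ p ∈ SS S, wt p * Real.log (av p u) = 0 := by
  have key : ∀ u : L, u ≠ 0 → (∀ v ∉ S, fv v u = 1) →
      0 ≤ ∑ p ∈ SS S, wt p * Real.log (av p u) := by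
    intro u hu hint
    have h1 := height_le S (fun _ : Fin 1 => u) (fun h => hu (congrFun h 0))
      (fun v hv _ => (hint v hv).le)
    have h2 : logHeight (fun _ : Fin 1 => u) = 0 := by
      rw [logHeight_eq_log_mulHeight, mulHeight_eq_one_of_subsingleton, Real.log_one]
    rw [h2] at h1
    refine h1.trans (le_of_eq (Finset.sum_congr rfl fun p _ => ?_))
    have h3 : nrm (av p) (fun _ : Fin 1 => u) = av p u := by
      unfold nrm
      exact ciSup_const
    rw [h3]
  apply le_antisymm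
  · have h1 := key u⁻¹ (inv_ne_zero hu) fun v hv => by
      rw [map_inv₀, hint v hv, inv_one]
    have h2 : ∑ p ∈ SS S, wt p * Real.log (av p u⁻¹) = -∑ p ∈ SS S, wt p * Real.log (av p u) := by
      rw [← Finset.sum_neg_distrib]
      refine Finset.sum_congr rfl fun p _ => ?_
      rw [map_inv₀, Real.log_inv]
      ring
    rw [h2] at h1
    linarith
  · exact key u hu hint

variable {d : ℕ}

/-- the absolute values -/
noncomputable def aL (S : Finset (HeightOneSpectrum (𝓞 L))) (p : {p : Pl L // p ∈ SS S}) :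
    AbsoluteValue L ℝ := av p.1

/-- the scale -/
noncomputable def arS (S : Finset (HeightOneSpectrum (𝓞 L))) (s : Fin d → L)
    (hs : ∀ j, s j ≠ 0) : Sc L (aL S) d :=
  letI : TopologicalSpace {p : Pl L // p ∈ SS S} := ⊥
  haveI : DiscreteTopology {p : Pl L // p ∈ SS S} := ⟨rfl⟩
  { V := {p : Pl L // p ∈ SS S}
    I :=
      { toFun := fun g => ∑ p : {p : Pl L // p ∈ SS S}, wt p.1 * g p
        map_add' := fun g g' => by
          rw [← Finset.sum_add_distrib]
          exact Finset.sum_congr rfl fun p _ => by rw [ContinuousMap.add_apply, mul_add]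
        map_smul' := fun c g => by
          rw [RingHom.id_apply, smul_eq_mul, Finset.mul_sum]
          refine Finset.sum_congr rfl fun p _ => ?_
          rw [ContinuousMap.smul_apply, smul_eq_mul]
          ring }
    pos := fun g hg => Finset.sum_nonneg fun p _ => mul_nonneg (wt_nonneg _) (hg p)
    t := fun p => p
    s := fun _ => s
    s_ne := fun _ j => hs j
    lam := fun j => ⟨fun p => Real.log (av p.1 (s j)), continuous_of_discreteTopology⟩
    lam_eq := fun v j => rfl }

theorem arS_I (S : Finset (HeightOneSpectrum (𝓞 L))) (s : Fin d → L) (hs : ∀ j, s j ≠ 0)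
    (g : C((arS S s hs).V, ℝ)) :
    (arS S s hs).I g = ∑ p : {p : Pl L // p ∈ SS S}, wt p.1 * g p := rfl

theorem arS_disc (S : Finset (HeightOneSpectrum (𝓞 L))) (s : Fin d → L) (hs : ∀ j, s j ≠ 0) :
    DiscreteTopology (arS S s hs).V := ⟨rfl⟩

theorem arS_h (S : Finset (HeightOneSpectrum (𝓞 L))) (s : Fin d → L) (hs : ∀ j, s j ≠ 0) :
    (arS S s hs).h = ∑ p ∈ SS S, wt p * ∑ j, |Real.log (av p (s j))| := by
  unfold Sc.h
  simp only [arS_I]
  rw [Finset.sum_comm, ← Finset.sum_coe_sort (SS S)]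
  refine Finset.sum_congr rfl fun p _ => ?_
  rw [Finset.mul_sum]
  rfl

theorem arS_lam (S : Finset (HeightOneSpectrum (𝓞 L))) (s : Fin d → L) (hs : ∀ j, s j ≠ 0)
    (hu : ∀ v ∉ S, ∀ j, fv v (s j) = 1) (j : Fin d) :
    (arS S s hs).I ((arS S s hs).lam j) = 0 := by
  rw [arS_I]
  have h1 := unit_sum S (s j) (hs j) fun v hv => hu v hv j
  rw [← Finset.sum_coe_sort (SS S)] at h1
  exact h1

omit [NumberField L] in
/-- bound for the values of a polynomial -/
theorem abs_poly (p : MvPolynomial (Fin d) L) : ∃ n : ℝ, 0 ≤ n ∧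
    ∀ (f : AbsoluteValue L ℝ) (x : Fin d → L), (∀ j, x j ≠ 0) →
      f (eval x p) ≤ (∑ γ ∈ p.support, f (coeff γ p)) *
        Real.exp (n * ∑ j, |Real.log (f (x j))|) := by
  classical
  set n : ℝ := ∑ γ ∈ p.support, ∑ j, (γ j : ℝ) with hn
  have hn0 : 0 ≤ n := Finset.sum_nonneg fun γ _ => Finset.sum_nonneg fun j _ => Nat.cast_nonneg _
  refine ⟨n, hn0, fun f x hx => ?_⟩
  set Λ : ℝ := ∑ j, |Real.log (f (x j))| with hΛ
  rw [eval_eq', Finset.sum_mul]
  refine (f.sum_le _ _).trans (Finset.sum_le_sum fun γ hγ => ?_)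
  rw [map_mul]
  refine mul_le_mul_of_nonneg_left ?_ (f.nonneg _)
  have h3 : f (∏ i, x i ^ γ i) = Real.exp (∑ i, (γ i : ℝ) * Real.log (f (x i))) := by
    rw [map_prod, Real.exp_sum]
    refine Finset.prod_congr rfl fun i _ => ?_
    rw [map_pow, Real.exp_nat_mul, Real.exp_log (f.pos (hx i))]
  rw [h3, Real.exp_le_exp]
  have h4 : ∀ i, (γ i : ℝ) ≤ n := by
    intro i
    have e1 := Finset.single_le_sum (f := fun j => (γ j : ℝ)) (fun j _ => Nat.cast_nonneg _)
      (Finset.mem_univ i)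
    have e2 := Finset.single_le_sum (f := fun γ : Fin d →₀ ℕ => ∑ j, (γ j : ℝ))
      (fun γ _ => Finset.sum_nonneg fun j _ => Nat.cast_nonneg _) hγ
    exact e1.trans e2
  rw [hΛ, Finset.mul_sum]
  refine Finset.sum_le_sum fun i _ => ?_
  calc (γ i : ℝ) * Real.log (f (x i)) ≤ (γ i : ℝ) * |Real.log (f (x i))| :=
        mul_le_mul_of_nonneg_left (le_abs_self _) (Nat.cast_nonneg _)
    _ ≤ _ := mul_le_mul_of_nonneg_right (h4 i) (abs_nonneg _)

end Pool.Agent.Run7.h983
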