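import Mathlib
import Pool.Agent.Run7.h983.Ar1
import Pool.Agent.W235.RM.Sparse

/-!
# The subspace theorem for the data
-/

set_option autoImplicit false

namespace Pool.Agent.Run7.h983

open MvPolynomial NumberField IsDedekindDomain Height
open Pool.Agent.W180.OP (Pl av wt nrm le_nrm nrm_pos nrm_nonneg exists_nrm wt_nonneg fv
  fv_support_finite)

variable {L : Type} [Field L] [NumberField L] {d : ℕ}

theorem fv_le_iff (v : HeightOneSpectrum (𝓞 L)) (x : L) : fv v x ≤ 1 ↔ v.valuation L x ≤ 1 :=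
  Pool.Agent.Y742.SF.fv_le_one_iff v x

theorem fv_eq_iff (v : HeightOneSpectrum (𝓞 L)) {x : L} (hx : x ≠ 0) :
    fv v x = 1 ↔ v.valuation L x = 1 := by
  have h1 := fv_le_iff v x
  have h2 := fv_le_iff v x⁻¹
  have hpos : 0 < fv v x := (fv v).pos hx
  have hv0 : v.valuation L x ≠ 0 := (Valuation.ne_zero_iff _).2 hx
  rw [map_inv₀, map_inv₀] at h2
  have h3 : (fv v x)⁻¹ ≤ 1 ↔ 1 ≤ fv v x := inv_le_one₀ hpos
  have h4 : (v.valuation L x)⁻¹ ≤ 1 ↔ 1 ≤ v.valuation L x := inv_le_one₀ (zero_lt_iff.2 hv0)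
  rw [h3, h4] at h2
  constructor
  · intro h
    exact le_antisymm (h1.1 h.le) (h2.1 h.ge)
  · intro h
    exact le_antisymm (h1.2 h.le) (h2.2 h.ge)

/-- values of polynomials with integral coefficients -/
theorem int_eval (S : Finset (HeightOneSpectrum (𝓞 L))) (s : Fin d → L)
    (hu : ∀ v ∉ S, ∀ j, fv v (s j) = 1) (p : MvPolynomial (Fin d) L)
    (hp : ∀ γ ∈ p.support, ∃ w : 𝓞 L, algebraMap (𝓞 L) L w = coeff γ p) :
    ∀ v ∉ S, fv v (eval s p) ≤ 1 := by
  have h1 : eval s p ∈ (S : Set (HeightOneSpectrum (𝓞 L))).integer L := by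
    apply eval_mem
    · intro γ hγ
      obtain ⟨w, hw⟩ := hp γ hγ
      rw [← hw]
      intro v _
      exact v.valuation_le_one w
    · intro j v hv
      exact (fv_le_iff v _).1 (hu v hv j).le
  intro v hv
  exact (fv_le_iff v _).2 (h1 v hv)

/-- denominators -/
theorem exists_den_poly {ι : Type} [Fintype ι] (p : ι → MvPolynomial (Fin d) L) :
    ∃ D0 : ℕ, 1 ≤ D0 ∧ ∀ i, ∀ γ ∈ (C (D0 : L) * p i).support,
      ∃ w : 𝓞 L, algebraMap (𝓞 L) L w = coeff γ (C (D0 : L) * p i) := by
  classical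
  obtain ⟨D0, h1, h2⟩ := Pool.Agent.W235.RM.exists_den
    (Finset.univ.biUnion fun i => (p i).support.image fun γ => coeff γ (p i))
  refine ⟨D0, h1, fun i γ hγ => ?_⟩
  rw [coeff_C_mul]
  rw [mem_support_iff, coeff_C_mul] at hγ
  exact h2 _ (Finset.mem_biUnion.2 ⟨i, Finset.mem_univ i, Finset.mem_image.2
    ⟨γ, mem_support_iff.2 (right_ne_zero_of_mul hγ), rfl⟩⟩)

omit [NumberField L] in
theorem nrm_smul (f : AbsoluteValue L ℝ) {M : ℕ} (c : L) (x : Fin M → L) :
    nrm f (c • x) = f c * nrm f x := by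
  unfold nrm
  rw [Real.mul_iSup_of_nonneg (f.nonneg c)]
  exact iSup_congr fun j => by rw [Pi.smul_apply, smul_eq_mul, map_mul]

/-- the height of the values of polynomials at units -/
theorem height_poly (S : Finset (HeightOneSpectrum (𝓞 L))) {M : ℕ}
    (x : Fin M → MvPolynomial (Fin d) L) : ∃ n c : ℝ, 0 ≤ n ∧ 0 ≤ c ∧
      ∀ (s : Fin d → L) (hs : ∀ j, s j ≠ 0), (∀ v ∉ S, ∀ j, fv v (s j) = 1) →
        (fun j => eval s (x j)) ≠ 0 →
        logHeight (fun j => eval s (x j)) ≤ n * (arS S s hs).h + c := by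
  classical
  obtain ⟨D0, hD0, hD⟩ := exists_den_poly x
  choose n hn0 hn using fun j => abs_poly (C (D0 : L) * x j)
  let A : Pl L → ℝ := fun p => 1 + ∑ j, ∑ γ ∈ (C (D0 : L) * x j).support,
    av p (coeff γ (C (D0 : L) * x j))
  have hA : ∀ p, 1 ≤ A p := fun p => by
    have : 0 ≤ ∑ j, ∑ γ ∈ (C (D0 : L) * x j).support, av p (coeff γ (C (D0 : L) * x j)) :=
      Finset.sum_nonneg fun j _ => Finset.sum_nonneg fun γ _ => (av p).nonneg _
    show (1 : ℝ) ≤ 1 + _
    linarith
  have hDL : (D0 : L) ≠ 0 := by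
    have : D0 ≠ 0 := by omega
    exact_mod_cast this
  refine ⟨∑ j, n j, ∑ p ∈ SS S, wt p * Real.log (A p), Finset.sum_nonneg fun j _ => hn0 j,
    Finset.sum_nonneg fun p _ => mul_nonneg (wt_nonneg p) (Real.log_nonneg (hA p)),
    fun s hs hu hne => ?_⟩
  have hsm : (fun j => eval s (C (D0 : L) * x j)) = (D0 : L) • fun j => eval s (x j) := by
    funext j
    rw [map_mul, eval_C]
    rfl
  have h1 : logHeight (fun j => eval s (x j)) = logHeight (fun j => eval s (C (D0 : L) * x j)) := by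
    rw [hsm, logHeight_smul_eq_logHeight _ hDL]
  have hne' : (fun j => eval s (C (D0 : L) * x j)) ≠ 0 := by
    rw [hsm]
    exact smul_ne_zero hDL hne
  rw [h1]
  refine (height_le S _ hne' fun v hv j => int_eval S s hu _ (hD j) v hv).trans ?_
  rw [arS_h, Finset.mul_sum, ← Finset.sum_add_distrib]
  refine Finset.sum_le_sum fun p _ => ?_
  have hΛ : 0 ≤ ∑ i, |Real.log (av p (s i))| := Finset.sum_nonneg fun _ _ => abs_nonneg _
  have h2 : nrm (av p) (fun j => eval s (C (D0 : L) * x j)) ≤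
      A p * Real.exp ((∑ j, n j) * ∑ i, |Real.log (av p (s i))|) := by
    obtain ⟨j0, _⟩ := Function.ne_iff.1 hne'
    have : Nonempty (Fin M) := ⟨j0⟩
    refine ciSup_le fun j => ?_
    refine (hn j (av p) s hs).trans ?_
    have e1 : ∑ γ ∈ (C (D0 : L) * x j).support, av p (coeff γ (C (D0 : L) * x j)) ≤ A p := by
      have := Finset.single_le_sum (f := fun j => ∑ γ ∈ (C (D0 : L) * x j).support,
        av p (coeff γ (C (D0 : L) * x j))) (fun j _ => Finset.sum_nonneg fun γ _ =>
          (av p).nonneg _) (Finset.mem_univ j)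
      show _ ≤ 1 + ∑ j, ∑ γ ∈ (C (D0 : L) * x j).support, av p (coeff γ (C (D0 : L) * x j))
      linarith
    have e2 : n j ≤ ∑ j, n j := Finset.single_le_sum (f := n) (fun j _ => hn0 j)
      (Finset.mem_univ j)
    have e3 := mul_le_mul_of_nonneg_right e2 hΛ
    exact mul_le_mul e1 (Real.exp_le_exp.2 e3) (Real.exp_pos _).le (by linarith [hA p])
  have h3 := Real.log_le_log (nrm_pos _ hne') h2
  rw [Real.log_mul (by linarith [hA p]) (Real.exp_ne_zero _), Real.log_exp] at h3
  have h4 := mul_le_mul_of_nonneg_left h3 (wt_nonneg p)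
  linarith

/-- **The subspace theorem for the data.** -/
theorem ST_ar [IsGalois ℚ L] (hi : ∃ z : L, z ^ 2 = -1) (S : Finset (HeightOneSpectrum (𝓞 L)))
    {a b : MvPolynomial (Fin d) L} (D : Dat a b) (η : ℝ) (hη : 0 < η) :
    ∃ (C0 : ℝ) (Z : Finset (MvPolynomial (Fin d) L)), 0 ≤ C0 ∧ (∀ F ∈ Z, F ≠ 0) ∧
      ∀ (s : Fin d → L) (hs : ∀ j, s j ≠ 0), (∀ v ∉ S, ∀ j, fv v (s j) = 1) →
        ∀ y : L, (∀ v ∉ S, fv v y ≤ 1) → y * eval s b = eval s a → (∀ F ∈ Z, eval s F ≠ 0) →
          ∀ β, (arS S s hs).Rep b β → ∀ Er, η * (arS S s hs).h + C0 ≤ Er →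
            (arS S s hs).ST D β Er := by
  classical
  by_cases hM0 : D.M = 0
  · refine ⟨0, ∅, le_rfl, fun F hF => absurd hF (Finset.notMem_empty F), ?_⟩
    intro s hs hu y hy hyb hZ β hβ Er hEr G hG
    have h1 : 0 ≤ (arS S s hs).I G := (arS S s hs).pos G fun v => by
      obtain ⟨e, he⟩ := hG v
      have : IsEmpty (Fin D.M) := by
        rw [hM0]
        infer_instance
      rw [Finset.prod_of_isEmpty] at he
      have := Real.log_le_log one_pos he
      rwa [Real.log_one, Real.log_exp] at this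
    rw [hM0, Nat.cast_zero, zero_mul]
    have h2 := mul_nonneg hη.le (arS S s hs).h_nonneg
    linarith
  have hM1 : 1 ≤ D.M := by omega
  obtain ⟨n', c', hn', hc', hH2⟩ := height_poly S D.x
  -- denominators of the integral functions
  let ff : Fin D.M ⊕ Fin D.M → MvPolynomial (Fin d) L :=
    Sum.elim (fun i => (D.mem i).choose) fun i => (D.mem i).choose_spec.choose
  obtain ⟨D0, hD0, hDen⟩ := exists_den_poly ff
  have hDL : (D0 : L) ≠ 0 := by
    have : D0 ≠ 0 := by omega
    exact_mod_cast this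
  choose g hg using fun v : Pl L => Pool.Agent.R405.exists_good (K := L) v
  have hgv : ∀ v y, g v y = av v y := fun v y => (hg v).ext y
  let ε : ℝ := η / (n' + 1)
  have hε : 0 < ε := by positivity
  let E' := {p : Pl L // p ∈ SS S} → D.E
  let Bm : E' → Pl L → Fin D.M → Fin D.M → L := fun c p =>
    if h : p ∈ SS S then D.A (c ⟨p, h⟩) else (1 : Matrix (Fin D.M) (Fin D.M) L)
  have hBm : ∀ (c : E') (p : Pl L) (h : p ∈ SS S), Bm c p = D.A (c ⟨p, h⟩) := fun c p h =>
    dif_pos h
  have hsch := fun c : E' => Pool.Agent.R405.sch (k := L) (K := L) hi hM1 (SS S) g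
    (fun v _ => hg v) (Bm c) (fun v hv => by
      rw [hBm c v hv]
      exact D.det _) ε hε
  choose Zc Cc hZc hsc using hsch
  let c0 : ℝ := ∑ p ∈ SS S, wt p * Real.log (av p (D0 : L))
  let Z : Finset (MvPolynomial (Fin d) L) :=
    (Finset.univ.biUnion fun c : E' => (Zc c).image fun δ => ∑ j, C (δ j) * D.x j) ∪
      Finset.univ.image fun q : D.E × Fin D.M => D.φ q.1 q.2
  refine ⟨D.M * |c0| + ∑ c, |Cc c| + ε * c', Z, by positivity, ?_, ?_⟩
  · intro F hF
    rcases Finset.mem_union.1 hF with hF | hF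
    · obtain ⟨c, -, hF⟩ := Finset.mem_biUnion.1 hF
      obtain ⟨δ, hδ, rfl⟩ := Finset.mem_image.1 hF
      intro h0
      apply hZc c δ hδ
      funext j
      have h1 : ∑ j, δ j • D.x j = 0 := by
        rw [← h0]
        exact Finset.sum_congr rfl fun j _ => by rw [smul_eq_C_mul]
      exact Fintype.linearIndependent_iff.1 D.ind _ h1 j
    · obtain ⟨q, -, rfl⟩ := Finset.mem_image.1 hF
      intro h
      have h1 : ∑ j, D.A q.1 q.2 j • D.x j = 0 := by
        rw [← h]
        unfold Dat.φ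
        exact Finset.sum_congr rfl fun j _ => by rw [smul_eq_C_mul]
      have h2 := Fintype.linearIndependent_iff.1 D.ind _ h1
      exact D.det q.1 (Matrix.det_eq_zero_of_row_eq_zero q.2 h2)
  intro s hs hu y hy hyb hZ β hβ Er hEr G hG
  have hφ : ∀ e i, eval s (D.φ e i) ≠ 0 := fun e i => hZ _ (Finset.mem_union_right _
    (Finset.mem_image.2 ⟨(e, i), Finset.mem_univ _, rfl⟩))
  have hδ : ∀ c, ∀ δ ∈ Zc c, ∑ j, δ j * eval s (D.x j) ≠ 0 := by
    intro c δ hδ
    have h1 := hZ (∑ j, C (δ j) * D.x j) (Finset.mem_union_left _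
      (Finset.mem_biUnion.2 ⟨c, Finset.mem_univ _, Finset.mem_image.2 ⟨δ, hδ, rfl⟩⟩))
    rw [map_sum] at h1
    simp only [map_mul, eval_C] at h1
    exact h1
  obtain ⟨w0⟩ : Nonempty (InfinitePlace L) := inferInstance
  have hw0 : (Sum.inl w0 : Pl L) ∈ SS S := by
    unfold SS
    exact Finset.inl_mem_disjSum.2 (Finset.mem_univ _)
  let p0 : {p : Pl L // p ∈ SS S} := ⟨Sum.inl w0, hw0⟩
  have hb0 : eval s b ≠ 0 := (hβ p0).1
  set x : Fin D.M → L := fun j => eval s (D.x j) with hx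
  have hxne : x ≠ 0 := by
    intro h0
    obtain ⟨e, -⟩ := hG p0
    apply hφ e ⟨0, hM1⟩
    unfold Dat.φ
    rw [map_sum]
    refine Finset.sum_eq_zero fun j _ => ?_
    rw [map_mul, eval_C]
    have : x j = 0 := congrFun h0 j
    rw [hx] at this
    simp only at this
    rw [this, mul_zero]
  -- first bound of the height
  have hH1 : logHeight x ≤ ∑ p ∈ SS S, wt p * Real.log (nrm (av p) x) -
      (arS S s hs).I β + c0 := by
    set Xv : Fin D.M → L := ((D0 : L) / eval s b) • x with hXv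
    have hXv1 : ∀ j, Xv j = eval s (C (D0 : L) * (D.mem j).choose) * y +
        eval s (C (D0 : L) * (D.mem j).choose_spec.choose) := by
      intro j
      have h1 := (D.mem j).choose_spec.choose_spec
      have h2 : x j = (eval s (D.mem j).choose * y + eval s (D.mem j).choose_spec.choose) *
          eval s b := by
        show eval s (D.x j) = _
        conv_lhs => rw [← h1]
        rw [map_add, map_mul, map_mul, ← hyb]
        ring
      rw [hXv, Pi.smul_apply, smul_eq_mul, h2, map_mul, map_mul, eval_C]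
      field_simp
    have hint : ∀ v ∉ S, ∀ j, fv v (Xv j) ≤ 1 := by
      intro v hv j
      rw [hXv1]
      have e1 := (fv_le_iff v _).1 (int_eval S s hu _ (hDen (Sum.inl j)) v hv)
      have e2 := (fv_le_iff v _).1 (int_eval S s hu _ (hDen (Sum.inr j)) v hv)
      have e3 := (fv_le_iff v _).1 (hy v hv)
      rw [fv_le_iff]
      refine (Valuation.map_add _ _ _).trans (max_le ?_ e2)
      rw [map_mul]
      exact mul_le_one' e1 e3
    have hcne : (D0 : L) / eval s b ≠ 0 := div_ne_zero hDL hb0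
    have h1 := height_le S Xv (smul_ne_zero hcne hxne) hint
    rw [hXv, logHeight_smul_eq_logHeight _ hcne] at h1
    refine h1.trans (le_of_eq ?_)
    have h2 : ∀ p ∈ SS S, wt p * Real.log (nrm (av p) (((D0 : L) / eval s b) • x)) =
        wt p * Real.log (nrm (av p) x) - wt p * Real.log (av p (eval s b)) +
          wt p * Real.log (av p (D0 : L)) := by
      intro p _
      rw [nrm_smul, map_div₀, Real.log_mul (div_ne_zero ((av p).pos hDL).ne'
        ((av p).pos hb0).ne') (nrm_pos _ hxne).ne', Real.log_div ((av p).pos hDL).ne'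
        ((av p).pos hb0).ne']
      ring
    rw [Finset.sum_congr rfl h2, Finset.sum_add_distrib, Finset.sum_sub_distrib]
    have h3 : (arS S s hs).I β = ∑ p ∈ SS S, wt p * Real.log (av p (eval s b)) := by
      rw [arS_I, ← Finset.sum_coe_sort (SS S)]
      refine Finset.sum_congr rfl fun p _ => ?_
      rw [(hβ p).2]
      rfl
    rw [h3]
  -- second bound
  have hH2' := hH2 s hs hu hxne
  -- the subspace theorem
  have hG' : ∀ v : {p : Pl L // p ∈ SS S}, ∃ e, ∏ i, av v.1 (eval s (D.φ e i)) ≤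
      Real.exp (G v) := hG
  choose e he using hG'
  have hs1 := hsc e x (hδ e)
  have hs2 : ∑ p ∈ SS S, wt p * ∑ a', (Real.log (nrm (av p) x) - Real.log (g p (∑ j,
      Bm e p a' j * algebraMap L L (x j)))) =
      D.M * ∑ p ∈ SS S, wt p * Real.log (nrm (av p) x) -
        ∑ p : {p : Pl L // p ∈ SS S}, wt p.1 * ∑ i, Real.log (av p.1 (eval s (D.φ (e p) i))) := by
    rw [Finset.mul_sum, ← Finset.sum_coe_sort (SS S), ← Finset.sum_coe_sort (SS S),
      ← Finset.sum_sub_distrib]
    refine Finset.sum_congr rfl fun p _ => ?_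
    rw [Finset.sum_sub_distrib, Finset.sum_const, Finset.card_univ, Fintype.card_fin,
      nsmul_eq_mul]
    have h2 : ∀ i, g p.1 (∑ j, Bm e p.1 i j * algebraMap L L (x j)) =
        av p.1 (eval s (D.φ (e p) i)) := by
      intro i
      rw [hgv, hBm e p.1 p.2]
      congr 1
      unfold Dat.φ
      rw [map_sum]
      refine Finset.sum_congr rfl fun j _ => ?_
      rw [map_mul, eval_C]
      rfl
    simp only [h2]
    ring
  rw [hs2] at hs1
  have hs3 : ∑ p : {p : Pl L // p ∈ SS S}, wt p.1 * ∑ i, Real.log (av p.1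
      (eval s (D.φ (e p) i))) ≤ (arS S s hs).I G := by
    rw [arS_I]
    refine Finset.sum_le_sum fun p _ => mul_le_mul_of_nonneg_left ?_ (wt_nonneg _)
    have h2 := he p
    rw [← Real.log_prod fun i _ => ((av p.1).pos (hφ _ i)).ne']
    have h3 : 0 < ∏ i, av p.1 (eval s (D.φ (e p) i)) :=
      Finset.prod_pos fun i _ => (av p.1).pos (hφ _ i)
    have h4 := Real.log_le_log h3 h2
    rwa [Real.log_exp] at h4
  have hCc : Cc e ≤ ∑ c, |Cc c| := (le_abs_self _).trans
    (Finset.single_le_sum (f := fun c => |Cc c|) (fun c _ => abs_nonneg _) (Finset.mem_univ e))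
  have hc0 := le_abs_self c0
  have hMnn : (0 : ℝ) ≤ D.M := Nat.cast_nonneg _
  have h5 : (D.M : ℝ) * logHeight x ≤ D.M * (∑ p ∈ SS S, wt p * Real.log (nrm (av p) x) -
      (arS S s hs).I β + c0) := mul_le_mul_of_nonneg_left hH1 hMnn
  have h6 : ε * logHeight x ≤ ε * (n' * (arS S s hs).h + c') :=
    mul_le_mul_of_nonneg_left hH2' hε.le
  have h7 : ε * n' * (arS S s hs).h ≤ η * (arS S s hs).h := by
    apply mul_le_mul_of_nonneg_right _ (arS S s hs).h_nonneg
    show η / (n' + 1) * n' ≤ η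
    rw [div_mul_eq_mul_div, div_le_iff₀ (by linarith)]
    nlinarith
  have h8 : (D.M : ℝ) * c0 ≤ D.M * |c0| := mul_le_mul_of_nonneg_left hc0 hMnn
  linarith

end Pool.Agent.Run7.h983
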