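import Mathlib
import Pool.Agent.Run7.h983.Ar2

/-!
# The arithmetic case
-/

set_option autoImplicit false

namespace Pool.Agent.Run7.h983

open MvPolynomial NumberField IsDedekindDomain Height
open Pool.Agent.W180.OP (Pl av wt nrm le_nrm nrm_pos nrm_nonneg exists_nrm wt_nonneg fv
  fv_support_finite)

variable {L : Type} [Field L] [NumberField L] {d : ℕ}

/-- the height of a unit -/
theorem height_unit (S : Finset (HeightOneSpectrum (𝓞 L))) (s : Fin d → L) (hs : ∀ j, s j ≠ 0)
    (hu : ∀ v ∉ S, ∀ j, fv v (s j) = 1) (j : Fin d) :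
    logHeight₁ (s j) ≤ (arS S s hs).h := by
  rw [logHeight₁_eq_logHeight]
  have hne : (![s j, 1] : Fin 2 → L) ≠ 0 := fun h => one_ne_zero (congrFun h 1)
  refine (height_le S _ hne fun v hv k => ?_).trans ?_
  · fin_cases k
    · exact (hu v hv j).le
    · exact (map_one _).le
  · rw [arS_h]
    refine Finset.sum_le_sum fun p _ => mul_le_mul_of_nonneg_left ?_ (wt_nonneg p)
    have h1 : nrm (av p) ![s j, 1] ≤ Real.exp |Real.log (av p (s j))| := by
      refine ciSup_le fun k => ?_
      fin_cases k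
      · show av p (s j) ≤ _
        calc av p (s j) = Real.exp (Real.log (av p (s j))) :=
              (Real.exp_log ((av p).pos (hs j))).symm
          _ ≤ _ := Real.exp_le_exp.2 (le_abs_self _)
      · show av p 1 ≤ _
        rw [map_one]
        exact Real.one_le_exp (abs_nonneg _)
    have h2 := Real.log_le_log (nrm_pos _ hne) h1
    rw [Real.log_exp] at h2
    exact h2.trans (Finset.single_le_sum (f := fun j => |Real.log (av p (s j))|)
      (fun _ _ => abs_nonneg _) (Finset.mem_univ j))

/-- **The arithmetic case.** -/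
theorem ar_final [IsGalois ℚ L] (hi : ∃ z : L, z ^ 2 = -1) (hd : 0 < d)
    (S : Finset (HeightOneSpectrum (𝓞 L))) {J : Type} [Fintype J]
    (a b : J → MvPolynomial (Fin d) L) (hb : ∀ j, b j ≠ 0) (hab : ∀ j, IsRelPrime (a j) (b j))
    {P : Type} [Infinite P] (s : P → Fin d → L) (hs0 : ∀ z j, s z j ≠ 0)
    (hu : ∀ z, ∀ v ∉ S, ∀ j, fv v (s z j) = 1)
    (hind : ∀ Φ : MvPolynomial (Fin d) L, Φ ≠ 0 → {z | eval (s z) Φ = 0}.Finite)
    (y : P → J → L) (hy : ∀ z j, ∀ v ∉ S, fv v (y z j) ≤ 1)
    (hyb : ∀ z j, y z j * eval (s z) (b j) = eval (s z) (a j)) :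
    Submodule.span ℝ (dif b) ≠ ⊤ := by
  classical
  intro hspan
  obtain ⟨D, K, hK, hcore⟩ := core (aL S) a b hb hab hspan
  set η : ℝ := 1 / (2 * (K + 1)) with hη
  have hηpos : 0 < η := by positivity
  choose C1 Z1 hC1 hZ1 hST1 using fun j => ST_ar hi S (D j) η hηpos
  choose C2 Z2 hC2 hZ2 hST2 using fun j => ST_ar hi S (dat2 (b j)) η hηpos
  set w0 : ℝ := ∑ p ∈ SS S, wt p with hw0
  have hw00 : 0 ≤ w0 := Finset.sum_nonneg fun p _ => wt_nonneg p
  set C0 : ℝ := ∑ j, C1 j + ∑ j, C2 j + w0 with hC0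
  have hs1 : 0 ≤ ∑ j, C1 j := Finset.sum_nonneg fun j _ => hC1 j
  have hs2 : 0 ≤ ∑ j, C2 j := Finset.sum_nonneg fun j _ => hC2 j
  let Z : Finset (MvPolynomial (Fin d) L) :=
    (Finset.univ.biUnion Z1 ∪ Finset.univ.biUnion Z2) ∪ Finset.univ.image b
  have hZ : ∀ F ∈ Z, F ≠ 0 := by
    intro F hF
    rcases Finset.mem_union.1 hF with hF | hF
    · rcases Finset.mem_union.1 hF with hF | hF
      · obtain ⟨j, -, hF⟩ := Finset.mem_biUnion.1 hF
        exact hZ1 j F hF
      · obtain ⟨j, -, hF⟩ := Finset.mem_biUnion.1 hF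
        exact hZ2 j F hF
    · obtain ⟨j, -, rfl⟩ := Finset.mem_image.1 hF
      exact hb j
  have hbad : {z | ∃ F ∈ Z, eval (s z) F = 0}.Finite := by
    have : {z | ∃ F ∈ Z, eval (s z) F = 0} = ⋃ F ∈ Z, {z | eval (s z) F = 0} := by
      ext z
      simp
    rw [this]
    exact Set.Finite.biUnion Z.finite_toSet fun F hF => hind F (hZ F hF)
  -- the height is bounded
  have hbd : ∀ z, z ∉ {z | ∃ F ∈ Z, eval (s z) F = 0} →
      (arS S (s z) (hs0 z)).h ≤ 2 * (K * C0) := by
    intro z hz
    have hz' : ∀ F ∈ Z, eval (s z) F ≠ 0 := fun F hF h => hz ⟨F, hF, h⟩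
    have hbz : ∀ j, eval (s z) (b j) ≠ 0 := fun j => hz' _ (Finset.mem_union_right _
      (Finset.mem_image.2 ⟨j, Finset.mem_univ _, rfl⟩))
    let q := arS S (s z) (hs0 z)
    have hdt : DiscreteTopology q.V := arS_disc S (s z) (hs0 z)
    let β : J → C(q.V, ℝ) := fun j => ⟨fun p => Real.log (aL S (q.t p) (eval (q.s p) (b j))),
      continuous_of_discreteTopology⟩
    have hβ : ∀ j, q.Rep (b j) (β j) := fun j v => ⟨hbz j, rfl⟩
    have hβ2 : q.Rep 1 0 := fun v => by
      rw [map_one]
      refine ⟨one_ne_zero, ?_⟩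
      rw [ContinuousMap.zero_apply, map_one, Real.log_one]
    have hh0 : 0 ≤ q.h := q.h_nonneg
    set Er : ℝ := η * q.h + C0 with hEr
    have hle1 : ∀ j, η * q.h + C1 j ≤ Er := by
      intro j
      have := Finset.single_le_sum (f := C1) (fun j _ => hC1 j) (Finset.mem_univ j)
      rw [hEr, hC0]
      linarith
    have hle2 : ∀ j, η * q.h + C2 j ≤ Er := by
      intro j
      have := Finset.single_le_sum (f := C2) (fun j _ => hC2 j) (Finset.mem_univ j)
      rw [hEr, hC0]
      linarith
    have hEr0 : 0 ≤ Er := by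
      have := mul_nonneg hηpos.le hh0
      rw [hEr, hC0]
      linarith
    have h1 := hcore q β Er (by
        have h2 : q.I 1 = w0 := by
          show (arS S (s z) (hs0 z)).I 1 = w0
          rw [arS_I, hw0, ← Finset.sum_coe_sort (SS S)]
          refine Finset.sum_congr rfl fun p _ => ?_
          rw [ContinuousMap.one_apply, mul_one]
        rw [h2, hEr, hC0]
        have := mul_nonneg hηpos.le hh0
        linarith) (by
        intro j
        have h2 : q.I (q.lam j) = 0 := arS_lam S (s z) (hs0 z) (hu z) j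
        rw [h2, abs_zero]
        exact hEr0) hβ
      (fun j => hST1 j (s z) (hs0 z) (hu z) (y z j) (hy z j) (hyb z j)
        (fun F hF => hz' F (Finset.mem_union_left _ (Finset.mem_union_left _
          (Finset.mem_biUnion.2 ⟨j, Finset.mem_univ _, hF⟩)))) (β j) (hβ j) Er (hle1 j))
      (fun j => hST2 j (s z) (hs0 z) (hu z) 0 (fun v _ => by
        rw [map_zero]
        exact zero_le_one) (by rw [zero_mul, map_zero])
        (fun F hF => hz' F (Finset.mem_union_left _ (Finset.mem_union_right _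
          (Finset.mem_biUnion.2 ⟨j, Finset.mem_univ _, hF⟩)))) 0 hβ2 Er (hle2 j))
    have h2 : K * (η * q.h) ≤ q.h / 2 := by
      have h3 : K * η ≤ 1 / 2 := by
        rw [hη]
        have : K * (1 / (2 * (K + 1))) = (K / (K + 1)) / 2 := by
          field_simp
        rw [this]
        have : K / (K + 1) ≤ 1 := by
          rw [div_le_one (by linarith)]
          linarith
        linarith
      have := mul_le_mul_of_nonneg_right h3 hh0
      linarith
    have h3 : K * Er = K * (η * q.h) + K * C0 := by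
      rw [hEr]
      ring
    show q.h ≤ _
    linarith
  -- a value which is taken infinitely often
  set j0 : Fin d := ⟨0, hd⟩
  have hfin : {x : L | logHeight₁ x ≤ 2 * (K * C0)}.Finite := Northcott.finite_le _
  have hinf : {z | ∃ F ∈ Z, eval (s z) F = 0}ᶜ.Infinite := hbad.infinite_compl
  have hmap : Set.MapsTo (fun z => s z j0) {z | ∃ F ∈ Z, eval (s z) F = 0}ᶜ
      {x : L | logHeight₁ x ≤ 2 * (K * C0)} := fun z hz =>
    (height_unit S (s z) (hs0 z) (hu z) j0).trans (hbd z hz)
  obtain ⟨c, hc⟩ : ∃ c, {z | s z j0 = c}.Infinite := by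
    by_contra hcon
    push Not at hcon
    apply hinf
    refine (hfin.biUnion fun c _ => hcon c).subset fun z hz => ?_
    exact Set.mem_biUnion (hmap hz) rfl
  apply hc
  refine (hind (X j0 - C c) ?_).subset fun z hz => ?_
  · intro h4
    have h5 := congrArg (eval fun _ => c + 1) h4
    rw [map_sub, eval_X, eval_C, map_zero] at h5
    exact one_ne_zero (by linear_combination h5)
  · have hz' : s z j0 = c := hz
    show eval (s z) (X j0 - C c) = 0
    rw [map_sub, eval_X, eval_C, hz', sub_self]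

end Pool.Agent.Run7.h983
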