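import Mathlib
import Pool.Agent.H159R3.Exp.BLV
import Pool.Agent.Run7.h983.Ar3
import Pool.Agent.Run7.h983.B5
import Pool.Agent.Run7.h983.B7

/-!
# Integral points
-/

set_option autoImplicit false

namespace Pool.Agent.Run7.h983

open MvPolynomial NumberField IsDedekindDomain Pool.Agent.N302.SP Pool.Agent.Helper259.AbsHt
open Pool.Agent.H159R3.Exp Pool.Agent.Y734.N.SG Pool.Agent.N302.MB
open Pool.Agent.W180.OP (fv)

theorem unitRel_desc {P : Type} {d : ℕ} {M : Type} [Field M] (κ : M →+* Qbar)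
    (s : P → Fin d → M) (hs0 : ∀ z j, s z j ≠ 0)
    (h : UnitRel (fun A : Set P => A.Infinite) (fun z j => κ (s z j))
      (fun j => (X j : MvPolynomial (Fin d) Qbar))) :
    UnitRel (fun A : Set P => A.Infinite) s (fun j => (X j : MvPolynomial (Fin d) M)) := by
  classical
  intro A hA Φ hΦ h0
  have hmap : map κ Φ ≠ 0 := fun h0 => hΦ (map_injective κ κ.injective (by rw [h0, map_zero]))
  have hsupp : (map κ Φ).support ⊆ Φ.support := support_map_subset κ Φ
  obtain ⟨w, hw, w', hw', hww, c, A', hA', hinf, hz⟩ := h A hA (map κ Φ) hmap (fun z hz => by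
    simp only [eval_X]
    rw [eval_map]
    have h1 := h0 z hz
    simp only [eval_X] at h1
    have h2 : eval₂ κ (fun i => κ (s z i)) Φ = κ (eval (s z) Φ) := by
      rw [eval, coe_eval₂Hom, hom_eval₂, RingHom.comp_id]
    rw [h2, h1, map_zero])
  obtain ⟨z0, hz0⟩ := hinf.nonempty
  have hp0 : ∀ (z : P) (u : Fin d →₀ ℕ), ∏ i, s z i ^ u i ≠ 0 := fun z u =>
    Finset.prod_ne_zero_iff.2 fun i _ => pow_ne_zero _ (hs0 z i)
  have hk : ∀ (z : P) (u : Fin d →₀ ℕ), ∏ i, κ (s z i) ^ u i = κ (∏ i, s z i ^ u i) := by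
    intro z u
    rw [map_prod]
    exact Finset.prod_congr rfl fun i _ => by rw [map_pow]
  refine ⟨w, hsupp hw, w', hsupp hw', hww, (∏ i, s z0 i ^ w i) / ∏ i, s z0 i ^ w' i, A', hA', hinf,
    fun z hz' => ?_⟩
  simp only [eval_X] at hz ⊢
  apply κ.injective
  have h1 := hz z hz'
  have h2 := hz z0 hz0
  rw [hk, hk] at h1 h2
  rw [h1, map_mul, map_div₀, h2, mul_div_assoc, div_self ((map_ne_zero κ).2 (hp0 z0 w')), mul_one]

/-- The relations between `S`-units. -/
theorem unitRel_ar {P : Type} {d : ℕ} {M : Type} [Field M] [NumberField M]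
    (S : Finset (HeightOneSpectrum (𝓞 M))) (s : P → Fin d → M) (hs0 : ∀ z j, s z j ≠ 0)
    (hu : ∀ z j, ∀ v ∉ S, v.valuation M (s z j) = 1) :
    UnitRel (fun A : Set P => A.Infinite) s (fun j => (X j : MvPolynomial (Fin d) M)) := by
  classical
  have hemb : Nonempty (M →ₐ[ℚ] Qbar) := ⟨IsAlgClosed.lift⟩
  obtain ⟨κ0⟩ := hemb
  let κ : M →+* Qbar := κ0
  apply unitRel_desc κ s hs0
  refine unitRel_num (fun z j => κ (s z j)) _ ((un M S).map (Units.map κ.toMonoidHom))
    (fg_map _ (un_fg M S S.finite_toSet) _) fun z j => ?_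
  refine ⟨Units.map κ.toMonoidHom (Units.mk0 (s z j) (hs0 z j)), Subgroup.mem_map_of_mem _ ?_, ?_⟩
  · intro v hv
    have h1 : ((v.valuationOfNeZero (Units.mk0 (s z j) (hs0 z j)) : _) : WithZero (Multiplicative ℤ))
        = v.valuation M (s z j) := HeightOneSpectrum.valuationOfNeZero_eq v _
    have h2 := hu z j v hv
    rw [h2] at h1
    exact_mod_cast h1
  · rw [eval_X]
    rfl

/-- polynomials at integral points -/
theorem val_eval₂ {R M : Type} [CommRing R] [Field M] [NumberField M] {N : ℕ} (φ : R →+* M)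
    (w : HeightOneSpectrum (𝓞 M)) (hφ : ∀ a, w.valuation M (φ a) ≤ 1) (x : Fin N → M)
    (hx : ∀ j, w.valuation M (x j) ≤ 1) (Q : MvPolynomial (Fin N) R) :
    w.valuation M (eval₂ φ x Q) ≤ 1 := by
  induction Q using MvPolynomial.induction_on with
  | C a => rw [eval₂_C]; exact hφ a
  | add p q hp hq =>
    rw [eval₂_add]
    exact (Valuation.map_add _ _ _).trans (max_le hp hq)
  | mul_X p j hp =>
    rw [eval₂_mul, eval₂_X, map_mul]
    exact mul_le_one' hp (hx j)

/-- The functions are inverse to each other on the variety. -/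
theorem hUW_gen {R A : Type} [CommRing R] [CommRing A] {N : ℕ} {ι : Type}
    (F : ι → MvPolynomial (Fin N) R) (U W : MvPolynomial (Fin N) R)
    (h : U * W - 1 ∈ Ideal.span (Set.range F)) (φ : R →+* A) (y : Fin N → A)
    (hy : ∀ i, eval₂ φ y (F i) = 0) : eval₂ φ y U * eval₂ φ y W = 1 := by
  have h1 : Ideal.span (Set.range F) ≤ RingHom.ker (eval₂Hom φ y) := by
    rw [Ideal.span_le]
    rintro _ ⟨i, rfl⟩
    exact hy i
  have h2 : eval₂Hom φ y (U * W - 1) = 0 := h1 h
  rw [map_sub, map_mul, map_one, sub_eq_zero] at h2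
  exact h2

/-- Finitely many of the equations suffice. -/
theorem exists_fin {R : Type} [CommRing R] [IsNoetherianRing R] {N : ℕ} {ι : Type}
    (G : ι → MvPolynomial (Fin N) R) : ∃ Λ : Finset ι, ∀ {A : Type} [CommRing A] (φ : R →+* A)
      (y : Fin N → A), (∀ l ∈ Λ, eval₂ φ y (G l) = 0) → ∀ l, eval₂ φ y (G l) = 0 := by
  classical
  obtain ⟨T, hT, hTs⟩ := (Submodule.fg_span_iff_fg_span_finset_subset
    (Set.range G)).1 (IsNoetherian.noetherian (Ideal.span (Set.range G)))
  obtain ⟨Λ, hΛ⟩ := Finset.subset_set_image_iff.1 (show (T : Set (MvPolynomial (Fin N) R)) ⊆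
    G '' Set.univ by rw [Set.image_univ]; exact hT)
  refine ⟨Λ, fun {A} _ φ y hy l => ?_⟩
  have h1 : Ideal.span (T : Set (MvPolynomial (Fin N) R)) ≤ RingHom.ker (eval₂Hom φ y) := by
    rw [Ideal.span_le]
    intro q hq
    have hq' : q ∈ T := hq
    rw [← hΛ.2, Finset.mem_image] at hq'
    obtain ⟨l, hl, rfl⟩ := hq'
    exact hy l hl
  have h2 : G l ∈ Ideal.span (T : Set (MvPolynomial (Fin N) R)) := by
    have h3 : Ideal.span (Set.range G) = Ideal.span (T : Set (MvPolynomial (Fin N) R)) := hTs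
    rw [← h3]
    exact Ideal.subset_span ⟨l, rfl⟩
  exact h1 h2

/-- **The arithmetic case.** -/
theorem ar_case {K : Type} [Field K] [NumberField K] (σ : K →+* ℂ) {N n : ℕ} {ι ι' : Type}
    (F : ι → MvPolynomial (Fin N) (𝓞 K)) (G : ι' → MvPolynomial (Fin N) (𝓞 K))
    (U W : Fin n → MvPolynomial (Fin N) (𝓞 K))
    (hUW : ∀ i, U i * W i - 1 ∈ Ideal.span (Set.range F))
    (huq : ∀ x : Fin N → ℂ, (∀ i, eval₂ (σ.comp (algebraMap (𝓞 K) K)) x (F i) = 0) →
      (∃ l, eval₂ (σ.comp (algebraMap (𝓞 K) K)) x (G l) ≠ 0) →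
      ∀ y : Fin N → ℂ, (∀ i, eval₂ (σ.comp (algebraMap (𝓞 K) K)) y (F i) = 0) →
      (∃ l, eval₂ (σ.comp (algebraMap (𝓞 K) K)) y (G l) ≠ 0) →
      (∀ i, eval₂ (σ.comp (algebraMap (𝓞 K) K)) y (U i) =
        eval₂ (σ.comp (algebraMap (𝓞 K) K)) x (U i)) → y = x)
    (hnot : ¬ FinitelyManyIntegral F G) :
    ∃ v : ℂ → Fin N → ℂ, (∀ j, Laur fun t => v t j) ∧
      (∀ i t, t ≠ 0 → eval₂ (σ.comp (algebraMap (𝓞 K) K)) (v t) (F i) = 0) ∧
      (∃ l, eval₂ (σ.comp (algebraMap (𝓞 K) K)) (v 1) (G l) ≠ 0) ∧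
      ∃ t s', t ≠ 0 ∧ s' ≠ 0 ∧ v t ≠ v s' := by
  classical
  unfold FinitelyManyIntegral at hnot
  push Not at hnot
  obtain ⟨L, _, _, _, S, hS, hinf⟩ := hnot
  let _ : Algebra K ℂ := σ.toAlgebra
  have : Algebra.IsAlgebraic K L := by
    have := NumberField.to_finiteDimensional (K := L)
    have : IsScalarTower ℚ K L := by infer_instance
    have : FiniteDimensional K L := FiniteDimensional.right ℚ K L
    infer_instance
  let τ : L →ₐ[K] ℂ := IsAlgClosed.lift
  obtain ⟨M, _, _, _, ψ, e, hi, he⟩ := ext_field (τ : L →+* ℂ)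
  obtain ⟨S', hS'⟩ := ext_primes e S hS
  let φL : 𝓞 K →+* L := (algebraMap K L).comp (algebraMap (𝓞 K) K)
  let φ : 𝓞 K →+* M := e.comp φL
  let φC : 𝓞 K →+* ℂ := σ.comp (algebraMap (𝓞 K) K)
  have hφC : ψ.comp φ = φC := by
    ext a
    show ψ (e (φL a)) = _
    rw [he]
    exact τ.commutes _
  -- the points
  set P : Type := ↥(intPoints F L S \ intPoints G L S) with hP
  have hPi : Infinite P := Set.infinite_coe_iff.2 hinf
  let x : P → Fin N → M := fun z k => e (z.1 k)
  have hxinj : Function.Injective x := by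
    intro z z' h
    apply Subtype.ext
    funext k
    exact e.injective (congrFun h k)
  have hxQ : ∀ (z : P) (Q : MvPolynomial (Fin N) (𝓞 K)), eval (x z) (map φ Q) =
      e (eval₂ φL z.1 Q) := by
    intro z Q
    rw [eval_map, hom_eval₂]
  have hxC : ∀ (z : P) (Q : MvPolynomial (Fin N) (𝓞 K)), ψ (eval (x z) (map φ Q)) =
      eval₂ φC (fun k => ψ (x z k)) Q := by
    intro z Q
    rw [eval_map, hom_eval₂, hφC]
  have hyC : ∀ (y : Fin N → ℂ) (Q : MvPolynomial (Fin N) (𝓞 K)), eval₂ ψ y (map φ Q) =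
      eval₂ φC y Q := by
    intro y Q
    rw [eval₂_map, hφC]
  have hxF : ∀ z i, eval (x z) (map φ (F i)) = 0 := by
    intro z i
    rw [hxQ, z.2.1.2 i, map_zero]
  have hGx : ∀ z : P, ∃ l, eval₂ φC (fun k => ψ (x z k)) (G l) ≠ 0 := by
    intro z
    by_contra hcon
    push Not at hcon
    apply z.2.2
    refine ⟨z.2.1.1, fun l => ?_⟩
    have h1 := hcon l
    rw [← hxC, hxQ, map_eq_zero, map_eq_zero] at h1
    exact h1
  have hUW' : ∀ z i, eval (x z) (map φ (U i)) * eval (x z) (map φ (W i)) = 1 := by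
    intro z i
    rw [eval_map, eval_map]
    refine hUW_gen F (U i) (W i) (hUW i) φ (x z) fun i => ?_
    rw [← eval_map]
    exact hxF z i
  have hint : ∀ a : 𝓞 K, ∀ w : HeightOneSpectrum (𝓞 M), w.valuation M (φ a) ≤ 1 := by
    intro a w
    have h1 : IsIntegral ℤ (φ a) := (RingOfIntegers.isIntegral a).map (φ.toIntAlgHom)
    exact w.valuation_le_one (⟨φ a, h1⟩ : 𝓞 M)
  have hval : ∀ (z : P) (Q : MvPolynomial (Fin N) (𝓞 K)), ∀ w ∉ S',
      w.valuation M (eval (x z) (map φ Q)) ≤ 1 := by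
    intro z Q w hw
    rw [eval_map]
    exact val_eval₂ φ w (fun a => hint a w) (x z) (fun j => hS' _ (z.2.1.1 j) w hw) Q
  have hvU : ∀ (z : P) (i : Fin n), ∀ w ∉ S', w.valuation M (eval (x z) (map φ (U i))) = 1 := by
    intro z i w hw
    have h1 := hval z (U i) w hw
    have h2 := hval z (W i) w hw
    have h3 := congrArg (w.valuation M) (hUW' z i)
    rw [map_mul, map_one] at h3
    refine le_antisymm h1 ?_
    calc (1 : WithZero (Multiplicative ℤ)) = w.valuation M (eval (x z) (map φ (U i))) *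
          w.valuation M (eval (x z) (map φ (W i))) := h3.symm
      _ ≤ w.valuation M (eval (x z) (map φ (U i))) * 1 := mul_le_mul_right h2 _
      _ = _ := mul_one _
  have hu0 : ∀ z i, eval (x z) (map φ (U i)) ≠ 0 := fun z i h => by
    have := hUW' z i
    rw [h, zero_mul] at this
    exact zero_ne_one this
  have hsv : ∀ (z : P) (q : Fin n → ℤ), ∀ w ∉ S',
      w.valuation M (∏ k, eval (x z) (map φ (U k)) ^ q k) = 1 := by
    intro z q w hw
    rw [map_prod]
    exact Finset.prod_eq_one fun k _ => by rw [map_zpow₀, hvU z k w hw, one_zpow]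
  obtain ⟨Λ, hΛ⟩ := exists_fin G
  obtain ⟨l0, hl0, hA0⟩ : ∃ l ∈ Λ, (Set.univ ∩ {z : P | eval (x z) (map φ (G l)) ≠ 0}).Infinite := by
    refine IsLarge.finsplit (isLarge_inf (P := P)) Λ (fun l => {z : P | eval (x z) (map φ (G l)) ≠ 0})
      Set.univ Set.infinite_univ (fun z _ => ?_)
    by_contra hcon
    push Not at hcon
    obtain ⟨l, hl⟩ := hGx z
    apply hl
    refine hΛ φC (fun k => ψ (x z k)) (fun l hl => ?_) l
    rw [← hxC]
    have h1 : ¬ eval (x z) (map φ (G l)) ≠ 0 := hcon l hl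
    rw [not_not.1 h1, map_zero]
  obtain ⟨A, hAA, hA, d, w', s, Sp, a, b, hs1, hs2, hind, hb, hrp, hbz, hab⟩ :=
    common (isLarge_inf (P := P)) ψ (fun i => map φ (F i)) (fun i => map φ (U i))
      (fun i => map φ (W i)) (map φ (G l0)) x hxF hUW' _ hA0 (fun z hz => hz.2)
      (fun z _ y h1 hy h2 => by
        refine huq (fun k => ψ (x z k)) (fun i => ?_) (hGx z) y (fun i => ?_) ⟨l0, ?_⟩ (fun i => ?_)
        · show eval₂ φC _ _ = 0
          rw [← hxC, hxF, map_zero]
        · show eval₂ φC _ _ = 0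
          rw [← hyC]
          exact h1 i
        · show eval₂ φC _ _ ≠ 0
          rw [← hyC]
          exact hy
        · show eval₂ φC _ _ = eval₂ φC _ _
          rw [← hyC, ← hxC]
          exact h2 i) (fun d w' => unitRel_ar S' _
        (fun z j => Finset.prod_ne_zero_iff.2 fun i _ => zpow_ne_zero _ (hu0 z i))
        fun z j w hw => hsv z _ w hw)
  have hs0 : ∀ z j, s z j ≠ 0 := by
    intro z j
    rw [hs1]
    exact Finset.prod_ne_zero_iff.2 fun i _ => zpow_ne_zero _ (hu0 z i)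
  have hAi : Infinite A := Set.infinite_coe_iff.2 hA
  rcases Nat.eq_zero_or_pos d with hd | hd
  · exfalso
    subst hd
    have hss : ∀ z w : P, s z = s w := fun z w => funext fun j => j.elim0
    have : Subsingleton A := by
      constructor
      intro z z'
      apply Subtype.ext
      apply hxinj
      funext k
      have hb0 := hbz z.1 z.2 k
      apply mul_right_cancel₀ hb0
      rw [hab z.1 z.2 k, hss z.1 z'.1, ← hab z'.1 z'.2 k]
    exact not_finite A
  · have hspan := ar_final (L := M) hi hd S' a b hb hrp (P := A) (fun z => s z.1)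
      (fun z j => hs0 z.1 j) (fun z v hv j => by
        rw [fv_eq_iff v (hs0 z.1 j), hs1]
        exact hsv z.1 _ v hv)
      (fun Φ hΦ => by
        by_contra hcon
        refine hind Φ hΦ (Subtype.val '' {z : A | eval (s z.1) Φ = 0}) ?_
          (Set.Infinite.image Subtype.val_injective.injOn hcon) ?_
        · rintro _ ⟨z, -, rfl⟩
          exact z.2
        · rintro _ ⟨z, hz, rfl⟩
          exact hz)
      (fun z k => x z.1 k) (fun z k v hv => (fv_le_iff v _).2 (hS' _ (z.1.2.1.1 k) v hv))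
      (fun z k => hab z.1 z.2 k)
    obtain ⟨l, hl, hlb⟩ := exists_dir b hspan
    obtain ⟨z1, hz1⟩ := hA.nonempty
    have hψ : ∀ {m : ℕ} (y : Fin m → M) (Q : MvPolynomial (Fin m) M),
        eval (fun j => ψ (y j)) (map ψ Q) = ψ (eval y Q) := by
      intro m y Q
      rw [eval_map, eval, coe_eval₂Hom, hom_eval₂, RingHom.comp_id]
    obtain ⟨v, hv, hvF, hv1, hvn⟩ := curve (fun i => map ψ (map φ (F i)))
      (fun z k => ψ (x z k)) (fun z j => ψ (s z j)) (fun z j => (map_ne_zero ψ).2 (hs0 z j)) A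
      (fun Φ h => by
        by_contra hΦ
        exact dens_complex ψ s A (fun Φ hΦ => hind Φ hΦ A subset_rfl hA) Φ hΦ h)
      (fun z _ i => by rw [hψ, hxF, map_zero])
      (fun k => map ψ (a k)) (fun k => map ψ (b k))
      (fun z hz k => by rw [hψ, hψ, ← hab z hz k, map_mul])
      (fun j => map ψ (Sp j)) (fun z _ j => by rw [hψ, ← hs2])
      l hl (fun k γ hγ γ' hγ' => hlb k γ (support_map_subset ψ _ hγ) γ'
        (support_map_subset ψ _ hγ')) z1 hz1 (fun k => by
        rw [hψ]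
        exact (map_ne_zero ψ).2 (hbz z1 hz1 k))
    refine ⟨v, hv, fun i t ht => ?_, ?_, hvn⟩
    · have h1 := hvF i t ht
      rw [eval_map, hyC] at h1
      exact h1
    · rw [hv1]
      exact hGx z1

end Pool.Agent.Run7.h983
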