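import Pool.Agent.Run7.h983.Y5

/-!
Bounds for the degrees of polynomial solutions; growth of polynomials along the integers.
-/

set_option autoImplicit false
set_option linter.unusedSectionVars false

namespace Pool.Agent.Run7.h983.Hy

open Polynomial

theorem deg_split (a b R : ℚ[X]) (h2 : b ^ 2 = a ^ 3 + R) (hR : R.natDegree < 3 * a.natDegree) :
    ∃ n : ℕ, a.natDegree = 2 * n ∧ b.natDegree = 3 * n := by
  have h3 : (a ^ 3 + R).natDegree = 3 * a.natDegree := by
    rw [natDegree_add_eq_left_of_natDegree_lt, natDegree_pow]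
    rwa [natDegree_pow]
  have h4 := congrArg natDegree h2
  rw [h3, natDegree_pow] at h4
  exact ⟨a.natDegree / 2, by omega, by omega⟩

theorem ff_bound (A B a b : ℚ[X]) (hΔ0 : 4 * A ^ 3 + 27 * B ^ 2 ≠ 0)
    (h2 : b ^ 2 = a ^ 3 + A * a + B) :
    a.natDegree ≤ 16 * max A.natDegree B.natDegree ∧
      b.natDegree ≤ 24 * max A.natDegree B.natDegree := by
  set μ := max A.natDegree B.natDegree with hμ
  have hA : A.natDegree ≤ μ := le_max_left _ _
  have hB : B.natDegree ≤ μ := le_max_right _ _
  have h2' : b ^ 2 = a ^ 3 + (A * a + B) := by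
    rw [h2]
    ring
  have hR : (A * a + B).natDegree ≤ μ + a.natDegree :=
    natDegree_add_le_of_degree_le (natDegree_mul_le_of_le hA le_rfl) (hB.trans (by omega))
  have ha : a.natDegree ≤ 16 * μ := by
    by_contra hn
    have hn' := not_le.1 hn
    obtain ⟨n, hn1, hn2⟩ := deg_split a b _ h2' (lt_of_le_of_lt hR (by omega))
    have := ff_core A B a b hΔ0 h2 μ n hA hB hn1 hn2
    omega
  refine ⟨ha, ?_⟩
  have h4 : (b ^ 2).natDegree ≤ 48 * μ := by
    rw [h2']
    refine natDegree_add_le_of_degree_le ?_ (hR.trans (by omega))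
    rw [natDegree_pow]
    omega
  rw [natDegree_pow] at h4
  omega

/-- Davenport's inequality -/
theorem dav (D a b : ℚ[X]) (hD : D ≠ 0) (h2 : b ^ 2 = a ^ 3 + D) :
    (1 ≤ D.natDegree → a.natDegree + 2 ≤ 2 * D.natDegree ∧ b.natDegree + 3 ≤ 3 * D.natDegree) ∧
      (D.natDegree = 0 → a.natDegree = 0 ∧ b.natDegree = 0) := by
  by_cases he : 3 * a.natDegree ≤ D.natDegree
  · have h4 : (b ^ 2).natDegree ≤ D.natDegree := by
      rw [h2]
      refine natDegree_add_le_of_degree_le ?_ le_rfl
      rw [natDegree_pow]
      exact he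
    rw [natDegree_pow] at h4
    constructor
    · intro h
      constructor <;> omega
    · intro h
      constructor <;> omega
  · have he' := not_le.1 he
    obtain ⟨n, hn1, hn2⟩ := deg_split a b D h2 he'
    have hn : 1 ≤ n := by omega
    have ha0 : a ≠ 0 := by
      rintro rfl
      rw [natDegree_zero] at hn1
      omega
    have hb0 : b ≠ 0 := by
      rintro rfl
      rw [natDegree_zero] at hn2
      omega
    set V := 3 * derivative a * b - 2 * a * derivative b with hV
    have h3 : 2 * b * derivative b = 3 * a ^ 2 * derivative a + derivative D := by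
      have h := congrArg derivative h2
      rw [derivative_add, pow_two, derivative_mul,
        show a ^ 3 = a * a * a by ring, derivative_mul, derivative_mul] at h
      linear_combination h
    have h4 : 3 * derivative a * D - a * derivative D = b * V := by
      rw [hV]
      linear_combination (-3 * derivative a) * h2 + a * h3
    have hV0 : V ≠ 0 := by
      intro h0
      rw [h0, mul_zero] at h4
      have h5 : 3 * (th a * D) = a * th D := by
        unfold th
        linear_combination X * h4
      have t1 := ((Top.self a).th.mul (Top.self D)).nmul 3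
      rw [h5] at t1
      have h6 := t1.uniq ((Top.self a).mul (Top.self D).th)
      have h7 : a.leadingCoeff * D.leadingCoeff * (3 * a.natDegree : ℚ) =
          a.leadingCoeff * D.leadingCoeff * (D.natDegree : ℚ) := by
        linear_combination h6
      have h8 := mul_left_cancel₀ (mul_ne_zero (leadingCoeff_ne_zero.2 ha0)
        (leadingCoeff_ne_zero.2 hD)) h7
      have h9 : 3 * a.natDegree = D.natDegree := by exact_mod_cast h8
      omega
    have h5 : 3 * n ≤ (3 * derivative a * D - a * derivative D).natDegree := by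
      rw [h4, natDegree_mul hb0 hV0, hn2]
      omega
    have hda : (derivative a).natDegree ≤ 2 * n - 1 := by
      rw [← hn1]
      exact natDegree_derivative_le a
    have g1 : (3 * derivative a * D).natDegree ≤ (2 * n - 1) + D.natDegree := by
      refine natDegree_mul_le_of_le ?_ le_rfl
      exact (natDegree_mul_le_of_le (natDegree_ofNat 3).le hda).trans (by omega)
    rcases Nat.eq_zero_or_pos D.natDegree with hd | hd
    · exfalso
      have h6 : derivative D = 0 := by
        rw [eq_C_of_natDegree_eq_zero hd, derivative_C]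
      rw [h6, mul_zero, sub_zero] at h5
      omega
    · have g2 : (a * derivative D).natDegree ≤ (2 * n - 1) + D.natDegree := by
        refine (natDegree_mul_le_of_le hn1.le (natDegree_derivative_le D)).trans ?_
        omega
      have h6 := (natDegree_sub_le_of_le g1 g2).trans (le_of_eq (max_self _))
      constructor
      · intro h
        constructor <;> omega
      · intro h
        omega

theorem real_eval (s : ℚ[X]) (m : ℕ) :
    (s.map (algebraMap ℚ ℝ)).eval (m : ℝ) = ((s.eval (m : ℚ) : ℚ) : ℝ) := by
  have h4 := hom_eval₂ s (RingHom.id ℚ) (algebraMap ℚ ℝ) (m : ℚ)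
  rw [eval₂_id, RingHom.comp_id] at h4
  have h5 : algebraMap ℚ ℝ (m : ℚ) = (m : ℝ) := by simp
  rw [h5] at h4
  rw [eval_map, ← h4]
  rfl

/-- comparison of the growth along the integers -/
theorem grow (p q : ℚ[X]) (hq : q ≠ 0) (h : p.natDegree ≤ q.natDegree) :
    ∃ C : ℝ, 0 < C ∧ ∃ N : ℕ, ∀ m ≥ N, |((p.eval (m : ℚ) : ℚ) : ℝ)| ≤
      C * |((q.eval (m : ℚ) : ℚ) : ℝ)| := by
  have h1 : (p.map (algebraMap ℚ ℝ)).degree ≤ (q.map (algebraMap ℚ ℝ)).degree := by
    rw [degree_map, degree_map]
    rw [degree_eq_natDegree hq]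
    exact degree_le_natDegree.trans (by exact_mod_cast h)
  have h2 := Polynomial.isBigO_atTop_of_degree_le _ _ h1
  obtain ⟨C, hC, h3⟩ := h2.exists_pos
  obtain ⟨x0, hx0⟩ := Filter.eventually_atTop.1 h3.bound
  refine ⟨C, hC, ⌈x0⌉₊, fun m hm => ?_⟩
  have h4 := hx0 (m : ℝ) ((Nat.le_ceil x0).trans (by exact_mod_cast hm))
  rw [real_eval, real_eval, Real.norm_eq_abs, Real.norm_eq_abs] at h4
  exact h4

end Pool.Agent.Run7.h983.Hy
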