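import Mathlib
import Pool.Agent.Run7.h983.Core
import Pool.Agent.W602.NC.Good

/-!
# The subspace theorem for entire functions on good circles
-/

set_option autoImplicit false

namespace Pool.Agent.Run7.h983

open MvPolynomial Filter Metric Real Set Topology Pool.Agent.H159R3.NV Pool.Agent.W602.NC

/-- a continuous function on a circle, extended by zero -/
noncomputable def ex {R : ℝ} (g : C(sphere (0 : ℂ) R, ℝ)) : ℂ → ℝ := by
  classical
  exact fun z => if h : z ∈ sphere (0 : ℂ) R then g ⟨z, h⟩ else 0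

theorem ex_apply {R : ℝ} (g : C(sphere (0 : ℂ) R, ℝ)) (z : ℂ) (h : z ∈ sphere (0 : ℂ) R) :
    ex g z = g ⟨z, h⟩ := dif_pos h

theorem mem_sph {R : ℝ} (hR : 0 < R) (θ : ℝ) : circleMap 0 R θ ∈ sphere (0 : ℂ) R := by
  rw [mem_sphere, dist_zero_right, norm_circleMap_zero, abs_of_pos hR]

theorem ci_ex {R : ℝ} (hR : 0 < R) (g : C(sphere (0 : ℂ) R, ℝ)) : CircleIntegrable (ex g) 0 R := by
  unfold CircleIntegrable
  have h1 : (fun θ => ex g (circleMap 0 R θ)) = fun θ => g ⟨circleMap 0 R θ, mem_sph hR θ⟩ :=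
    funext fun θ => ex_apply g _ _
  rw [h1]
  apply Continuous.intervalIntegrable
  exact g.continuous.comp (Continuous.subtype_mk (continuous_circleMap 0 R) _)

/-- the mean over a circle -/
noncomputable def mean {R : ℝ} (hR : 0 < R) : C(sphere (0 : ℂ) R, ℝ) →ₗ[ℝ] ℝ where
  toFun g := Real.circleAverage (ex g) 0 R
  map_add' g g' := by
    have h1 : Real.circleAverage (ex (g + g')) 0 R =
        Real.circleAverage (fun z => ex g z + ex g' z) 0 R := by
      congr 1
      funext z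
      unfold ex
      split_ifs with h
      · rfl
      · simp
    rw [h1, Real.circleAverage_fun_add (ci_ex hR g) (ci_ex hR g')]
  map_smul' c g := by
    have h1 : Real.circleAverage (ex (c • g)) 0 R =
        Real.circleAverage (fun z => c • ex g z) 0 R := by
      congr 1
      funext z
      unfold ex
      split_ifs with h
      · rfl
      · simp
    rw [h1, Real.circleAverage_fun_smul]
    rfl

theorem mean_apply {R : ℝ} (hR : 0 < R) (g : C(sphere (0 : ℂ) R, ℝ)) :
    mean hR g = Real.circleAverage (ex g) 0 R := rfl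

theorem mean_one {R : ℝ} (hR : 0 < R) : mean hR 1 = 1 := by
  rw [mean_apply]
  have h1 : Real.circleAverage (ex (1 : C(sphere (0 : ℂ) R, ℝ))) 0 R =
      Real.circleAverage (fun _ => (1 : ℝ)) 0 R := by
    apply Real.circleAverage_congr_sphere
    intro z hz
    rw [abs_of_pos hR] at hz
    rw [ex_apply _ _ hz]
    rfl
  rw [h1, Real.circleAverage_const]

/-- comparison of means -/
theorem avg_le_mean {R : ℝ} (hR : 0 < R) {F : ℂ → ℝ} (hF : CircleIntegrable F 0 R)
    (g : C(sphere (0 : ℂ) R, ℝ))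
    (h : ∀ᶠ z in codiscreteWithin (sphere (0 : ℂ) |R|), ∀ hz : z ∈ sphere (0 : ℂ) R,
      F z ≤ g ⟨z, hz⟩) :
    Real.circleAverage F 0 R ≤ mean hR g := by
  rw [mean_apply]
  apply avg_le_cod hF (ci_ex hR g) hR.ne'
  have h2 : ∀ᶠ z in codiscreteWithin (sphere (0 : ℂ) |R|), z ∈ sphere (0 : ℂ) |R| :=
    Filter.mem_of_superset (self_mem_codiscreteWithin _) fun _ h => h
  filter_upwards [h, h2] with z hz hz2
  rw [abs_of_pos hR] at hz2
  rw [ex_apply _ _ hz2]
  exact hz hz2

theorem mean_eq_avg {R : ℝ} (hR : 0 < R) {F : ℂ → ℝ}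
    (g : C(sphere (0 : ℂ) R, ℝ)) (h : ∀ z (hz : z ∈ sphere (0 : ℂ) R), F z = g ⟨z, hz⟩) :
    mean hR g = Real.circleAverage F 0 R := by
  rw [mean_apply]
  apply Real.circleAverage_congr_sphere
  intro z hz
  rw [abs_of_pos hR] at hz
  rw [ex_apply _ _ hz, h z hz]

/-- the absolute value of the complex numbers -/
noncomputable def aC : Unit → AbsoluteValue ℂ ℝ := fun _ => NormedField.toAbsoluteValue ℂ

theorem aC_apply (t : Unit) (z : ℂ) : aC t z = ‖z‖ := rfl

variable {d : ℕ}

/-- the scale given by a circle -/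
noncomputable def circ (s : Fin d → ℂ → ℂ) (hs : ∀ j, Differentiable ℂ (s j))
    (hs0 : ∀ j z, s j z ≠ 0) {R : ℝ} (hR : 0 < R) : Sc ℂ aC d where
  V := sphere (0 : ℂ) R
  I := mean hR
  pos := fun g hg => by
    rw [mean_apply]
    apply Real.circleAverage_nonneg_of_nonneg
    intro z hz
    rw [abs_of_pos hR] at hz
    rw [ex_apply _ _ hz]
    exact hg _
  t := fun _ => ()
  s := fun v j => s j v
  s_ne := fun v j => hs0 j v
  lam := fun j => ⟨fun v => Real.log ‖s j v‖, by
    have h1 : Continuous fun v : sphere (0 : ℂ) R => ‖s j v‖ :=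
      ((hs j).continuous.comp continuous_subtype_val).norm
    exact h1.log fun v => norm_ne_zero_iff.2 (hs0 j v)⟩
  lam_eq := fun v j => rfl

/-- the bound for the Wronskian -/
theorem wr_point {M : ℕ} (X : Fin M → ℂ → ℂ) (hX : ∀ i, Differentiable ℂ (X i)) {z : ℂ} {ε : ℝ}
    (hε : 0 < ε) (hε1 : ε ≤ 1)
    (hb : ∀ j, ∀ w ∈ closedBall z ε, ‖X j w‖ ≤ Real.exp 1 * ‖X j z‖) :
    ‖(Matrix.of fun b l : Fin M => iteratedDeriv l (X b) z).det‖ ≤ (Nat.factorial M) *
      ((Nat.factorial M) * Real.exp 1 * (1 / ε) ^ M) ^ M * ∏ b : Fin M, ‖X b z‖ := by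
  have hder : ∀ b l : Fin M, ‖(Matrix.of fun b l : Fin M => iteratedDeriv l (X b) z) b l‖
      ≤ (Nat.factorial M) * Real.exp 1 * (1 / ε) ^ M * ‖X b z‖ := by
    intro b l
    simp only [Matrix.of_apply]
    have h1 := Complex.norm_iteratedDeriv_le_of_forall_mem_sphere_norm_le (n := l) (c := z)
      (R := ε) (C := Real.exp 1 * ‖X b z‖) (f := X b) hε
      (DifferentiableOn.diffContOnCl (hX b).differentiableOn)
      (fun w hw => hb _ w (sphere_subset_closedBall hw))
    refine h1.trans ?_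
    have h2 : (Nat.factorial (l : ℕ) : ℝ) ≤ Nat.factorial M := by
      exact_mod_cast Nat.factorial_le l.2.le
    have h3 : 1 / ε ^ (l : ℕ) ≤ (1 / ε) ^ M := by
      rw [one_div_pow]
      apply one_div_le_one_div_of_le (by positivity)
      exact pow_le_pow_of_le_one hε.le hε1 l.2.le
    calc (Nat.factorial (l : ℕ) : ℝ) * (Real.exp 1 * ‖X b z‖) / ε ^ (l : ℕ)
        = (Nat.factorial (l : ℕ) : ℝ) * (Real.exp 1 * ‖X b z‖) * (1 / ε ^ (l : ℕ)) := by ring
      _ ≤ (Nat.factorial M : ℝ) * (Real.exp 1 * ‖X b z‖) * ((1 / ε) ^ M) := by gcongr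
      _ = _ := by ring
  refine (det_bound _ _ hder).trans (le_of_eq ?_)
  rw [Finset.prod_mul_distrib, Finset.prod_const, Finset.card_univ, Fintype.card_fin]
  ring

variable {a b : MvPolynomial (Fin d) ℂ}

/-- the integral functions of the data -/
noncomputable def Xf (D : Dat a b) (s : Fin d → ℂ → ℂ) (y : ℂ → ℂ) (i : Fin D.M) (z : ℂ) : ℂ :=
  eval (fun j => s j z) (D.mem i).choose * y z +
    eval (fun j => s j z) (D.mem i).choose_spec.choose

/-- the integral functions of the data, transformed -/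
noncomputable def Yf (D : Dat a b) (s : Fin d → ℂ → ℂ) (y : ℂ → ℂ) (e : D.E) (i : Fin D.M)
    (z : ℂ) : ℂ := ∑ j, D.A e i j * Xf D s y j z

theorem diff_eval (s : Fin d → ℂ → ℂ) (hs : ∀ j, Differentiable ℂ (s j))
    (p : MvPolynomial (Fin d) ℂ) : Differentiable ℂ fun z => eval (fun j => s j z) p := by
  have h1 : (fun z => eval (fun j => s j z) p) =
      fun z => ∑ w ∈ p.support, coeff w p * ∏ i, (s i z) ^ w i := by
    funext z
    rw [eval_eq']
  rw [h1]
  refine Differentiable.fun_sum fun w _ => (differentiable_const _).mul ?_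
  exact Differentiable.fun_finsetProd fun i _ => (hs i).pow _

theorem Xf_diff (D : Dat a b) {s : Fin d → ℂ → ℂ} (hs : ∀ j, Differentiable ℂ (s j)) {y : ℂ → ℂ}
    (hy : Differentiable ℂ y) (i : Fin D.M) : Differentiable ℂ (Xf D s y i) :=
  ((diff_eval s hs _).mul hy).add (diff_eval s hs _)

theorem Yf_diff (D : Dat a b) {s : Fin d → ℂ → ℂ} (hs : ∀ j, Differentiable ℂ (s j)) {y : ℂ → ℂ}
    (hy : Differentiable ℂ y) (e : D.E) (i : Fin D.M) : Differentiable ℂ (Yf D s y e i) :=
  Differentiable.fun_sum fun j _ => (Xf_diff D hs hy j).const_mul _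

theorem Xf_mul (D : Dat a b) {s : Fin d → ℂ → ℂ} {y : ℂ → ℂ}
    (hyb : ∀ z, y z * eval (fun j => s j z) b = eval (fun j => s j z) a) (i : Fin D.M) (z : ℂ) :
    Xf D s y i z * eval (fun j => s j z) b = eval (fun j => s j z) (D.x i) := by
  have h1 := (D.mem i).choose_spec.choose_spec
  conv_rhs => rw [← h1]
  rw [map_add, map_mul, map_mul, ← hyb]
  unfold Xf
  ring

theorem Yf_mul (D : Dat a b) {s : Fin d → ℂ → ℂ} {y : ℂ → ℂ}
    (hyb : ∀ z, y z * eval (fun j => s j z) b = eval (fun j => s j z) a) (e : D.E)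
    (i : Fin D.M) (z : ℂ) :
    Yf D s y e i z * eval (fun j => s j z) b = eval (fun j => s j z) (D.φ e i) := by
  unfold Yf Dat.φ
  rw [Finset.sum_mul, map_sum]
  refine Finset.sum_congr rfl fun j _ => ?_
  rw [map_mul, eval_C, mul_assoc, Xf_mul D hyb]

/-- the Wronskian of the data -/
noncomputable def Wf (D : Dat a b) (s : Fin d → ℂ → ℂ) (y : ℂ → ℂ) (z : ℂ) : ℂ :=
  (Matrix.of fun b l : Fin D.M => iteratedDeriv l (Xf D s y b) z).det

theorem Wf_diff (D : Dat a b) {s : Fin d → ℂ → ℂ} (hs : ∀ j, Differentiable ℂ (s j)) {y : ℂ → ℂ}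
    (hy : Differentiable ℂ y) : Differentiable ℂ (Wf D s y) := by
  have e : Wf D s y = fun z => ∑ σ : Equiv.Perm (Fin D.M), (((Equiv.Perm.sign σ : ℤ) : ℂ) *
        ∏ k : Fin D.M, iteratedDeriv k (Xf D s y (σ k)) z) := by
    funext z
    unfold Wf
    rw [Matrix.det_apply']
    simp only [Matrix.of_apply]
  rw [e]
  refine Differentiable.fun_sum fun σ _ => (Differentiable.fun_finsetProd fun k _ => ?_).const_mul _
  exact (Xf_diff D hs hy _).contDiff.differentiable_iteratedDeriv (n := ⊤) _ (by exact_mod_cast WithTop.coe_lt_top _)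

theorem Wf_eq (D : Dat a b) {s : Fin d → ℂ → ℂ} (hs : ∀ j, Differentiable ℂ (s j)) {y : ℂ → ℂ}
    (hy : Differentiable ℂ y) (e : D.E) (z : ℂ) :
    (Matrix.of fun b l : Fin D.M => iteratedDeriv l (Yf D s y e b) z).det =
      (D.A e).det * Wf D s y z := by
  unfold Wf
  rw [← Matrix.det_mul]
  congr 1
  ext i l
  simp only [Matrix.of_apply, Matrix.mul_apply]
  unfold Yf
  rw [iteratedDeriv_fun_sum]
  · refine Finset.sum_congr rfl fun j _ => ?_
    rw [iteratedDeriv_const_mul_field]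
  · intro j _
    exact ((Xf_diff D hs hy j).const_mul _).contDiff.contDiffAt

end Pool.Agent.Run7.h983
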