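import Mathlib
import Pool.Agent.Run7.h983.An1

/-!
# The subspace theorem for entire functions on good circles, continued
-/

set_option autoImplicit false

namespace Pool.Agent.Run7.h983

open MvPolynomial Filter Metric Real Set Topology Pool.Agent.H159R3.NV Pool.Agent.W602.NC

variable {d : ℕ} {a b : MvPolynomial (Fin d) ℂ}

/-- the constant of the data -/
noncomputable def cD (D : Dat a b) (w : ℂ) : ℝ :=
  ∑ e, |Real.log ‖(D.A e).det‖| + |Real.log ‖w‖| + Real.log (Nat.factorial D.M) +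
    D.M * (Real.log (Nat.factorial D.M) + 1) + D.M * D.M

theorem ST_circ (D : Dat a b) (s : Fin d → ℂ → ℂ) (hs : ∀ j, Differentiable ℂ (s j))
    (hs0 : ∀ j z, s j z ≠ 0) {y : ℂ → ℂ} (hy : Differentiable ℂ y)
    (hyb : ∀ z, y z * eval (fun j => s j z) b = eval (fun j => s j z) a)
    (hW : Wf D s y 0 ≠ 0) {R : ℝ} (hR : 0 < R) (β : C(sphere (0 : ℂ) R, ℝ))
    (hβ : (circ s hs hs0 hR).Rep b β) {ε : ℝ} (hε : 0 < ε) (hε1 : ε ≤ 1)
    (hgood : ∀ z, ‖z‖ = R → ∀ e i, ∀ w ∈ closedBall z ε,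
      ‖Yf D s y e i w‖ ≤ Real.exp 1 * ‖Yf D s y e i z‖) (Er : ℝ)
    (hEr : cD D (Wf D s y 0) * (1 + Real.log (1 / ε)) ≤ Er) :
    (circ s hs hs0 hR).ST D β Er := by
  classical
  intro (G : C(sphere (0 : ℂ) R, ℝ)) hG
  have hfac : (1 : ℝ) ≤ Nat.factorial D.M := by exact_mod_cast Nat.one_le_iff_ne_zero.2 (Nat.factorial_ne_zero D.M)
  have hlf : 0 ≤ Real.log (Nat.factorial D.M) := Real.log_nonneg hfac
  have hle : 0 ≤ Real.log (1 / ε) := Real.log_nonneg (by rw [le_div_iff₀ hε]; linarith)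
  set cA : ℝ := ∑ e, |Real.log ‖(D.A e).det‖| with hcA
  have hcA0 : 0 ≤ cA := Finset.sum_nonneg fun e _ => abs_nonneg _
  set c : ℝ := cA + Real.log (Nat.factorial D.M) + D.M * (Real.log (Nat.factorial D.M) + 1) +
    D.M * D.M * Real.log (1 / ε) with hc
  let g : C(sphere (0 : ℂ) R, ℝ) := c • (1 : C(sphere (0 : ℂ) R, ℝ)) + G - (D.M : ℝ) • β
  have hgv : ∀ v, g v = c + G v - D.M * β v := by
    intro v
    show (c • (1 : C(sphere (0 : ℂ) R, ℝ)) + G - (D.M : ℝ) • β : C(sphere (0 : ℂ) R, ℝ)) v = _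
    rw [ContinuousMap.sub_apply, ContinuousMap.add_apply, ContinuousMap.smul_apply,
      ContinuousMap.smul_apply, ContinuousMap.one_apply, smul_eq_mul, smul_eq_mul, mul_one]
  have hmean : mean hR g = c + mean hR G - D.M * mean hR β := by
    show mean hR (c • (1 : C(sphere (0 : ℂ) R, ℝ)) + G - (D.M : ℝ) • β) = _
    rw [map_sub, map_add, map_smul, map_smul, mean_one, smul_eq_mul, smul_eq_mul, mul_one]
  have hWd := Wf_diff D hs hy
  have h1 : L (Wf D s y) R ≤ mean hR g := by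
    apply avg_le_mean hR (ci_log (mero_of_diff hWd) R)
    filter_upwards [ne_cod hWd hW R] with z hz hzs
    rw [hgv]
    obtain ⟨e, he⟩ := hG ⟨z, hzs⟩
    have hzn : ‖z‖ = R := by simpa using hzs
    have hbz : eval (fun j => s j z) b ≠ 0 := (hβ ⟨z, hzs⟩).1
    have hbz' : β ⟨z, hzs⟩ = Real.log ‖eval (fun j => s j z) b‖ := (hβ ⟨z, hzs⟩).2
    have h2 := wr_point (fun i => Yf D s y e i) (fun i => Yf_diff D hs hy e i) hε hε1
      (fun j w hw => hgood z hzn e j w hw)
    rw [Wf_eq D hs hy, norm_mul] at h2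
    have hdet : 0 < ‖(D.A e).det‖ := norm_pos_iff.2 (D.det e)
    have hWz : 0 < ‖Wf D s y z‖ := norm_pos_iff.2 hz
    have hbpos : 0 < ‖eval (fun j => s j z) b‖ := norm_pos_iff.2 hbz
    have h3 : (∏ i, ‖Yf D s y e i z‖) * ‖eval (fun j => s j z) b‖ ^ D.M ≤ Real.exp (G ⟨z, hzs⟩) := by
      refine le_trans (le_of_eq ?_) he
      have h4 : ‖eval (fun j => s j z) b‖ ^ D.M = ∏ _i : Fin D.M, ‖eval (fun j => s j z) b‖ := by
        rw [Finset.prod_const, Finset.card_univ, Fintype.card_fin]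
      rw [h4, ← Finset.prod_mul_distrib]
      refine Finset.prod_congr rfl fun i _ => ?_
      rw [← norm_mul, Yf_mul D hyb]
      rfl
    set CC : ℝ := (Nat.factorial D.M : ℝ) * ((Nat.factorial D.M : ℝ) * Real.exp 1 * (1 / ε) ^ D.M) ^ D.M
      with hCC
    have hCCpos : 0 < CC := by positivity
    have h5 : ‖(D.A e).det‖ * ‖Wf D s y z‖ * ‖eval (fun j => s j z) b‖ ^ D.M ≤
        CC * Real.exp (G ⟨z, hzs⟩) := by
      calc ‖(D.A e).det‖ * ‖Wf D s y z‖ * ‖eval (fun j => s j z) b‖ ^ D.M ≤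
          (CC * ∏ i, ‖Yf D s y e i z‖) * ‖eval (fun j => s j z) b‖ ^ D.M :=
            mul_le_mul_of_nonneg_right h2 (by positivity)
        _ = CC * ((∏ i, ‖Yf D s y e i z‖) * ‖eval (fun j => s j z) b‖ ^ D.M) := by ring
        _ ≤ _ := mul_le_mul_of_nonneg_left h3 hCCpos.le
    have h6 := Real.log_le_log (by positivity) h5
    rw [Real.log_mul (by positivity) (by positivity), Real.log_mul hdet.ne' hWz.ne',
      Real.log_pow, Real.log_mul hCCpos.ne' (Real.exp_ne_zero _), Real.log_exp, hCC,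
      Real.log_mul (by positivity) (by positivity), Real.log_pow,
      Real.log_mul (by positivity) (by positivity), Real.log_mul (by positivity) (by positivity),
      Real.log_exp, Real.log_pow, ← hbz'] at h6
    have h7 : -Real.log ‖(D.A e).det‖ ≤ cA := by
      have h8 := Finset.single_le_sum (f := fun e => |Real.log ‖(D.A e).det‖|)
        (fun e _ => abs_nonneg _) (Finset.mem_univ e)
      have h9 := neg_abs_le (Real.log ‖(D.A e).det‖)
      linarith
    rw [hc]
    nlinarith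
  have h2 := jensen_entire hR hWd hW
  have h3 : (circ s hs hs0 hR).I β = mean hR β := rfl
  have h4 : (circ s hs hs0 hR).I G = mean hR G := rfl
  rw [h3, h4]
  have h5 : c - Real.log ‖Wf D s y 0‖ ≤ cD D (Wf D s y 0) * (1 + Real.log (1 / ε)) := by
    have h6 := neg_abs_le (Real.log ‖Wf D s y 0‖)
    unfold cD
    rw [← hcA, hc]
    have e1 : 0 ≤ (cA + |Real.log ‖Wf D s y 0‖| + Real.log (Nat.factorial D.M) +
      D.M * (Real.log (Nat.factorial D.M) + 1)) * Real.log (1 / ε) := by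
      positivity
    have e2 : (0 : ℝ) ≤ D.M * D.M := by positivity
    nlinarith
  linarith

end Pool.Agent.Run7.h983
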