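import Mathlib
import Pool.Agent.Run7.h983.An2

/-!
# Slow growth
-/

set_option autoImplicit false

namespace Pool.Agent.Run7.h983

open MvPolynomial Filter Metric Real Set Topology Pool.Agent.H159R3.NV Pool.Agent.W602.NC

theorem T2_one (g : ℂ → ℂ) (r : ℝ) :
    T2 (fun _ => 1) g r = Real.circleAverage (fun z => Real.posLog ‖g z‖) 0 r := by
  unfold T2 L
  simp [Real.circleAverage_const]

/-- **Slow growth from estimates on good circles.** -/
theorem slow {Ix : Type} [Fintype Ix] (U : Ix → ℂ → ℂ) (hU : ∀ i, Differentiable ℂ (U i))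
    (hU0 : ∀ i, U i 0 ≠ 0) (A0 B0 : ℝ) (hA0 : 0 ≤ A0) (hB0 : 0 ≤ B0)
    (hest : ∀ R ε : ℝ, 0 < R → 0 < ε → ε ≤ 1 →
      (∀ z, ‖z‖ = R → ∀ i, ∀ w ∈ closedBall z ε, U i w ≠ 0 ∧ ‖U i w‖ ≤ Real.exp 1 * ‖U i z‖) →
        ∀ i, Real.circleAverage (fun z => Real.posLog ‖U i z‖) 0 R ≤
          A0 + B0 * Real.log (1 / ε)) :
    ∃ K1 K2 : ℝ, ∀ r, 1 ≤ r → ∀ i, Real.circleAverage (fun z => Real.posLog ‖U i z‖) 0 r ≤
      K1 + K2 * Real.log (r + 3) := by
  classical
  set p := Fintype.card Ix with hp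
  let v : Fin (p + 1) → ℂ → ℂ := Fin.cons (fun _ => 1) fun k => U ((Fintype.equivFin Ix).symm k)
  have hv0 : v 0 = fun _ => 1 := rfl
  have hvs : ∀ k, v (Fin.succ k) = U ((Fintype.equivFin Ix).symm k) := fun k => rfl
  set Λ : ℝ := ∑ j, |Real.log ‖v j 0‖| with hΛdef
  have hvd : ∀ j, Differentiable ℂ (v j) := by
    intro j
    refine Fin.cases ?_ (fun k => ?_) j
    · rw [hv0]
      exact differentiable_const _
    · rw [hvs]
      exact hU _
  have hvn : ∀ j, v j 0 ≠ 0 := by
    intro j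
    refine Fin.cases ?_ (fun k => ?_) j
    · rw [hv0]
      exact one_ne_zero
    · rw [hvs]
      exact hU0 _
  have hΛ : ∀ j, |Real.log ‖v j 0‖| ≤ Λ := fun j =>
    Finset.single_le_sum (f := fun j => |Real.log ‖v j 0‖|) (fun i _ => abs_nonneg _)
      (Finset.mem_univ j)
  have hΛ0 : 0 ≤ Λ := Finset.sum_nonneg fun i _ => abs_nonneg _
  have hB : Base v Λ := ⟨hvd, hvn, hΛ0, hΛ⟩
  have hlog2 : 0 ≤ Real.log 2 := Real.log_nonneg (by norm_num)
  have hkey : ∀ r0, 1 ≤ r0 → SS v Λ r0 ≤ 1 + 2 * ((p + 1) * (A0 + Λ + B0 * Real.log 2)) +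
      2 * ((p + 1) * B0) * (7 + 3 * Real.log (r0 + 3)) + 576 * ((p + 1) * B0) ^ 2 := by
    intro r0 hr0
    have hrec : ∀ r δ, r0 ≤ r → 0 < δ → δ ≤ 1 → r + 4 * δ ≤ r0 + 3 →
        SS v Λ r ≤ (p + 1) * (A0 + Λ + B0 * Real.log 2) + (p + 1) * B0 * Real.log
          (1000 * (r + 4 * δ) ^ 3 * (SS v Λ (r + 4 * δ) + 1) ^ 2 / δ ^ 4) := by
      intro r δ h1 h2 h3 _
      have hr1 : 1 ≤ r := hr0.trans h1
      obtain ⟨s, ε, hrs, _, hε, hε1, hεX, h0, hb⟩ := hB.good hr1 h2 h3
      have hs : 0 < s := by linarith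
      have hest' := hest s ε hs hε hε1 (by
        intro z hz i w hw
        set k := Fintype.equivFin Ix i with hk
        have e1 : v k.succ = U i := by
          rw [hvs, hk, Equiv.symm_apply_apply]
        refine ⟨?_, ?_⟩
        · have := h0 z hz k.succ w hw
          rwa [e1] at this
        · have := hb z hz 0 k.succ w hw
          rw [e1, hv0] at this
          simpa using this)
      set X : ℝ := 1000 * (r + 4 * δ) ^ 3 * (SS v Λ (r + 4 * δ) + 1) ^ 2 / δ ^ 4 with hX
      have hSnn := hB.SS_nonneg (R := r + 4 * δ) (by linarith)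
      have hXpos : 0 < X := by positivity
      have h5 : Real.log (1 / ε) ≤ Real.log 2 + Real.log X := by
        rw [← Real.log_mul (by norm_num) hXpos.ne']
        exact Real.log_le_log (by positivity) hεX
      have hle : 0 ≤ Real.log (1 / ε) := Real.log_nonneg (by rw [le_div_iff₀ hε]; linarith)
      have h6 : SS v Λ s ≤ (p + 1) * (A0 + B0 * Real.log (1 / ε) + Λ) := by
        unfold SS
        calc ∑ j, (T2 (v 0) (v j) s + Λ) ≤
            ∑ _j : Fin (p + 1), (A0 + B0 * Real.log (1 / ε) + Λ) := by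
              refine Finset.sum_le_sum fun j _ => ?_
              rw [hv0, T2_one]
              have : Real.circleAverage (fun z => Real.posLog ‖v j z‖) 0 s ≤
                  A0 + B0 * Real.log (1 / ε) := by
                refine Fin.cases ?_ (fun k => ?_) j
                · rw [hv0]
                  simp only [norm_one, Real.posLog_one, Real.circleAverage_const]
                  positivity
                · rw [hvs]
                  exact hest' _
              linarith
          _ = (p + 1) * (A0 + B0 * Real.log (1 / ε) + Λ) := by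
              rw [Finset.sum_const, Finset.card_univ, Fintype.card_fin, nsmul_eq_mul]
              push_cast
              rfl
      have h7 := hB.SS_mono (by linarith : 0 < r) hrs
      have h8 : B0 * Real.log (1 / ε) ≤ B0 * (Real.log 2 + Real.log X) :=
        mul_le_mul_of_nonneg_left h5 hB0
      have h9 : ((p : ℝ) + 1) * (A0 + B0 * Real.log (1 / ε) + Λ) ≤
          (p + 1) * (A0 + Λ + B0 * Real.log 2 + B0 * Real.log X) :=
        mul_le_mul_of_nonneg_left (by linarith) (by positivity)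
      calc SS v Λ r ≤ (p + 1) * (A0 + Λ + B0 * Real.log 2 + B0 * Real.log X) := by linarith
        _ = _ := by ring
    exact growth (SS v Λ) ((p + 1) * (A0 + Λ + B0 * Real.log 2)) ((p + 1) * B0) r0
      (SS v Λ (r0 + 3)) (by positivity) (by positivity) hr0
      (fun r h1 h2 => hB.SS_mono (by linarith) h2) hrec (fun r h1 => hB.SS_nonneg (by linarith))
  refine ⟨1 + 2 * ((p + 1) * (A0 + Λ + B0 * Real.log 2)) + 2 * ((p + 1) * B0) * 7 +
    576 * ((p + 1) * B0) ^ 2, 2 * ((p + 1) * B0) * 3, fun r hr i => ?_⟩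
  have h1 := hB.term_le (Fintype.equivFin Ix i).succ (R := r) (by linarith)
  rw [hv0, T2_one, hvs, Equiv.symm_apply_apply] at h1
  have h2 := hkey r hr
  have h3 : 1 + 2 * ((p + 1) * (A0 + Λ + B0 * Real.log 2)) +
      2 * ((p + 1) * B0) * (7 + 3 * Real.log (r + 3)) + 576 * ((p + 1) * B0) ^ 2 =
      1 + 2 * ((p + 1) * (A0 + Λ + B0 * Real.log 2)) + 2 * ((p + 1) * B0) * 7 +
    576 * ((p + 1) * B0) ^ 2 + 2 * ((p + 1) * B0) * 3 * Real.log (r + 3) := by ring
  linarith

/-- A zero free entire function of slow growth is constant. -/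
theorem const_of_slow {g : ℂ → ℂ} (hg : Differentiable ℂ g) (h0 : ∀ z, g z ≠ 0) (K1 K2 : ℝ)
    (h : ∀ r, 1 ≤ r → Real.circleAverage (fun z => Real.posLog ‖g z‖) 0 r ≤
      K1 + K2 * Real.log (r + 3)) (z : ℂ) : g z = g 0 := by
  have habs : ∀ r, 1 ≤ r → Real.circleAverage (fun z => |Real.log ‖g z‖|) 0 r ≤
      2 * (K1 + K2 * Real.log (r + 3)) - Real.log ‖g 0‖ := by
    intro r hr
    rw [avg_abs_log (mero_of_diff hg)]
    have h1 := jensen_entire (by linarith : 0 < r) hg (h0 0)
    have h2 := h r hr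
    linarith
  have hlim : Tendsto (fun r : ℝ => (2 * (|K1| + |K2| * Real.log (r + 3)) +
      |Real.log ‖g 0‖|) / r) atTop (𝓝 0) := by
    have h1 : Tendsto (fun r : ℝ => Real.log (r + 3) / r) atTop (𝓝 0) := by
      have h2 : Tendsto (fun r : ℝ => Real.log (r + 3) / (r + 3)) atTop (𝓝 0) := by
        have h3 := Real.isLittleO_log_id_atTop.tendsto_div_nhds_zero
        exact h3.comp (tendsto_atTop_add_const_right _ 3 tendsto_id)
      have h4 : Tendsto (fun r : ℝ => (r + 3) / r) atTop (𝓝 1) := by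
        have h5 : Tendsto (fun r : ℝ => 1 + 3 / r) atTop (𝓝 (1 + 0)) :=
          tendsto_const_nhds.add (tendsto_const_nhds.div_atTop tendsto_id)
        rw [add_zero] at h5
        refine h5.congr' ?_
        filter_upwards [eventually_gt_atTop 0] with r hr
        field_simp
      have h5 := h2.mul h4
      rw [zero_mul] at h5
      refine h5.congr' ?_
      filter_upwards [eventually_gt_atTop 0] with r hr
      have : r + 3 ≠ 0 := by linarith
      field_simp
    have h2 : Tendsto (fun r : ℝ => 1 / r) atTop (𝓝 0) := by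
      simpa using tendsto_inv_atTop_zero (𝕜 := ℝ)
    have h3 := ((h1.const_mul (2 * |K2|)).add (h2.const_mul (2 * |K1| + |Real.log ‖g 0‖|)))
    rw [mul_zero, mul_zero, add_zero] at h3
    refine h3.congr fun r => ?_
    ring
  have hz : ∀ w : ℂ, Real.log ‖g w‖ = Real.log ‖g 0‖ := by
    intro w
    have hb : ∀ᶠ r : ℝ in atTop, |Real.log ‖g w‖ - Real.log ‖g 0‖| ≤
        8 * ‖w‖ * ((2 * (|K1| + |K2| * Real.log (r + 3)) + |Real.log ‖g 0‖|) / r) := by
      filter_upwards [eventually_ge_atTop 1, eventually_ge_atTop (2 * ‖w‖)] with r hr1 hr2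
      have hr0 : 0 < r := by linarith
      have h1 := poisson_diff (k := g) (R := r) (δ := r / 2) hr0 (by linarith)
        (fun z _ => hg.analyticAt z) (fun z _ => h0 z) (w := w) (z := 0) (by linarith)
        (by rw [norm_zero]; linarith)
      rw [sub_zero] at h1
      refine h1.trans ?_
      have h2 := habs r hr1
      have h3 : 2 * (K1 + K2 * Real.log (r + 3)) - Real.log ‖g 0‖ ≤
          2 * (|K1| + |K2| * Real.log (r + 3)) + |Real.log ‖g 0‖| := by
        have e1 := le_abs_self K1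
        have e2 : K2 * Real.log (r + 3) ≤ |K2| * Real.log (r + 3) :=
          mul_le_mul_of_nonneg_right (le_abs_self K2) (Real.log_nonneg (by linarith))
        have e3 := neg_abs_le (Real.log ‖g 0‖)
        linarith
      calc 2 * r * ‖w‖ / (r / 2) ^ 2 * Real.circleAverage (fun ζ => |Real.log ‖g ζ‖|) 0 r ≤
          2 * r * ‖w‖ / (r / 2) ^ 2 * (2 * (|K1| + |K2| * Real.log (r + 3)) +
            |Real.log ‖g 0‖|) := mul_le_mul_of_nonneg_left (h2.trans h3) (by positivity)
        _ = _ := by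
          field_simp
          ring
    have h2 := hlim.const_mul (8 * ‖w‖)
    rw [mul_zero] at h2
    have h3 := ge_of_tendsto h2 hb
    have h4 := abs_nonneg (Real.log ‖g w‖ - Real.log ‖g 0‖)
    have h5 : |Real.log ‖g w‖ - Real.log ‖g 0‖| = 0 := le_antisymm h3 h4
    exact sub_eq_zero.1 (abs_eq_zero.1 h5)
  apply hg.apply_eq_apply_of_bounded
  rw [Metric.isBounded_range_iff]
  refine ⟨2 * ‖g 0‖, fun x y => ?_⟩
  have hn : ∀ w, ‖g w‖ = ‖g 0‖ := fun w =>
    Real.log_injOn_pos (norm_pos_iff.2 (h0 w)) (norm_pos_iff.2 (h0 0)) (hz w)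
  rw [dist_eq_norm]
  calc ‖g x - g y‖ ≤ ‖g x‖ + ‖g y‖ := norm_sub_le _ _
    _ = _ := by rw [hn x, hn y]; ring

end Pool.Agent.Run7.h983
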