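import Mathlib
import Pool.Agent.Run7.h983.An3

/-!
# The analytic case, normalised at the origin
-/

set_option autoImplicit false

namespace Pool.Agent.Run7.h983

open MvPolynomial Filter Metric Real Set Topology Pool.Agent.H159R3.NV Pool.Agent.W602.NC

variable {d : ℕ}

theorem pos_poly (p : MvPolynomial (Fin d) ℂ) : ∃ c n : ℝ, 0 ≤ c ∧ 0 ≤ n ∧ ∀ x : Fin d → ℂ,
    (∀ j, x j ≠ 0) → Real.posLog ‖eval x p‖ ≤ c + n * ∑ j, |Real.log ‖x j‖| := by
  classical
  set S : ℝ := ∑ γ ∈ p.support, ‖coeff γ p‖ with hS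
  have hS0 : 0 ≤ S := Finset.sum_nonneg fun γ _ => norm_nonneg _
  set n : ℝ := ∑ γ ∈ p.support, ∑ j, (γ j : ℝ) with hn
  have hn0 : 0 ≤ n := Finset.sum_nonneg fun γ _ => Finset.sum_nonneg fun j _ => Nat.cast_nonneg _
  refine ⟨Real.log (1 + S), n, Real.log_nonneg (by linarith), hn0, fun x hx => ?_⟩
  set Λ : ℝ := ∑ j, |Real.log ‖x j‖| with hΛ
  have hΛ0 : 0 ≤ Λ := Finset.sum_nonneg fun j _ => abs_nonneg _
  have h1 : ‖eval x p‖ ≤ (1 + S) * Real.exp (n * Λ) := by
    rw [eval_eq']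
    refine (norm_sum_le _ _).trans ?_
    have h2 : ∀ γ ∈ p.support, ‖coeff γ p * ∏ i, x i ^ γ i‖ ≤ ‖coeff γ p‖ * Real.exp (n * Λ) := by
      intro γ hγ
      rw [norm_mul]
      refine mul_le_mul_of_nonneg_left ?_ (norm_nonneg _)
      have h3 : ‖∏ i, x i ^ γ i‖ = Real.exp (∑ i, (γ i : ℝ) * Real.log ‖x i‖) := by
        rw [norm_prod, Real.exp_sum]
        refine Finset.prod_congr rfl fun i _ => ?_
        rw [norm_pow, Real.exp_nat_mul, Real.exp_log (norm_pos_iff.2 (hx i))]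
      rw [h3, Real.exp_le_exp]
      have h4 : ∀ i, (γ i : ℝ) ≤ n := by
        intro i
        have e1 := Finset.single_le_sum (f := fun j => (γ j : ℝ)) (fun j _ => Nat.cast_nonneg _)
          (Finset.mem_univ i)
        have e2 := Finset.single_le_sum (f := fun γ : Fin d →₀ ℕ => ∑ j, (γ j : ℝ))
          (fun γ _ => Finset.sum_nonneg fun j _ => Nat.cast_nonneg _) hγ
        exact e1.trans e2
      rw [hΛ, Finset.mul_sum]
      refine Finset.sum_le_sum fun i _ => ?_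
      calc (γ i : ℝ) * Real.log ‖x i‖ ≤ (γ i : ℝ) * |Real.log ‖x i‖| :=
            mul_le_mul_of_nonneg_left (le_abs_self _) (Nat.cast_nonneg _)
        _ ≤ _ := mul_le_mul_of_nonneg_right (h4 i) (abs_nonneg _)
    refine (Finset.sum_le_sum h2).trans ?_
    rw [← Finset.sum_mul, ← hS]
    exact mul_le_mul_of_nonneg_right (by linarith) (Real.exp_pos _).le
  have h5 : Real.log (1 + S) + n * Λ = Real.log ((1 + S) * Real.exp (n * Λ)) := by
    rw [Real.log_mul (by positivity) (Real.exp_ne_zero _), Real.log_exp]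
  rw [h5, Real.posLog_apply]
  apply max_le
  · apply Real.log_nonneg
    have : 1 ≤ Real.exp (n * Λ) := Real.one_le_exp (by positivity)
    nlinarith
  · by_cases h0 : ‖eval x p‖ = 0
    · rw [h0, Real.log_zero]
      apply Real.log_nonneg
      have : 1 ≤ Real.exp (n * Λ) := Real.one_le_exp (by positivity)
      nlinarith
    · exact Real.log_le_log (lt_of_le_of_ne (norm_nonneg _) (Ne.symm h0)) h1

theorem I_lam {s : Fin d → ℂ → ℂ} (hs : ∀ j, Differentiable ℂ (s j)) (hs0 : ∀ j z, s j z ≠ 0)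
    {R : ℝ} (hR : 0 < R) (j : Fin d) :
    (circ s hs hs0 hR).I ((circ s hs hs0 hR).lam j) = Real.log ‖s j 0‖ := by
  have h1 : (circ s hs hs0 hR).I ((circ s hs hs0 hR).lam j) = L (s j) R := by
    exact mean_eq_avg hR (F := fun z => Real.log ‖s j z‖) _ fun z hz => rfl
  rw [h1]
  apply le_antisymm
  · have hinv : Differentiable ℂ fun z => (s j z)⁻¹ := (hs j).inv (hs0 j)
    have h2 := jensen_entire hR hinv (inv_ne_zero (hs0 j 0))
    have h3 : L (fun z => (s j z)⁻¹) R = - L (s j) R := by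
      unfold L
      have : (fun z => Real.log ‖(s j z)⁻¹‖) = fun z => (-1 : ℝ) • Real.log ‖s j z‖ := by
        funext z
        rw [norm_inv, Real.log_inv, smul_eq_mul]
        ring
      rw [this, Real.circleAverage_fun_smul, smul_eq_mul]
      ring
    rw [h3, norm_inv, Real.log_inv] at h2
    linarith
  · exact jensen_entire hR (hs j) (hs0 j 0)

/-- the mean of the sum of the `|log ‖s j‖|` -/
noncomputable def sl {s : Fin d → ℂ → ℂ} (hs : ∀ j, Differentiable ℂ (s j))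
    (hs0 : ∀ j z, s j z ≠ 0) {R : ℝ} (hR : 0 < R) : C(sphere (0 : ℂ) R, ℝ) :=
  ∑ j, |(circ s hs hs0 hR).lam j|

theorem sl_apply {s : Fin d → ℂ → ℂ} (hs : ∀ j, Differentiable ℂ (s j))
    (hs0 : ∀ j z, s j z ≠ 0) {R : ℝ} (hR : 0 < R) (v : sphere (0 : ℂ) R) :
    sl hs hs0 hR v = ∑ j, |Real.log ‖s j v‖| := by
  unfold sl
  rw [ContinuousMap.sum_apply]
  rfl

theorem mean_sl {s : Fin d → ℂ → ℂ} (hs : ∀ j, Differentiable ℂ (s j))
    (hs0 : ∀ j z, s j z ≠ 0) {R : ℝ} (hR : 0 < R) :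
    mean hR (sl hs hs0 hR) = (circ s hs hs0 hR).h := by
  unfold sl Sc.h
  rw [map_sum]
  rfl

theorem avg_poly {s : Fin d → ℂ → ℂ} (hs : ∀ j, Differentiable ℂ (s j))
    (hs0 : ∀ j z, s j z ≠ 0) (p : MvPolynomial (Fin d) ℂ) :
    ∃ A B : ℝ, 0 ≤ A ∧ 0 ≤ B ∧ ∀ (R : ℝ) (hR : 0 < R),
      Real.circleAverage (fun z => Real.posLog ‖eval (fun j => s j z) p‖) 0 R ≤
        A + B * (circ s hs hs0 hR).h := by
  obtain ⟨c, n, hc, hn, h⟩ := pos_poly p
  refine ⟨c, n, hc, hn, fun R hR => ?_⟩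
  have h1 := avg_le_mean hR (ci_posLog (mero_of_diff (diff_eval s hs p)) R)
    (c • (1 : C(sphere (0 : ℂ) R, ℝ)) + n • sl hs hs0 hR) (Filter.Eventually.of_forall fun z hz => by
      rw [ContinuousMap.add_apply, ContinuousMap.smul_apply, ContinuousMap.smul_apply,
        ContinuousMap.one_apply, sl_apply, smul_eq_mul, smul_eq_mul, mul_one]
      exact h _ fun j => hs0 j z)
  rw [map_add, map_smul, map_smul, mean_one, mean_sl, smul_eq_mul, smul_eq_mul, mul_one] at h1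
  exact h1

theorem avg_quot {s : Fin d → ℂ → ℂ} (hs : ∀ j, Differentiable ℂ (s j))
    (hs0 : ∀ j z, s j z ≠ 0) (p b : MvPolynomial (Fin d) ℂ) (Y : ℂ → ℂ) (hY : Differentiable ℂ Y)
    (hYb : ∀ z, Y z * eval (fun j => s j z) b = eval (fun j => s j z) p)
    (hb0 : eval (fun j => s j 0) b ≠ 0) :
    ∃ A B : ℝ, 0 ≤ A ∧ 0 ≤ B ∧ ∀ (R : ℝ) (hR : 0 < R),
      (∀ z, ‖z‖ = R → eval (fun j => s j z) b ≠ 0) → (∀ z, ‖z‖ = R → Y z ≠ 0) →
      Real.circleAverage (fun z => Real.posLog ‖Y z‖) 0 R ≤ A + B * (circ s hs hs0 hR).h := by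
  obtain ⟨A1, B1, hA1, hB1, h1⟩ := avg_poly hs hs0 p
  obtain ⟨A2, B2, hA2, hB2, h2⟩ := avg_poly hs hs0 b
  refine ⟨A1 + A2 + |Real.log ‖eval (fun j => s j 0) b‖|, B1 + B2, by positivity, by positivity,
    fun R hR hb hY0 => ?_⟩
  have i1 := ci_posLog (mero_of_diff (diff_eval s hs p)) R
  have i2 := ci_posLog (mero_of_diff (diff_eval s hs b)) R
  have i3 := ci_log (mero_of_diff (diff_eval s hs b)) R
  have i12 : CircleIntegrable (fun z => Real.posLog ‖eval (fun j => s j z) p‖ +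
      Real.posLog ‖eval (fun j => s j z) b‖) 0 R := i1.add i2
  have h3 : Real.circleAverage (fun z => Real.posLog ‖Y z‖) 0 R ≤
      Real.circleAverage (fun z => Real.posLog ‖eval (fun j => s j z) p‖ +
        Real.posLog ‖eval (fun j => s j z) b‖ - Real.log ‖eval (fun j => s j z) b‖) 0 R := by
    apply Real.circleAverage_mono (ci_posLog (mero_of_diff hY) R) (i12.sub i3)
    intro z hz
    rw [abs_of_pos hR, mem_sphere, dist_zero_right] at hz
    have e1 := norm_pos_iff.2 (hb z hz)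
    have e2 := norm_pos_iff.2 (hY0 z hz)
    have e3 : Real.log ‖Y z‖ + Real.log ‖eval (fun j => s j z) b‖ =
        Real.log ‖eval (fun j => s j z) p‖ := by
      rw [← Real.log_mul e2.ne' e1.ne', ← norm_mul, hYb]
    have e4 := log_le_posLog ‖eval (fun j => s j z) p‖
    have e5 := log_le_posLog ‖eval (fun j => s j z) b‖
    have e6 : 0 ≤ Real.posLog ‖eval (fun j => s j z) p‖ := Real.posLog_nonneg
    have e7 : 0 ≤ Real.posLog ‖eval (fun j => s j z) b‖ := Real.posLog_nonneg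
    show Real.posLog ‖Y z‖ ≤ Real.posLog ‖eval (fun j => s j z) p‖ +
        Real.posLog ‖eval (fun j => s j z) b‖ - Real.log ‖eval (fun j => s j z) b‖
    rw [Real.posLog_apply]
    exact max_le (by linarith) (by linarith)
  rw [Real.circleAverage_fun_sub i12 i3, Real.circleAverage_fun_add i1 i2] at h3
  have h4 := jensen_entire hR (diff_eval s hs b) hb0
  have h5 := h1 R hR
  have h6 := h2 R hR
  have h7 := neg_abs_le (Real.log ‖eval (fun j => s j 0) b‖)
  unfold L at h4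
  linarith

/-- **The analytic case, normalised.** -/
theorem an_main {J : Type} [Fintype J] (a b : J → MvPolynomial (Fin d) ℂ)
    (D : ∀ j, Dat (a j) (b j)) (K : ℝ) (hK : 0 ≤ K)
    (hcore : ∀ (q : Sc ℂ aC d) (β : J → C(q.V, ℝ)) (Er : ℝ),
      q.I 1 ≤ Er → (∀ j, |q.I (q.lam j)| ≤ Er) → (∀ j, q.Rep (b j) (β j)) →
        (∀ j, q.ST (D j) (β j) Er) → (∀ j, q.ST (dat2 (b j)) 0 Er) → q.h ≤ K * Er)
    (s : Fin d → ℂ → ℂ) (hs : ∀ j, Differentiable ℂ (s j)) (hs0 : ∀ j z, s j z ≠ 0)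
    (y : J → ℂ → ℂ) (hy : ∀ j, Differentiable ℂ (y j))
    (hyb : ∀ j z, y j z * eval (fun j => s j z) (b j) = eval (fun j => s j z) (a j))
    (hb0 : ∀ j, eval (fun j => s j 0) (b j) ≠ 0)
    (hY0 : ∀ j e i, Yf (D j) s (y j) e i 0 ≠ 0) (hW0 : ∀ j, Wf (D j) s (y j) 0 ≠ 0)
    (hY2 : ∀ j e i, Yf (dat2 (b j)) s 0 e i 0 ≠ 0) (hW2 : ∀ j, Wf (dat2 (b j)) s 0 0 ≠ 0)
    (j : Fin d) (z : ℂ) : s j z = s j 0 := by
  classical
  have hy2 : Differentiable ℂ (0 : ℂ → ℂ) := differentiable_const _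
  have hyb2 : ∀ z : ℂ, (0 : ℂ → ℂ) z * eval (fun j => s j z) (1 : MvPolynomial (Fin d) ℂ) =
      eval (fun j => s j z) (0 : MvPolynomial (Fin d) ℂ) := by
    intro z
    rw [Pi.zero_apply, zero_mul, map_zero]
  let Ix := Fin d ⊕ J ⊕ (Σ j, (D j).E × Fin (D j).M) ⊕
    (Σ j, (dat2 (b j)).E × Fin (dat2 (b j)).M)
  let U : Ix → ℂ → ℂ := Sum.elim s (Sum.elim (fun j z => eval (fun j => s j z) (b j))
    (Sum.elim (fun x => Yf (D x.1) s (y x.1) x.2.1 x.2.2)
      fun x => Yf (dat2 (b x.1)) s 0 x.2.1 x.2.2))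
  have hU : ∀ i, Differentiable ℂ (U i) := by
    rintro (j | j | ⟨j, e, i⟩ | ⟨j, e, i⟩)
    · exact hs j
    · exact diff_eval s hs (b j)
    · exact Yf_diff (D j) hs (hy j) e i
    · exact Yf_diff (dat2 (b j)) hs hy2 e i
  have hU0 : ∀ i, U i 0 ≠ 0 := by
    rintro (j | j | ⟨j, e, i⟩ | ⟨j, e, i⟩)
    · exact hs0 j 0
    · exact hb0 j
    · exact hY0 j e i
    · exact hY2 j e i
  -- bounds in terms of the height
  have hbd : ∀ i, ∃ A B : ℝ, 0 ≤ A ∧ 0 ≤ B ∧ ∀ (R : ℝ) (hR : 0 < R),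
      (∀ z, ‖z‖ = R → ∀ i, U i z ≠ 0) →
      Real.circleAverage (fun z => Real.posLog ‖U i z‖) 0 R ≤ A + B * (circ s hs hs0 hR).h := by
    rintro (j | j | ⟨j, e, i⟩ | ⟨j, e, i⟩)
    · obtain ⟨A, B, hA, hB, h⟩ := avg_poly hs hs0 (X j)
      refine ⟨A, B, hA, hB, fun R hR _ => ?_⟩
      have := h R hR
      simp only [eval_X] at this
      exact this
    · obtain ⟨A, B, hA, hB, h⟩ := avg_poly hs hs0 (b j)
      exact ⟨A, B, hA, hB, fun R hR _ => h R hR⟩
    · obtain ⟨A, B, hA, hB, h⟩ := avg_quot hs hs0 ((D j).φ e i) (b j) (Yf (D j) s (y j) e i)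
        (Yf_diff (D j) hs (hy j) e i) (Yf_mul (D j) (hyb j) e i) (hb0 j)
      exact ⟨A, B, hA, hB, fun R hR hne => h R hR (fun z hz => hne z hz (Sum.inr (Sum.inl j)))
        fun z hz => hne z hz (Sum.inr (Sum.inr (Sum.inl ⟨j, e, i⟩)))⟩
    · obtain ⟨A, B, hA, hB, h⟩ := avg_quot hs hs0 ((dat2 (b j)).φ e i) 1 (Yf (dat2 (b j)) s 0 e i)
        (Yf_diff (dat2 (b j)) hs hy2 e i) (Yf_mul (dat2 (b j)) hyb2 e i) (by
          rw [map_one]
          exact one_ne_zero)
      exact ⟨A, B, hA, hB, fun R hR hne => h R hR (fun z _ => by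
        rw [map_one]
        exact one_ne_zero) fun z hz => hne z hz (Sum.inr (Sum.inr (Sum.inr ⟨j, e, i⟩)))⟩
  choose A B hA hB hAB using hbd
  set C1 : ℝ := ∑ j, |cD (D j) (Wf (D j) s (y j) 0)| +
    ∑ j, |cD (dat2 (b j)) (Wf (dat2 (b j)) s 0 0)| + 1 + ∑ j, |Real.log ‖s j 0‖| with hC1
  have hn1 : 0 ≤ ∑ j, |cD (D j) (Wf (D j) s (y j) 0)| := Finset.sum_nonneg fun _ _ => abs_nonneg _
  have hn2 : 0 ≤ ∑ j, |cD (dat2 (b j)) (Wf (dat2 (b j)) s 0 0)| :=
    Finset.sum_nonneg fun _ _ => abs_nonneg _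
  have hn3 : 0 ≤ ∑ j, |Real.log ‖s j 0‖| := Finset.sum_nonneg fun _ _ => abs_nonneg _
  have hC10 : 0 ≤ C1 := by positivity
  have hA0 : 0 ≤ ∑ i, A i := Finset.sum_nonneg fun i _ => hA i
  have hB0 : 0 ≤ ∑ i, B i := Finset.sum_nonneg fun i _ => hB i
  obtain ⟨K1, K2, hK12⟩ := slow U hU hU0 (∑ i, A i + (∑ i, B i) * (K * C1))
    ((∑ i, B i) * (K * C1)) (by positivity) (by positivity) (by
    intro R ε hR hε hε1 hgood i
    have hle : 0 ≤ Real.log (1 / ε) := Real.log_nonneg (by rw [le_div_iff₀ hε]; linarith)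
    have hne : ∀ z, ‖z‖ = R → ∀ i, U i z ≠ 0 := fun z hz i =>
      (hgood z hz i z (mem_closedBall_self hε.le)).1
    let q := circ s hs hs0 hR
    let β : J → C(q.V, ℝ) := fun j => ⟨fun v => Real.log ‖eval (fun j => s j v.1) (b j)‖, by
      have h1 : Continuous fun v : sphere (0 : ℂ) R => ‖eval (fun j => s j v.1) (b j)‖ :=
        ((diff_eval s hs (b j)).continuous.comp continuous_subtype_val).norm
      exact h1.log fun v => norm_ne_zero_iff.2 (hne v.1 (by simpa using v.2)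
        (Sum.inr (Sum.inl j)))⟩
    have hβ : ∀ j, q.Rep (b j) (β j) := fun j v =>
      ⟨hne v.1 (by
        have := v.2
        rwa [mem_sphere, dist_zero_right] at this) (Sum.inr (Sum.inl j)), rfl⟩
    have hβ2 : q.Rep 1 0 := fun v => by
      rw [map_one]
      refine ⟨one_ne_zero, ?_⟩
      rw [ContinuousMap.zero_apply]
      show 0 = Real.log ‖(1 : ℂ)‖
      rw [norm_one, Real.log_one]
    set Er : ℝ := C1 * (1 + Real.log (1 / ε)) with hEr
    have h1 : C1 ≤ Er := by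
      rw [hEr]
      nlinarith
    have hh := hcore q β Er (by
        have : q.I 1 = 1 := mean_one hR
        rw [this]
        linarith) (by
        intro j
        have : q.I (q.lam j) = Real.log ‖s j 0‖ := I_lam hs hs0 hR j
        rw [this]
        have h2 := Finset.single_le_sum (f := fun j => |Real.log ‖s j 0‖|)
          (fun j _ => abs_nonneg _) (Finset.mem_univ j)
        linarith) hβ (by
        intro j
        apply ST_circ (D j) s hs hs0 (hy j) (hyb j) (hW0 j) hR (β j) (hβ j) hε hε1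
        · intro z hz e i w hw
          exact (hgood z hz (Sum.inr (Sum.inr (Sum.inl ⟨j, e, i⟩))) w hw).2
        · rw [hEr]
          apply mul_le_mul_of_nonneg_right _ (by linarith)
          have h2 := Finset.single_le_sum (f := fun j => |cD (D j) (Wf (D j) s (y j) 0)|)
            (fun j _ => abs_nonneg _) (Finset.mem_univ j)
          have h3 := le_abs_self (cD (D j) (Wf (D j) s (y j) 0))
          linarith) (by
        intro j
        apply ST_circ (dat2 (b j)) s hs hs0 hy2 hyb2 (hW2 j) hR 0 hβ2 hε hε1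
        · intro z hz e i w hw
          exact (hgood z hz (Sum.inr (Sum.inr (Sum.inr ⟨j, e, i⟩))) w hw).2
        · rw [hEr]
          apply mul_le_mul_of_nonneg_right _ (by linarith)
          have h2 := Finset.single_le_sum
            (f := fun j => |cD (dat2 (b j)) (Wf (dat2 (b j)) s 0 0)|)
            (fun j _ => abs_nonneg _) (Finset.mem_univ j)
          have h3 := le_abs_self (cD (dat2 (b j)) (Wf (dat2 (b j)) s 0 0))
          linarith)
    have h2 := hAB i R hR hne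
    have h3 : A i ≤ ∑ i, A i := Finset.single_le_sum (f := A) (fun i _ => hA i) (Finset.mem_univ i)
    have h4 : B i ≤ ∑ i, B i := Finset.single_le_sum (f := B) (fun i _ => hB i) (Finset.mem_univ i)
    have h5 : B i * (circ s hs hs0 hR).h ≤ (∑ i, B i) * (K * Er) :=
      mul_le_mul h4 hh q.h_nonneg hB0
    have h6 : (∑ i, B i) * (K * Er) = (∑ i, B i) * (K * C1) +
        (∑ i, B i) * (K * C1) * Real.log (1 / ε) := by
      rw [hEr]
      ring
    linarith)
  exact const_of_slow (hs j) (hs0 j) K1 K2 (fun r hr => hK12 r hr (Sum.inl j)) z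

end Pool.Agent.Run7.h983
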