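import Mathlib
import Pool.Agent.Run7.h983.An4

/-!
# The analytic case
-/

set_option autoImplicit false

namespace Pool.Agent.Run7.h983

open MvPolynomial Filter Metric Real Set Topology Pool.Agent.H159R3.NV

variable {d : ℕ}

theorem φ_ne {Ω : Type} [Field Ω] {a b : MvPolynomial (Fin d) Ω} (D : Dat a b) (e : D.E)
    (i : Fin D.M) : D.φ e i ≠ 0 := by
  intro h
  have h1 : ∑ j, D.A e i j • D.x j = 0 := by
    rw [← h]
    unfold Dat.φ
    exact Finset.sum_congr rfl fun j _ => by rw [smul_eq_C_mul]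
  have h2 := Fintype.linearIndependent_iff.1 D.ind _ h1
  exact D.det e (Matrix.det_eq_zero_of_row_eq_zero i h2)

theorem shift_deriv (F : ℂ → ℂ) (z0 : ℂ) (l : ℕ) :
    iteratedDeriv l (fun z => F (z + z0)) 0 = iteratedDeriv l F z0 := by
  have h1 := iteratedDeriv_comp_add_const (n := l) (f := F) (s := z0)
  have h2 := congrFun h1 0
  simp only [zero_add] at h2
  exact h2

theorem Wf_shift {a b : MvPolynomial (Fin d) ℂ} (D : Dat a b) (s : Fin d → ℂ → ℂ) (y : ℂ → ℂ)
    (z0 : ℂ) : Wf D (fun j z => s j (z + z0)) (fun z => y (z + z0)) 0 = Wf D s y z0 := by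
  unfold Wf
  congr 1
  ext i l
  simp only [Matrix.of_apply]
  exact shift_deriv (Xf D s y i) z0 l

/-- **The analytic case.** -/
theorem an_final (hd : 0 < d) {J : Type} [Fintype J] (a b : J → MvPolynomial (Fin d) ℂ)
    (hb : ∀ j, b j ≠ 0) (hab : ∀ j, IsRelPrime (a j) (b j))
    (s : Fin d → ℂ → ℂ) (hs : ∀ j, Differentiable ℂ (s j)) (hs0 : ∀ j z, s j z ≠ 0)
    (hind : ∀ Φ : MvPolynomial (Fin d) ℂ, (∀ z, eval (fun j => s j z) Φ = 0) → Φ = 0)
    (y : J → ℂ → ℂ) (hy : ∀ j, Differentiable ℂ (y j))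
    (hyb : ∀ j z, y j z * eval (fun j => s j z) (b j) = eval (fun j => s j z) (a j)) :
    Submodule.span ℝ (dif b) ≠ ⊤ := by
  classical
  intro hspan
  obtain ⟨D, K, hK, hcore⟩ := core aC a b hb hab hspan
  have hne : ∀ p : MvPolynomial (Fin d) ℂ, p ≠ 0 → ∃ z, eval (fun j => s j z) p ≠ 0 := by
    intro p hp
    by_contra hcon
    push Not at hcon
    exact hp (hind p hcon)
  have hY : ∀ {a b : MvPolynomial (Fin d) ℂ} (D : Dat a b) (y : ℂ → ℂ), Differentiable ℂ y →
      (∀ z, y z * eval (fun j => s j z) b = eval (fun j => s j z) a) → ∀ z0,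
      ∀ᶠ z in 𝓝[≠] z0, (∀ e i, Yf D s y e i z ≠ 0) ∧ Wf D s y z ≠ 0 := by
    intro a b D y hy hyb z0
    refine Filter.Eventually.and ?_ ?_
    · rw [Filter.eventually_all]
      intro e
      rw [Filter.eventually_all]
      intro i
      obtain ⟨z, hz⟩ := hne _ (φ_ne D e i)
      refine ev_ne (Yf_diff D hs hy e i) (x := z) (fun h => hz ?_) z0
      rw [← Yf_mul D hyb, h, zero_mul]
    · obtain ⟨z, hz⟩ := wron_ne (Xf D s y) (Xf_diff D hs hy) (by
        intro c hc
        have h1 : ∑ i, C (c i) * D.x i = 0 := by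
          apply hind
          intro z
          rw [map_sum]
          have h2 := congrArg (fun w => w * eval (fun j => s j z) b) (hc z)
          simp only [zero_mul, Finset.sum_mul] at h2
          rw [← h2]
          refine Finset.sum_congr rfl fun i _ => ?_
          rw [map_mul, eval_C, mul_assoc, Xf_mul D hyb]
        have h3 : ∑ i, c i • D.x i = 0 := by
          rw [← h1]
          exact Finset.sum_congr rfl fun i _ => by rw [smul_eq_C_mul]
        funext i
        exact Fintype.linearIndependent_iff.1 D.ind _ h3 i)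
      exact ev_ne (Wf_diff D hs hy) (x := z) hz z0
  have hy2 : Differentiable ℂ (0 : ℂ → ℂ) := differentiable_const _
  have hyb2 : ∀ z : ℂ, (0 : ℂ → ℂ) z * eval (fun j => s j z) (1 : MvPolynomial (Fin d) ℂ) =
      eval (fun j => s j z) (0 : MvPolynomial (Fin d) ℂ) := by
    intro z
    rw [Pi.zero_apply, zero_mul, map_zero]
  have hev : ∀ᶠ z in 𝓝[≠] (0 : ℂ), (∀ j, eval (fun i => s i z) (b j) ≠ 0) ∧
      (∀ j, (∀ e i, Yf (D j) s (y j) e i z ≠ 0) ∧ Wf (D j) s (y j) z ≠ 0) ∧
      (∀ j, (∀ e i, Yf (dat2 (b j)) s 0 e i z ≠ 0) ∧ Wf (dat2 (b j)) s 0 z ≠ 0) := by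
    refine Filter.Eventually.and ?_ (Filter.Eventually.and ?_ ?_)
    · rw [Filter.eventually_all]
      intro j
      obtain ⟨z, hz⟩ := hne _ (hb j)
      exact ev_ne (diff_eval s hs (b j)) (x := z) hz 0
    · rw [Filter.eventually_all]
      intro j
      exact hY (D j) (y j) (hy j) (hyb j) 0
    · rw [Filter.eventually_all]
      intro j
      exact hY (dat2 (b j)) 0 hy2 hyb2 0
  obtain ⟨z0, h1, h2, h3⟩ := hev.exists
  have hconst := an_main a b D K hK hcore (fun j z => s j (z + z0))
    (fun j => (hs j).comp (differentiable_id.add_const z0)) (fun j z => hs0 j _)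
    (fun j z => y j (z + z0)) (fun j => (hy j).comp (differentiable_id.add_const z0))
    (fun j z => hyb j _) (fun j => by
      simp only [zero_add]
      exact h1 j) (fun j e i => by
      have : Yf (D j) (fun j z => s j (z + z0)) (fun z => y j (z + z0)) e i 0 =
          Yf (D j) s (y j) e i (0 + z0) := rfl
      rw [this, zero_add]
      exact (h2 j).1 e i) (fun j => by
      rw [Wf_shift]
      exact (h2 j).2) (fun j e i => by
      have : Yf (dat2 (b j)) (fun j z => s j (z + z0)) 0 e i 0 =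
          Yf (dat2 (b j)) s 0 e i (0 + z0) := rfl
      rw [this, zero_add]
      exact (h3 j).1 e i) (fun j => by
      have : Wf (dat2 (b j)) (fun j z => s j (z + z0)) 0 0 = Wf (dat2 (b j)) s 0 z0 :=
        Wf_shift (dat2 (b j)) s 0 z0
      rw [this]
      exact (h3 j).2)
  set j0 : Fin d := ⟨0, hd⟩
  have h4 : (X j0 - C (s j0 z0) : MvPolynomial (Fin d) ℂ) = 0 := by
    apply hind
    intro z
    have h5 := hconst j0 (z - z0)
    simp only [sub_add_cancel, zero_add] at h5
    rw [map_sub, eval_X, eval_C, h5, sub_self]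
  have h5 := congrArg (eval fun _ => s j0 z0 + 1) h4
  rw [map_sub, eval_X, eval_C, map_zero] at h5
  exact one_ne_zero (by linear_combination h5)

end Pool.Agent.Run7.h983
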