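import Mathlib
import Pool.Agent.N302.SP.Ent
import Pool.Agent.Run7.h983.An5
import Pool.Agent.Run7.h983.B5

/-!
# Entire curves
-/

set_option autoImplicit false

namespace Pool.Agent.Run7.h983

open MvPolynomial Pool.Agent.N302.SP Pool.Agent.H159R3.Exp

theorem diff_poly {N : ℕ} (f : ℂ → Fin N → ℂ) (hf : Differentiable ℂ f)
    (Q : MvPolynomial (Fin N) ℂ) : Differentiable ℂ fun z => eval (f z) Q := by
  have h1 : (fun z => eval (f z) Q) =
      fun z => ∑ w ∈ Q.support, coeff w Q * ∏ i, (f z i) ^ w i := by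
    funext z
    rw [eval_eq']
  rw [h1]
  refine Differentiable.fun_sum fun w _ => (differentiable_const _).mul ?_
  exact Differentiable.fun_finsetProd fun i _ => (differentiable_pi.1 hf i).pow _

/-- **The analytic case.** -/
theorem an_case {N n : ℕ} {ι : Type} (F : ι → MvPolynomial (Fin N) ℂ)
    (U W : Fin n → MvPolynomial (Fin N) ℂ)
    (hUW : ∀ y, (∀ i, eval y (F i) = 0) → ∀ i, eval y (U i) * eval y (W i) = 1)
    (g : MvPolynomial (Fin N) ℂ)
    (huq : ∀ x, (∀ i, eval x (F i) = 0) → eval x g ≠ 0 → ∀ y, (∀ i, eval y (F i) = 0) →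
      eval y g ≠ 0 → (∀ i, eval y (U i) = eval x (U i)) → y = x)
    (f : ℂ → Fin N → ℂ) (hf : Differentiable ℂ f) (hfF : ∀ z i, eval (f z) (F i) = 0)
    (hne : ∃ z w, f z ≠ f w) (hg : ∃ z, eval (f z) g ≠ 0) :
    ∃ v : ℂ → Fin N → ℂ, (∀ j, Laur fun t => v t j) ∧
      (∀ i t, t ≠ 0 → eval (v t) (F i) = 0) ∧ eval (v 1) g ≠ 0 ∧
      ∃ t s', t ≠ 0 ∧ s' ≠ 0 ∧ v t ≠ v s' := by
  classical
  have hA0 : ¬ {z | eval (f z) g ≠ 0}.Countable := by
    rcases isLarge_unc.split Set.univ {z | eval (f z) g ≠ 0} {z | eval (f z) g = 0}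
      isLarge_unc.univ (fun z _ => by
        by_cases h : eval (f z) g = 0
        · exact Or.inr h
        · exact Or.inl h) with h | h
    · rwa [Set.univ_inter] at h
    · exfalso
      rw [Set.univ_inter] at h
      obtain ⟨z, hz⟩ := hg
      exact hz (zero_of_uncountable (diff_poly f hf g) _ h (fun z hz => hz) z)
  have hS : ∀ (d : ℕ) (w' : Fin d → Fin n → ℤ), ∃ Sp : Fin d → MvPolynomial (Fin N) ℂ,
      ∀ j z, eval (f z) (Sp j) = ∏ k, eval (f z) (U k) ^ w' j k := by
    intro d w'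
    choose Sp hSp using fun j : Fin d => exists_Sp U W (w' j)
    exact ⟨Sp, fun j z => hSp j (f z) (hUW _ (hfF z))⟩
  have hu : ∀ z i, eval (f z) (U i) ≠ 0 := fun z i h => by
    have := hUW _ (hfF z) i
    rw [h, zero_mul] at this
    exact zero_ne_one this
  obtain ⟨A, hAA, hA, d, w', s, Sp, a, b, hs1, hs2, hind, hb, hrp, hbz, hab⟩ :=
    common isLarge_unc (RingHom.id ℂ) F U W g f hfF (fun z => hUW _ (hfF z))
      {z | eval (f z) g ≠ 0} hA0 (fun z hz => hz) (fun z hz y h1 hy h2 =>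
        huq (f z) (hfF z) hz y (fun i => h1 i) hy (fun i => h2 i)) (by
      intro d w'
      obtain ⟨Sp, hSp⟩ := hS d w'
      apply unitRel_ent
      · intro j
        have : (fun z => eval (fun j => ∏ k, eval (f z) (U k) ^ w' j k)
            (X j : MvPolynomial (Fin d) ℂ)) = fun z => eval (f z) (Sp j) := by
          funext z
          rw [eval_X, hSp]
        rw [this]
        exact diff_poly f hf _
      · intro z j
        rw [eval_X]
        exact Finset.prod_ne_zero_iff.2 fun i _ => zpow_ne_zero _ (hu z i))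
  have hsd : ∀ j, Differentiable ℂ fun z => s z j := by
    intro j
    have : (fun z => s z j) = fun z => eval (f z) (Sp j) := funext fun z => hs2 z j
    rw [this]
    exact diff_poly f hf _
  have hsd' : Differentiable ℂ s := differentiable_pi.2 hsd
  have hs0 : ∀ z j, s z j ≠ 0 := by
    intro z j
    rw [hs1]
    exact Finset.prod_ne_zero_iff.2 fun i _ => zpow_ne_zero _ (hu z i)
  have hdens : ∀ Φ : MvPolynomial (Fin d) ℂ, (∀ z ∈ A, eval (s z) Φ = 0) → Φ = 0 := by
    intro Φ h
    by_contra hΦ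
    exact hind Φ hΦ A subset_rfl hA h
  have hab' : ∀ k z, f z k * eval (s z) (b k) = eval (s z) (a k) := by
    intro k z
    rw [← sub_eq_zero]
    refine zero_of_uncountable (h := fun z => f z k * eval (s z) (b k) - eval (s z) (a k)) ?_ A hA
      (fun z hz => sub_eq_zero.2 (hab z hz k)) z
    exact ((differentiable_pi.1 hf k).mul (diff_poly s hsd' _)).sub (diff_poly s hsd' _)
  rcases Nat.eq_zero_or_pos d with hd | hd
  · exfalso
    subst hd
    obtain ⟨z, w, hzw⟩ := hne
    apply hzw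
    funext k
    have hsz : ∀ z w : ℂ, s z = s w := fun z w => funext fun j => j.elim0
    obtain ⟨z0, hz0⟩ := isLarge_unc.nonempty A hA
    have hb0 := hbz z0 hz0 k
    apply mul_right_cancel₀ hb0
    have h1 := hab' k z
    have h2 := hab' k w
    rw [hsz z z0] at h1
    rw [hsz w z0] at h2
    rw [h1, h2]
  · have hspan := an_final hd a b hb hrp (fun j z => s z j) hsd (fun j z => hs0 z j)
      (fun Φ h => hdens Φ fun z _ => h z) (fun k z => f z k) (fun k => differentiable_pi.1 hf k)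
      (fun k z => hab' k z)
    obtain ⟨l, hl, hlb⟩ := exists_dir b hspan
    obtain ⟨z1, hz1⟩ := isLarge_unc.nonempty A hA
    obtain ⟨v, hv, hvF, hv1, hvn⟩ := curve F f s hs0 A hdens (fun z _ => hfF z) a b hab Sp
      (fun z _ j => (hs2 z j).symm) l hl hlb z1 hz1 (hbz z1 hz1)
    refine ⟨v, hv, hvF, ?_, hvn⟩
    rw [hv1]
    exact hAA hz1

end Pool.Agent.Run7.h983
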