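import Mathlib
import Pool.Agent.W235.RM.Final
import Pool.Agent.Run7.h983.B6
import Pool.Agent.Run7.h983.B8

/-!
# The equivalence
-/

set_option autoImplicit false

namespace Pool.Agent.Run7.h983

open MvPolynomial NumberField IsDedekindDomain
open Pool.Agent.H159R3.Exp Pool.Agent.W235.RM

variable {K : Type} [Field K] {ι κ : Type} {N n : ℕ}

/-- Every complex point of `V` outside `V'` is the only point of `V` outside `V'` with its values
of the functions `U`, or it lies on a nonconstant curve in `V` which is the image of the punctured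
line under a map given by Laurent polynomials. Here `V` is given by `F` and `V'` by `G`. -/
def PointOrCurve (σ : K →+* ℂ) (F : ι → MvPolynomial (Fin N) (𝓞 K))
    (G : κ → MvPolynomial (Fin N) (𝓞 K)) (U : Fin n → MvPolynomial (Fin N) (𝓞 K)) : Prop :=
  ∀ x : Fin N → ℂ, (∀ i, eval₂ (σ.comp (algebraMap (𝓞 K) K)) x (F i) = 0) →
    (∃ l, eval₂ (σ.comp (algebraMap (𝓞 K) K)) x (G l) ≠ 0) →
    (∀ y : Fin N → ℂ, (∀ i, eval₂ (σ.comp (algebraMap (𝓞 K) K)) y (F i) = 0) →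
      (∃ l, eval₂ (σ.comp (algebraMap (𝓞 K) K)) y (G l) ≠ 0) →
      (∀ i, eval₂ (σ.comp (algebraMap (𝓞 K) K)) y (U i) =
        eval₂ (σ.comp (algebraMap (𝓞 K) K)) x (U i)) → y = x) ∨
    ∃ v : ℂ → Fin N → ℂ, (∀ j, Laur fun t => v t j) ∧
      (∀ i t, t ≠ 0 → eval₂ (σ.comp (algebraMap (𝓞 K) K)) (v t) (F i) = 0) ∧
      (∃ t s, t ≠ 0 ∧ s ≠ 0 ∧ v t ≠ v s) ∧ ∃ t, t ≠ 0 ∧ v t = x

/-- The coordinates with index in `T` are invertible functions on `V`, and the equations of `V`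
have degree at most one in the other coordinates. -/
def LinearOverUnits (F : ι → MvPolynomial (Fin N) (𝓞 K)) (T : Finset (Fin N)) : Prop :=
  (∀ j ∈ T, ∃ w : MvPolynomial (Fin N) (𝓞 K), X j * w - 1 ∈ Ideal.span (Set.range F)) ∧
    ∀ i, ∀ γ ∈ (F i).support, ∑ j ∈ Tᶜ, γ j ≤ 1

theorem uniq_of_gm (σ : K →+* ℂ) (F : ι → MvPolynomial (Fin N) (𝓞 K))
    (G : κ → MvPolynomial (Fin N) (𝓞 K)) (U : Fin n → MvPolynomial (Fin N) (𝓞 K))
    (h : PointOrCurve σ F G U) (hgm : GmCurvesIn σ F G) (x : Fin N → ℂ)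
    (hx : ∀ i, eval₂ (σ.comp (algebraMap (𝓞 K) K)) x (F i) = 0)
    (hG : ∃ l, eval₂ (σ.comp (algebraMap (𝓞 K) K)) x (G l) ≠ 0) (y : Fin N → ℂ)
    (hy : ∀ i, eval₂ (σ.comp (algebraMap (𝓞 K) K)) y (F i) = 0)
    (hGy : ∃ l, eval₂ (σ.comp (algebraMap (𝓞 K) K)) y (G l) ≠ 0)
    (hU : ∀ i, eval₂ (σ.comp (algebraMap (𝓞 K) K)) y (U i) =
      eval₂ (σ.comp (algebraMap (𝓞 K) K)) x (U i)) : y = x := by
  rcases h x hx hG with h1 | ⟨v, hv, hvF, hn, t, ht, rfl⟩
  · exact h1 y hy hGy hU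
  · exfalso
    obtain ⟨l, hl⟩ := hG
    exact hl (hgm v hv hvF hn l t ht)

theorem entire_of_gm (σ : K →+* ℂ) (F : ι → MvPolynomial (Fin N) (𝓞 K))
    (G : κ → MvPolynomial (Fin N) (𝓞 K)) (U W : Fin n → MvPolynomial (Fin N) (𝓞 K))
    (hUW : ∀ i, U i * W i - 1 ∈ Ideal.span (Set.range F))
    (h : PointOrCurve σ F G U) (hgm : GmCurvesIn σ F G) : EntireCurvesIn σ F G := by
  intro f hf hfF hne z l
  by_contra hl
  have hev : ∀ (y : Fin N → ℂ) (Q : MvPolynomial (Fin N) (𝓞 K)),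
      eval y (map (σ.comp (algebraMap (𝓞 K) K)) Q) =
        eval₂ (σ.comp (algebraMap (𝓞 K) K)) y Q := fun y Q => by rw [eval_map]
  obtain ⟨v, hv, hvF, hv1, hvn⟩ := an_case (fun i => map (σ.comp (algebraMap (𝓞 K) K)) (F i))
    (fun i => map (σ.comp (algebraMap (𝓞 K) K)) (U i))
    (fun i => map (σ.comp (algebraMap (𝓞 K) K)) (W i)) (fun y hy i => by
      rw [hev, hev]
      exact hUW_gen F (U i) (W i) (hUW i) _ y fun i => by rw [← hev]; exact hy i)
    (map (σ.comp (algebraMap (𝓞 K) K)) (G l)) (fun x hx hG y hy hGy hU => by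
      refine uniq_of_gm σ F G U h hgm x (fun i => ?_) ⟨l, ?_⟩ y (fun i => ?_) ⟨l, ?_⟩ (fun i => ?_)
      · rw [← hev]; exact hx i
      · rw [← hev]; exact hG
      · rw [← hev]; exact hy i
      · rw [← hev]; exact hGy
      · rw [← hev, ← hev]; exact hU i) f hf (fun z i => by rw [hev]; exact hfF z i) hne
    ⟨z, by rw [hev]; exact hl⟩
  apply hv1
  rw [hev]
  exact hgm v hv (fun i t ht => by rw [← hev]; exact hvF i t ht) hvn l 1 one_ne_zero

theorem integral_of_gm [NumberField K] (σ : K →+* ℂ) (F : ι → MvPolynomial (Fin N) (𝓞 K))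
    (G : κ → MvPolynomial (Fin N) (𝓞 K)) (U W : Fin n → MvPolynomial (Fin N) (𝓞 K))
    (hUW : ∀ i, U i * W i - 1 ∈ Ideal.span (Set.range F))
    (h : PointOrCurve σ F G U) (hgm : GmCurvesIn σ F G) : FinitelyManyIntegral F G := by
  by_contra hcon
  obtain ⟨v, hv, hvF, ⟨l, hl⟩, hvn⟩ := ar_case σ F G U W hUW (uniq_of_gm σ F G U h hgm) hcon
  exact hl (hgm v hv hvF hvn l 1 one_ne_zero)

theorem gm_of_entire (σ : K →+* ℂ) (F : ι → MvPolynomial (Fin N) (𝓞 K))
    (G : κ → MvPolynomial (Fin N) (𝓞 K)) (h : EntireCurvesIn σ F G) : GmCurvesIn σ F G := by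
  by_contra h2
  exact not_exp_of_not_gm σ F G h2 (exp_of_entire σ F G h)

theorem gm_of_integral [NumberField K] (σ : K →+* ℂ) (F : ι → MvPolynomial (Fin N) (𝓞 K))
    (G : κ → MvPolynomial (Fin N) (𝓞 K)) (h : FinitelyManyIntegral F G) : GmCurvesIn σ F G := by
  by_contra h2
  exact not_rec_of_hasLaurent F G (hasLaurent_of_exp F G σ (not_exp_of_not_gm σ F G h2))
    (rec_of_integral F G h)

/-- **The equivalence.** -/
theorem equiv_main [NumberField K] (σ : K →+* ℂ) (F : ι → MvPolynomial (Fin N) (𝓞 K))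
    (G : κ → MvPolynomial (Fin N) (𝓞 K)) (U W : Fin n → MvPolynomial (Fin N) (𝓞 K))
    (hUW : ∀ i, U i * W i - 1 ∈ Ideal.span (Set.range F)) (h : PointOrCurve σ F G U) :
    (EntireCurvesIn σ F G ↔ FinitelyManyIntegral F G) ∧
      (EntireCurvesIn σ F G ↔ GmCurvesIn σ F G) :=
  ⟨⟨fun h1 => integral_of_gm σ F G U W hUW h (gm_of_entire σ F G h1),
    fun h1 => entire_of_gm σ F G U W hUW h (gm_of_integral σ F G h1)⟩,
    gm_of_entire σ F G, entire_of_gm σ F G U W hUW h⟩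

/-- affine linearity along a line -/
theorem eval_line {R : Type} [CommRing R] (T : Finset (Fin N)) (φ : R →+* ℂ)
    (Q : MvPolynomial (Fin N) R) (hQ : ∀ γ ∈ Q.support, ∑ j ∈ Tᶜ, γ j ≤ 1)
    (x y : Fin N → ℂ) (hxy : ∀ j ∈ T, y j = x j) (t : ℂ) :
    eval₂ φ (fun j => x j + t * (y j - x j)) Q = (1 - t) * eval₂ φ x Q + t * eval₂ φ y Q := by
  classical
  rw [eval₂_eq', eval₂_eq', eval₂_eq', Finset.mul_sum, Finset.mul_sum, ← Finset.sum_add_distrib]
  refine Finset.sum_congr rfl fun γ hγ => ?_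
  have key : ∏ j, (x j + t * (y j - x j)) ^ γ j =
      (1 - t) * ∏ j, x j ^ γ j + t * ∏ j, y j ^ γ j := by
    have hT : ∀ z : Fin N → ℂ, ∏ j, z j ^ γ j = (∏ j ∈ T, z j ^ γ j) * ∏ j ∈ Tᶜ, z j ^ γ j :=
      fun z => (Finset.prod_mul_prod_compl T _).symm
    rw [hT (fun j => x j + t * (y j - x j)), hT x, hT y]
    have h1 : ∏ j ∈ T, (x j + t * (y j - x j)) ^ γ j = ∏ j ∈ T, x j ^ γ j :=
      Finset.prod_congr rfl fun j hj => by rw [hxy j hj, sub_self, mul_zero, add_zero]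
    have h2 : ∏ j ∈ T, y j ^ γ j = ∏ j ∈ T, x j ^ γ j :=
      Finset.prod_congr rfl fun j hj => by rw [hxy j hj]
    rw [h1, h2]
    have h3 : ∏ j ∈ Tᶜ, (x j + t * (y j - x j)) ^ γ j =
        (1 - t) * ∏ j ∈ Tᶜ, x j ^ γ j + t * ∏ j ∈ Tᶜ, y j ^ γ j := by
      by_cases h0 : ∀ j ∈ Tᶜ, γ j = 0
      · rw [Finset.prod_eq_one fun j hj => by rw [h0 j hj, pow_zero],
          Finset.prod_eq_one fun j hj => by rw [h0 j hj, pow_zero],
          Finset.prod_eq_one fun j hj => by rw [h0 j hj, pow_zero]]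
        ring
      · push Not at h0
        obtain ⟨j0, hj0, hne⟩ := h0
        have hsum := hQ γ hγ
        rw [← Finset.add_sum_erase _ _ hj0] at hsum
        have h4 : γ j0 = 1 := by omega
        have h5 : ∀ j ∈ Tᶜ.erase j0, γ j = 0 := by
          have h6 : ∑ j ∈ Tᶜ.erase j0, γ j = 0 := by omega
          exact fun j hj => (Finset.sum_eq_zero_iff.1 h6) j hj
        have h7 : ∀ z : Fin N → ℂ, ∏ j ∈ Tᶜ, z j ^ γ j = z j0 := by
          intro z
          rw [← Finset.mul_prod_erase _ _ hj0, h4, pow_one,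
            Finset.prod_eq_one fun j hj => by rw [h5 j hj, pow_zero], mul_one]
        rw [h7 (fun j => x j + t * (y j - x j)), h7 x, h7 y]
        ring
    rw [h3]
    ring
  rw [key]
  ring

/-- The linear case. -/
theorem pointOrCurve_of_linear (σ : K →+* ℂ) (F : ι → MvPolynomial (Fin N) (𝓞 K))
    (G : κ → MvPolynomial (Fin N) (𝓞 K)) (T : Finset (Fin N)) (hT : LinearOverUnits F T)
    (U : Fin n → MvPolynomial (Fin N) (𝓞 K)) (hU : ∀ j ∈ T, ∃ i, U i = X j) :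
    PointOrCurve σ F G U := by
  intro x hx _
  by_cases hex : ∃ y : Fin N → ℂ, (∀ i, eval₂ (σ.comp (algebraMap (𝓞 K) K)) y (F i) = 0) ∧
      (∀ i, eval₂ (σ.comp (algebraMap (𝓞 K) K)) y (U i) =
        eval₂ (σ.comp (algebraMap (𝓞 K) K)) x (U i)) ∧ y ≠ x
  · right
    obtain ⟨y, hy, hyU, hne⟩ := hex
    have hxy : ∀ j ∈ T, y j = x j := by
      intro j hj
      obtain ⟨i, hi⟩ := hU j hj
      have := hyU i
      rwa [hi, eval₂_X, eval₂_X] at this
    refine ⟨fun t j => x j + (t - 1) * (y j - x j), fun j => ?_, fun i t _ => ?_,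
      ⟨2, 1, two_ne_zero, one_ne_zero, fun h => hne ?_⟩, 1, one_ne_zero, ?_⟩
    · exact (Laur.const _).add ((Laur.add Laur.id (Laur.const (-1))).mul (Laur.const _))
    · have h1 := eval_line T (σ.comp (algebraMap (𝓞 K) K)) (F i) (hT.2 i) x y hxy (t - 1)
      rw [hx i, hy i, mul_zero, mul_zero, add_zero] at h1
      exact h1
    · funext j
      have h1 := congrFun h j
      simp only at h1
      linear_combination h1
    · funext j
      simp
  · left
    push Not at hex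
    exact fun y hy _ hyU => hex y hy hyU

theorem equiv_linear [NumberField K] (σ : K →+* ℂ) (F : ι → MvPolynomial (Fin N) (𝓞 K))
    (G : κ → MvPolynomial (Fin N) (𝓞 K)) (T : Finset (Fin N)) (hT : LinearOverUnits F T) :
    (EntireCurvesIn σ F G ↔ FinitelyManyIntegral F G) ∧
      (EntireCurvesIn σ F G ↔ GmCurvesIn σ F G) := by
  classical
  choose! w hw using hT.1
  let e : Fin (Fintype.card T) ≃ T := (Fintype.equivFin T).symm
  refine equiv_main σ F G (fun i : Fin (Fintype.card T) => X (e i).1) (fun i => w (e i).1)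
    (fun i => hw _ (e i).2) (pointOrCurve_of_linear σ F G T hT _ fun j hj => ?_)
  refine ⟨e.symm ⟨j, hj⟩, ?_⟩
  simp

end Pool.Agent.Run7.h983
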