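import Pool.Agent.Run7.h983.E1
import Pool.Agent.N419.HU.Fin

/-!
Values of difference systems on varieties, outside of one hypersurface.
-/

set_option autoImplicit false

namespace Pool.Agent.Run7.h983

open Polynomial Matrix Pool.Agent.TH717.GO Pool.Agent.Y377.ST Pool.Agent.N419.HQ
  Pool.Agent.N419.HU Pool.Agent.H533R3.SL

/-- from a bound for the number of the points off `G = 0` to the statement on orbits -/
theorem orbB_of_pts {n r B : ℕ} (FF : Set (MvPolynomial (Fin (n + 1)) ℂ))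
    (G : MvPolynomial (Fin (n + 1)) ℂ)
    (hB : ∀ (E : Type) [Field E] [Algebra ℂ E] (_ : E →+* ℂ) (H : Type) [Group H]
      (x : H → Fin (n + 1) → E), IterVec 1 r 1 x →
      (∀ h, ∀ F ∈ FF, MvPolynomial.aeval (x h) F = 0) →
      {P : Projectivization E (Fin (n + 1) → E) | ∃ (h : H) (h0 : x h ≠ 0),
        MvPolynomial.aeval (x h) G ≠ 0 ∧ P = Projectivization.mk E (x h) h0}.encard ≤ (B : ℕ∞)) :
    OrbB FF G r (B + 1) := by
  classical
  intro E _ _ emb H _ ρ M v hX
  have h1 := hB E emb H (orb M ρ v) (iterVec_orb M ρ v) hX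
  set S : Set (Projectivization E (Fin (n + 1) → E)) := {P | ∃ (h : H) (h0 : orb M ρ v h ≠ 0),
        MvPolynomial.aeval (orb M ρ v h) G ≠ 0 ∧ P = Projectivization.mk E (orb M ρ v h) h0}
    with hS
  have hfin : S.Finite := Set.finite_of_encard_le_coe h1
  have hcard : hfin.toFinset.card ≤ B := by
    rw [hfin.encard_eq_coe_toFinset_card] at h1
    exact_mod_cast h1
  let e := hfin.toFinset.equivFin
  refine ⟨fun i => if hi : (i : ℕ) < hfin.toFinset.card then
    (((e.symm ⟨i, hi⟩ : hfin.toFinset) : Projectivization E (Fin (n + 1) → E))).rep else 0, ?_⟩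
  intro h
  by_cases hG : MvPolynomial.aeval (M.mulVec ((ρ h : Matrix (Fin r) (Fin r) E).mulVec v)) G = 0
  · exact Or.inl hG
  right
  by_cases h0 : orb M ρ v h = 0
  · exact ⟨0, 0, by rw [zero_smul]; exact h0⟩
  · have hm : Projectivization.mk E (orb M ρ v h) h0 ∈ hfin.toFinset := by
      rw [Set.Finite.mem_toFinset]
      exact ⟨h, h0, hG, rfl⟩
    have hlt : ((e ⟨_, hm⟩ : Fin _) : ℕ) < hfin.toFinset.card := (e ⟨_, hm⟩).2
    refine ⟨⟨(e ⟨_, hm⟩ : Fin _), by omega⟩, ?_⟩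
    simp only [hlt, dif_pos]
    have h2 : e.symm ⟨((e ⟨_, hm⟩ : Fin _) : ℕ), hlt⟩ = ⟨_, hm⟩ := by
      have : (⟨((e ⟨_, hm⟩ : Fin _) : ℕ), hlt⟩ : Fin hfin.toFinset.card) = e ⟨_, hm⟩ := rfl
      rw [this, Equiv.symm_apply_apply]
    rw [h2]
    obtain ⟨a, ha⟩ := Projectivization.exists_smul_eq_mk_rep E (orb M ρ v h) h0
    refine ⟨((a⁻¹ : Eˣ) : E), ?_⟩
    change orb M ρ v h = _
    rw [← ha, Units.smul_def, smul_smul, Units.inv_mul, one_smul]

/-- orbits on a variety that is not uniruled -/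
theorem orbB_nonuni {k : Type} [Field k] [NumberField k] {n : ℕ}
    (FF : Set (MvPolynomial (Fin (n + 1)) k)) (hhom : ∀ F ∈ FF, ∃ e, F.IsHomogeneous e)
    (hprime : (Ideal.span FF).IsPrime) (hnu : ¬ Uniruled (Ideal.span FF)) (r : ℕ) :
    ∃ (G : MvPolynomial (Fin (n + 1)) k) (B : ℕ), (∃ d, G.IsHomogeneous d) ∧
      G ∉ Ideal.span FF ∧ 1 ≤ B ∧ ∀ τ : k →+* ℂ,
        OrbB ((MvPolynomial.map τ) '' FF) (MvPolynomial.map τ G) r B := by
  have : Countable k := (Module.finBasis ℚ k).equivFun.injective.countable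
  obtain ⟨G, B, h1, h2, h3⟩ := strong_unif Pool.Agent.Y455.ST.t_THETA Pool.Agent.Y837.ST.t_UNI
    FF hhom hprime hnu 1 r 1
  refine ⟨G, B + 1, h1, h2, by omega, fun τ => orbB_of_pts _ _ ?_⟩
  intro E _ _ emb H _ x hx hX
  let _ : Algebra k E := ((algebraMap ℂ E).comp τ).toAlgebra
  have hae : ∀ (h : H) (F : MvPolynomial (Fin (n + 1)) k),
      MvPolynomial.aeval (x h) (MvPolynomial.map τ F) = MvPolynomial.aeval (x h) F := by
    intro h F
    rw [MvPolynomial.aeval_def, MvPolynomial.eval₂_map, MvPolynomial.aeval_def]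
    rfl
  have h4 := h3 E emb H x hx (fun h F hF => by
    rw [← hae]
    exact hX h _ ⟨F, hF, rfl⟩)
  unfold ptsOff at h4
  simp only [hae]
  exact h4

/-- orbits on a variety whose rational curves lie in a hypersurface -/
theorem orbB_cur (n d r : ℕ) : ∃ B : ℕ, 1 ≤ B ∧ ∀ (K : Type) [Field K] (τ : K →+* ℂ)
    (FF : Set (MvPolynomial (Fin (n + 1)) K)), (∀ F ∈ FF, ∃ m ≤ d, F.IsHomogeneous m) →
    ∀ G : MvPolynomial (Fin (n + 1)) K, (∃ m ≤ d, G.IsHomogeneous m) →
    CurIn τ FF {G} → OrbB ((MvPolynomial.map τ) '' FF) (MvPolynomial.map τ G) r B := by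
  classical
  obtain ⟨B, hB⟩ := uniform_all n d 1 r 1
  refine ⟨B + 1, by omega, ?_⟩
  intro K _ τ FF hFF G hG hcur
  refine orbB_of_pts _ _ ?_
  intro E _ _ emb H _ x hx hX
  have hmap : ∀ (y : Fin (n + 1) → E) (F : MvPolynomial (Fin (n + 1)) K),
      MvPolynomial.aeval y (MvPolynomial.map τ F) =
        MvPolynomial.eval y (MvPolynomial.map ((algebraMap ℂ E).comp τ) F) := by
    intro y F
    rw [MvPolynomial.aeval_def, MvPolynomial.eval₂_map, MvPolynomial.eval_map]
  have h1 := hB E emb ((MvPolynomial.map ((algebraMap ℂ E).comp τ)) '' FF)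
    ((MvPolynomial.map ((algebraMap ℂ E).comp τ)) '' {G}) (by
    rintro _ ⟨F, hF, rfl⟩
    obtain ⟨m, hm, h3⟩ := hFF F hF
    exact ⟨m, hm, h3.map _⟩) (by
    rintro _ ⟨F, hF, rfl⟩
    rw [Set.mem_singleton_iff.1 hF]
    obtain ⟨m, hm, h3⟩ := hG
    exact ⟨m, hm, h3.map _⟩) (by
    rw [curIn_map]
    exact curIn_indep τ _ FF {G} hcur) H x hx (by
    rintro h _ ⟨F, hF, rfl⟩
    have h2 := hX h (MvPolynomial.map τ F) ⟨F, hF, rfl⟩
    rw [hmap] at h2
    exact h2)
  refine le_trans (Set.encard_le_encard ?_) h1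
  rintro P ⟨h, h0, h2, rfl⟩
  refine ⟨h, h0, ⟨_, ⟨G, rfl, rfl⟩, ?_⟩, rfl⟩
  rw [← hmap]
  exact h2

theorem eval_zero_hom {K : Type} [Field K] {n : ℕ} {F : MvPolynomial (Fin (n + 1)) K}
    (hF : ∃ e, F.IsHomogeneous e) (x : Fin (n + 1) → K) (h : MvPolynomial.eval x F = 0) :
    MvPolynomial.aeval (0 : Fin (n + 1) → K[X]) F = 0 := by
  obtain ⟨e, he⟩ := hF
  have h1 : MvPolynomial.aeval (0 : Fin (n + 1) → K[X]) F = C (MvPolynomial.coeff 0 F) := by
    rw [MvPolynomial.aeval_zero, MvPolynomial.constantCoeff_eq]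
    rfl
  rw [h1]
  rcases Nat.eq_zero_or_pos e with rfl | hpos
  · obtain ⟨c, hc⟩ : ∃ c, F = MvPolynomial.C c := by
      refine ⟨MvPolynomial.coeff 0 F, ?_⟩
      exact MvPolynomial.totalDegree_eq_zero_iff_eq_C.1
        (Nat.le_zero.1 (MvPolynomial.IsHomogeneous.totalDegree_le he))
    rw [hc, MvPolynomial.eval_C] at h
    rw [hc, h]
    simp
  · have h2 : MvPolynomial.coeff 0 F = 0 := by
      apply he.coeff_eq_zero
      simp
      omega
    rw [h2, C_0]

/-- the values of a system on a variety, outside of the hypersurface `G = 0`: they lie on at most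
`B` rational curves -/
theorem main_lineG (hcore : S_core) (hrel : S_rel) (hbd : S_bd) (hdesc : S_desc)
    (hruns : S_runs) (hline : S_line) {K : Type} [Field K] [NumberField K] (τ : K →+* ℂ)
    {n r B : ℕ} (FF : Set (MvPolynomial (Fin (n + 1)) K)) (hhom : ∀ F ∈ FF, ∃ e, F.IsHomogeneous e)
    (G : MvPolynomial (Fin (n + 1)) K) (hG : ∃ e, G.IsHomogeneous e)
    (hO : OrbB ((MvPolynomial.map τ) '' FF) (MvPolynomial.map τ G) r B) (hB : 1 ≤ B)
    (A : Matrix (Fin r) (Fin r) K[X]) (hA : ∀ m : ℕ, A.det.eval (m : K) ≠ 0)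
    (M : Matrix (Fin (n + 1)) (Fin r) K) (v : Fin r → K)
    (hX : ∃ N : ℕ, ∀ m ≥ N, ∀ F ∈ FF, MvPolynomial.eval (M.mulVec ((sys A m).mulVec v)) F = 0) :
    ∃ c : Fin B → Fin (n + 1) → K[X], (∀ i, ∀ F ∈ FF, MvPolynomial.aeval (c i) F = 0) ∧
      ∃ T : ℕ, 1 ≤ T ∧ ∀ a : ℕ,
      (∃ N : ℕ, ∀ m ≥ N, m % T = a % T →
        MvPolynomial.eval (M.mulVec ((sys A m).mulVec v)) G = 0) ∨
      ∃ i, ∃ N : ℕ, ∀ m ≥ N, m % T = a % T →
        ∃ s : K, M.mulVec ((sys A m).mulVec v) = fun j => s * (c i j).eval (m : K) := by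
  classical
  set x : ℕ → Fin (n + 1) → K := fun m => M.mulVec ((sys A m).mulVec v) with hxdef
  have hx : ∀ m, (M.map τ).mulVec ((sys (A.map (mapRingHom τ)) m).mulVec fun j => τ (v j)) =
      fun j => τ (x m j) := by
    intro m
    rw [main_sys_map, main_mulVec_map, main_mulVec_map]
  have hτ1 : ∀ (m : ℕ) (F : MvPolynomial (Fin (n + 1)) K),
      MvPolynomial.eval (fun j => τ (x m j)) (MvPolynomial.map τ F) =
        τ (MvPolynomial.eval (x m) F) := by
    intro m F
    rw [MvPolynomial.eval_map]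
    exact (MvPolynomial.eval₂_comp_left τ (RingHom.id K) (x m) F).symm
  obtain ⟨N0, hN0⟩ := hX
  obtain ⟨E, iE, iA, hinj, halg, c', N1, hN1⟩ := hcore n r B ((MvPolynomial.map τ) '' FF)
    (MvPolynomial.map τ G) hO
    (A.map (mapRingHom τ)) (fun m => by
      rw [main_det_map]
      exact fun h => hA m ((map_eq_zero τ).1 h)) (M.map τ) (fun j => τ (v j))
    ⟨N0, by
      rintro m hm _ ⟨F, hF, rfl⟩
      rw [hx, hτ1, hN0 m hm F hF, map_zero]⟩
  have hN1' : ∀ m ≥ N1, MvPolynomial.eval (x m) G ≠ 0 →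
      ∃ i, ∀ (d : ℕ) (f : MvPolynomial (Fin (n + 1)) ℂ[X]),
      f.IsHomogeneous d → MvPolynomial.aeval (c' i) f = 0 →
        MvPolynomial.eval₂ (evalRingHom (m : ℂ)) (fun j => τ (x m j)) f = 0 := by
    intro m hm hGm
    rcases hN1 m hm with h | h
    · rw [hx, hτ1] at h
      exact absurd ((map_eq_zero τ).1 h) hGm
    · rw [hx] at h
      exact h
  -- algebraic relations of the ratios
  have hPK : ∀ p q, ∃ P : K[X][X], P ≠ 0 ∧ ∃ N : ℕ, ∀ m ≥ N,
      MvPolynomial.eval (x m) G ≠ 0 →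
      x m p ≠ 0 → (P.map (evalRingHom (m : K))).eval (x m q / x m p) = 0 := by
    intro p q
    obtain ⟨P, hP0, hP⟩ := hrel n B E hinj halg c' p q
    obtain ⟨Q, hQ0, hQ⟩ := hdesc K τ {m | N1 ≤ m ∧ MvPolynomial.eval (x m) G ≠ 0 ∧ x m p ≠ 0}
      (fun m => x m q / x m p)
      ⟨P, hP0, by
        rintro m ⟨hm1, hm3, hm2⟩
        have h1 := hP m (fun j => τ (x m j)) (fun h => hm2 ((map_eq_zero τ).1 h))
          (hN1' m hm1 hm3)
        rw [map_div₀]
        exact h1⟩
    exact ⟨Q, hQ0, N1, fun m hm hm3 hp => hQ m ⟨hm, hm3, hp⟩⟩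
  obtain ⟨s, ρ, hρ0, hρF, hrun⟩ := hruns K n FF G hhom x ⟨N0, hN0⟩ hPK
  obtain ⟨T, hT, hcl⟩ := hline K r n A M v G s ρ hρ0 inferInstance hrun
  -- the curves
  let ψ : K[X] →+* E := (algebraMap ℂ[X] E).comp (mapRingHom τ)
  have hψ : Function.Injective ψ := hinj.comp (Polynomial.map_injective τ τ.injective)
  let Rl : Fin B → Fin s → Prop := fun i l => ∀ p q, c' i p * ψ (ρ l q) = c' i q * ψ (ρ l p)
  let c : Fin B → Fin (n + 1) → K[X] := fun i => if h : ∃ l, Rl i l then ρ h.choose else 0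
  refine ⟨c, ?_, T, hT, fun a => ?_⟩
  · intro i F hF
    by_cases h : ∃ l, Rl i l
    · have h1 : c i = ρ h.choose := dif_pos h
      rw [h1]
      exact hρF _ F hF
    · have h1 : c i = 0 := dif_neg h
      rw [h1]
      exact eval_zero_hom (hhom F hF) _ (hN0 N0 le_rfl F hF)
  rcases hcl a with ⟨N, hN⟩ | ⟨N, hN⟩ | ⟨l, N, hN⟩
  · exact Or.inl ⟨N, hN⟩
  · right
    refine ⟨⟨0, by omega⟩, N, fun m hm hma => ⟨0, ?_⟩⟩
    rw [hN m hm hma]
    funext j
    simp
  · obtain ⟨e, he⟩ := hG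
    by_cases hG0 : MvPolynomial.aeval (ρ l) G = 0
    · left
      refine ⟨N, fun m hm hma => ?_⟩
      obtain ⟨t, ht⟩ := hN m hm hma
      rw [ht, Runs_hom he, ← Runs_eval, hG0, eval_zero, mul_zero]
    right
    by_cases hinf : {m : ℕ | (N ≤ m ∧ N1 ≤ m) ∧ m % T = a % T ∧ x m ≠ 0 ∧
        (MvPolynomial.aeval (ρ l) G).eval (m : K) ≠ 0}.Infinite
    · obtain ⟨i, hi0, hi⟩ := hbd n B E hinj halg c' (fun m j => τ (x m j))
        (fun j => (ρ l j).map τ) _ hinf (by
          rintro m ⟨-, -, hm, -⟩ h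
          apply hm
          ext j
          exact (map_eq_zero τ).1 (congrFun h j)) (by
          rintro m ⟨⟨hm1, -⟩, hm2, -, -⟩ p q
          obtain ⟨t, ht⟩ := hN m hm1 hm2
          have ht' : ∀ j, x m j = t * (ρ l j).eval (m : K) := fun j => congrFun ht j
          simp only [eval_natCast_map, ← map_mul]
          rw [ht', ht']
          congr 1
          ring) (by
          rintro m ⟨⟨hm0, hm1⟩, hm2, hm3, hm4⟩
          refine hN1' m hm1 ?_
          obtain ⟨t, ht⟩ := hN m hm0 hm2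
          have ht0 : t ≠ 0 := by
            rintro rfl
            apply hm3
            change M.mulVec ((sys A m).mulVec v) = 0
            rw [ht]
            funext j
            simp
          change MvPolynomial.eval (M.mulVec ((sys A m).mulVec v)) G ≠ 0
          rw [ht, Runs_hom he]
          refine mul_ne_zero (pow_ne_zero _ ht0) ?_
          rw [← Runs_eval]
          exact hm4)
      have hR : Rl i l := fun p q => hi p q
      have hex : ∃ l, Rl i l := ⟨l, hR⟩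
      have hci : c i = ρ hex.choose := dif_pos hex
      have hR' : Rl i hex.choose := hex.choose_spec
      obtain ⟨p0, hp0⟩ := Function.ne_iff.1 hi0
      have hp0' : c' i p0 ≠ 0 := hp0
      have he' : ρ hex.choose p0 ≠ 0 := by
        intro h0
        apply hρ0 hex.choose
        ext1 q
        have h1 := hR' p0 q
        rw [h0, map_zero, mul_zero] at h1
        have h2 := (mul_eq_zero.1 h1).resolve_left hp0'
        exact (map_eq_zero_iff ψ hψ).1 h2
      have hcross : ∀ q, ρ l q * ρ hex.choose p0 = ρ l p0 * ρ hex.choose q := by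
        intro q
        apply hψ
        rw [map_mul, map_mul]
        have h1 := hR p0 q
        have h2 := hR' p0 q
        apply mul_left_cancel₀ hp0'
        calc c' i p0 * (ψ (ρ l q) * ψ (ρ hex.choose p0))
            = (c' i p0 * ψ (ρ l q)) * ψ (ρ hex.choose p0) := by ring
          _ = (c' i q * ψ (ρ l p0)) * ψ (ρ hex.choose p0) := by rw [h1]
          _ = (c' i q * ψ (ρ hex.choose p0)) * ψ (ρ l p0) := by ring
          _ = (c' i p0 * ψ (ρ hex.choose q)) * ψ (ρ l p0) := by rw [← h2]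
          _ = c' i p0 * (ψ (ρ l p0) * ψ (ρ hex.choose q)) := by ring
      obtain ⟨N2, hN2⟩ := Runs_large he'
      refine ⟨i, max N N2, fun m hm hma => ?_⟩
      obtain ⟨t, ht⟩ := hN m (le_trans (le_max_left _ _) hm) hma
      have hne := hN2 m (le_trans (le_max_right _ _) hm)
      refine ⟨t * ((ρ l p0).eval (m : K) / (ρ hex.choose p0).eval (m : K)), ?_⟩
      rw [ht, hci]
      funext q
      have h1 := congrArg (Polynomial.eval (m : K)) (hcross q)
      rw [eval_mul, eval_mul] at h1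
      field_simp
      linear_combination t * h1
    · rw [Set.not_infinite] at hinf
      obtain ⟨N2, hN2⟩ := hinf.bddAbove
      obtain ⟨N3, hN3⟩ := Runs_large hG0
      refine ⟨⟨0, by omega⟩, max (max (N2 + 1) N3) (max N N1), fun m hm hma => ⟨0, ?_⟩⟩
      have h0 : x m = 0 := by
        by_contra h0
        have := hN2 (show m ∈ {m : ℕ | (N ≤ m ∧ N1 ≤ m) ∧ m % T = a % T ∧ x m ≠ 0 ∧
          (MvPolynomial.aeval (ρ l) G).eval (m : K) ≠ 0} from
          ⟨⟨by omega, by omega⟩, hma, h0, hN3 m (by omega)⟩)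
        omega
      change x m = _
      rw [h0]
      funext j
      simp

end Pool.Agent.Run7.h983
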