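import Pool.Agent.Run7.h983.E2

/-!
P-recursive sequences of points, outside of one hypersurface.
-/

set_option autoImplicit false

namespace Pool.Agent.Run7.h983

open Polynomial Matrix Pool.Agent.TH717.GO Pool.Agent.Y377.ST Pool.Agent.N419.HQ
  Pool.Agent.N419.HU Pool.Agent.H533R3.SL

/-- the conclusion of `main_lineG` for all systems of size `r` -/
def SysB {K : Type} [Field K] {n : ℕ} (FF : Set (MvPolynomial (Fin (n + 1)) K))
    (G : MvPolynomial (Fin (n + 1)) K) (r B : ℕ) : Prop :=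
  ∀ (A : Matrix (Fin r) (Fin r) K[X]), (∀ m : ℕ, A.det.eval (m : K) ≠ 0) →
    ∀ (M : Matrix (Fin (n + 1)) (Fin r) K) (v : Fin r → K),
    (∃ N : ℕ, ∀ m ≥ N, ∀ F ∈ FF, MvPolynomial.eval (M.mulVec ((sys A m).mulVec v)) F = 0) →
    ∃ c : Fin B → Fin (n + 1) → K[X], (∀ i, ∀ F ∈ FF, MvPolynomial.aeval (c i) F = 0) ∧
      ∃ T : ℕ, 1 ≤ T ∧ ∀ a : ℕ,
      (∃ N : ℕ, ∀ m ≥ N, m % T = a % T →
        MvPolynomial.eval (M.mulVec ((sys A m).mulVec v)) G = 0) ∨
      ∃ i, ∃ N : ℕ, ∀ m ≥ N, m % T = a % T →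
        ∃ s : K, M.mulVec ((sys A m).mulVec v) = fun j => s * (c i j).eval (m : K)

theorem SysB.mono {K : Type} [Field K] {n : ℕ} {FF : Set (MvPolynomial (Fin (n + 1)) K)}
    {G G' : MvPolynomial (Fin (n + 1)) K} {r B B' : ℕ} (h : SysB FF G r B) (hG : G ∣ G')
    (hB : 1 ≤ B) (hBB : B ≤ B') : SysB FF G' r B' := by
  intro A hA M v hX
  obtain ⟨c, hc, T, hT, hcl⟩ := h A hA M v hX
  refine ⟨fun i => if hi : (i : ℕ) < B then c ⟨i, hi⟩ else c ⟨0, by omega⟩, fun i F hF => ?_,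
    T, hT, fun a => ?_⟩
  · by_cases hi : (i : ℕ) < B
    · simp only [hi, dif_pos]
      exact hc _ F hF
    · simp only [hi, dif_neg, not_false_eq_true]
      exact hc _ F hF
  · rcases hcl a with ⟨N, hN⟩ | ⟨i, N, hN⟩
    · left
      refine ⟨N, fun m hm hma => ?_⟩
      obtain ⟨H, rfl⟩ := hG
      rw [map_mul, hN m hm hma, zero_mul]
    · right
      refine ⟨⟨i, by omega⟩, N, fun m hm hma => ?_⟩
      simp only [i.2, dif_pos]
      exact hN m hm hma

theorem aeval_comp {K : Type} [Field K] {n : ℕ} (c : Fin (n + 1) → K[X]) (q : K[X])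
    (F : MvPolynomial (Fin (n + 1)) K) (h : MvPolynomial.aeval c F = 0) :
    MvPolynomial.aeval (fun j => (c j).comp q) F = 0 := by
  have h1 := MvPolynomial.comp_aeval_apply (R := K) c (Polynomial.aeval q : K[X] →ₐ[K] K[X]) F
  rw [h, map_zero] at h1
  exact h1.symm

/-- sequences on the variety -/
theorem seq_on {K : Type} [Field K] [NumberField K] {n B : ℕ}
    {FF : Set (MvPolynomial (Fin (n + 1)) K)} (hhom : ∀ F ∈ FF, ∃ e, F.IsHomogeneous e)
    {G : MvPolynomial (Fin (n + 1)) K} (hG : ∃ e, G.IsHomogeneous e) (t : ℕ)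
    (h : ∀ r ≤ (n + 1) * t, SysB FF G r B) (x : ℕ → Fin (n + 1) → K)
    (hx : ∀ j, ∃ p : Fin (t + 1) → K[X], p ≠ 0 ∧
        ∀ m : ℕ, ∑ i : Fin (t + 1), (p i).eval (m : K) * x (m + i) j = 0)
    (hX : ∃ N : ℕ, ∀ m ≥ N, ∀ F ∈ FF, MvPolynomial.eval (x m) F = 0) :
    ∃ c : Fin B → Fin (n + 1) → K[X], (∀ i, ∀ F ∈ FF, MvPolynomial.aeval (c i) F = 0) ∧
      ∃ T : ℕ, 1 ≤ T ∧ ∀ a : ℕ,
      (∃ N : ℕ, ∀ m ≥ N, m % T = a % T → MvPolynomial.eval (x m) G = 0) ∨
      ∃ i, ∃ N : ℕ, ∀ m ≥ N, m % T = a % T →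
        ∃ s : K, x m = fun j => s * (c i j).eval (m : K) := by
  obtain ⟨N, r, A, M, v, s, hr, hA, hs, hxs⟩ := prec_le K (n + 1) t x hx
  obtain ⟨N0, hN0⟩ := hX
  have hxs' : ∀ m, x (N + m) = fun j => s m * M.mulVec ((sys A m).mulVec v) j := by
    intro m
    rw [hxs]
    rfl
  obtain ⟨c, hc, T, hT, hcl⟩ := h r hr A hA M v ⟨N0, fun m hm F hF => by
    obtain ⟨e, he⟩ := hhom F hF
    have h1 := hN0 (N + m) (by omega) F hF
    rw [hxs', Runs_hom he] at h1
    exact (mul_eq_zero.1 h1).resolve_left (pow_ne_zero e (hs m))⟩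
  refine ⟨fun i j => (c i j).comp (X - C (N : K)), fun i F hF => aeval_comp _ _ _ (hc i F hF),
    T, hT, fun a => ?_⟩
  rcases hcl (a + N * (T - 1)) with ⟨N1, hN1⟩ | ⟨i, N1, hN1⟩
  · left
    refine ⟨N + N1, fun m hm hma => ?_⟩
    obtain ⟨m, rfl⟩ : ∃ m', m = N + m' := ⟨m - N, by omega⟩
    obtain ⟨e, he⟩ := hG
    rw [hxs', Runs_hom he, hN1 m (by omega) (fin_class hT hma), mul_zero]
  · right
    refine ⟨i, N + N1, fun m hm hma => ?_⟩
    obtain ⟨m, rfl⟩ : ∃ m', m = N + m' := ⟨m - N, by omega⟩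
    obtain ⟨t', ht'⟩ := hN1 m (by omega) (fin_class hT hma)
    refine ⟨s m * t', ?_⟩
    rw [hxs', ht']
    funext j
    rw [eval_comp, eval_sub, eval_X, eval_C]
    push_cast
    rw [add_sub_cancel_left]
    ring

/-- on the set `S` of indices the points are on one rational curve on the variety, or those on the
variety and off `G = 0` have density zero -/
def Alt {K : Type} [Field K] {n : ℕ} (FF : Set (MvPolynomial (Fin (n + 1)) K))
    (G : MvPolynomial (Fin (n + 1)) K) (x : ℕ → Fin (n + 1) → K) (S : Set ℕ) : Prop :=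
  (∃ ρ : Fin (n + 1) → K[X], (∀ F ∈ FF, MvPolynomial.aeval ρ F = 0) ∧ ∃ N : ℕ, ∀ m ≥ N, m ∈ S →
    ∃ s : K, x m = fun j => s * (ρ j).eval (m : K)) ∨
  ¬ PosDens {m : ℕ | m ∈ S ∧ x m ≠ 0 ∧ (∀ F ∈ FF, MvPolynomial.eval (x m) F = 0) ∧
    MvPolynomial.eval (x m) G ≠ 0}

theorem Alt.mono {K : Type} [Field K] {n : ℕ} {FF : Set (MvPolynomial (Fin (n + 1)) K)}
    {G : MvPolynomial (Fin (n + 1)) K} {x : ℕ → Fin (n + 1) → K} {S S' : Set ℕ}
    (h : Alt FF G x S) (hS : S' ⊆ S) : Alt FF G x S' := by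
  rcases h with ⟨ρ, hρ, N, hN⟩ | h
  · exact Or.inl ⟨ρ, hρ, N, fun m hm hmS => hN m hm (hS hmS)⟩
  · right
    intro h'
    exact h (Dens_mono (fun m hm => ⟨hS hm.1, hm.2⟩) h')

theorem not_posDens_bdd {S : Set ℕ} (N : ℕ) (h : ∀ m ∈ S, m < N) : ¬ PosDens S := by
  rintro ⟨δ, hδ, h1⟩
  obtain ⟨L, hL⟩ := exists_nat_gt ((N : ℝ) / δ)
  obtain ⟨a, l, hl, hc⟩ := h1 (L + 1)
  have h2 : (S ∩ Set.Ico a (a + l)).ncard ≤ N := by
    have h3 : (S ∩ Set.Ico a (a + l)) ⊆ Set.Iio N := fun m hm => h m hm.1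
    refine (Set.ncard_le_ncard h3 (Set.finite_Iio N)).trans ?_
    rw [Set.ncard_eq_toFinset_card']
    simp
  have h3 : ((S ∩ Set.Ico a (a + l)).ncard : ℝ) ≤ N := by exact_mod_cast h2
  have h4 : (L : ℝ) + 1 ≤ l := by exact_mod_cast hl
  rw [div_lt_iff₀ hδ] at hL
  nlinarith

/-- one modulus -/
theorem alt_refine {K : Type} [Field K] {n : ℕ} {FF : Set (MvPolynomial (Fin (n + 1)) K)}
    {G : MvPolynomial (Fin (n + 1)) K} {x : ℕ → Fin (n + 1) → K} {T : ℕ} (hT : 1 ≤ T)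
    (h : ∀ a : ℕ, ∃ T' : ℕ, 1 ≤ T' ∧ ∀ a' : ℕ,
      Alt FF G x {m | ∃ j, m = a + T * j ∧ j % T' = a' % T'}) :
    ∃ TT : ℕ, 1 ≤ TT ∧ ∀ a : ℕ, Alt FF G x {m | m % TT = a % TT} := by
  classical
  choose Tf hTf1 hTf2 using h
  refine ⟨T * ∏ a ∈ Finset.range T, Tf a, Nat.one_le_iff_ne_zero.2 (mul_ne_zero (by omega)
    (Finset.prod_ne_zero_iff.2 fun a _ => by have := hTf1 a; omega)), fun b => ?_⟩
  have hTdvd : T ∣ T * ∏ a ∈ Finset.range T, Tf a := Dvd.intro _ rfl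
  have hbT : b % T < T := Nat.mod_lt _ (by omega)
  refine (hTf2 (b % T) (b / T)).mono ?_
  intro m hm
  have hmb : m % (T * ∏ a ∈ Finset.range T, Tf a) = b % (T * ∏ a ∈ Finset.range T, Tf a) := hm
  have hmT : m % T = b % T := by
    rw [← Nat.mod_mod_of_dvd m hTdvd, hmb, Nat.mod_mod_of_dvd b hTdvd]
  have hdiv : (m / T) % Tf (b % T) = (b / T) % Tf (b % T) := by
    have hd : T * Tf (b % T) ∣ T * ∏ a ∈ Finset.range T, Tf a :=
      Nat.mul_dvd_mul_left T (Finset.dvd_prod_of_mem Tf (Finset.mem_range.2 hbT))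
    have h3 : m ≡ b [MOD T * Tf (b % T)] := Nat.ModEq.of_dvd hd hmb
    have h4 : T * (m / T) + m % T ≡ T * (b / T) + b % T [MOD T * Tf (b % T)] := by
      rw [Nat.div_add_mod, Nat.div_add_mod]
      exact h3
    rw [hmT] at h4
    have h5 := Nat.ModEq.add_right_cancel' _ h4
    exact Nat.ModEq.mul_left_cancel' (by omega) h5
  exact ⟨m / T, by rw [← hmT]; exact (Nat.mod_add_div m T).symm, hdiv⟩

/-- the values of a system -/
theorem sys_off {K : Type} [Field K] [NumberField K] {n B r : ℕ}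
    {FF : Set (MvPolynomial (Fin (n + 1)) K)}
    {G : MvPolynomial (Fin (n + 1)) K} (h : SysB FF G r B)
    (A : Matrix (Fin r) (Fin r) K[X]) (hA : ∀ m : ℕ, A.det.eval (m : K) ≠ 0)
    (M : Matrix (Fin (n + 1)) (Fin r) K) (v : Fin r → K) :
    ∃ T : ℕ, 1 ≤ T ∧ ∀ a : ℕ, Alt FF G (fun m => M.mulVec ((sys A m).mulVec v))
      {m | m % T = a % T} := by
  classical
  let I : Ideal (MvPolynomial (Fin r × Fin r) K[X]) := Ideal.span
    ((fun F => sb M v (MvPolynomial.map C F)) '' FF)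
  have hval : ∀ (m : ℕ) (F : MvPolynomial (Fin (n + 1)) K),
      val (shift A) (ev 0 1) m (sb M v (MvPolynomial.map C F)) =
        MvPolynomial.eval (M.mulVec ((sys A m).mulVec v)) F := by
    intro m F
    rw [val_sys, core_ev_sb, MvPolynomial.eval₂_map]
    have : (evalRingHom (m : K)).comp C = RingHom.id K := by ext z; simp
    rw [this]
    rfl
  have hI : ∀ m, (∀ f ∈ I, val (shift A) (ev 0 1) m f = 0) ↔
      ∀ F ∈ FF, MvPolynomial.eval (M.mulVec ((sys A m).mulVec v)) F = 0 := by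
    intro m
    constructor
    · intro h F hF
      rw [← hval]
      exact h _ (Ideal.subset_span ⟨F, hF, rfl⟩)
    · intro h f hf
      have hle : I ≤ RingHom.ker ((ev 0 1 : MvPolynomial (Fin r × Fin r) K[X] →+* K).comp
          ((shift A) ^ m)) := by
        rw [Ideal.span_le]
        rintro _ ⟨F, hF, rfl⟩
        rw [SetLike.mem_coe, RingHom.mem_ker, RingHom.comp_apply, RingHom.coe_pow]
        have h2 := hval m F
        rw [h F hF] at h2
        exact h2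
      have h2 := hle hf
      rw [RingHom.mem_ker, RingHom.comp_apply, RingHom.coe_pow] at h2
      exact h2
  obtain ⟨T, hT, hcl⟩ := t_dens _ _ (shift A) (ev 0 1) I
  refine alt_refine hT fun a => ?_
  rcases hcl a with ⟨N1, hN1⟩ | h2
  · obtain ⟨A', hA', hs'⟩ := u_sub K r A hA T a hT
    have hy : ∀ j, M.mulVec ((sys A (a + T * j)).mulVec v) =
        M.mulVec ((sys A' j).mulVec ((sys A a).mulVec v)) := by
      intro j
      rw [hs', ← Matrix.mulVec_mulVec]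
    obtain ⟨c, hc, T', hT', hcl'⟩ := h A' hA' M ((sys A a).mulVec v) ⟨N1, fun m hm F hF => by
      have h3 := (hI (a + T * m)).1 (hN1 (a + T * m) (by nlinarith) (by simp)) F hF
      rw [hy] at h3
      exact h3⟩
    refine ⟨T', hT', fun a' => ?_⟩
    rcases hcl' a' with ⟨N2, hN2⟩ | ⟨i, N2, hN2⟩
    · right
      refine not_posDens_bdd (a + T * N2) ?_
      rintro m ⟨⟨j, rfl, hj⟩, -, -, hGm⟩
      by_contra hcon
      have hj2 : N2 ≤ j := by
        by_contra hlt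
        push Not at hlt
        apply hcon
        have : T * j < T * N2 := Nat.mul_lt_mul_of_pos_left hlt (by omega)
        omega
      apply hGm
      show MvPolynomial.eval (M.mulVec ((sys A (a + T * j)).mulVec v)) G = 0
      rw [hy]
      exact hN2 j hj2 hj
    · left
      have hTK : (T : K) ≠ 0 := by
        have : T ≠ 0 := by omega
        exact_mod_cast this
      refine ⟨fun j => (c i j).comp (C (T : K)⁻¹ * (X - C (a : K))),
        fun F hF => aeval_comp _ _ _ (hc i F hF), a + T * N2, ?_⟩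
      rintro m hm ⟨j, rfl, hj⟩
      have hj2 : N2 ≤ j := by
        by_contra hlt
        push Not at hlt
        have : T * j < T * N2 := Nat.mul_lt_mul_of_pos_left hlt (by omega)
        omega
      obtain ⟨s, hs⟩ := hN2 j hj2 hj
      refine ⟨s, ?_⟩
      show M.mulVec ((sys A (a + T * j)).mulVec v) = _
      rw [hy, hs]
      funext q
      rw [eval_comp, eval_mul, eval_C, eval_sub, eval_X, eval_C]
      push_cast
      rw [add_sub_cancel_left, inv_mul_cancel_left₀ hTK]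
  · refine ⟨1, le_rfl, fun a' => Or.inr fun hS => h2 (Dens_mono ?_ hS)⟩
    rintro m ⟨⟨j, rfl, -⟩, -, hm, -⟩
    exact ⟨by simp, (hI _).2 hm⟩

/-- all P-recursive sequences -/
theorem seq_off {K : Type} [Field K] [NumberField K] {n B : ℕ}
    {FF : Set (MvPolynomial (Fin (n + 1)) K)} (hhom : ∀ F ∈ FF, ∃ e, F.IsHomogeneous e)
    {G : MvPolynomial (Fin (n + 1)) K} (hG : ∃ e, G.IsHomogeneous e) (t : ℕ)
    (h : ∀ r ≤ (n + 1) * t, SysB FF G r B) (x : ℕ → Fin (n + 1) → K)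
    (hx : ∀ j, ∃ p : Fin (t + 1) → K[X], p ≠ 0 ∧
        ∀ m : ℕ, ∑ i : Fin (t + 1), (p i).eval (m : K) * x (m + i) j = 0) :
    ∃ T : ℕ, 1 ≤ T ∧ ∀ a : ℕ, Alt FF G x {m | m % T = a % T} := by
  obtain ⟨N, r, A, M, v, s, hr, hA, hs, hxs⟩ := prec_le K (n + 1) t x hx
  have hxs' : ∀ m, x (N + m) = fun j => s m * M.mulVec ((sys A m).mulVec v) j := by
    intro m
    rw [hxs]
    rfl
  obtain ⟨T, hT, hcl⟩ := sys_off (h r hr) A hA M v
  refine ⟨T, hT, fun a => ?_⟩
  rcases hcl (a + N * (T - 1)) with ⟨ρ, hρ, N1, hN1⟩ | h1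
  · left
    refine ⟨fun j => (ρ j).comp (X - C (N : K)), fun F hF => aeval_comp _ _ _ (hρ F hF),
      N + N1, fun m hm hma => ?_⟩
    obtain ⟨m, rfl⟩ : ∃ m', m = N + m' := ⟨m - N, by omega⟩
    obtain ⟨t', ht'⟩ := hN1 m (by omega) (fin_class hT hma)
    simp only at ht'
    refine ⟨s m * t', ?_⟩
    rw [hxs', ht']
    funext j
    rw [eval_comp, eval_sub, eval_X, eval_C]
    push_cast
    rw [add_sub_cancel_left]
    ring
  · right
    intro hS
    apply h1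
    refine Dens_mono ?_ (fin_shift_dens N hS)
    rintro m ⟨hm1, hm2, hm3, hm4⟩
    refine ⟨fin_class hT hm1, ?_, ?_, ?_⟩
    · intro h0
      apply hm2
      rw [hxs']
      funext j
      have := congrFun h0 j
      simp only [Pi.zero_apply] at this ⊢
      rw [this, mul_zero]
    · intro F hF
      obtain ⟨e, he⟩ := hhom F hF
      have h3 := hm3 F hF
      rw [hxs', Runs_hom he] at h3
      exact (mul_eq_zero.1 h3).resolve_left (pow_ne_zero e (hs m))
    · intro h0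
      apply hm4
      obtain ⟨e, he⟩ := hG
      rw [hxs', Runs_hom he, h0, mul_zero]

end Pool.Agent.Run7.h983
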