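import Pool.Agent.Run7.h983.E3
import Pool.Agent.Y627.KW.ExpN

/-!
P-recursive sequences of points: the hypersurface for varieties that are not uniruled; curves.
-/

set_option autoImplicit false

namespace Pool.Agent.Run7.h983

open Polynomial Matrix Pool.Agent.TH717.GO Pool.Agent.Y377.ST Pool.Agent.N419.HQ
  Pool.Agent.N419.HU Pool.Agent.H533R3.SL

theorem sysB_of_orbB {K : Type} [Field K] [NumberField K] (τ : K →+* ℂ) {n r B : ℕ}
    (FF : Set (MvPolynomial (Fin (n + 1)) K)) (hhom : ∀ F ∈ FF, ∃ e, F.IsHomogeneous e)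
    (G : MvPolynomial (Fin (n + 1)) K) (hG : ∃ e, G.IsHomogeneous e)
    (hO : OrbB ((MvPolynomial.map τ) '' FF) (MvPolynomial.map τ G) r B) (hB : 1 ≤ B) :
    SysB FF G r B := by
  intro A hA M v hX
  exact main_lineG (t_core t_null t_spec t_embed t_grp) t_rel t_bd t_desc (t_runs t_hit)
    (t_line t_run t_ap) τ FF hhom G hG hO hB A hA M v hX

/-- one hypersurface for all systems of bounded size on a variety that is not uniruled -/
theorem nonuni_sys {k : Type} [Field k] [NumberField k] {n : ℕ}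
    (FF : Set (MvPolynomial (Fin (n + 1)) k)) (hhom : ∀ F ∈ FF, ∃ e, F.IsHomogeneous e)
    (hprime : (Ideal.span FF).IsPrime) (hnu : ¬ Uniruled (Ideal.span FF)) (R : ℕ) :
    ∃ (G : MvPolynomial (Fin (n + 1)) k) (B : ℕ), (∃ d, G.IsHomogeneous d) ∧
      G ∉ Ideal.span FF ∧ 1 ≤ B ∧ ∀ (K : Type) [Field K] [NumberField K] [Algebra k K],
        ∀ r ≤ R, SysB ((MvPolynomial.map (algebraMap k K)) '' FF)
          (MvPolynomial.map (algebraMap k K) G) r B := by
  classical
  choose Gr Br h1 h2 h3 h4 using fun r => orbB_nonuni FF hhom hprime hnu r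
  refine ⟨∏ r ∈ Finset.range (R + 1), Gr r, (Finset.range (R + 1)).sup Br, ?_, ?_, ?_, ?_⟩
  · choose d hd using h1
    exact ⟨_, MvPolynomial.IsHomogeneous.prod _ _ d fun j _ => hd j⟩
  · intro h
    obtain ⟨j, -, hj⟩ := (hprime.prod_mem_iff).1 h
    exact h2 j hj
  · exact (h3 0).trans (Finset.le_sup (f := Br) (Finset.mem_range.2 (by omega)))
  · intro K _ _ _ r hr
    have τ : K →+* ℂ := (IsAlgClosed.lift : K →ₐ[ℚ] ℂ).toRingHom
    have hs : SysB ((MvPolynomial.map (algebraMap k K)) '' FF)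
        (MvPolynomial.map (algebraMap k K) (Gr r)) r (Br r) := by
      refine sysB_of_orbB τ _ ?_ _ ?_ ?_ (h3 r)
      · rintro _ ⟨F, hF, rfl⟩
        obtain ⟨e, he⟩ := hhom F hF
        exact ⟨e, he.map _⟩
      · obtain ⟨e, he⟩ := h1 r
        exact ⟨e, he.map _⟩
      · have h := h4 r (τ.comp (algebraMap k K))
        have h5 : (MvPolynomial.map τ) '' ((MvPolynomial.map (algebraMap k K)) '' FF) =
            (MvPolynomial.map (τ.comp (algebraMap k K))) '' FF := by
          rw [Set.image_image]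
          refine Set.image_congr fun F _ => ?_
          rw [MvPolynomial.map_map]
        rw [h5, MvPolynomial.map_map]
        exact h
    exact hs.mono (map_dvd _ (Finset.dvd_prod_of_mem Gr (Finset.mem_range.2 (by omega)))) (h3 r)
      (Finset.le_sup (f := Br) (Finset.mem_range.2 (by omega)))

/-- one bound for all varieties of bounded degree whose rational curves lie on `G = 0` -/
theorem cur_sys (n d R : ℕ) : ∃ B : ℕ, 1 ≤ B ∧ ∀ (K : Type) [Field K] [NumberField K]
    (σ : K →+* ℂ) (FF : Set (MvPolynomial (Fin (n + 1)) K)),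
    (∀ F ∈ FF, ∃ m ≤ d, F.IsHomogeneous m) →
    ∀ G : MvPolynomial (Fin (n + 1)) K, (∃ m ≤ d, G.IsHomogeneous m) →
    CurIn σ FF {G} → ∀ r ≤ R, SysB FF G r B := by
  classical
  choose Br h3 h4 using fun r => orbB_cur n d r
  refine ⟨(Finset.range (R + 1)).sup Br,
    (h3 0).trans (Finset.le_sup (f := Br) (Finset.mem_range.2 (by omega))), ?_⟩
  intro K _ _ σ FF hFF G hG hcur r hr
  have hs : SysB FF G r (Br r) := by
    refine sysB_of_orbB σ _ ?_ _ ?_ (h4 r K σ FF hFF G hG hcur) (h3 r)
    · intro F hF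
      obtain ⟨m, -, hm⟩ := hFF F hF
      exact ⟨m, hm⟩
    · obtain ⟨m, -, hm⟩ := hG
      exact ⟨m, hm⟩
  exact hs.mono dvd_rfl (h3 r) (Finset.le_sup (f := Br) (Finset.mem_range.2 (by omega)))

/-- curves off `G = 0` are constant -/
theorem const_of_cur {K : Type} [Field K] [NumberField K] {n : ℕ} (σ : K →+* ℂ)
    (FF : Set (MvPolynomial (Fin (n + 1)) K)) (G : MvPolynomial (Fin (n + 1)) K)
    (hcur : CurIn σ FF {G}) (c : Fin (n + 1) → K[X])
    (hc : ∀ F ∈ FF, MvPolynomial.aeval c F = 0) :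
    MvPolynomial.aeval c G = 0 ∨
      ∃ b : Fin (n + 1) → K, ∀ a : K, ∃ s : K, (fun j => (c j).eval a) = s • b := by
  by_cases h0 : c = 0
  · right
    refine ⟨0, fun a => ⟨0, ?_⟩⟩
    rw [h0]
    funext j
    simp
  by_cases hG : MvPolynomial.aeval c G = 0
  · exact Or.inl hG
  right
  obtain ⟨b0, hb0⟩ := exists_nat_ne c h0
  refine ⟨fun j => (c j).eval (b0 : K), fun a => ?_⟩
  obtain ⟨j0, hj0⟩ := Function.ne_iff.1 hb0
  have hj0' : (c j0).eval (b0 : K) ≠ 0 := hj0
  refine ⟨(c j0).eval a / (c j0).eval (b0 : K), ?_⟩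
  funext i
  rw [Pi.smul_apply, smul_eq_mul, div_mul_eq_mul_div, eq_div_iff hj0']
  exact curIn_curve σ FF {G} hcur c hc ⟨G, rfl, hG⟩ i j0 a b0

/-! ### the converse -/

theorem exp_indep {K : Type} [Field K] (τ : K →+* ℂ) (P : ℕ → K[X]) (d T N a : ℕ)
    (hT : 1 ≤ T) (h : ∀ m ≥ N, m % T = a % T →
      ∑ k ∈ Finset.range d, (P k).eval (m : K) * ((2 : K) ^ m) ^ k = 0) :
    ∀ k ∈ Finset.range d, P k = 0 := by
  classical
  set b : ℕ := a + T * N with hb
  let q : ℕ → ℂ[X] := fun k =>
    ((P k).map τ).comp (C (T : ℂ) * X + C (b : ℂ)) * C (((2 : ℂ) ^ b) ^ k)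
  let χ : ℕ → ℂ := fun k => ((2 : ℂ) ^ T) ^ k
  have hz := Pool.Agent.Y627.KW.expN (Finset.range d) χ
    (fun k _ => pow_ne_zero _ (pow_ne_zero _ two_ne_zero))
    (fun i _ j _ hij hχ => hij (by
      have h1 : (2 : ℂ) ^ (T * i) = (2 : ℂ) ^ (T * j) := by
        rw [pow_mul, pow_mul]
        exact hχ
      have h2 : (2 : ℕ) ^ (T * i) = (2 : ℕ) ^ (T * j) := by exact_mod_cast h1
      have h3 := Nat.pow_right_injective le_rfl h2
      exact Nat.eq_of_mul_eq_mul_left (by omega) h3)) _ q le_rfl (by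
    intro j
    have h1 := h (b + T * j) (by rw [hb]; nlinarith) (by
      rw [hb, add_assoc, ← Nat.mul_add, Nat.add_mul_mod_self_left])
    have h2 := congrArg τ h1
    rw [map_zero, map_sum] at h2
    rw [← h2]
    refine Finset.sum_congr rfl fun k _ => ?_
    simp only [q, χ]
    rw [eval_mul, eval_C, eval_comp, eval_add, eval_mul, eval_C, eval_X, eval_C, map_mul,
      map_pow, map_pow, map_ofNat]
    have h3 : (T : ℂ) * (j : ℂ) + (b : ℂ) = ((b + T * j : ℕ) : ℂ) := by
      push_cast
      ring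
    rw [h3, eval_natCast_map, mul_assoc]
    congr 1
    rw [← pow_mul, ← pow_mul, ← pow_mul, ← pow_mul, ← pow_add]
    congr 1
    ring)
  intro k hk
  have h1 := hz k hk
  have h2 : ((P k).map τ).comp (C (T : ℂ) * X + C (b : ℂ)) = 0 :=
    (mul_eq_zero.1 h1).resolve_right (C_ne_zero.2 (pow_ne_zero _ (pow_ne_zero _ two_ne_zero)))
  rw [comp_eq_zero_iff] at h2
  have h3 : (P k).map τ = 0 := by
    refine h2.resolve_right ?_
    rintro ⟨-, h4⟩
    have h5 := congrArg (fun p : ℂ[X] => p.coeff 1) h4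
    simp only [coeff_add, coeff_C_mul, coeff_X_one, mul_one, coeff_C_succ, add_zero] at h5
    have h6 : (T : ℂ) ≠ 0 := by
      have : T ≠ 0 := by omega
      exact_mod_cast this
    exact h6 (by simpa using h5)
  exact (Polynomial.map_eq_zero τ).1 h3

/-- the values of a nonconstant curve at the powers of two are not rational functions of the
exponent -/
theorem not_rational {K : Type} [Field K] (τ : K →+* ℂ) {n : ℕ} (q : Fin (n + 1) → K[X])
    (hq : ∃ i j, q i * C ((q j).eval 1) ≠ q j * C ((q i).eval 1)) (ρ : Fin (n + 1) → K[X])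
    (T N a : ℕ) (hT : 1 ≤ T) (h : ∀ m ≥ N, m % T = a % T →
      ∃ s : K, (fun i => (q i).eval ((2 : K) ^ m)) = fun i => s * (ρ i).eval (m : K)) : False := by
  classical
  have hcz : CharZero K := ⟨fun u u' huv => by
    have h2 := congrArg τ huv
    rw [map_natCast, map_natCast] at h2
    exact_mod_cast h2⟩
  obtain ⟨D, hD⟩ : ∃ D, ∀ i, (q i).natDegree < D :=
    ⟨Finset.univ.sup (fun i => (q i).natDegree) + 1, fun i => by
      have := Finset.le_sup (f := fun i => (q i).natDegree) (Finset.mem_univ i)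
      omega⟩
  have hcoef : ∀ i j k, C ((q i).coeff k) * ρ j = C ((q j).coeff k) * ρ i := by
    intro i j k
    by_cases hk : k < D
    · have h1 := exp_indep τ (fun k => C ((q i).coeff k) * ρ j - C ((q j).coeff k) * ρ i) D T N a
        hT (by
        intro m hm hma
        obtain ⟨s, hs⟩ := h m hm hma
        have hi := congrFun hs i
        have hj := congrFun hs j
        have e : ∀ l, (q l).eval ((2 : K) ^ m) =
            ∑ k ∈ Finset.range D, (q l).coeff k * ((2 : K) ^ m) ^ k := fun l =>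
          eval_eq_sum_range' (hD l) _
        have h2 : (q i).eval ((2 : K) ^ m) * (ρ j).eval (m : K) -
            (q j).eval ((2 : K) ^ m) * (ρ i).eval (m : K) = 0 := by
          rw [hi, hj]
          ring
        rw [e, e, Finset.sum_mul, Finset.sum_mul, ← Finset.sum_sub_distrib] at h2
        rw [← h2]
        refine Finset.sum_congr rfl fun k _ => ?_
        rw [eval_sub, eval_mul, eval_mul, eval_C, eval_C]
        ring) k (Finset.mem_range.2 hk)
      exact sub_eq_zero.1 h1
    · have e : ∀ l, (q l).coeff k = 0 := fun l =>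
        coeff_eq_zero_of_natDegree_lt (lt_of_lt_of_le (hD l) (by omega))
      rw [e, e, C_0, zero_mul, zero_mul]
  obtain ⟨i, j, hij⟩ := hq
  apply hij
  by_cases hρ : ρ = 0
  · have h0 : ∀ l, q l = 0 := by
      intro l
      ext k
      rw [coeff_zero]
      by_cases hk : k < D
      · have h1 := exp_indep τ (fun k => C ((q l).coeff k)) D T N a hT (by
          intro m hm hma
          obtain ⟨s, hs⟩ := h m hm hma
          have hl := congrFun hs l
          rw [hρ, Pi.zero_apply, eval_zero, mul_zero, eval_eq_sum_range' (hD l)] at hl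
          rw [← hl]
          refine Finset.sum_congr rfl fun k _ => ?_
          rw [eval_C]) k (Finset.mem_range.2 hk)
        exact C_eq_zero.1 h1
      · exact coeff_eq_zero_of_natDegree_lt (lt_of_lt_of_le (hD l) (by omega))
    rw [h0 i, h0 j]
  · obtain ⟨b, hb⟩ := exists_nat_ne ρ hρ
    obtain ⟨j0, hj0⟩ := Function.ne_iff.1 hb
    have hj0' : (ρ j0).eval (b : K) ≠ 0 := hj0
    have hqi : ∀ l, q l = C ((ρ l).eval (b : K) / (ρ j0).eval (b : K)) * q j0 := by
      intro l
      ext k
      rw [coeff_C_mul]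
      have h1 := congrArg (Polynomial.eval (b : K)) (hcoef l j0 k)
      rw [eval_mul, eval_mul, eval_C, eval_C] at h1
      field_simp
      linear_combination h1
    rw [hqi i, hqi j]
    simp only [eval_mul, eval_C, map_mul]
    ring

/-- the values of a polynomial at the powers of two -/
theorem rec_pow {K : Type} [Field K] (D : ℕ) (q : K[X]) (hq : ∀ k, D ≤ k → q.coeff k = 0) :
    ∃ p : Fin (D + 1) → K[X], p ≠ 0 ∧
      ∀ m : ℕ, ∑ i : Fin (D + 1), (p i).eval (m : K) * q.eval ((2 : K) ^ (m + i)) = 0 := by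
  classical
  set Q : K[X] := ∏ k ∈ Finset.range D, (X - C ((2 : K) ^ k)) with hQ
  have hQm : Q.Monic := monic_prod_X_sub_C _ _
  have hQd : Q.natDegree = D := by
    rw [hQ, natDegree_prod_of_monic _ _ fun k _ => monic_X_sub_C _]
    simp only [natDegree_X_sub_C, Finset.sum_const, Finset.card_range, smul_eq_mul, mul_one]
  refine ⟨fun i => C (Q.coeff i), fun h => ?_, fun m => ?_⟩
  · have h1 := congrFun h (Fin.last D)
    have h2 : Q.coeff D = 1 := by
      have := hQm.coeff_natDegree
      rwa [hQd] at this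
    simp only [Fin.val_last, h2, Pi.zero_apply] at h1
    exact one_ne_zero (C_eq_zero.1 h1)
  · have hdeg : q.natDegree < D + 1 :=
      Nat.lt_succ_of_le (natDegree_le_iff_coeff_eq_zero.2 fun k hk => hq k hk.le)
    have e : ∀ y, q.eval y = ∑ k ∈ Finset.range (D + 1), q.coeff k * y ^ k := fun y =>
      eval_eq_sum_range' hdeg y
    have e2 : ∀ y, Q.eval y = ∑ i : Fin (D + 1), Q.coeff i * y ^ (i : ℕ) := by
      intro y
      rw [eval_eq_sum_range' (n := D + 1) (by omega), Fin.sum_univ_eq_sum_range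
        (fun i => Q.coeff i * y ^ i)]
    simp only [eval_C]
    simp_rw [e, Finset.mul_sum]
    rw [Finset.sum_comm]
    refine Finset.sum_eq_zero fun k hk => ?_
    by_cases hkD : k < D
    · have h1 : ∑ i : Fin (D + 1), Q.coeff i * (q.coeff k * ((2 : K) ^ (m + (i : ℕ))) ^ k) =
          q.coeff k * ((2 : K) ^ m) ^ k * Q.eval ((2 : K) ^ k) := by
        rw [e2, Finset.mul_sum]
        refine Finset.sum_congr rfl fun i _ => ?_
        rw [pow_add, mul_pow, ← pow_mul (2 : K) k i, ← pow_mul (2 : K) i k, mul_comm (i : ℕ) k]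
        ring
      rw [h1]
      have h2 : Q.eval ((2 : K) ^ k) = 0 := by
        rw [hQ, eval_prod]
        exact Finset.prod_eq_zero (Finset.mem_range.2 hkD) (by simp)
      rw [h2, mul_zero]
    · have h1 := hq k (by omega)
      refine Finset.sum_eq_zero fun i _ => ?_
      rw [h1]
      ring

end Pool.Agent.Run7.h983
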