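import Pool.Agent.Run7.h983.E4

/-!
P-recursive sequences of points are not dense on varieties that are not uniruled.
-/

set_option autoImplicit false

namespace Pool.Agent.Run7.h983

open Polynomial Matrix Pool.Agent.TH717.GO Pool.Agent.Y377.ST Pool.Agent.N419.HQ
  Pool.Agent.N419.HU Pool.Agent.H533R3.SL

theorem aeval_pol_smul {k K : Type} [Field k] [Field K] [Algebra k K] {n e : ℕ}
    {F : MvPolynomial (Fin (n + 1)) k} (hF : F.IsHomogeneous e) (g : K[X])
    (c : Fin (n + 1) → K) :
    MvPolynomial.aeval (fun j => C (c j) * g) F = g ^ e * C (MvPolynomial.aeval c F) := by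
  have h1 : MvPolynomial.aeval (fun j => C (c j)) F = C (MvPolynomial.aeval c F) := by
    exact (MvPolynomial.comp_aeval_apply (R := k) c
      ((Algebra.ofId K K[X]).restrictScalars k) F).symm
  rw [← h1, MvPolynomial.aeval_def, MvPolynomial.aeval_def, MvPolynomial.eval₂_eq',
    MvPolynomial.eval₂_eq', Finset.mul_sum]
  refine Finset.sum_congr rfl fun d hd => ?_
  have h2 : ∑ i, d i = e := by
    have := hF (MvPolynomial.mem_support_iff.mp hd)
    rw [Finsupp.weight_apply, Finsupp.sum_fintype] at this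
    · simpa using this
    · simp
  simp only [mul_pow, Finset.prod_mul_distrib, Finset.prod_pow_eq_pow_sum, h2]
  ring

/-- a curve on a variety that is not uniruled and has infinitely many points is not dense -/
theorem weak_curve {k : Type} [Field k] [NumberField k] {n : ℕ} (σ : k →+* ℂ)
    (FF : Set (MvPolynomial (Fin (n + 1)) k)) (hhom : ∀ F ∈ FF, ∃ e, F.IsHomogeneous e)
    (hnu : ¬ Uniruled (Ideal.span FF))
    (hinf : {P : Projectivization ℂ (Fin (n + 1) → ℂ) |
      ∀ F ∈ FF, MvPolynomial.eval₂ σ P.rep F = 0}.Infinite)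
    (K : Type) [Field K] [NumberField K] [Algebra k K] (ρ : Fin (n + 1) → K[X]) (hρ0 : ρ ≠ 0)
    (hρ : ∀ F ∈ FF, MvPolynomial.aeval ρ F = 0) :
    ∃ H : MvPolynomial (Fin (n + 1)) k, (∃ e, H.IsHomogeneous e) ∧ H ∉ Ideal.span FF ∧
      MvPolynomial.aeval ρ H = 0 := by
  classical
  by_contra hcon
  push Not at hcon
  let q : Fin (n + 1) → RatFunc K := fun i => algebraMap K[X] (RatFunc K) (ρ i)
  have hinj : Function.Injective (algebraMap K[X] (RatFunc K)) :=
    IsFractionRing.injective K[X] (RatFunc K)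
  have haeq : ∀ F : MvPolynomial (Fin (n + 1)) k,
      MvPolynomial.aeval q F = algebraMap K[X] (RatFunc K) (MvPolynomial.aeval ρ F) := by
    intro F
    exact (MvPolynomial.comp_aeval_apply (R := k) ρ
      (IsScalarTower.toAlgHom k K[X] (RatFunc K)) F).symm
  have hnc : ∀ i l, q l ≠ 0 → ∃ c : K, q i / q l = algebraMap K (RatFunc K) c := by
    by_contra h1
    push Not at h1
    apply hnu
    refine Pool.Agent.Y837.ST.t_UNI k n FF hhom K q ?_ ?_ h1
    · intro F hF e _
      rw [haeq, hρ F hF, map_zero]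
    · intro G hG1 hG2 h2
      rw [haeq] at h2
      exact hcon G hG1 hG2 ((map_eq_zero_iff _ hinj).1 h2)
  obtain ⟨l, hl⟩ := Function.ne_iff.1 hρ0
  have hl' : ρ l ≠ 0 := hl
  have hql : q l ≠ 0 := fun h => hl' ((map_eq_zero_iff _ hinj).1 h)
  choose c hc using fun i => hnc i l hql
  have hρc : ρ = fun i => C (c i) * ρ l := by
    funext i
    apply hinj
    have h1 := hc i
    rw [div_eq_iff hql] at h1
    rw [map_mul]
    exact h1
  have hcl : c l = 1 := by
    have h1 := hc l
    rw [div_self hql] at h1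
    have h2 : algebraMap K (RatFunc K) (c l) = algebraMap K (RatFunc K) 1 := by
      rw [← h1, map_one]
    exact (algebraMap K (RatFunc K)).injective h2
  have hmem : ∀ H : MvPolynomial (Fin (n + 1)) k, (∃ e, H.IsHomogeneous e) →
      MvPolynomial.aeval c H = 0 → H ∈ Ideal.span FF := by
    intro H hH h0
    by_contra hnot
    apply hcon H hH hnot
    obtain ⟨e, he⟩ := hH
    rw [hρc, aeval_pol_smul he, h0, C_0, mul_zero]
  -- the forms
  let P : Fin (n + 1) → k[X] := fun i => minpoly k (c i)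
  have hPi : ∀ i, IsIntegral k (c i) := fun i => by
    have : IsScalarTower ℚ k K := inferInstance
    have : FiniteDimensional k K := FiniteDimensional.right ℚ k K
    exact IsIntegral.of_finite k (c i)
  have hPm : ∀ i, (P i).Monic := fun i => minpoly.monic (hPi i)
  have hPd : ∀ i, 0 < (P i).natDegree := fun i => minpoly.natDegree_pos (hPi i)
  let Hf : Fin (n + 1) → MvPolynomial (Fin (n + 1)) k := fun i =>
    ∑ j ∈ Finset.range ((P i).natDegree + 1), MvPolynomial.C ((P i).coeff j) *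
      (MvPolynomial.X i ^ j * MvPolynomial.X l ^ ((P i).natDegree - j))
  have hHf : ∀ i, Hf i ∈ Ideal.span FF := by
    intro i
    refine hmem _ ⟨(P i).natDegree, ?_⟩ ?_
    · refine MvPolynomial.IsHomogeneous.sum _ _ _ fun j hj => ?_
      have hj' : j ≤ (P i).natDegree := Nat.lt_succ_iff.1 (Finset.mem_range.1 hj)
      have h1 := (MvPolynomial.isHomogeneous_C (Fin (n + 1)) ((P i).coeff j)).mul
        ((MvPolynomial.isHomogeneous_X_pow (R := k) i j).mul
        (MvPolynomial.isHomogeneous_X_pow (R := k) l ((P i).natDegree - j)))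
      rwa [zero_add, Nat.add_sub_cancel' hj'] at h1
    · have h1 : Polynomial.aeval (c i) (P i) = 0 := minpoly.aeval k (c i)
      rw [Polynomial.aeval_eq_sum_range] at h1
      rw [← h1, map_sum]
      refine Finset.sum_congr rfl fun j _ => ?_
      simp only [map_mul, map_pow, MvPolynomial.aeval_X, MvPolynomial.aeval_C, hcl, one_pow,
        mul_one, Algebra.smul_def]
  -- the points
  apply hinf
  let Rt : Fin (n + 1) → Finset ℂ := fun i => ((P i).map σ).roots.toFinset
  have hev : ∀ (y : Fin (n + 1) → ℂ) i, MvPolynomial.eval₂ σ y (Hf i) =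
      ∑ j ∈ Finset.range ((P i).natDegree + 1), σ ((P i).coeff j) *
        (y i ^ j * y l ^ ((P i).natDegree - j)) := by
    intro y i
    simp only [Hf, MvPolynomial.eval₂_sum, MvPolynomial.eval₂_mul, MvPolynomial.eval₂_C,
      MvPolynomial.eval₂_pow, MvPolynomial.eval₂_X]
  have hy0 : ∀ y : Fin (n + 1) → ℂ, (∀ F ∈ FF, MvPolynomial.eval₂ σ y F = 0) →
      ∀ i, MvPolynomial.eval₂ σ y (Hf i) = 0 := by
    intro y hy i
    have h1 : Ideal.span FF ≤ RingHom.ker (MvPolynomial.eval₂Hom σ y) := by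
      rw [Ideal.span_le]
      intro F hF
      exact hy F hF
    exact h1 (hHf i)
  have key : ∀ y : Fin (n + 1) → ℂ, y ≠ 0 → (∀ F ∈ FF, MvPolynomial.eval₂ σ y F = 0) →
      y l ≠ 0 ∧ ∀ i, y i / y l ∈ Rt i := by
    intro y hyne hy
    have hyl : y l ≠ 0 := by
      intro h0
      apply hyne
      funext i
      have h1 := hy0 y hy i
      rw [hev, Finset.sum_range_succ, Finset.sum_eq_zero, zero_add, Nat.sub_self, pow_zero,
        mul_one, (hPm i).coeff_natDegree, map_one, one_mul] at h1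
      · exact (pow_eq_zero_iff (hPd i).ne').1 h1
      · intro j hj
        have hj' := Finset.mem_range.1 hj
        rw [h0, zero_pow (by omega), mul_zero, mul_zero]
    refine ⟨hyl, fun i => ?_⟩
    have h1 := hy0 y hy i
    rw [hev] at h1
    simp only [Rt, Multiset.mem_toFinset]
    rw [mem_roots ((hPm i).map σ).ne_zero, IsRoot.def, eval_map, eval₂_eq_sum_range]
    have h2 : y l ^ (P i).natDegree * ∑ j ∈ Finset.range ((P i).natDegree + 1),
        σ ((P i).coeff j) * (y i / y l) ^ j = 0 := by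
      rw [← h1, Finset.mul_sum]
      refine Finset.sum_congr rfl fun j hj => ?_
      have hj' : j ≤ (P i).natDegree := Nat.lt_succ_iff.1 (Finset.mem_range.1 hj)
      have h3 : y l ^ (P i).natDegree = y l ^ ((P i).natDegree - j) * y l ^ j := by
        rw [← pow_add, Nat.sub_add_cancel hj']
      rw [h3, div_pow]
      field_simp
    exact (mul_eq_zero.1 h2).resolve_left (pow_ne_zero _ hyl)
  refine Set.Finite.of_finite_image (f := fun Q : Projectivization ℂ (Fin (n + 1) → ℂ) =>
    fun i => Q.rep i / Q.rep l) (((Fintype.piFinset Rt).finite_toSet).subset ?_) ?_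
  · rintro _ ⟨Q, hQ, rfl⟩
    rw [Finset.mem_coe, Fintype.mem_piFinset]
    exact (key Q.rep Q.rep_nonzero hQ).2
  · intro Q hQ Q' hQ' hQQ
    have h1 := (key Q.rep Q.rep_nonzero hQ).1
    have h2 := (key Q'.rep Q'.rep_nonzero hQ').1
    rw [← Q.mk_rep, ← Q'.mk_rep, Projectivization.mk_eq_mk_iff']
    refine ⟨Q.rep l / Q'.rep l, ?_⟩
    funext i
    have h3 := congrFun hQQ i
    simp only at h3
    rw [Pi.smul_apply, smul_eq_mul]
    field_simp at h3 ⊢
    linear_combination -h3

/-- P-recursive sequences on a variety that is not uniruled -/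
theorem weak_seq {k : Type} [Field k] [NumberField k] {n : ℕ} (σ : k →+* ℂ)
    (FF : Set (MvPolynomial (Fin (n + 1)) k)) (hhom : ∀ F ∈ FF, ∃ e, F.IsHomogeneous e)
    (hprime : (Ideal.span FF).IsPrime) (hnu : ¬ Uniruled (Ideal.span FF))
    (hinf : {P : Projectivization ℂ (Fin (n + 1) → ℂ) |
      ∀ F ∈ FF, MvPolynomial.eval₂ σ P.rep F = 0}.Infinite)
    (K : Type) [Field K] [NumberField K] [Algebra k K]
    {G : MvPolynomial (Fin (n + 1)) k} (hG : ∃ e, G.IsHomogeneous e) (hGI : G ∉ Ideal.span FF)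
    (x : ℕ → Fin (n + 1) → K)
    (hx : ∃ T : ℕ, 1 ≤ T ∧ ∀ a : ℕ, Alt ((MvPolynomial.map (algebraMap k K)) '' FF)
      (MvPolynomial.map (algebraMap k K) G) x {m | m % T = a % T}) :
    ∃ H : MvPolynomial (Fin (n + 1)) k, (∃ e, H.IsHomogeneous e) ∧ H ∉ Ideal.span FF ∧
      ¬ PosDens {m : ℕ | x m ≠ 0 ∧ (∀ F ∈ FF, MvPolynomial.aeval (x m) F = 0) ∧
        MvPolynomial.aeval (x m) H ≠ 0} := by
  classical
  obtain ⟨T, hT, hA⟩ := hx
  have hev : ∀ (y : Fin (n + 1) → K) (F : MvPolynomial (Fin (n + 1)) k),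
      MvPolynomial.eval y (MvPolynomial.map (algebraMap k K) F) = MvPolynomial.aeval y F := by
    intro y F
    rw [MvPolynomial.eval_map, MvPolynomial.aeval_def]
  have hone : (1 : MvPolynomial (Fin (n + 1)) k) ∉ Ideal.span FF :=
    fun h1 => hprime.ne_top ((Ideal.eq_top_iff_one _).2 h1)
  have hcl : ∀ a : ℕ, ∃ H : MvPolynomial (Fin (n + 1)) k, (∃ e, H.IsHomogeneous e) ∧
      H ∉ Ideal.span FF ∧ ¬ PosDens {m : ℕ | m % T = a % T ∧ x m ≠ 0 ∧
        (∀ F ∈ FF, MvPolynomial.aeval (x m) F = 0) ∧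
        MvPolynomial.aeval (x m) (G * H) ≠ 0} := by
    intro a
    rcases hA a with ⟨ρ, hρ, N, hN⟩ | h1
    · by_cases hρ0 : ρ = 0
      · refine ⟨1, ⟨0, MvPolynomial.isHomogeneous_one _ _⟩, hone, not_posDens_bdd N ?_⟩
        rintro m ⟨hm1, hm2, -⟩
        by_contra hlt
        obtain ⟨s, hs⟩ := hN m (by omega) hm1
        apply hm2
        rw [hs, hρ0]
        funext j
        simp
      · obtain ⟨H, ⟨e, he⟩, hH2, hH3⟩ := weak_curve σ FF hhom hnu hinf K ρ hρ0 (fun F hF => by
          have h2 := hρ _ ⟨F, hF, rfl⟩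
          rw [MvPolynomial.aeval_def, MvPolynomial.eval₂_map] at h2
          rw [MvPolynomial.aeval_def]
          exact h2)
        refine ⟨H, ⟨e, he⟩, hH2, not_posDens_bdd N ?_⟩
        rintro m ⟨hm1, hm2, -, hm4⟩
        by_contra hlt
        obtain ⟨s, hs⟩ := hN m (by omega) hm1
        apply hm4
        rw [map_mul, ← hev (x m) H, hs, Runs_hom (he.map _), ← Runs_eval]
        have h3 : MvPolynomial.aeval ρ (MvPolynomial.map (algebraMap k K) H) = 0 := by
          rw [MvPolynomial.aeval_def, MvPolynomial.eval₂_map]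
          rw [MvPolynomial.aeval_def] at hH3
          exact hH3
        rw [h3, eval_zero, mul_zero, mul_zero]
    · refine ⟨1, ⟨0, MvPolynomial.isHomogeneous_one _ _⟩, hone, fun h2 => h1 (Dens_mono ?_ h2)⟩
      rintro m ⟨hm1, hm2, hm3, hm4⟩
      refine ⟨hm1, hm2, ?_, ?_⟩
      · rintro _ ⟨F, hF, rfl⟩
        rw [hev]
        exact hm3 F hF
      · rw [hev]
        rw [mul_one] at hm4
        exact hm4
  choose H h1 h2 h3 using hcl
  refine ⟨G * ∏ a ∈ Finset.range T, H a, ?_, ?_, ?_⟩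
  · obtain ⟨d, hd⟩ := hG
    choose e he using h1
    exact ⟨_, hd.mul (MvPolynomial.IsHomogeneous.prod _ _ e fun j _ => he j)⟩
  · intro h4
    rcases hprime.mem_or_mem h4 with h5 | h5
    · exact hGI h5
    · obtain ⟨j, -, hj⟩ := (hprime.prod_mem_iff).1 h5
      exact h2 j hj
  · intro h4
    refine Dens_biUnion (Finset.range T) (fun a => {m : ℕ | m % T = a % T ∧ x m ≠ 0 ∧
        (∀ F ∈ FF, MvPolynomial.aeval (x m) F = 0) ∧
        MvPolynomial.aeval (x m) (G * H a) ≠ 0}) (fun a _ => h3 a) (Dens_mono ?_ h4)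
    rintro m ⟨hm1, hm2, hm3⟩
    have hmT : m % T < T := Nat.mod_lt _ (by omega)
    simp only [Set.mem_iUnion, Finset.mem_range]
    refine ⟨m % T, hmT, (Nat.mod_mod m T).symm, hm1, hm2, ?_⟩
    rw [map_mul] at hm3 ⊢
    rw [map_prod] at hm3
    refine mul_ne_zero (left_ne_zero_of_mul hm3) ?_
    exact Finset.prod_ne_zero_iff.1 (right_ne_zero_of_mul hm3) _ (Finset.mem_range.2 hmT)

end Pool.Agent.Run7.h983
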