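import Pool.Agent.N419.HU.Fin
import Pool.Agent.H458.Sp.UHyper

/-!
Rational curves on hyperelliptic curves; uniform bounds.
-/

set_option autoImplicit false

namespace Pool.Agent.Run7.h983

open Polynomial Pool.Agent.TH717.GO Pool.Agent.Y377.ST Pool.Agent.N419.HQ
  Pool.Agent.N419.HU

/-- the plane model `Y ^ 2 Z ^ (D - 2) = F(X, Z)`, where `D` is the degree of `f` -/
noncomputable def hyp {K : Type} [Field K] (f : K[X]) : MvPolynomial (Fin 3) K :=
  MvPolynomial.X 1 ^ 2 * MvPolynomial.X 2 ^ (f.natDegree - 2) -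
    ∑ k ∈ Finset.range (f.natDegree + 1),
      MvPolynomial.C (f.coeff k) * MvPolynomial.X 0 ^ k * MvPolynomial.X 2 ^ (f.natDegree - k)

theorem hyp_hom {K : Type} [Field K] (f : K[X]) (h2 : 2 ≤ f.natDegree) :
    (hyp f).IsHomogeneous f.natDegree := by
  unfold hyp
  refine MvPolynomial.IsHomogeneous.sub ?_ ?_
  · have h1 := (MvPolynomial.isHomogeneous_X_pow (R := K) (1 : Fin 3) 2).mul
      (MvPolynomial.isHomogeneous_X_pow (R := K) (2 : Fin 3) (f.natDegree - 2))
    rwa [show 2 + (f.natDegree - 2) = f.natDegree by omega] at h1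
  · refine MvPolynomial.IsHomogeneous.sum _ _ _ fun k hk => ?_
    have h1 := ((MvPolynomial.isHomogeneous_C (Fin 3) (f.coeff k)).mul
      (MvPolynomial.isHomogeneous_X_pow (R := K) (0 : Fin 3) k)).mul
      (MvPolynomial.isHomogeneous_X_pow (R := K) (2 : Fin 3) (f.natDegree - k))
    have hk' : k ≤ f.natDegree := Nat.lt_succ_iff.1 (Finset.mem_range.1 hk)
    rwa [show 0 + k + (f.natDegree - k) = f.natDegree by omega] at h1

theorem hyp_eval {K : Type} [Field K] (f : K[X]) (v : Fin 3 → K) (hv : v 2 ≠ 0)
    (h2 : 2 ≤ f.natDegree) :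
    MvPolynomial.eval v (hyp f) = v 2 ^ f.natDegree *
      ((v 1 / v 2) ^ 2 - f.eval (v 0 / v 2)) := by
  unfold hyp
  simp only [map_sub, map_mul, map_pow, MvPolynomial.eval_X, map_sum, MvPolynomial.eval_C]
  rw [mul_sub, eval_eq_sum_range, Finset.mul_sum]
  congr 1
  · have h1 : v 2 ^ f.natDegree = v 2 ^ (f.natDegree - 2) * v 2 ^ 2 := by
      rw [← pow_add, Nat.sub_add_cancel h2]
    rw [h1]
    field_simp
  · refine Finset.sum_congr rfl fun k hk => ?_
    have hk' : k ≤ f.natDegree := Nat.lt_succ_iff.1 (Finset.mem_range.1 hk)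
    have h1 : v 2 ^ f.natDegree = v 2 ^ (f.natDegree - k) * v 2 ^ k := by
      rw [← pow_add, Nat.sub_add_cancel hk']
    rw [h1, div_pow]
    field_simp

/-- there are no nonconstant rational curves on the plane model -/
theorem hyp_cur {K : Type} [Field K] [CharZero K] (σ : K →+* ℂ) (f : K[X]) (hf : Squarefree f)
    (h5 : 5 ≤ f.natDegree) : CurIn σ ({hyp f} : Set (MvPolynomial (Fin (2 + 1)) K)) {1} := by
  classical
  intro q hq _ i j a b
  have h0 := hq (hyp f) rfl
  set D := f.natDegree with hD
  set fC := f.map σ with hfC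
  have hdeg : fC.natDegree = D := natDegree_map _
  have hsep : fC.Separable := (PerfectField.separable_iff_squarefree.2 hf).map
  have hid : q 1 ^ 2 * q 2 ^ (D - 2) = ∑ k ∈ Finset.range (D + 1),
      C (fC.coeff k) * q 0 ^ k * q 2 ^ (D - k) := by
    have h1 : MvPolynomial.eval₂ (C.comp σ) q (hyp f) =
        q 1 ^ 2 * q 2 ^ (D - 2) - ∑ k ∈ Finset.range (D + 1),
          C (fC.coeff k) * q 0 ^ k * q 2 ^ (D - k) := by
      unfold hyp
      simp only [MvPolynomial.eval₂_sub, MvPolynomial.eval₂_mul, MvPolynomial.eval₂_pow,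
        MvPolynomial.eval₂_X, MvPolynomial.eval₂_sum, MvPolynomial.eval₂_C, hfC, coeff_map,
        RingHom.comp_apply]
      rfl
    rw [h1] at h0
    exact sub_eq_zero.1 h0
  -- all coordinates are multiples of one polynomial
  have hall : ∃ (g : ℂ[X]) (c : Fin (2 + 1) → ℂ), ∀ l, q l = C (c l) * g := by
    by_cases h2 : q 2 = 0
    · have h3 : q 0 = 0 := by
        rw [h2, zero_pow (by omega), mul_zero, Finset.sum_range_succ, Finset.sum_eq_zero,
          zero_add, Nat.sub_self, pow_zero, mul_one] at hid
        · have h4 : fC.coeff D ≠ 0 := by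
            rw [← hdeg]
            exact leadingCoeff_ne_zero.2 (by
              intro h
              rw [h, natDegree_zero] at hdeg
              omega)
          have h5' := (mul_eq_zero.1 hid.symm).resolve_left (C_ne_zero.2 h4)
          exact (pow_eq_zero_iff (by omega)).1 h5'
        · intro k hk
          have := Finset.mem_range.1 hk
          rw [zero_pow (by omega), mul_zero]
      refine ⟨q 1, ![0, 1, 0], fun l => ?_⟩
      fin_cases l
      · simpa using h3
      · simp
      · simpa using h2
    · obtain ⟨g, u, w, hU, hW⟩ := Pool.Agent.H458.Sp.hyper_const fC hsep D (by omega) (by omega)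
        (q 0) (q 2) (q 1) (q 2) h2 h2 (by
          rw [← hid, mul_left_comm, ← pow_add, show 2 + (D - 2) = D by omega])
      have hg : g ≠ 0 := by
        rintro rfl
        exact h2 (by rw [hW, mul_zero])
      have hw : w ≠ 0 := by
        rintro rfl
        exact h2 (by rw [hW, C_0, zero_mul])
      set c : ℂ := ∑ k ∈ Finset.range (D + 1), fC.coeff k * u ^ k * w ^ (D - k) with hc
      have h3 : q 1 ^ 2 * C (w ^ (D - 2)) = C c * g ^ 2 := by
        have h4 : g ^ (D - 2) * (q 1 ^ 2 * C (w ^ (D - 2))) = g ^ (D - 2) * (C c * g ^ 2) := by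
          calc g ^ (D - 2) * (q 1 ^ 2 * C (w ^ (D - 2))) = q 1 ^ 2 * q 2 ^ (D - 2) := by
                rw [hW, mul_pow, C_pow]
                ring
            _ = ∑ k ∈ Finset.range (D + 1), C (fC.coeff k * u ^ k * w ^ (D - k)) * g ^ D := by
                rw [hid]
                refine Finset.sum_congr rfl fun k hk => ?_
                have hk' : k ≤ D := Nat.lt_succ_iff.1 (Finset.mem_range.1 hk)
                have h6 : g ^ D = g ^ k * g ^ (D - k) := by
                  rw [← pow_add, Nat.add_sub_cancel' hk']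
                rw [hU, hW, mul_pow, mul_pow, h6, C_mul, C_mul, C_pow, C_pow]
                ring
            _ = C c * g ^ D := by
                rw [← Finset.sum_mul, hc, map_sum]
            _ = g ^ (D - 2) * (C c * g ^ 2) := by
                have h6 : g ^ D = g ^ (D - 2) * g ^ 2 := by
                  rw [← pow_add, Nat.sub_add_cancel (by omega)]
                rw [h6]
                ring
        exact mul_left_cancel₀ (pow_ne_zero _ hg) h4
      obtain ⟨s, hs⟩ := IsAlgClosed.exists_pow_nat_eq (c / w ^ (D - 2)) (n := 2) (by norm_num)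
      have h7 : q 1 ^ 2 = (C s * g) ^ 2 := by
        have hw2 : (C (w ^ (D - 2)) : ℂ[X]) ≠ 0 := C_ne_zero.2 (pow_ne_zero _ hw)
        apply mul_right_cancel₀ hw2
        rw [h3, mul_pow, ← C_pow, hs]
        have h8 : (C c : ℂ[X]) = C (c / w ^ (D - 2)) * C (w ^ (D - 2)) := by
          rw [← C_mul, div_mul_cancel₀ _ (pow_ne_zero _ hw)]
        rw [h8]
        ring
      rcases sq_eq_sq_iff_eq_or_eq_neg.1 h7 with h9 | h9
      · refine ⟨g, ![u, s, w], fun l => ?_⟩
        fin_cases l
        · simpa using hU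
        · simpa using h9
        · simpa using hW
      · refine ⟨g, ![u, -s, w], fun l => ?_⟩
        fin_cases l
        · simpa using hU
        · simpa using h9
        · simpa using hW
  obtain ⟨g, c, hc⟩ := hall
  rw [hc i, hc j]
  simp only [eval_mul, eval_C]
  ring

end Pool.Agent.Run7.h983
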