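import Mathlib
import Pool.Agent.TH783.QT.Hp
import Pool.Agent.H391R2.HitSpec

/-!
Hilbert irreducibility, root form with an integer parameter, for all finitely generated fields of
characteristic zero. The step for finite extensions follows the case of the number fields
(`Pool.Agent.TH716.RK.HpNf`).
-/

set_option autoImplicit false

namespace Pool.Agent.Run7.h983

open Polynomial Pool.Agent.H391R2

/-- transitivity of integrality -/
lemma int_trans {R A B : Type} [CommRing R] [CommRing A] [CommRing B] (i : R →+* A) (j : A →+* B)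
    (hi : ∀ a, i.IsIntegralElem a) {y : B} (hy : j.IsIntegralElem y) :
    (j.comp i).IsIntegralElem y := by
  let _ := i.toAlgebra
  let _ := j.toAlgebra
  let _ := (j.comp i).toAlgebra
  have : IsScalarTower R A B := IsScalarTower.of_algebraMap_eq fun _ => rfl
  have : Algebra.IsIntegral R A := ⟨fun a => hi a⟩
  exact isIntegral_trans (R := R) (A := A) (B := B) y hy

/-- polynomials over an algebraic extension are integral over the polynomials -/
lemma map_integral {E K : Type} [Field E] [Field K] [Algebra E K] [Algebra.IsIntegral E K] (q : K[X]) :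
    (mapRingHom (algebraMap E K)).IsIntegralElem q := by
  have hX : (mapRingHom (algebraMap E K)).IsIntegralElem (X : K[X]) := by
    refine ⟨X - C X, monic_X_sub_C _, ?_⟩
    simp
  have hC : ∀ a : K, (mapRingHom (algebraMap E K)).IsIntegralElem (C a : K[X]) := by
    intro a
    refine ⟨(minpoly E a).map C, (minpoly.monic (Algebra.IsIntegral.isIntegral a)).map _, ?_⟩
    rw [eval₂_map]
    have h1 : (mapRingHom (algebraMap E K)).comp C = (C : K →+* K[X]).comp (algebraMap E K) := by
      ext x
      simp
    rw [h1, ← hom_eval₂]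
    have h2 : eval₂ (algebraMap E K) a (minpoly E a) = 0 := minpoly.aeval E a
    rw [h2, map_zero]
  induction q using Polynomial.induction_on' with
  | add p q hp hq => exact hp.add _ hq
  | monomial n a =>
    rw [← C_mul_X_pow_eq_monomial]
    refine (hC a).mul _ ?_
    induction n with
    | zero =>
      rw [pow_zero]
      have := hC 1
      rwa [C_1] at this
    | succ n ih =>
      rw [pow_succ]
      exact ih.mul _ hX

section

variable {E K : Type} [Field E] [CharZero E] [Field K] [Algebra E K] [FiniteDimensional E K]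

/-- evaluation of functions -/
lemma ev_eval₂ {R P : Type} [CommRing R] (φ : R →+* (P → AlgebraicClosure K)) (y : P → AlgebraicClosure K) (G : R[X]) (p : P) :
    eval₂ φ y G p = eval₂ ((Pi.evalRingHom (fun _ : P => AlgebraicClosure K) p).comp φ) (y p) G :=
  hom_eval₂ G φ (Pi.evalRingHom (fun _ : P => AlgebraicClosure K) p) y

/-- the trace coordinates of roots are integral -/
theorem exists_coord (f : K[X][X]) (hf : f.Monic) (c : K) : ∃ G : E[X][X], G.Monic ∧
    ∀ (t : ℤ) (x : K), f.evalEval (t : K) x = 0 →
      G.evalEval (t : E) (Algebra.trace E K (c * x)) = 0 := by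
  classical
  let P : Type := {p : ℤ × K // f.evalEval (p.1 : K) p.2 = 0}
  let φ : E[X] →+* (P → AlgebraicClosure K) := RingHom.pi fun p : P => (algebraMap E (AlgebraicClosure K)).comp
    (evalRingHom ((p.1.1 : ℤ) : E))
  have hφ : ∀ q p, φ q p = (algebraMap E (AlgebraicClosure K)) (q.eval ((p.1.1 : ℤ) : E)) := fun q p => rfl
  have hY : ∀ σ : K →ₐ[E] AlgebraicClosure K, φ.IsIntegralElem (fun p : P => σ p.1.2) := by
    intro σ
    let ψ : K[X] →+* (P → AlgebraicClosure K) := RingHom.pi fun p : P => (σ : K →+* AlgebraicClosure K).comp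
      (evalRingHom ((p.1.1 : ℤ) : K))
    have h1 : φ = ψ.comp (mapRingHom (algebraMap E K)) := by
      apply RingHom.ext
      intro q
      funext p
      change (algebraMap E (AlgebraicClosure K)) (q.eval ((p.1.1 : ℤ) : E)) =
        σ ((q.map (algebraMap E K)).eval ((p.1.1 : ℤ) : K))
      have h0 : ((p.1.1 : ℤ) : K) = algebraMap E K ((p.1.1 : ℤ) : E) := by simp
      rw [h0, eval_map, eval₂_at_apply, AlgHom.commutes]
    rw [h1]
    refine int_trans _ _ map_integral ⟨f, hf, ?_⟩
    funext p
    rw [ev_eval₂]
    have h3 : (Pi.evalRingHom (fun _ : P => AlgebraicClosure K) p).comp ψ = (σ : K →+* AlgebraicClosure K).comp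
      (evalRingHom ((p.1.1 : ℤ) : K)) := rfl
    rw [h3]
    have h4 : eval₂ ((σ : K →+* AlgebraicClosure K).comp (evalRingHom ((p.1.1 : ℤ) : K))) (σ p.1.2) f =
        σ (f.evalEval (p.1.1 : K) p.1.2) := by
      rw [← eval₂_evalRingHom]
      exact (hom_eval₂ f (evalRingHom ((p.1.1 : ℤ) : K)) (σ : K →+* AlgebraicClosure K) p.1.2).symm
    rw [h4, p.2, map_zero]
    rfl
  have hc : ∀ σ : K →ₐ[E] AlgebraicClosure K, φ.IsIntegralElem (fun _ : P => σ c) := by
    intro σ
    refine ⟨(minpoly E c).map C, (minpoly.monic (Algebra.IsIntegral.isIntegral c)).map _, ?_⟩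
    rw [eval₂_map]
    funext p
    rw [ev_eval₂]
    have h3 : (Pi.evalRingHom (fun _ : P => AlgebraicClosure K) p).comp (φ.comp C) = algebraMap E (AlgebraicClosure K) := by
      ext a
      change (algebraMap E (AlgebraicClosure K)) ((C a : E[X]).eval ((p.1.1 : ℤ) : E)) = _
      rw [eval_C]
    rw [h3]
    change aeval (σ c) (minpoly E c) = 0
    rw [aeval_algHom_apply, minpoly.aeval, map_zero]
  have hs : φ.IsIntegralElem (fun p : P => ∑ σ : K →ₐ[E] AlgebraicClosure K, σ c * σ p.1.2) := by
    let _ := φ.toAlgebra
    have : (fun p : P => ∑ σ : K →ₐ[E] AlgebraicClosure K, σ c * σ p.1.2) =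
        ∑ σ : K →ₐ[E] AlgebraicClosure K, (fun _ : P => σ c) * (fun p : P => σ p.1.2) := by
      funext p
      simp
    rw [this]
    exact IsIntegral.sum _ fun σ _ => (hc σ).mul _ (hY σ)
  obtain ⟨G, hG, hG0⟩ := hs
  refine ⟨G, hG, fun t x hx => ?_⟩
  have h5 := congrFun hG0 (⟨(t, x), hx⟩ : P)
  rw [ev_eval₂] at h5
  have h7 : (Pi.evalRingHom (fun _ : P => AlgebraicClosure K) ⟨(t, x), hx⟩).comp φ =
      (algebraMap E (AlgebraicClosure K)).comp (evalRingHom (t : E)) := rfl
  have h8 : ∑ σ : K →ₐ[E] AlgebraicClosure K, σ c * σ x = algebraMap E (AlgebraicClosure K) (Algebra.trace E K (c * x)) := by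
    rw [trace_eq_sum_embeddings (AlgebraicClosure K)]
    exact Finset.sum_congr rfl fun σ _ => (map_mul σ c x).symm
  rw [h7, h8, ← hom_eval₂] at h5
  have h9 := (map_eq_zero (algebraMap E (AlgebraicClosure K))).1 h5
  rwa [eval₂_evalRingHom] at h9

/-- **Hilbert irreducibility** over a finite extension, root form, integer parameter -/
theorem hp_fin (hE : HP E) : HP K := by
  classical
  have : CharZero K := charZero_of_injective_algebraMap (algebraMap E K).injective
  intro f hf hroot B
  by_contra hcon
  push Not at hcon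
  let b := Module.finBasis E K
  let n := Module.finrank E K
  have hnd := traceForm_nondegenerate E K
  let d := LinearMap.BilinForm.dualBasis (Algebra.traceForm E K) hnd b
  have hd : ∀ x : K, ∑ i, algebraMap E K (Algebra.trace E K (d i * x)) * b i = x := by
    intro x
    have h1 : ∀ i, Algebra.trace E K (d i * x) = b.repr x i := by
      intro i
      have h2 : Algebra.trace E K (d i * x) = Algebra.traceForm E K (d i) x := rfl
      rw [h2]
      conv_lhs => rw [← b.sum_repr x]
      rw [map_sum]
      simp only [map_smul, smul_eq_mul]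
      rw [Finset.sum_eq_single i]
      · rw [LinearMap.BilinForm.apply_dualBasis_left, if_pos rfl, mul_one]
      · intro j _ hj
        rw [LinearMap.BilinForm.apply_dualBasis_left, if_neg hj, mul_zero]
      · intro h
        exact (h (Finset.mem_univ _)).elim
    simp only [h1]
    conv_rhs => rw [← b.sum_repr x]
    refine Finset.sum_congr rfl fun i _ => ?_
    rw [Algebra.smul_def]
  choose G hGm hG using fun i => exists_coord (E := E) f hf (d i)
  choose H hH1 hH2 hH3 using fun i => exists_prod_multiset_X_sub_C_mul (G i)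
  -- the product of the parts without roots
  have hHm : ∀ i, (H i).Monic := by
    intro i
    have h1 : (Multiset.map (fun a => X - C a) (G i).roots).prod.Monic :=
      monic_multiset_prod_of_monic _ _ fun a _ => monic_X_sub_C a
    exact h1.of_mul_monic_left (by rw [hH1 i]; exact hGm i)
  have hm : (∏ i, H i).Monic := monic_prod_of_monic _ _ fun i _ => hHm i
  have hr : ∀ g : E[X], (∏ i, H i).eval g ≠ 0 := by
    intro g
    rw [eval_prod]
    refine Finset.prod_ne_zero_iff.2 fun i _ h => ?_
    have : g ∈ (H i).roots := (mem_roots (hHm i).ne_zero).2 h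
    rw [hH3 i] at this
    simp at this
  -- the candidates
  let cand : (∀ i : Fin n, {g // g ∈ (G i).roots.toFinset}) → K[X] := fun j =>
    ∑ i, (j i).1.map (algebraMap E K) * C (b i)
  have hfin : {t : ℤ | ∃ j, (f.eval (cand j)).eval (t : K) = 0}.Finite := by
    rw [Set.ofPred_exists]
    refine Set.finite_iUnion fun j => ?_
    have h1 : {a : K | (f.eval (cand j)).IsRoot a}.Finite := by
      have := (f.eval (cand j)).roots.toFinset.finite_toSet
      refine this.subset fun a ha => ?_
      rw [Finset.mem_coe, Multiset.mem_toFinset]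
      exact (mem_roots (hroot _)).2 ha
    refine (h1.preimage (f := fun t : ℤ => (t : K)) (Set.injOn_of_injective
      Int.cast_injective)).subset fun t ht => ?_
    exact ht
  obtain ⟨B', hB'⟩ := hfin.bddAbove
  obtain ⟨t, ht, ht'⟩ := hE (∏ i, H i) hm hr (max B B')
  obtain ⟨x, hx⟩ := hcon t (lt_of_le_of_lt (le_max_left _ _) ht)
  have hex : ∀ i : Fin n, ∃ g : {g // g ∈ (G i).roots.toFinset},
      Algebra.trace E K (d i * x) = g.1.eval (t : E) := by
    intro i
    have h1 := hG i t x hx
    rw [← hH1 i, evalEval_mul] at h1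
    have h2 : (H i).evalEval (t : E) (Algebra.trace E K (d i * x)) ≠ 0 := by
      intro h0
      apply ht' (Algebra.trace E K (d i * x))
      rw [evalEval_prod]
      exact Finset.prod_eq_zero (Finset.mem_univ i) h0
    have h3 := (mul_eq_zero.1 h1).resolve_right h2
    rw [← coe_evalEvalRingHom, map_multiset_prod, Multiset.map_map] at h3
    rw [Multiset.prod_eq_zero_iff, Multiset.mem_map] at h3
    obtain ⟨g, hg, hg'⟩ := h3
    refine ⟨⟨g, Multiset.mem_toFinset.2 hg⟩, ?_⟩
    simp only [Function.comp_apply, coe_evalEvalRingHom] at hg'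
    have h4 : evalEval (t : E) (Algebra.trace E K (d i * x)) (X - C g) =
        Algebra.trace E K (d i * x) - g.eval (t : E) := by
      simp [evalEval]
    rw [h4] at hg'
    exact sub_eq_zero.1 hg'
  choose j hj using hex
  have hxe : x = (cand j).eval (t : K) := by
    conv_lhs => rw [← hd x]
    simp only [cand, eval_finsetSum, eval_mul, eval_C]
    refine Finset.sum_congr rfl fun i _ => ?_
    rw [hj i]
    congr 1
    have : (t : K) = algebraMap E K (t : E) := by simp
    rw [this, eval_map, eval₂_at_apply]
  have hmem : t ∈ {t : ℤ | ∃ j, (f.eval (cand j)).eval (t : K) = 0} := by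
    refine ⟨j, ?_⟩
    rw [hxe] at hx
    rw [← hx, evalEval]
    have : f.eval (cand j) = f.eval₂ (RingHom.id _) (cand j) := rfl
    rw [← coe_evalRingHom (R := K)]
    rw [← eval₂_at_apply, ← eval₂_at_apply]
    simp
  have := hB' hmem
  have h10 := lt_of_le_of_lt (le_max_right B B') ht
  omega

end

theorem ringEquiv_of {R A B : Type} [CommSemiring R] [Semiring A] [Semiring B] {i1 : Algebra R A}
    {i2 : Algebra R B} (e : A ≃ₐ[R] B) : Nonempty (A ≃+* B) := ⟨e.toRingEquiv⟩

/-- **Hilbert irreducibility** over finitely generated fields of characteristic zero, root form,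
integer parameter -/
theorem hp_fg (K : Type) [Field K] [CharZero K] (s : Finset K)
    (hs : IntermediateField.adjoin ℚ (s : Set K) = ⊤) : HP K := by
  classical
  have halg : Algebra.IsAlgebraic (Algebra.adjoin ℚ (s : Set K)) K := by
    refine ⟨fun x => ?_⟩
    have hx : x ∈ IntermediateField.adjoin ℚ (s : Set K) := by rw [hs]; trivial
    obtain ⟨a, ha, b, hb, hab⟩ := IntermediateField.mem_adjoin_iff_div.1 hx
    by_cases hb0 : b = 0
    · rw [hab, hb0, div_zero]
      exact isAlgebraic_zero
    refine ⟨Polynomial.C (⟨b, hb⟩ : Algebra.adjoin ℚ (s : Set K)) * Polynomial.X -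
      Polynomial.C (⟨a, ha⟩ : Algebra.adjoin ℚ (s : Set K)), ?_, ?_⟩
    · intro h
      have h1 := congrArg (fun p => Polynomial.coeff p 1) h
      simp only [coeff_sub, coeff_C_mul, coeff_X_one, mul_one, coeff_C_succ, sub_zero,
        coeff_zero] at h1
      exact hb0 (congrArg Subtype.val h1)
    · have h4 : b * x - a = 0 := by
        rw [hab]
        field_simp
        ring
      rw [map_sub, map_mul, aeval_C, aeval_X, aeval_C]
      exact h4
  obtain ⟨u, -, hu, hut⟩ := exists_isTranscendenceBasis_between (R := ℚ) (A := K) ∅ (s : Set K)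
    (Set.empty_subset _) (by
      exact (algebraicIndependent_empty : AlgebraicIndependent ℚ ((↑) : (∅ : Set K) → K)))
  have hfin : Finite u := (s.finite_toSet.subset hu).to_subtype
  set F := IntermediateField.adjoin ℚ (Set.range ((↑) : u → K)) with hF
  have e := hut.1.aevalEquivField
  have hpF : HP F := by
    cases nonempty_fintype u
    let e1 : MvPolynomial (Fin (Fintype.card u)) ℚ ≃+* MvPolynomial u ℚ :=
      (MvPolynomial.renameEquiv ℚ (Fintype.equivFin u).symm).toRingEquiv
    have h2 : HP (MvPolynomial u ℚ) := (hp_sp_fin _).1.of_equiv e1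
    have h3 : HP (FractionRing (MvPolynomial u ℚ)) :=
      Pool.Agent.TH783.QT.hp_frac (MvPolynomial u ℚ) (FractionRing (MvPolynomial u ℚ)) h2
    obtain ⟨e2⟩ := ringEquiv_of e
    exact h3.of_equiv e2
  have hFd : FiniteDimensional F K := by
    have h5 : Algebra.IsAlgebraic F K := by
      have := hut.isAlgebraic_field
      exact this
    have h6 : IntermediateField.adjoin F (s : Set K) = ⊤ := by
      rw [eq_top_iff]
      intro x _
      have hx : x ∈ IntermediateField.adjoin ℚ (s : Set K) := by rw [hs]; trivial
      have h7 : IntermediateField.adjoin ℚ (s : Set K) ≤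
          (IntermediateField.adjoin F (s : Set K)).restrictScalars ℚ := by
        rw [IntermediateField.adjoin_le_iff]
        intro y hy
        exact IntermediateField.subset_adjoin F _ hy
      exact h7 hx
    have h8 : FiniteDimensional F (IntermediateField.adjoin F (s : Set K)) :=
      IntermediateField.finiteDimensional_adjoin fun x _ => (h5.isAlgebraic x).isIntegral
    rw [h6] at h8
    exact Module.Finite.of_surjective (IntermediateField.topEquiv (F := F) (E := K)).toLinearMap
      (IntermediateField.topEquiv (F := F) (E := K)).surjective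
  exact hp_fin (E := F) (K := K) hpF

end Pool.Agent.Run7.h983
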