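import Pool.Agent.Run7.h983.V1
import Pool.Agent.N419.HU.Fin

/-!
Sequences of points of a family of varieties with the parameter `m`, over a field with the Hilbert
property: long runs of points on curves. The proofs follow `Pool.Agent.N419.HQ.Hit` and
`Pool.Agent.N419.HQ.Runs` (number fields, one variety).
-/

set_option autoImplicit false

namespace Pool.Agent.Run7.h983

open Polynomial Matrix Pool.Agent.N419.HQ Pool.Agent.H391R2

theorem runsX_hom {K : Type} [Field K] {n e : ℕ} {F : MvPolynomial (Fin (n + 1)) K[X]}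
    (hF : F.IsHomogeneous e) (a c : K) (u : Fin (n + 1) → K) :
    MvPolynomial.eval₂ (evalRingHom a) (fun j => c * u j) F =
      c ^ e * MvPolynomial.eval₂ (evalRingHom a) u F := by
  have h := Runs_hom (hF.map (evalRingHom a)) c u
  rwa [MvPolynomial.eval_map, MvPolynomial.eval_map] at h

theorem runsX_eval {K : Type} [Field K] {n : ℕ} (F : MvPolynomial (Fin (n + 1)) K[X])
    (ρ : Fin (n + 1) → K[X]) (a : K) :
    (MvPolynomial.eval ρ F).eval a =
      MvPolynomial.eval₂ (evalRingHom a) (fun j => (ρ j).eval a) F := by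
  have h : (evalRingHom a) (MvPolynomial.eval₂ (RingHom.id K[X]) ρ F) =
      MvPolynomial.eval₂ ((evalRingHom a).comp (RingHom.id K[X]))
        ((evalRingHom a) ∘ ρ) F := MvPolynomial.eval₂_comp_left _ _ _ _
  rw [RingHom.comp_id] at h
  exact h

/-- quotients of polynomials on long runs of consecutive integers -/
theorem hit_gen (K : Type) [Field K] [CharZero K] (hK : HP K) (ι : Type) [Finite ι]
    (P : ι → K[X][X]) (hP : ∀ i, P i ≠ 0) :
    ∃ L : Finset (K[X] × K[X]), ∀ k B : ℕ, ∃ t ≥ B, ∀ m : ℕ, t ≤ m → m < t + k →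
      ∀ i (y : K), ((P i).map (evalRingHom (m : K))).eval y = 0 →
        ∃ c ∈ L, c.2.eval (m : K) ≠ 0 ∧ c.2.eval (m : K) * y = c.1.eval (m : K) := by
  classical
  cases nonempty_fintype ι
  set Q : K[X][X] := X * ∏ i, P i with hQ
  have hp0 : ∏ i, P i ≠ 0 := Finset.prod_ne_zero_iff.mpr fun i _ => hP i
  have hQ0 : Q ≠ 0 := mul_ne_zero X_ne_zero hp0
  have hdeg : 1 ≤ Q.natDegree := by
    rw [hQ, natDegree_mul X_ne_zero hp0, natDegree_X]
    omega
  set R : K[X][X] := Q.integralNormalization with hR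
  have hRm : R.Monic := monic_integralNormalization hQ0
  obtain ⟨q, hq1, hq2, hq3⟩ := exists_prod_multiset_X_sub_C_mul R
  have hqm : q.Monic := by
    have h1 : ((R.roots.map fun a => X - C a).prod).Monic :=
      monic_multiset_prod_of_monic _ _ fun a _ => monic_X_sub_C a
    exact h1.of_mul_monic_left (by rw [hq1]; exact hRm)
  have hqr : ∀ g : K[X], q.eval g ≠ 0 := by
    intro g hg
    have h1 : g ∈ q.roots := (mem_roots hqm.ne_zero).mpr hg
    rw [hq3] at h1
    simp at h1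
  set a : K[X] := Q.leadingCoeff with ha
  have ha0 : a ≠ 0 := leadingCoeff_ne_zero.mpr hQ0
  obtain ⟨N, hN⟩ : ∃ N : ℕ, ∀ m ≥ N, a.eval (m : K) ≠ 0 := by
    have hf : {m : ℕ | a.eval (m : K) = 0}.Finite := by
      have h1 : {x : K | a.eval x = 0}.Finite := by
        refine (a.roots.toFinset.finite_toSet).subset fun x hx => ?_
        simp only [Finset.mem_coe, Multiset.mem_toFinset]
        exact (mem_roots ha0).mpr hx
      exact h1.preimage (Nat.cast_injective.injOn)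
    obtain ⟨N, hN⟩ := hf.bddAbove
    refine ⟨N + 1, fun m hm h => ?_⟩
    have := hN (show m ∈ {m : ℕ | a.eval (m : K) = 0} from h)
    omega
  refine ⟨R.roots.toFinset.image fun r => (r, a), fun k B => ?_⟩
  let sh : ℕ → K[X][X] := fun j => q.map (compRingHom (X + C (j : K)))
  have h1 : (∏ j ∈ Finset.range k, sh j).Monic :=
    monic_prod_of_monic _ _ fun j _ => hqm.map _
  have h2 : ∀ g : K[X], (∏ j ∈ Finset.range k, sh j).eval g ≠ 0 := by
    intro g hg
    rw [eval_prod, Finset.prod_eq_zero_iff] at hg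
    obtain ⟨j, _, hg⟩ := hg
    refine hqr (g.comp (X - C (j : K))) ?_
    have h3 := congrArg (compRingHom (X - C (j : K))) hg
    rw [map_zero] at h3
    simp only [sh] at h3
    rw [eval_map, hom_eval₂] at h3
    have h4 : (compRingHom (X - C (j : K))).comp (compRingHom (X + C (j : K)))
        = RingHom.id K[X] := by
      apply Polynomial.ringHom_ext
      · intro a
        simp
      · simp
    rw [h4] at h3
    exact h3
  obtain ⟨t, ht, hx⟩ := hK _ h1 h2 ((max B N : ℕ) : ℤ)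
  have ht0 : 0 ≤ t := by
    have : (0:ℤ) ≤ ((max B N : ℕ) : ℤ) := Int.natCast_nonneg _
    omega
  obtain ⟨s, rfl⟩ := Int.eq_ofNat_of_zero_le ht0
  have hs : max B N < s := by exact_mod_cast ht
  have hsB : B ≤ s := ((le_max_left _ _).trans_lt hs).le
  have hsN : N ≤ s := ((le_max_right _ _).trans_lt hs).le
  refine ⟨s, hsB, fun m hm1 hm2 i y hy => ?_⟩
  have ham : a.eval (m : K) ≠ 0 := hN m (hsN.trans hm1)
  -- `y` is a root of `Q`
  have hy1 : Q.eval₂ (evalRingHom (m : K)) y = 0 := by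
    rw [eval_map] at hy
    rw [hQ, eval₂_mul, eval₂_finsetProd, Finset.prod_eq_zero (Finset.mem_univ i) hy, mul_zero]
  have hy2 : R.eval₂ (evalRingHom (m : K)) (a.eval (m : K) * y) = 0 := by
    have := integralNormalization_eval₂_leadingCoeff_mul hdeg (evalRingHom (m : K)) y
    rw [hy1, mul_zero] at this
    exact this
  rw [← hq1, eval₂_mul] at hy2
  rcases mul_eq_zero.mp hy2 with h | h
  · rw [eval₂_multiset_prod, Multiset.map_map, Multiset.prod_eq_zero_iff, Multiset.mem_map] at h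
    obtain ⟨r, hr, hr2⟩ := h
    refine ⟨(r, a), Finset.mem_image.mpr ⟨r, Multiset.mem_toFinset.mpr hr, rfl⟩, ham, ?_⟩
    simp only [Function.comp_apply, eval₂_sub, eval₂_X, eval₂_C, coe_evalRingHom] at hr2
    exact sub_eq_zero.mp hr2
  · exfalso
    have h3 := hx (a.eval (m : K) * y)
    rw [evalEval_prod, Finset.prod_ne_zero_iff] at h3
    refine h3 (m - s) (Finset.mem_range.mpr (by omega)) ?_
    simp only [sh]
    rw [hit_shift, ← hit_eval, eval_map]
    have h4 : (((s : ℕ) : ℤ) : K) + ((m - s : ℕ) : K) = (m : K) := by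
      rw [Int.cast_natCast, ← Nat.cast_add]
      congr 1
      omega
    rw [h4]
    exact h

/-- long runs of points on curves, in a family with the parameter `m` -/
theorem runs_gen (K : Type) [Field K] [CharZero K] (hK : HP K) (n : ℕ)
    (FF : Set (MvPolynomial (Fin (n + 1)) K[X])) (g : ℕ → Prop)
    (hFF : ∀ F ∈ FF, ∃ e, F.IsHomogeneous e) (x : ℕ → Fin (n + 1) → K)
    (hx : ∃ N : ℕ, ∀ m ≥ N, ∀ F ∈ FF,
      MvPolynomial.eval₂ (evalRingHom (m : K)) (x m) F = 0)
    (hP : ∀ p q, ∃ P : K[X][X], P ≠ 0 ∧ ∃ N : ℕ, ∀ m ≥ N, ¬ g m →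
      x m p ≠ 0 → (P.map (evalRingHom (m : K))).eval (x m q / x m p) = 0) :
    ∃ (s : ℕ) (ρ : Fin s → Fin (n + 1) → K[X]), (∀ l, ρ l ≠ 0) ∧
      (∀ l, ∀ F ∈ FF, MvPolynomial.eval (ρ l) F = 0) ∧
      ∀ k B : ℕ, ∃ t ≥ B, ∀ m : ℕ, t ≤ m → m < t + k →
        g m ∨ x m = 0 ∨ ∃ l, ∃ c : K, x m = fun j => c * (ρ l j).eval (m : K) := by
  classical
  obtain ⟨N₀, hN₀⟩ := hx
  choose P hP0 NP hNP using hP
  obtain ⟨L, hL⟩ := hit_gen K hK (Fin (n + 1) × Fin (n + 1)) (fun i => P i.1 i.2) (fun i => hP0 i.1 i.2)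
  -- the good curves
  let Good : (Fin (n + 1) → L) → Prop := fun φ =>
    Runs_rho φ ≠ 0 ∧ ∀ F ∈ FF, MvPolynomial.eval (Runs_rho φ) F = 0
  have hfin : Finite {φ : Fin (n + 1) → L // Good φ} := inferInstance
  obtain ⟨s, ⟨eqv⟩⟩ := Finite.exists_equiv_fin {φ : Fin (n + 1) → L // Good φ}
  -- the bad curves are left
  have hbad : ∃ N₁ : ℕ, ∀ m : ℕ, N₁ ≤ m → ∀ φ : Fin (n + 1) → L,
      (∃ F ∈ FF, MvPolynomial.eval (Runs_rho φ) F ≠ 0) →
        ∃ F ∈ FF, (MvPolynomial.eval (Runs_rho φ) F).eval (m : K) ≠ 0 := by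
    have h1 : ∀ φ : Fin (n + 1) → L, ∃ N₁ : ℕ, ∀ m : ℕ, N₁ ≤ m →
      (∃ F ∈ FF, MvPolynomial.eval (Runs_rho φ) F ≠ 0) →
        ∃ F ∈ FF, (MvPolynomial.eval (Runs_rho φ) F).eval (m : K) ≠ 0 := by
      intro φ
      by_cases hφ : ∃ F ∈ FF, MvPolynomial.eval (Runs_rho φ) F ≠ 0
      · obtain ⟨F, hF, hne⟩ := hφ
        obtain ⟨N₁, hN₁⟩ := Runs_large hne
        exact ⟨N₁, fun m hm _ => ⟨F, hF, hN₁ m hm⟩⟩
      · exact ⟨0, fun m _ h2 => absurd h2 hφ⟩
    choose N₁ hN₁ using h1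
    refine ⟨Finset.univ.sup N₁, fun m hm φ hφ => hN₁ φ m (le_trans ?_ hm) hφ⟩
    exact Finset.le_sup (Finset.mem_univ φ)
  obtain ⟨N₁, hN₁⟩ := hbad
  refine ⟨s, fun l => Runs_rho (eqv.symm l).1, fun l => (eqv.symm l).2.1,
    fun l => (eqv.symm l).2.2, fun k B => ?_⟩
  set N₂ : ℕ := Finset.univ.sup fun i : Fin (n + 1) × Fin (n + 1) => NP i.1 i.2 with hN₂
  obtain ⟨t, ht, hrun⟩ := hL k (max B (max N₀ (max N₁ N₂)))
  refine ⟨t, le_trans (le_max_left _ _) ht, fun m hm1 hm2 => ?_⟩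
  have hmm : max B (max N₀ (max N₁ N₂)) ≤ m := le_trans ht hm1
  have hmN₀ : N₀ ≤ m := le_trans (le_trans (le_max_left _ _) (le_max_right _ _)) hmm
  have hmN₁ : N₁ ≤ m := le_trans (le_trans (le_trans (le_max_left _ _) (le_max_right _ _))
    (le_max_right _ _)) hmm
  have hmN₂ : N₂ ≤ m := le_trans (le_trans (le_trans (le_max_right _ _) (le_max_right _ _))
    (le_max_right _ _)) hmm
  by_cases hG : g m
  · exact Or.inl hG
  by_cases hx0 : x m = 0
  · exact Or.inr (Or.inl hx0)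
  right; right
  obtain ⟨p, hp⟩ : ∃ p, x m p ≠ 0 := by
    by_contra hcon
    push Not at hcon
    exact hx0 (funext hcon)
  have hq : ∀ q, ∃ c : L, c.1.2.eval (m : K) ≠ 0 ∧
      c.1.2.eval (m : K) * (x m q / x m p) = c.1.1.eval (m : K) := by
    intro q
    have hNq : NP p q ≤ m := le_trans
      (Finset.le_sup (f := fun i : Fin (n + 1) × Fin (n + 1) => NP i.1 i.2)
        (Finset.mem_univ (p, q))) hmN₂
    obtain ⟨c, hc, h2, h3⟩ := hrun m hm1 hm2 (p, q) _ (hNP p q m hNq hG hp)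
    exact ⟨⟨c, hc⟩, h2, h3⟩
  choose φ hφ1 hφ2 using hq
  set D : K := ∏ q, (φ q).1.2.eval (m : K) with hD
  have hD0 : D ≠ 0 := Finset.prod_ne_zero_iff.2 fun q _ => hφ1 q
  have hρ : ∀ q, (Runs_rho φ q).eval (m : K) = D * (x m q / x m p) := by
    intro q
    unfold Runs_rho
    rw [eval_mul, eval_prod, ← hφ2 q, hD, ← Finset.mul_prod_erase Finset.univ _ (Finset.mem_univ q)]
    ring
  have hxρ : x m = fun j => x m p / D * (Runs_rho φ j).eval (m : K) := by
    funext j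
    rw [hρ j]
    field_simp
  have hgood : Good φ := by
    refine ⟨fun h0 => ?_, fun F hF => ?_⟩
    · have h1 := hρ p
      rw [h0, Pi.zero_apply, eval_zero, div_self hp, mul_one] at h1
      exact hD0 h1.symm
    · by_contra hne
      obtain ⟨F', hF', hne'⟩ := hN₁ m hmN₁ φ ⟨F, hF, hne⟩
      obtain ⟨e, he⟩ := hFF F' hF'
      apply hne'
      rw [runsX_eval]
      have h1 := hN₀ m hmN₀ F' hF'
      rw [hxρ, runsX_hom he] at h1
      exact (mul_eq_zero.1 h1).resolve_left (pow_ne_zero _ (div_ne_zero hp hD0))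
  refine ⟨eqv ⟨φ, hgood⟩, x m p / D, ?_⟩
  simp only [Equiv.symm_apply_apply]
  exact hxρ

end Pool.Agent.Run7.h983
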