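import Pool.Agent.Run7.h983.V2

/-!
Values of difference systems on the members `X_m` of a family with the parameter `m`. The proofs
follow `Pool.Agent.N419.HQ.Core` and `Pool.Agent.N419.HQ.Line` (one variety).
-/

set_option autoImplicit false

namespace Pool.Agent.Run7.h983

open Polynomial Matrix Pool.Agent.N419.HQ Pool.Agent.N419.HU Pool.Agent.H391R2

/-- the orbits of matrix groups of size `r` on the generic member of the family `FF` consist,
outside of `G = 0`, of at most `B` points -/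
def OrbX {n : ℕ} (FF : Set (MvPolynomial (Fin (n + 1)) ℂ[X]))
    (G : MvPolynomial (Fin (n + 1)) ℂ[X]) (r B : ℕ) : Prop :=
  ∀ (E : Type) [Field E] [Algebra ℂ[X] E], Function.Injective (algebraMap ℂ[X] E) →
    ∀ (_ : E →+* ℂ) (H : Type) [Group H]
    (ρ : H →* GL (Fin r) E) (M : Matrix (Fin (n + 1)) (Fin r) E) (v : Fin r → E),
    (∀ h, ∀ F ∈ FF, MvPolynomial.aeval
      (M.mulVec ((ρ h : Matrix (Fin r) (Fin r) E).mulVec v)) F = 0) →
    ∃ c : Fin B → Fin (n + 1) → E, ∀ h,
      MvPolynomial.aeval (M.mulVec ((ρ h : Matrix (Fin r) (Fin r) E).mulVec v)) G = 0 ∨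
      ∃ i, ∃ s : E, M.mulVec ((ρ h : Matrix (Fin r) (Fin r) E).mulVec v) = s • c i

/-- the core step for a family -/
theorem coreX {n r B : ℕ} (FF : Set (MvPolynomial (Fin (n + 1)) ℂ[X]))
    (G : MvPolynomial (Fin (n + 1)) ℂ[X]) (hO : OrbX FF G r B)
    (A : Matrix (Fin r) (Fin r) ℂ[X]) (hA : ∀ m : ℕ, A.det.eval (m : ℂ) ≠ 0)
    (M : Matrix (Fin (n + 1)) (Fin r) ℂ) (v : Fin r → ℂ)
    (hX : ∃ N : ℕ, ∀ m ≥ N, ∀ F ∈ FF,
      MvPolynomial.eval₂ (evalRingHom (m : ℂ)) (M.mulVec ((sys A m).mulVec v)) F = 0) :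
    ∃ (E : Type) (_ : Field E) (_ : Algebra ℂ[X] E),
      Function.Injective (algebraMap ℂ[X] E) ∧ Algebra.IsAlgebraic ℂ[X] E ∧
      ∃ c : Fin B → Fin (n + 1) → E, ∃ N : ℕ, ∀ m ≥ N,
        MvPolynomial.eval₂ (evalRingHom (m : ℂ)) (M.mulVec ((sys A m).mulVec v)) G = 0 ∨
        ∃ i, ∀ (d : ℕ) (f : MvPolynomial (Fin (n + 1)) ℂ[X]), f.IsHomogeneous d →
          MvPolynomial.aeval (c i) f = 0 →
          MvPolynomial.eval₂ (evalRingHom (m : ℂ)) (M.mulVec ((sys A m).mulVec v)) f = 0 := by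
  classical
  obtain ⟨N0, hN0⟩ := hX
  obtain ⟨H, hH1, hH2⟩ := t_grp ℂ r A hA
  obtain ⟨E, iE, iA, hinj, halg, y, hy1, hy2⟩ := t_null (Fin r × Fin r) (evI A) (gd ℂ r) (by
    rintro h hh k ⟨N, hN⟩
    have hfin : {m : ℕ | h.eval (m : ℂ) = 0}.Finite := by
      have := (h.roots.toFinset.finite_toSet).preimage (f := fun m : ℕ => (m : ℂ))
        (Nat.cast_injective.injOn)
      refine this.subset fun m hm => ?_
      simp only [Set.mem_preimage, Finset.mem_coe, Multiset.mem_toFinset]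
      exact (mem_roots hh).2 hm
    obtain ⟨m, hm1, hm2⟩ := (hfin.infinite_compl).exists_gt N
    have h1 := hN m hm2.le
    rw [map_mul, map_pow, core_ev_gd] at h1
    rcases mul_eq_zero.mp h1 with h2 | h2
    · apply hm1
      simpa [ev] using h2
    · exact pow_ne_zero k (det_sys_ne A hA m) h2)
  let ψ : ℂ →+* E := (algebraMap ℂ[X] E).comp C
  let V : Matrix (Fin r) (Fin r) E := vm y
  have hV : V.det ≠ 0 := by
    intro h0
    apply hy2
    rw [core_aeval_gd]
    exact h0
  -- the orbit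
  obtain ⟨emb⟩ := t_embed E hinj halg
  have key : ∀ h ∈ H, (M.map ψ * V).mulVec
      ((((Matrix.GeneralLinearGroup.map (n := Fin r) ψ h : GL (Fin r) E) :
        Matrix (Fin r) (Fin r) E)).mulVec fun j => ψ (v j)) =
      (M.map ψ).mulVec (V.mulVec fun j => ψ ((h : Matrix (Fin r) (Fin r) ℂ).mulVec v j)) := by
    intro h _
    rw [← Matrix.mulVec_mulVec]
    congr 2
    ext j
    simp [Matrix.mulVec, dotProduct, Matrix.GeneralLinearGroup.map_apply]
  have hIF : ∀ h ∈ H, ∀ F ∈ FF, sb M ((h : Matrix (Fin r) (Fin r) ℂ).mulVec v) F ∈ evI A := by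
    intro h hh F hF
    rw [← core_rmul_sb]
    apply hH1 h hh
    refine ⟨N0, fun m hm => ?_⟩
    rw [core_ev_sb]
    exact hN0 m hm F hF
  have haev : ∀ (F : MvPolynomial (Fin (n + 1)) ℂ[X]) (h : GL (Fin r) ℂ), h ∈ H →
      MvPolynomial.aeval ((M.map ψ * V).mulVec
      ((((Matrix.GeneralLinearGroup.map (n := Fin r) ψ h : GL (Fin r) E) :
        Matrix (Fin r) (Fin r) E)).mulVec fun j => ψ (v j))) F =
      MvPolynomial.aeval y (sb M ((h : Matrix (Fin r) (Fin r) ℂ).mulVec v) F) := by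
    intro F h hh
    rw [key h hh, core_aeval_sb]
  obtain ⟨c, hc⟩ := hO E hinj emb H
    ((Matrix.GeneralLinearGroup.map (n := Fin r) ψ).comp H.subtype) (M.map ψ * V)
    (fun j => ψ (v j)) (by
      rintro ⟨h, hh⟩ F hF
      simp only [MonoidHom.comp_apply, Subgroup.subtype_apply]
      rw [haev F h hh]
      exact hy1 _ (hIF h hh F hF))
  -- specialisation
  obtain ⟨N, hN⟩ := t_spec E hinj halg (Option (Fin r × Fin r))
    (fun o => o.elim (V.det)⁻¹ y)
  refine ⟨E, iE, iA, hinj, halg, c, N, fun m hm => ?_⟩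
  obtain ⟨w, hw⟩ := hN m hm
  let W : Matrix (Fin r) (Fin r) ℂ := vm (w ∘ some)
  have hW : ∀ f : MvPolynomial (Fin r × Fin r) ℂ[X], MvPolynomial.aeval y f = 0 →
      ev (m : ℂ) W f = 0 := by
    intro f hf
    have h1 := hw (MvPolynomial.rename some f) (by
      rw [MvPolynomial.aeval_rename]
      exact hf)
    rw [MvPolynomial.eval₂_rename] at h1
    exact h1
  have hdet : W.det ≠ 0 := by
    have h1 := hw (MvPolynomial.X none * MvPolynomial.rename some (gd ℂ r) - 1) (by
      have h2 : MvPolynomial.aeval y (gd ℂ r) = V.det := core_aeval_gd y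
      rw [map_sub, map_mul, MvPolynomial.aeval_rename, MvPolynomial.aeval_X, map_one]
      have h3 : ((fun o : Option (Fin r × Fin r) => o.elim (V.det)⁻¹ y) ∘ some) = y := by
        ext p; rfl
      rw [h3, h2]
      simp only [Option.elim]
      rw [inv_mul_cancel₀ hV, sub_self])
    intro h0
    rw [MvPolynomial.eval₂_sub, MvPolynomial.eval₂_mul, MvPolynomial.eval₂_X,
      MvPolynomial.eval₂_one, MvPolynomial.eval₂_rename] at h1
    have h4 : MvPolynomial.eval₂ (evalRingHom (m : ℂ)) (w ∘ some) (gd ℂ r) = W.det :=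
      core_ev_gd (m : ℂ) W
    rw [h4, h0] at h1
    simp at h1
  obtain ⟨h, hh, hU⟩ := hH2 m (Matrix.GeneralLinearGroup.mkOfDetNeZero W hdet) (by
    intro f hf
    exact hW f (hy1 f hf))
  have hx : M.mulVec ((sys A m).mulVec v) =
      M.mulVec (W.mulVec ((h : Matrix (Fin r) (Fin r) ℂ).mulVec v)) := by
    rw [hU, ← Matrix.mulVec_mulVec]
    rfl
  rcases hc ⟨h, hh⟩ with h1 | ⟨i, s, h1⟩
  · left
    simp only [MonoidHom.comp_apply, Subgroup.subtype_apply] at h1
    rw [haev G h hh] at h1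
    have h2 := hW _ h1
    rw [core_ev_sb] at h2
    rw [hx]
    exact h2
  · right
    refine ⟨i, fun e f hf hfc => ?_⟩
    simp only [MonoidHom.comp_apply, Subgroup.subtype_apply] at h1
    rw [key h hh] at h1
    have h2 : MvPolynomial.aeval y (sb M ((h : Matrix (Fin r) (Fin r) ℂ).mulVec v) f) = 0 := by
      rw [core_aeval_sb]
      change MvPolynomial.aeval ((M.map ψ).mulVec (V.mulVec fun j =>
        ψ ((h : Matrix (Fin r) (Fin r) ℂ).mulVec v j))) f = 0
      rw [h1, core_smul f hf, hfc, mul_zero]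
    have h3 := hW _ h2
    rw [core_ev_sb] at h3
    rw [hx]
    exact h3

/-- from runs to progressions, in a family -/
theorem lineX (F : Type) [Field F] [CharZero F] (r n : ℕ) (A : Matrix (Fin r) (Fin r) F[X])
    (M : Matrix (Fin (n + 1)) (Fin r) F) (v : Fin r → F) (G : MvPolynomial (Fin (n + 1)) F[X])
    (s : ℕ) (ρ : Fin s → Fin (n + 1) → F[X]) (hρ : ∀ l, ρ l ≠ 0)
    (hrun : ∀ k B : ℕ, ∃ t ≥ B, ∀ m : ℕ, t ≤ m → m < t + k →
      MvPolynomial.eval₂ (evalRingHom (m : F)) (M.mulVec ((sys A m).mulVec v)) G = 0 ∨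
      M.mulVec ((sys A m).mulVec v) = 0 ∨
        ∃ l, ∃ c : F, M.mulVec ((sys A m).mulVec v) = fun j => c * (ρ l j).eval (m : F)) :
    ∃ T : ℕ, 1 ≤ T ∧ ∀ a : ℕ,
      (∃ N : ℕ, ∀ m ≥ N, m % T = a % T →
        MvPolynomial.eval₂ (evalRingHom (m : F)) (M.mulVec ((sys A m).mulVec v)) G = 0) ∨
      (∃ N : ℕ, ∀ m ≥ N, m % T = a % T → M.mulVec ((sys A m).mulVec v) = 0) ∨
      ∃ l, ∃ N : ℕ, ∀ m ≥ N, m % T = a % T →
        ∃ c : F, M.mulVec ((sys A m).mulVec v) = fun j => c * (ρ l j).eval (m : F) := by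
  classical
  have h1 := t_run
  have h2 := t_ap
  set R := MvPolynomial (Fin r × Fin r) F[X] with hR
  set x : ℕ → Fin (n + 1) → F := fun m => M.mulVec ((sys A m).mulVec v) with hx
  let gen : Option (Option (Fin s)) → Set R := fun l =>
    match l with
    | none => {sb M v G}
    | some none => Set.range (lineY M v)
    | some (some l) => Set.range fun pq : Fin (n + 1) × Fin (n + 1) =>
        lineY M v pq.1 * MvPolynomial.C (ρ l pq.2) - lineY M v pq.2 * MvPolynomial.C (ρ l pq.1)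
  let c : Option (Option (Fin s)) → Ideal R := fun l => Ideal.span (gen l)
  let φ : ℕ → R →+* F := fun m => ev (m : F) (sys A m)
  have hval : ∀ (m : ℕ) (f : R), val (shift A) (ev 0 1) m f = φ m f := fun m f => val_sys A m f
  have hZ : ∀ m l, c l ≤ RingHom.ker (φ m) ↔ ∀ g ∈ gen l, φ m g = 0 := by
    intro m l
    exact Ideal.span_le
  have hZ0 : ∀ m, c none ≤ RingHom.ker (φ m) ↔ MvPolynomial.eval₂ (evalRingHom (m : F)) (x m) G = 0 := by
    intro m
    refine (hZ m none).trans ?_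
    constructor
    · intro h
      have := h (sb M v G) rfl
      rwa [core_ev_sb] at this
    · intro h g hg
      rw [Set.mem_singleton_iff.1 hg]
      exact (core_ev_sb M v _ _ G).trans h
  have hZ1 : ∀ m, c (some none) ≤ RingHom.ker (φ m) ↔ x m = 0 := by
    intro m
    refine (hZ m (some none)).trans ?_
    constructor
    · intro h
      funext p
      have := h (lineY M v p) ⟨p, rfl⟩
      rwa [line_ev_y] at this
    · rintro h g ⟨p, rfl⟩
      exact (line_ev_y M v p _ _).trans (congrFun h p)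
  have hZ2 : ∀ m l, c (some (some l)) ≤ RingHom.ker (φ m) ↔
      ∀ p q, x m p * (ρ l q).eval (m : F) - x m q * (ρ l p).eval (m : F) = 0 := by
    intro m l
    have e : ∀ p q, φ m (lineY M v p * MvPolynomial.C (ρ l q) -
        lineY M v q * MvPolynomial.C (ρ l p)) =
        x m p * (ρ l q).eval (m : F) - x m q * (ρ l p).eval (m : F) := by
      intro p q
      show ev (m : F) (sys A m) _ = _
      rw [map_sub, map_mul, map_mul, line_ev_y, line_ev_y, line_ev_C, line_ev_C]
    refine (hZ m (some (some l))).trans ?_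
    constructor
    · intro h p q
      rw [← e]
      exact h _ ⟨(p, q), rfl⟩
    · rintro h g ⟨⟨p, q⟩, rfl⟩
      exact (e p q).trans (h p q)
  -- the product ideal
  set P : Ideal R := ∏ l, c l with hP
  obtain ⟨S, hS⟩ : P.FG := IsNoetherian.noetherian P
  have hk : ∀ f : R, ∃ k : ℕ, ∀ a : ℕ, (∀ i < k, φ (a + i) f = 0) → ∀ m ≥ a, φ m f = 0 := by
    intro f
    obtain ⟨k, hk⟩ := h1 R F (shift A) (ev 0 1) f
    refine ⟨k, fun a ha m hm => ?_⟩
    rw [← hval]
    exact hk a (fun i hi => by rw [hval]; exact ha i hi) m hm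
  choose k hk using hk
  obtain ⟨t, -, ht⟩ := hrun (S.sup k) 0
  have hrunZ : ∀ m, t ≤ m → m < t + S.sup k → ∃ l, c l ≤ RingHom.ker (φ m) := by
    intro m h3 h4
    rcases ht m h3 h4 with h | h | ⟨l, d, h⟩
    · exact ⟨none, (hZ0 m).2 h⟩
    · exact ⟨some none, (hZ1 m).2 h⟩
    · refine ⟨some (some l), (hZ2 m l).2 fun p q => ?_⟩
      have e : ∀ j, x m j = d * (ρ l j).eval (m : F) := fun j => congrFun h j
      rw [e, e]
      ring
  have hPle : ∀ l, P ≤ c l := by
    intro l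
    exact (Ideal.prod_le_inf.trans (Finset.inf_le (Finset.mem_univ l)))
  have hS0 : ∀ f ∈ S, ∀ m ≥ t, φ m f = 0 := by
    intro f hf
    refine hk f t fun i hi => ?_
    obtain ⟨l, hl⟩ := hrunZ (t + i) (by omega) (by
      have : k f ≤ S.sup k := Finset.le_sup hf
      omega)
    have h5 : f ∈ P := by
      rw [← hS]
      exact Ideal.subset_span hf
    exact hl (hPle l h5)
  have hall : ∀ m ≥ t, ∃ l, c l ≤ RingHom.ker (φ m) := by
    intro m hm
    have h5 : P ≤ RingHom.ker (φ m) := by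
      rw [← hS]
      exact Ideal.span_le.2 fun f hf => hS0 f hf m hm
    have hprime : (RingHom.ker (φ m)).IsPrime := RingHom.ker_isPrime (φ m)
    obtain ⟨l, -, hl⟩ := hprime.prod_le.1 h5
    exact ⟨l, hl⟩
  obtain ⟨T, hT, hTa⟩ := h2 R F (shift A) (ev 0 1) (Option (Option (Fin s))) c
    ⟨t, fun m hm => by
      obtain ⟨l, hl⟩ := hall m hm
      exact ⟨l, fun f hf => by rw [hval]; exact hl hf⟩⟩
  refine ⟨T, hT, fun a => ?_⟩
  obtain ⟨l, N, hN⟩ := hTa a
  have hN' : ∀ m ≥ N, m % T = a % T → c l ≤ RingHom.ker (φ m) := by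
    intro m hm hmT f hf
    rw [RingHom.mem_ker, ← hval]
    exact hN m hm hmT f hf
  match l, hN' with
  | none, hN' =>
    left
    exact ⟨N, fun m hm hmT => (hZ0 m).1 (hN' m hm hmT)⟩
  | some none, hN' =>
    right
    left
    exact ⟨N, fun m hm hmT => (hZ1 m).1 (hN' m hm hmT)⟩
  | some (some l), hN' =>
    right
    right
    obtain ⟨q0, hq0⟩ : ∃ q0, ρ l q0 ≠ 0 := by
      by_contra h
      push Not at h
      exact hρ l (funext h)
    have hfin : {m : ℕ | (ρ l q0).eval (m : F) = 0}.Finite := by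
      have h5 : {a : F | (ρ l q0).IsRoot a}.Finite := Polynomial.finite_setOfPred_isRoot hq0
      exact h5.preimage (Nat.cast_injective.injOn)
    obtain ⟨N', hN''⟩ := hfin.bddAbove
    refine ⟨l, max N (N' + 1), fun m hm hmT => ?_⟩
    have h6 : (ρ l q0).eval (m : F) ≠ 0 := by
      intro h
      have := hN'' h
      have := le_trans (le_max_right N (N' + 1)) hm
      omega
    have h7 := (hZ2 m l).1 (hN' m (le_trans (le_max_left _ _) hm) hmT)
    refine ⟨x m q0 / (ρ l q0).eval (m : F), funext fun j => ?_⟩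
    have h8 := h7 j q0
    show x m j = _
    field_simp
    linear_combination h8

end Pool.Agent.Run7.h983
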