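import Pool.Agent.Run7.h983.V3
import Pool.Agent.Run7.h983.E2

/-!
Values of difference systems on the members `X_m` of a family: sections.
-/

set_option autoImplicit false

namespace Pool.Agent.Run7.h983

open Polynomial Matrix Pool.Agent.TH717.GO Pool.Agent.Y377.ST Pool.Agent.N419.HQ
  Pool.Agent.N419.HU Pool.Agent.H391R2

/-- a form which vanishes somewhere on each member vanishes at the zero vector -/
theorem evalX_zero {K : Type} [Field K] [CharZero K] {n : ℕ} {F : MvPolynomial (Fin (n + 1)) K[X]}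
    (hF : ∃ e, F.IsHomogeneous e) {N0 : ℕ}
    (h : ∀ m ≥ N0, ∃ x : Fin (n + 1) → K, MvPolynomial.eval₂ (evalRingHom (m : K)) x F = 0) :
    MvPolynomial.eval (0 : Fin (n + 1) → K[X]) F = 0 := by
  obtain ⟨e, he⟩ := hF
  have h1 : MvPolynomial.eval (0 : Fin (n + 1) → K[X]) F = MvPolynomial.coeff 0 F := by
    rw [MvPolynomial.eval_zero, MvPolynomial.constantCoeff_eq]
  rw [h1]
  rcases Nat.eq_zero_or_pos e with rfl | hpos
  · obtain ⟨c, hc⟩ : ∃ c, F = MvPolynomial.C c := by
      refine ⟨MvPolynomial.coeff 0 F, ?_⟩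
      exact MvPolynomial.totalDegree_eq_zero_iff_eq_C.1
        (Nat.le_zero.1 (MvPolynomial.IsHomogeneous.totalDegree_le he))
    rw [hc, MvPolynomial.coeff_C, if_pos rfl]
    by_contra hne
    obtain ⟨N, hN⟩ := Runs_large hne
    obtain ⟨x, hx⟩ := h (max N N0) (le_max_right _ _)
    rw [hc, MvPolynomial.eval₂_C] at hx
    exact hN _ (le_max_left _ _) hx
  · apply he.coeff_eq_zero
    simp
    omega

/-- the values of a system on the members of a family, outside of the hypersurfaces `G = 0`: they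
lie on at most `B` sections -/
theorem main_lineX {K : Type} [Field K] [CharZero K] (hK : HP K) (τ : K →+* ℂ)
    {n r B : ℕ} (FF : Set (MvPolynomial (Fin (n + 1)) K[X]))
    (hhom : ∀ F ∈ FF, ∃ e, F.IsHomogeneous e)
    (G : MvPolynomial (Fin (n + 1)) K[X]) (hG : ∃ e, G.IsHomogeneous e)
    (hO : OrbX ((MvPolynomial.map (mapRingHom τ)) '' FF) (MvPolynomial.map (mapRingHom τ) G) r B)
    (hB : 1 ≤ B)
    (A : Matrix (Fin r) (Fin r) K[X]) (hA : ∀ m : ℕ, A.det.eval (m : K) ≠ 0)
    (M : Matrix (Fin (n + 1)) (Fin r) K) (v : Fin r → K)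
    (hX : ∃ N : ℕ, ∀ m ≥ N, ∀ F ∈ FF,
      MvPolynomial.eval₂ (evalRingHom (m : K)) (M.mulVec ((sys A m).mulVec v)) F = 0) :
    ∃ c : Fin B → Fin (n + 1) → K[X], (∀ i, ∀ F ∈ FF, MvPolynomial.eval (c i) F = 0) ∧
      ∃ T : ℕ, 1 ≤ T ∧ ∀ a : ℕ,
      (∃ N : ℕ, ∀ m ≥ N, m % T = a % T →
        MvPolynomial.eval₂ (evalRingHom (m : K)) (M.mulVec ((sys A m).mulVec v)) G = 0) ∨
      ∃ i, ∃ N : ℕ, ∀ m ≥ N, m % T = a % T →
        ∃ s : K, M.mulVec ((sys A m).mulVec v) = fun j => s * (c i j).eval (m : K) := by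
  classical
  set x : ℕ → Fin (n + 1) → K := fun m => M.mulVec ((sys A m).mulVec v) with hxdef
  have hx : ∀ m, (M.map τ).mulVec ((sys (A.map (mapRingHom τ)) m).mulVec fun j => τ (v j)) =
      fun j => τ (x m j) := by
    intro m
    rw [main_sys_map, main_mulVec_map, main_mulVec_map]
  have hτ1 : ∀ (m : ℕ) (F : MvPolynomial (Fin (n + 1)) K[X]),
      MvPolynomial.eval₂ (evalRingHom (m : ℂ)) (fun j => τ (x m j))
        (MvPolynomial.map (mapRingHom τ) F) =
        τ (MvPolynomial.eval₂ (evalRingHom (m : K)) (x m) F) := by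
    intro m F
    have h0 : (evalRingHom (m : ℂ)).comp (mapRingHom τ) = τ.comp (evalRingHom (m : K)) :=
      RingHom.ext fun p => eval_natCast_map τ p m
    rw [MvPolynomial.eval₂_map, MvPolynomial.eval₂_comp_left, h0]
    rfl
  obtain ⟨N0, hN0⟩ := hX
  obtain ⟨E, iE, iA, hinj, halg, c', N1, hN1⟩ := coreX ((MvPolynomial.map (mapRingHom τ)) '' FF)
    (MvPolynomial.map (mapRingHom τ) G) hO
    (A.map (mapRingHom τ)) (fun m => by
      rw [main_det_map]
      exact fun h => hA m ((map_eq_zero τ).1 h)) (M.map τ) (fun j => τ (v j))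
    ⟨N0, by
      rintro m hm _ ⟨F, hF, rfl⟩
      rw [hx, hτ1, hN0 m hm F hF, map_zero]⟩
  have hN1' : ∀ m ≥ N1, MvPolynomial.eval₂ (evalRingHom (m : K)) (x m) G ≠ 0 →
      ∃ i, ∀ (d : ℕ) (f : MvPolynomial (Fin (n + 1)) ℂ[X]),
      f.IsHomogeneous d → MvPolynomial.aeval (c' i) f = 0 →
        MvPolynomial.eval₂ (evalRingHom (m : ℂ)) (fun j => τ (x m j)) f = 0 := by
    intro m hm hGm
    rcases hN1 m hm with h | h
    · rw [hx, hτ1] at h
      exact absurd ((map_eq_zero τ).1 h) hGm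
    · rw [hx] at h
      exact h
  -- algebraic relations of the ratios
  have hPK : ∀ p q, ∃ P : K[X][X], P ≠ 0 ∧ ∃ N : ℕ, ∀ m ≥ N,
      MvPolynomial.eval₂ (evalRingHom (m : K)) (x m) G ≠ 0 →
      x m p ≠ 0 → (P.map (evalRingHom (m : K))).eval (x m q / x m p) = 0 := by
    intro p q
    obtain ⟨P, hP0, hP⟩ := t_rel n B E hinj halg c' p q
    obtain ⟨Q, hQ0, hQ⟩ := t_desc K τ {m | N1 ≤ m ∧ MvPolynomial.eval₂ (evalRingHom (m : K)) (x m) G ≠ 0 ∧ x m p ≠ 0}
      (fun m => x m q / x m p)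
      ⟨P, hP0, by
        rintro m ⟨hm1, hm3, hm2⟩
        have h1 := hP m (fun j => τ (x m j)) (fun h => hm2 ((map_eq_zero τ).1 h))
          (hN1' m hm1 hm3)
        rw [map_div₀]
        exact h1⟩
    exact ⟨Q, hQ0, N1, fun m hm hm3 hp => hQ m ⟨hm, hm3, hp⟩⟩
  obtain ⟨s, ρ, hρ0, hρF, hrun⟩ := runs_gen K hK n FF
    (fun m => MvPolynomial.eval₂ (evalRingHom (m : K)) (x m) G = 0) hhom x ⟨N0, hN0⟩ hPK
  obtain ⟨T, hT, hcl⟩ := lineX K r n A M v G s ρ hρ0 hrun
  -- the curves
  let ψ : K[X] →+* E := (algebraMap ℂ[X] E).comp (mapRingHom τ)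
  have hψ : Function.Injective ψ := hinj.comp (Polynomial.map_injective τ τ.injective)
  let Rl : Fin B → Fin s → Prop := fun i l => ∀ p q, c' i p * ψ (ρ l q) = c' i q * ψ (ρ l p)
  let c : Fin B → Fin (n + 1) → K[X] := fun i => if h : ∃ l, Rl i l then ρ h.choose else 0
  refine ⟨c, ?_, T, hT, fun a => ?_⟩
  · intro i F hF
    by_cases h : ∃ l, Rl i l
    · have h1 : c i = ρ h.choose := dif_pos h
      rw [h1]
      exact hρF _ F hF
    · have h1 : c i = 0 := dif_neg h
      rw [h1]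
      exact evalX_zero (hhom F hF) fun m hm => ⟨_, hN0 m hm F hF⟩
  rcases hcl a with ⟨N, hN⟩ | ⟨N, hN⟩ | ⟨l, N, hN⟩
  · exact Or.inl ⟨N, hN⟩
  · right
    refine ⟨⟨0, by omega⟩, N, fun m hm hma => ⟨0, ?_⟩⟩
    rw [hN m hm hma]
    funext j
    simp
  · obtain ⟨e, he⟩ := hG
    by_cases hG0 : MvPolynomial.eval (ρ l) G = 0
    · left
      refine ⟨N, fun m hm hma => ?_⟩
      obtain ⟨t, ht⟩ := hN m hm hma
      rw [ht, runsX_hom he, ← runsX_eval, hG0, eval_zero, mul_zero]
    right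
    by_cases hinf : {m : ℕ | (N ≤ m ∧ N1 ≤ m) ∧ m % T = a % T ∧ x m ≠ 0 ∧
        (MvPolynomial.eval (ρ l) G).eval (m : K) ≠ 0}.Infinite
    · obtain ⟨i, hi0, hi⟩ := t_bd n B E hinj halg c' (fun m j => τ (x m j))
        (fun j => (ρ l j).map τ) _ hinf (by
          rintro m ⟨-, -, hm, -⟩ h
          apply hm
          ext j
          exact (map_eq_zero τ).1 (congrFun h j)) (by
          rintro m ⟨⟨hm1, -⟩, hm2, -, -⟩ p q
          obtain ⟨t, ht⟩ := hN m hm1 hm2
          have ht' : ∀ j, x m j = t * (ρ l j).eval (m : K) := fun j => congrFun ht j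
          simp only [eval_natCast_map, ← map_mul]
          rw [ht', ht']
          congr 1
          ring) (by
          rintro m ⟨⟨hm0, hm1⟩, hm2, hm3, hm4⟩
          refine hN1' m hm1 ?_
          obtain ⟨t, ht⟩ := hN m hm0 hm2
          have ht0 : t ≠ 0 := by
            rintro rfl
            apply hm3
            change M.mulVec ((sys A m).mulVec v) = 0
            rw [ht]
            funext j
            simp
          change MvPolynomial.eval₂ (evalRingHom (m : K)) (M.mulVec ((sys A m).mulVec v)) G ≠ 0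
          rw [ht, runsX_hom he]
          refine mul_ne_zero (pow_ne_zero _ ht0) ?_
          rw [← runsX_eval]
          exact hm4)
      have hR : Rl i l := fun p q => hi p q
      have hex : ∃ l, Rl i l := ⟨l, hR⟩
      have hci : c i = ρ hex.choose := dif_pos hex
      have hR' : Rl i hex.choose := hex.choose_spec
      obtain ⟨p0, hp0⟩ := Function.ne_iff.1 hi0
      have hp0' : c' i p0 ≠ 0 := hp0
      have he' : ρ hex.choose p0 ≠ 0 := by
        intro h0
        apply hρ0 hex.choose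
        ext1 q
        have h1 := hR' p0 q
        rw [h0, map_zero, mul_zero] at h1
        have h2 := (mul_eq_zero.1 h1).resolve_left hp0'
        exact (map_eq_zero_iff ψ hψ).1 h2
      have hcross : ∀ q, ρ l q * ρ hex.choose p0 = ρ l p0 * ρ hex.choose q := by
        intro q
        apply hψ
        rw [map_mul, map_mul]
        have h1 := hR p0 q
        have h2 := hR' p0 q
        apply mul_left_cancel₀ hp0'
        calc c' i p0 * (ψ (ρ l q) * ψ (ρ hex.choose p0))
            = (c' i p0 * ψ (ρ l q)) * ψ (ρ hex.choose p0) := by ring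
          _ = (c' i q * ψ (ρ l p0)) * ψ (ρ hex.choose p0) := by rw [h1]
          _ = (c' i q * ψ (ρ hex.choose p0)) * ψ (ρ l p0) := by ring
          _ = (c' i p0 * ψ (ρ hex.choose q)) * ψ (ρ l p0) := by rw [← h2]
          _ = c' i p0 * (ψ (ρ l p0) * ψ (ρ hex.choose q)) := by ring
      obtain ⟨N2, hN2⟩ := Runs_large he'
      refine ⟨i, max N N2, fun m hm hma => ?_⟩
      obtain ⟨t, ht⟩ := hN m (le_trans (le_max_left _ _) hm) hma
      have hne := hN2 m (le_trans (le_max_right _ _) hm)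
      refine ⟨t * ((ρ l p0).eval (m : K) / (ρ hex.choose p0).eval (m : K)), ?_⟩
      rw [ht, hci]
      funext q
      have h1 := congrArg (Polynomial.eval (m : K)) (hcross q)
      rw [eval_mul, eval_mul] at h1
      field_simp
      linear_combination t * h1
    · rw [Set.not_infinite] at hinf
      obtain ⟨N2, hN2⟩ := hinf.bddAbove
      obtain ⟨N3, hN3⟩ := Runs_large hG0
      refine ⟨⟨0, by omega⟩, max (max (N2 + 1) N3) (max N N1), fun m hm hma => ⟨0, ?_⟩⟩
      have h0 : x m = 0 := by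
        by_contra h0
        have := hN2 (show m ∈ {m : ℕ | (N ≤ m ∧ N1 ≤ m) ∧ m % T = a % T ∧ x m ≠ 0 ∧
          (MvPolynomial.eval (ρ l) G).eval (m : K) ≠ 0} from
          ⟨⟨by omega, by omega⟩, hma, h0, hN3 m (by omega)⟩)
        omega
      change x m = _
      rw [h0]
      funext j
      simp

end Pool.Agent.Run7.h983
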