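import Pool.Agent.Run7.h983.V4

/-!
The generic member of a family over the line: rational curves, orbits of matrix groups.
-/

set_option autoImplicit false

namespace Pool.Agent.Run7.h983

open Polynomial Matrix Pool.Agent.TH717.GO Pool.Agent.Y377.ST Pool.Agent.N419.HQ
  Pool.Agent.N419.HU Pool.Agent.H391R2

/-- `σ : R → L` embeds a domain in an algebraically closed field.  The nonconstant rational curves
over `L` in the projective variety `F^σ = 0`, `F ∈ FF`, lie in `G^σ = 0`, `G ∈ GG`. -/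
def CurOff {R L : Type} [CommRing R] [Field L] {n : ℕ} (σ : R →+* L)
    (FF GG : Set (MvPolynomial (Fin (n + 1)) R)) : Prop :=
  ∀ q : Fin (n + 1) → L[X], (∀ F ∈ FF, MvPolynomial.eval₂ (C.comp σ) q F = 0) →
    (∃ G ∈ GG, MvPolynomial.eval₂ (C.comp σ) q G ≠ 0) →
    ∀ i j (a b : L), (q i).eval a * (q j).eval b = (q j).eval a * (q i).eval b

theorem curIn_iff_curOff {R L : Type} [CommRing R] [Field L] {n : ℕ} (φ : R →+* L) (τ : L →+* ℂ)
    (FF GG : Set (MvPolynomial (Fin (n + 1)) R)) :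
    CurIn τ (MvPolynomial.map φ '' FF) (MvPolynomial.map φ '' GG) ↔ CurOff (τ.comp φ) FF GG := by
  unfold CurIn CurOff
  refine forall_congr' fun q => ?_
  have h1 : ∀ F : MvPolynomial (Fin (n + 1)) R,
      MvPolynomial.eval₂ (C.comp τ) q (MvPolynomial.map φ F) =
        MvPolynomial.eval₂ (C.comp (τ.comp φ)) q F := by
    intro F
    rw [MvPolynomial.eval₂_map]
    rfl
  constructor
  · intro h hF hG
    refine h ?_ ?_
    · rintro _ ⟨F, hF', rfl⟩
      rw [h1]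
      exact hF F hF'
    · obtain ⟨G, hG', hne⟩ := hG
      exact ⟨_, ⟨G, hG', rfl⟩, by rw [h1]; exact hne⟩
  · intro h hF hG
    refine h ?_ ?_
    · intro F hF'
      rw [← h1]
      exact hF _ ⟨F, hF', rfl⟩
    · obtain ⟨_, ⟨G, hG', rfl⟩, hne⟩ := hG
      exact ⟨G, hG', by rw [← h1]; exact hne⟩

/-- the condition does not depend on the embedding -/
theorem curOff_indep {R : Type} [CommRing R] [IsDomain R] {n : ℕ} (σ σ' : R →+* ℂ)
    (hσ : Function.Injective σ) (hσ' : Function.Injective σ')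
    (FF GG : Set (MvPolynomial (Fin (n + 1)) R)) (h : CurOff σ FF GG) : CurOff σ' FF GG := by
  let φ : R →+* FractionRing R := algebraMap R (FractionRing R)
  let τ : FractionRing R →+* ℂ := IsFractionRing.lift hσ
  let τ' : FractionRing R →+* ℂ := IsFractionRing.lift hσ'
  have h1 : τ.comp φ = σ := RingHom.ext fun x => IsFractionRing.lift_algebraMap hσ x
  have h2 : τ'.comp φ = σ' := RingHom.ext fun x => IsFractionRing.lift_algebraMap hσ' x
  rw [← h1, ← curIn_iff_curOff] at h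
  rw [← h2, ← curIn_iff_curOff]
  exact curIn_indep τ τ' _ _ h

/-- orbits of matrix groups on the generic member -/
theorem orbX_all (n d r : ℕ) : ∃ B : ℕ, 1 ≤ B ∧ ∀ (K : Type) [Field K] (τ : K →+* ℂ)
    (FF : Set (MvPolynomial (Fin (n + 1)) K[X])), (∀ F ∈ FF, ∃ m ≤ d, F.IsHomogeneous m) →
    ∀ G : MvPolynomial (Fin (n + 1)) K[X], (∃ m ≤ d, G.IsHomogeneous m) →
    ∀ σ : K[X] →+* ℂ, Function.Injective σ → CurOff σ FF {G} →
    OrbX ((MvPolynomial.map (mapRingHom τ)) '' FF) (MvPolynomial.map (mapRingHom τ) G) r B := by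
  classical
  obtain ⟨B, hB⟩ := uniform_all n d 1 r 1
  refine ⟨B + 1, by omega, ?_⟩
  intro K _ τ FF hFF G hG σ hσ hcur E _ _ hinj emb H _ ρ M v hX
  let φ : K[X] →+* E := (algebraMap ℂ[X] E).comp (mapRingHom τ)
  have hφ : Function.Injective φ := hinj.comp (Polynomial.map_injective τ τ.injective)
  have hmap : ∀ (y : Fin (n + 1) → E) (F : MvPolynomial (Fin (n + 1)) K[X]),
      MvPolynomial.aeval y (MvPolynomial.map (mapRingHom τ) F) =
        MvPolynomial.eval y (MvPolynomial.map φ F) := by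
    intro y F
    rw [MvPolynomial.aeval_def, MvPolynomial.eval₂_map, MvPolynomial.eval_map]
  have h1 := hB E emb ((MvPolynomial.map φ) '' FF) ((MvPolynomial.map φ) '' {G}) (by
    rintro _ ⟨F, hF, rfl⟩
    obtain ⟨m, hm, h3⟩ := hFF F hF
    exact ⟨m, hm, h3.map _⟩) (by
    rintro _ ⟨F, hF, rfl⟩
    rw [Set.mem_singleton_iff.1 hF]
    obtain ⟨m, hm, h3⟩ := hG
    exact ⟨m, hm, h3.map _⟩) (by
    rw [curIn_iff_curOff]
    exact curOff_indep σ _ hσ (emb.injective.comp hφ) _ _ hcur) H (orb M ρ v)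
    (iterVec_orb M ρ v) (by
    rintro h _ ⟨F, hF, rfl⟩
    have h2 := hX h _ ⟨F, hF, rfl⟩
    rw [hmap] at h2
    exact h2)
  set S : Set (Projectivization E (Fin (n + 1) → E)) := {P | ∃ (h : H) (h0 : orb M ρ v h ≠ 0),
        MvPolynomial.aeval (orb M ρ v h) (MvPolynomial.map (mapRingHom τ) G) ≠ 0 ∧
          P = Projectivization.mk E (orb M ρ v h) h0}
    with hS
  have h1' : S.encard ≤ (B : ℕ∞) := by
    refine le_trans (Set.encard_le_encard ?_) h1
    rintro P ⟨h, h0, h2, rfl⟩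
    refine ⟨h, h0, ⟨_, ⟨G, rfl, rfl⟩, ?_⟩, rfl⟩
    rw [← hmap]
    exact h2
  have hfin : S.Finite := Set.finite_of_encard_le_coe h1'
  have hcard : hfin.toFinset.card ≤ B := by
    rw [hfin.encard_eq_coe_toFinset_card] at h1'
    exact_mod_cast h1'
  let e := hfin.toFinset.equivFin
  refine ⟨fun i => if hi : (i : ℕ) < hfin.toFinset.card then
    (((e.symm ⟨i, hi⟩ : hfin.toFinset) : Projectivization E (Fin (n + 1) → E))).rep else 0, ?_⟩
  intro h
  by_cases hG : MvPolynomial.aeval (M.mulVec ((ρ h : Matrix (Fin r) (Fin r) E).mulVec v))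
      (MvPolynomial.map (mapRingHom τ) G) = 0
  · exact Or.inl hG
  right
  by_cases h0 : orb M ρ v h = 0
  · exact ⟨0, 0, by rw [zero_smul]; exact h0⟩
  · have hm : Projectivization.mk E (orb M ρ v h) h0 ∈ hfin.toFinset := by
      rw [Set.Finite.mem_toFinset]
      exact ⟨h, h0, hG, rfl⟩
    have hlt : ((e ⟨_, hm⟩ : Fin _) : ℕ) < hfin.toFinset.card := (e ⟨_, hm⟩).2
    refine ⟨⟨(e ⟨_, hm⟩ : Fin _), by omega⟩, ?_⟩
    simp only [hlt, dif_pos]
    have h2 : e.symm ⟨((e ⟨_, hm⟩ : Fin _) : ℕ), hlt⟩ = ⟨_, hm⟩ := by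
      have : (⟨((e ⟨_, hm⟩ : Fin _) : ℕ), hlt⟩ : Fin hfin.toFinset.card) = e ⟨_, hm⟩ := rfl
      rw [this, Equiv.symm_apply_apply]
    rw [h2]
    obtain ⟨a, ha⟩ := Projectivization.exists_smul_eq_mk_rep E (orb M ρ v h) h0
    refine ⟨((a⁻¹ : Eˣ) : E), ?_⟩
    change orb M ρ v h = _
    rw [← ha, Units.smul_def, smul_smul, Units.inv_mul, one_smul]

/-- values of difference systems on the members of a family, uniform bound -/
theorem boundX_all (n d r : ℕ) : ∃ B : ℕ, 1 ≤ B ∧ ∀ (K : Type) [Field K] [CharZero K] (_ : HP K)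
    (FF : Set (MvPolynomial (Fin (n + 1)) K[X])), (∀ F ∈ FF, ∃ m ≤ d, F.IsHomogeneous m) →
    ∀ G : MvPolynomial (Fin (n + 1)) K[X], (∃ m ≤ d, G.IsHomogeneous m) →
    ∀ σ : K[X] →+* ℂ, Function.Injective σ → CurOff σ FF {G} →
    ∀ (A : Matrix (Fin r) (Fin r) K[X]), (∀ m : ℕ, A.det.eval (m : K) ≠ 0) →
      ∀ (M : Matrix (Fin (n + 1)) (Fin r) K) (v : Fin r → K),
      (∃ N : ℕ, ∀ m ≥ N, ∀ F ∈ FF,
        MvPolynomial.eval₂ (evalRingHom (m : K)) (M.mulVec ((sys A m).mulVec v)) F = 0) →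
      ∃ c : Fin B → Fin (n + 1) → K[X], (∀ i, ∀ F ∈ FF, MvPolynomial.eval (c i) F = 0) ∧
        ∃ T : ℕ, 1 ≤ T ∧ ∀ a : ℕ,
        (∃ N : ℕ, ∀ m ≥ N, m % T = a % T →
          MvPolynomial.eval₂ (evalRingHom (m : K)) (M.mulVec ((sys A m).mulVec v)) G = 0) ∨
        ∃ i, ∃ N : ℕ, ∀ m ≥ N, m % T = a % T →
          ∃ s : K, M.mulVec ((sys A m).mulVec v) = fun j => s * (c i j).eval (m : K) := by
  obtain ⟨B, hB, hO⟩ := orbX_all n d r
  refine ⟨B, hB, fun K _ _ hK FF hFF G hG σ hσ hcur A hA M v hX => ?_⟩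
  refine main_lineX hK (σ.comp C) FF ?_ G ?_ (hO K (σ.comp C) FF hFF G hG σ hσ hcur) hB A hA M v hX
  · intro F hF
    obtain ⟨m, -, hm⟩ := hFF F hF
    exact ⟨m, hm⟩
  · obtain ⟨m, -, hm⟩ := hG
    exact ⟨m, hm⟩

end Pool.Agent.Run7.h983
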