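import Pool.Agent.Run7.h983.V5

/-!
P-recursive sequences of points on the members `X_m` of a family.
-/

set_option autoImplicit false

namespace Pool.Agent.Run7.h983

open Polynomial Matrix Pool.Agent.TH717.GO Pool.Agent.Y377.ST Pool.Agent.N419.HQ
  Pool.Agent.N419.HU Pool.Agent.H391R2

theorem comp_shift_eval {K : Type} [Field K] (N : K) (a : K) (p : K[X]) :
    (compRingHom (X + C N) p).eval a = p.eval (a + N) := by
  change (p.comp (X + C N)).eval a = _
  rw [eval_comp, eval_add, eval_X, eval_C]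

/-- the uniform bound for P-recursive sequences of points on the members `X_m` of a family, over
fields with the Hilbert property -/
theorem seqX_all (n d t : ℕ) : ∃ B : ℕ, ∀ (K : Type) [Field K] [CharZero K] (_ : HP K)
    (FF : Set (MvPolynomial (Fin (n + 1)) K[X])), (∀ F ∈ FF, ∃ m ≤ d, F.IsHomogeneous m) →
    ∀ G : MvPolynomial (Fin (n + 1)) K[X], (∃ m ≤ d, G.IsHomogeneous m) →
    ∀ σ : K[X] →+* ℂ, Function.Injective σ → CurOff σ FF {G} →
    ∀ x : ℕ → Fin (n + 1) → K,
      (∀ j, ∃ p : Fin (t + 1) → K[X], p ≠ 0 ∧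
        ∀ m : ℕ, ∑ i : Fin (t + 1), (p i).eval (m : K) * x (m + i) j = 0) →
      (∃ N : ℕ, ∀ m ≥ N, ∀ F ∈ FF, MvPolynomial.eval₂ (evalRingHom (m : K)) (x m) F = 0) →
      ∃ c : Fin B → Fin (n + 1) → K[X], (∀ i, ∀ F ∈ FF, MvPolynomial.eval (c i) F = 0) ∧
        ∃ T : ℕ, 1 ≤ T ∧ ∀ a : ℕ,
        (∃ N : ℕ, ∀ m ≥ N, m % T = a % T →
          MvPolynomial.eval₂ (evalRingHom (m : K)) (x m) G = 0) ∨
        ∃ i, ∃ N : ℕ, ∀ m ≥ N, m % T = a % T →
          ∃ s : K, x m = fun j => s * (c i j).eval (m : K) := by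
  classical
  choose Bf hBf using fun r => boundX_all n d r
  set B := (Finset.range ((n + 1) * t + 1)).sup Bf with hB
  refine ⟨B, fun K _ _ hK FF hFF G hG σ hσ hno x hx hX => ?_⟩
  obtain ⟨N, r, A, M, v, s, hr, hA, hs, hxs⟩ := prec_le K (n + 1) t x hx
  obtain ⟨N0, hN0⟩ := hX
  have hle : Bf r ≤ B := Finset.le_sup (Finset.mem_range.2 (by omega))
  have hB1 : 1 ≤ Bf r := (hBf r).1
  -- the shifted family
  let sh : K[X] →+* K[X] := compRingHom (X + C (N : K))
  let sh' : K[X] →+* K[X] := compRingHom (X - C (N : K))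
  have hss : sh'.comp sh = RingHom.id _ := by
    apply Polynomial.ringHom_ext
    · intro a
      simp [sh, sh']
    · simp [sh, sh']
  have hss' : sh.comp sh' = RingHom.id _ := by
    apply Polynomial.ringHom_ext
    · intro a
      simp [sh, sh']
    · simp [sh, sh']
  have hshinj : Function.Injective sh := fun a b hab => by
    have h1 := congrArg sh' hab
    rw [← RingHom.comp_apply, ← RingHom.comp_apply, hss] at h1
    exact h1
  have hev : ∀ m : ℕ, (evalRingHom (m : K)).comp sh = evalRingHom ((N + m : ℕ) : K) := by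
    intro m
    apply RingHom.ext
    intro p
    rw [RingHom.comp_apply, coe_evalRingHom, coe_evalRingHom, comp_shift_eval]
    congr 1
    push_cast
    ring
  have hmap : ∀ (m : ℕ) (y : Fin (n + 1) → K) (F : MvPolynomial (Fin (n + 1)) K[X]),
      MvPolynomial.eval₂ (evalRingHom (m : K)) y (MvPolynomial.map sh F) =
        MvPolynomial.eval₂ (evalRingHom ((N + m : ℕ) : K)) y F := by
    intro m y F
    rw [MvPolynomial.eval₂_map, hev]
  have hsc : ∀ (m : ℕ) (F : MvPolynomial (Fin (n + 1)) K[X]), (∃ e, F.IsHomogeneous e) →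
      (MvPolynomial.eval₂ (evalRingHom ((N + m : ℕ) : K)) (x (N + m)) F = 0 ↔
        MvPolynomial.eval₂ (evalRingHom ((N + m : ℕ) : K)) (M.mulVec ((sys A m).mulVec v)) F = 0) := by
    rintro m F ⟨e, he⟩
    have h1 : x (N + m) = fun j => s m * (M.mulVec ((sys A m).mulVec v)) j := by
      rw [hxs]
      rfl
    rw [h1, runsX_hom he]
    constructor
    · intro h
      exact (mul_eq_zero.1 h).resolve_left (pow_ne_zero e (hs m))
    · intro h
      rw [h, mul_zero]
  have hcur : CurOff σ (MvPolynomial.map sh '' FF) {MvPolynomial.map sh G} := by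
    have h1 := curOff_indep σ (σ.comp sh) hσ (hσ.comp hshinj) FF {G} hno
    intro q hq hG'
    refine h1 q ?_ ?_
    · intro F hF
      have h2 := hq _ ⟨F, hF, rfl⟩
      rw [MvPolynomial.eval₂_map] at h2
      exact h2
    · obtain ⟨_, rfl, hne⟩ := hG'
      refine ⟨G, rfl, ?_⟩
      rw [MvPolynomial.eval₂_map] at hne
      exact hne
  obtain ⟨c, hcF, T, hT, hc⟩ := (hBf r).2 K hK (MvPolynomial.map sh '' FF) (by
    rintro _ ⟨F, hF, rfl⟩
    obtain ⟨m, hm, h⟩ := hFF F hF
    exact ⟨m, hm, h.map _⟩) (MvPolynomial.map sh G) (by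
    obtain ⟨m, hm, h⟩ := hG
    exact ⟨m, hm, h.map _⟩) σ hσ hcur A hA M v ⟨N0, by
    rintro m hm _ ⟨F, hF, rfl⟩
    obtain ⟨e, -, he⟩ := hFF F hF
    rw [hmap, ← hsc m F ⟨e, he⟩]
    exact hN0 (N + m) (by omega) F hF⟩
  have hback : ∀ (y : Fin (n + 1) → K[X]) (F : MvPolynomial (Fin (n + 1)) K[X]),
      MvPolynomial.eval y (MvPolynomial.map sh F) = 0 →
      MvPolynomial.eval (fun j => sh' (y j)) F = 0 := by
    intro y F h
    rw [MvPolynomial.eval_map] at h
    have h1 := congrArg sh' h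
    rw [map_zero, MvPolynomial.eval₂_comp_left, hss] at h1
    exact h1
  refine ⟨fun i j => if hi : (i : ℕ) < Bf r then sh' (c ⟨i, hi⟩ j) else
      sh' (c ⟨0, by omega⟩ j), ?_, T, hT, fun a => ?_⟩
  · intro i F hF
    by_cases hi : (i : ℕ) < Bf r
    · simp only [hi, dif_pos]
      exact hback _ _ (hcF _ _ ⟨F, hF, rfl⟩)
    · simp only [hi, dif_neg, not_false_eq_true]
      exact hback _ _ (hcF _ _ ⟨F, hF, rfl⟩)
  rcases hc (a + N * (T - 1)) with ⟨N1, hN1⟩ | ⟨i, N1, hN1⟩
  · left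
    refine ⟨N + N1, fun m hm hma => ?_⟩
    obtain ⟨m, rfl⟩ : ∃ m', m = N + m' := ⟨m - N, by omega⟩
    have h1 := hN1 m (by omega) (fin_class hT hma)
    rw [hmap] at h1
    obtain ⟨e, -, he⟩ := hG
    exact (hsc m G ⟨e, he⟩).2 h1
  · right
    refine ⟨⟨i, lt_of_lt_of_le i.2 hle⟩, N + N1, fun m hm hma => ?_⟩
    obtain ⟨m, rfl⟩ : ∃ m', m = N + m' := ⟨m - N, by omega⟩
    obtain ⟨t', ht'⟩ := hN1 m (by omega) (fin_class hT hma)
    refine ⟨s m * t', ?_⟩
    simp only [i.2, dif_pos]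
    rw [hxs, ht']
    funext j
    have h2 : (sh' (c i j)).eval ((N + m : ℕ) : K) = (c i j).eval (m : K) := by
      change ((c i j).comp (X - C (N : K))).eval _ = _
      rw [eval_comp, eval_sub, eval_X, eval_C]
      congr 1
      push_cast
      ring
    rw [h2]
    simp only [Pi.smul_apply, smul_eq_mul]
    ring

end Pool.Agent.Run7.h983
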