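import Pool.Agent.Run7.h983.V6
import Pool.Agent.Y899.IL.Ev

/-!
P-recursive sequences of points on the members of a family, over arbitrary fields of
characteristic zero.
-/

set_option autoImplicit false

namespace Pool.Agent.Run7.h983

open Polynomial Matrix Pool.Agent.TH717.GO Pool.Agent.Y377.ST Pool.Agent.N419.HQ
  Pool.Agent.N419.HU Pool.Agent.H391R2

theorem ext_closed {L W : Type} [Field L] [Field W] [IsAlgClosed W] (σ : L →+* W) :
    ∃ σa : AlgebraicClosure L →+* W, σa.comp (algebraMap L (AlgebraicClosure L)) = σ := by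
  let _ : Algebra L W := σ.toAlgebra
  let σa : AlgebraicClosure L →ₐ[L] W := IsAlgClosed.lift
  exact ⟨σa, by ext z; exact σa.commutes z⟩

theorem curOff_map {R L W : Type} [CommRing R] [CommRing L] [Field W] {n : ℕ} (φ : R →+* L)
    (τ : L →+* W) (FF GG : Set (MvPolynomial (Fin (n + 1)) R)) :
    CurOff τ (MvPolynomial.map φ '' FF) (MvPolynomial.map φ '' GG) ↔ CurOff (τ.comp φ) FF GG := by
  unfold CurOff
  refine forall_congr' fun q => ?_
  have h1 : ∀ F : MvPolynomial (Fin (n + 1)) R,
      MvPolynomial.eval₂ (C.comp τ) q (MvPolynomial.map φ F) =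
        MvPolynomial.eval₂ (C.comp (τ.comp φ)) q F := by
    intro F
    rw [MvPolynomial.eval₂_map]
    rfl
  simp only [Set.forall_mem_image, Set.exists_mem_image, h1]

/-- The condition on the curves does not depend on the embedding. -/
theorem noCur_indep {L W W' : Type} [Field L] [Field W] [IsAlgClosed W] [Field W'] [IsAlgClosed W']
    {n : ℕ} (τ : L →+* W) (τ' : L →+* W')
    (FF GG : Set (MvPolynomial (Fin (n + 1)) L)) (h : CurOff τ FF GG) : CurOff τ' FF GG := by
  classical
  intro q hq ⟨G, hG, hne⟩ i j a b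
  by_contra hab
  let La := AlgebraicClosure L
  obtain ⟨τa, hτa⟩ := ext_closed τ
  obtain ⟨τa', hτa'⟩ := ext_closed τ'
  let _ : Algebra La W' := τa'.toAlgebra
  -- shift of the parameter
  let sh : W'[X] →+* W'[X] := compRingHom (X + C (b - 1))
  let p : Fin (n + 1) → W'[X] := fun i => sh (q i)
  have hpe : ∀ i (t : W'), (p i).eval t = (q i).eval (t + (b - 1)) := by
    intro i t
    show ((q i).comp _).eval t = _
    rw [eval_comp, eval_add, eval_X, eval_C]
  have hsh : ∀ F : MvPolynomial (Fin (n + 1)) L,
      sh (MvPolynomial.eval₂ (C.comp τ') q F) = MvPolynomial.eval₂ (C.comp τ') p F := by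
    intro F
    have h1 := MvPolynomial.eval₂_comp_left sh (C.comp τ') q F
    have h2 : sh.comp (C.comp τ') = C.comp τ' := by
      ext z
      simp [sh]
    rw [h2] at h1
    exact h1
  have hshinj : Function.Injective sh := by
    intro u v huv
    have h1 : (u.comp (X + C (b - 1))).comp (X - C (b - 1)) =
        (v.comp (X + C (b - 1))).comp (X - C (b - 1)) := by
      have h2 : u.comp (X + C (b - 1)) = v.comp (X + C (b - 1)) := huv
      rw [h2]
    rw [comp_assoc, comp_assoc] at h1
    simpa using h1
  have haev : ∀ F : MvPolynomial (Fin (n + 1)) L, MvPolynomial.aeval p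
      (MvPolynomial.map (algebraMap L La) F) = MvPolynomial.eval₂ (C.comp τ') p F := by
    intro F
    rw [MvPolynomial.aeval_def, MvPolynomial.eval₂_map]
    congr 1
    rw [← hτa']
    rfl
  obtain ⟨p', hp'1, ⟨i1, i2, hp'2⟩, hp'3⟩ := spec_ac La W' p
    ((MvPolynomial.map (algebraMap L La)) '' FF) (by
      rintro _ ⟨F, hF, rfl⟩
      rw [haev, ← hsh, hq F hF, map_zero])
    ⟨i, j, fun h0 => hab (by
      have h1 := congrArg (Polynomial.eval (a - (b - 1))) h0
      rw [eval_mul, eval_mul, eval_C, eval_C, hpe, hpe, hpe, hpe] at h1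
      simpa using h1)⟩ (MvPolynomial.map (algebraMap L La) G) (by
      rw [haev, ← hsh]
      intro h0
      exact hne (hshinj (by rw [h0, map_zero])))
  -- back to `W`
  have hback : ∀ F : MvPolynomial (Fin (n + 1)) L,
      MvPolynomial.eval₂ (C.comp τ) (fun j => (p' j).map τa) F =
        (MvPolynomial.aeval p' (MvPolynomial.map (algebraMap L La) F)).map τa := by
    intro F
    have h1 : MvPolynomial.aeval p' (MvPolynomial.map (algebraMap L La) F) =
        MvPolynomial.eval₂ (C.comp (algebraMap L La)) p' F := by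
      rw [MvPolynomial.aeval_def, MvPolynomial.eval₂_map]
      rfl
    rw [h1, comp_map_eval₂, hτa]
  have hc := h (fun j => (p' j).map τa) (fun F hF => by
    rw [hback, hp'1 _ ⟨F, hF, rfl⟩, Polynomial.map_zero]) ⟨G, hG, by
    rw [hback]
    intro h0
    apply hp'3
    exact (Polynomial.map_injective τa τa.injective) (by rw [h0, Polynomial.map_zero])⟩
  apply hp'2
  rw [← map_const_iff τa]
  apply Polynomial.funext
  intro t
  rw [eval_mul, eval_mul, eval_C, eval_C]
  exact hc i1 i2 t 1

/-- the condition does not depend on the embedding -/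
theorem curOff_gen {R W W' : Type} [CommRing R] [IsDomain R] [Field W] [IsAlgClosed W] [Field W']
    [IsAlgClosed W'] {n : ℕ} (σ : R →+* W) (σ' : R →+* W')
    (hσ : Function.Injective σ) (hσ' : Function.Injective σ')
    (FF GG : Set (MvPolynomial (Fin (n + 1)) R)) (h : CurOff σ FF GG) : CurOff σ' FF GG := by
  let φ : R →+* FractionRing R := algebraMap R (FractionRing R)
  let τ : FractionRing R →+* W := IsFractionRing.lift hσ
  let τ' : FractionRing R →+* W' := IsFractionRing.lift hσ'
  have h1 : τ.comp φ = σ := RingHom.ext fun x => IsFractionRing.lift_algebraMap hσ x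
  have h2 : τ'.comp φ = σ' := RingHom.ext fun x => IsFractionRing.lift_algebraMap hσ' x
  rw [← h1, ← curOff_map] at h
  rw [← h2, ← curOff_map]
  exact noCur_indep τ τ' _ _ h

end Pool.Agent.Run7.h983
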