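import Pool.Agent.Run7.h983.V7

/-!
Descent to finitely generated fields.
-/

set_option autoImplicit false

namespace Pool.Agent.Run7.h983

open Polynomial Matrix Pool.Agent.TH717.GO Pool.Agent.Y377.ST Pool.Agent.N419.HQ
  Pool.Agent.N419.HU Pool.Agent.H391R2

/-- a finite part of the equations -/
theorem exists_finite_eqs {R : Type} [CommRing R] [IsNoetherianRing R] {n : ℕ}
    (FF : Set (MvPolynomial (Fin (n + 1)) R)) :
    ∃ F0 : Finset (MvPolynomial (Fin (n + 1)) R), (F0 : Set (MvPolynomial (Fin (n + 1)) R)) ⊆ FF ∧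
      ∀ (S : Type) [CommRing S] (φ : MvPolynomial (Fin (n + 1)) R →+* S),
        (∀ F ∈ F0, φ F = 0) → ∀ F ∈ FF, φ F = 0 := by
  obtain ⟨F0, h1, h2⟩ := (Submodule.fg_span_iff_fg_span_finset_subset FF).1
    (IsNoetherian.noetherian (Submodule.span (MvPolynomial (Fin (n + 1)) R) FF))
  refine ⟨F0, h1, fun S _ φ hφ F hF => ?_⟩
  have h3 : F ∈ Submodule.span (MvPolynomial (Fin (n + 1)) R)
      (F0 : Set (MvPolynomial (Fin (n + 1)) R)) := by
    rw [← h2]
    exact Submodule.subset_span hF
  have h4 : Submodule.span (MvPolynomial (Fin (n + 1)) R)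
      (F0 : Set (MvPolynomial (Fin (n + 1)) R)) ≤ RingHom.ker φ :=
    Submodule.span_le.2 fun F hF => hφ F hF
  exact h4 h3

/-- the terms of a P-recursive sequence lie in a finitely generated field -/
theorem rec_terms {k : Type} [Field k] [CharZero k] {t : ℕ} (p : Fin (t + 1) → k[X]) (hp : p ≠ 0)
    (s : ℕ → k) (hs : ∀ m : ℕ, ∑ i : Fin (t + 1), (p i).eval (m : k) * s (m + i) = 0) :
    ∃ M : ℕ, ∀ K : Subfield k, (∀ i l, (p i).coeff l ∈ K) → (∀ m < M, s m ∈ K) →
      ∀ m, s m ∈ K := by
  classical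
  let I : Finset (Fin (t + 1)) := Finset.univ.filter fun i => p i ≠ 0
  have hI : I.Nonempty := by
    obtain ⟨i, hi⟩ := Function.ne_iff.1 hp
    exact ⟨i, Finset.mem_filter.2 ⟨Finset.mem_univ _, hi⟩⟩
  let e : Fin (t + 1) := I.max' hI
  have he : p e ≠ 0 := (Finset.mem_filter.1 (I.max'_mem hI)).2
  have hgt : ∀ i, e < i → p i = 0 := by
    intro i hi
    by_contra hne
    have h1 : i ≤ e := I.le_max' i (Finset.mem_filter.2 ⟨Finset.mem_univ _, hne⟩)
    exact absurd hi (not_lt.2 h1)
  obtain ⟨N, hN⟩ := Runs_large he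
  refine ⟨N + e, fun K hK hM => ?_⟩
  have hev : ∀ i (m : ℕ), (p i).eval (m : k) ∈ K := by
    intro i m
    rw [Polynomial.eval_eq_sum_range]
    exact sum_mem fun l _ => mul_mem (hK i l) (pow_mem (natCast_mem K m) l)
  intro m
  induction m using Nat.strong_induction_on with
  | _ m ih =>
    by_cases hm : m < N + e
    · exact hM m hm
    obtain ⟨m', rfl⟩ : ∃ m', m = m' + e := ⟨m - e, by omega⟩
    have hm' : N ≤ m' := by omega
    have h1 := hs m'
    rw [← Finset.add_sum_erase _ _ (Finset.mem_univ e)] at h1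
    have h2 : s (m' + e) = -(∑ i ∈ Finset.univ.erase e, (p i).eval (m' : k) * s (m' + i)) /
        (p e).eval (m' : k) := by
      rw [eq_div_iff (hN m' hm')]
      linear_combination h1
    rw [h2]
    refine div_mem (neg_mem (sum_mem fun i hi => ?_)) (hev e m')
    rcases lt_trichotomy e i with h3 | h3 | h3
    · rw [hgt i h3, eval_zero, zero_mul]
      exact zero_mem K
    · exact absurd h3.symm (Finset.ne_of_mem_erase hi)
    · refine mul_mem (hev i m') (ih (m' + i) ?_)
      have : (i : ℕ) < e := h3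
      omega

theorem evX_map {K L : Type} [Field K] [Field L] (τ : K →+* L) {n : ℕ} (m : ℕ)
    (y : Fin (n + 1) → K) (F : MvPolynomial (Fin (n + 1)) K[X]) :
    MvPolynomial.eval₂ (evalRingHom (m : L)) (fun j => τ (y j))
      (MvPolynomial.map (mapRingHom τ) F) =
      τ (MvPolynomial.eval₂ (evalRingHom (m : K)) y F) := by
  have h0 : (evalRingHom (m : L)).comp (mapRingHom τ) = τ.comp (evalRingHom (m : K)) :=
    RingHom.ext fun p => eval_natCast_map τ p m
  rw [MvPolynomial.eval₂_map, MvPolynomial.eval₂_comp_left, h0]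
  rfl

theorem hp_adjoin {k : Type} [Field k] [CharZero k] (S : Finset k) :
    HP (IntermediateField.adjoin ℚ (S : Set k)) := by
  have h : Algebra.EssFiniteType ℚ (IntermediateField.adjoin ℚ (S : Set k)) :=
    IntermediateField.essFiniteType_iff.2 (IntermediateField.fg_adjoin_finset S)
  obtain ⟨s, hs⟩ := IntermediateField.fg_top ℚ (IntermediateField.adjoin ℚ (S : Set k))
  exact hp_fg _ s (by convert hs)

theorem countable_adjoin {k : Type} [Field k] [CharZero k] (S : Finset k) :
    Countable (IntermediateField.adjoin ℚ (S : Set k)) := by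
  have h1 : (Set.range (algebraMap ℚ k) ∪ (S : Set k)).Countable :=
    (Set.countable_range _).union S.countable_toSet
  have h2 : Countable (Subfield.closure (Set.range (algebraMap ℚ k) ∪ (S : Set k))) := by
    rw [← Cardinal.mk_le_aleph0_iff]
    refine (Subfield.cardinalMk_closure_le_max _).trans (max_le ?_ le_rfl)
    exact Cardinal.mk_le_aleph0_iff.2 h1.to_subtype
  exact h2

theorem exists_embX (K : Type) [Field K] [CharZero K] [Countable K] :
    ∃ σ : K[X] →+* ℂ, Function.Injective σ := by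
  have h1 : Countable K[X] := by
    rw [← Cardinal.mk_le_aleph0_iff]
    refine (Polynomial.cardinalMk_le_max (R := K)).trans (max_le ?_ le_rfl)
    exact Cardinal.mk_le_aleph0_iff.2 inferInstance
  have h2 : Countable (FractionRing K[X]) := by
    rw [← Cardinal.mk_le_aleph0_iff, IsFractionRing.cardinalMk K[X] (FractionRing K[X])]
    exact Cardinal.mk_le_aleph0_iff.2 h1
  have h3 : CharZero (FractionRing K[X]) := IsFractionRing.charZero K[X]
  obtain ⟨ι⟩ := Pool.Agent.Y899.ILPER.emb_complex (FractionRing K[X])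
  exact ⟨ι.comp (algebraMap K[X] (FractionRing K[X])),
    ι.injective.comp (IsFractionRing.injective K[X] (FractionRing K[X]))⟩

end Pool.Agent.Run7.h983
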