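import Pool.Agent.Run7.h983.V8

/-!
P-recursive sequences of points on the members of a family, over arbitrary fields of
characteristic zero: the main theorem.
-/

set_option autoImplicit false

namespace Pool.Agent.Run7.h983

open Polynomial Matrix Pool.Agent.TH717.GO Pool.Agent.Y377.ST Pool.Agent.N419.HQ
  Pool.Agent.N419.HU Pool.Agent.H391R2

/-- the uniform bound for P-recursive sequences of points on the members `X_m` of a family, over
arbitrary fields of characteristic zero -/
theorem fam_all (n d t : ℕ) : ∃ B : ℕ, ∀ (k : Type) [Field k] [CharZero k]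
    (FF : Set (MvPolynomial (Fin (n + 1)) k[X])), (∀ F ∈ FF, ∃ m ≤ d, F.IsHomogeneous m) →
    ∀ G : MvPolynomial (Fin (n + 1)) k[X], (∃ m ≤ d, G.IsHomogeneous m) →
    ∀ (W : Type) [Field W] [IsAlgClosed W] (σ : k[X] →+* W), Function.Injective σ →
    CurOff σ FF {G} →
    ∀ x : ℕ → Fin (n + 1) → k,
      (∀ j, ∃ p : Fin (t + 1) → k[X], p ≠ 0 ∧
        ∀ m : ℕ, ∑ i : Fin (t + 1), (p i).eval (m : k) * x (m + i) j = 0) →
      (∃ N : ℕ, ∀ m ≥ N, ∀ F ∈ FF, MvPolynomial.eval₂ (evalRingHom (m : k)) (x m) F = 0) →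
      ∃ c : Fin B → Fin (n + 1) → k[X], (∀ i, ∀ F ∈ FF, MvPolynomial.eval (c i) F = 0) ∧
        ∃ T : ℕ, 1 ≤ T ∧ ∀ a : ℕ,
        (∃ N : ℕ, ∀ m ≥ N, m % T = a % T →
          MvPolynomial.eval₂ (evalRingHom (m : k)) (x m) G = 0) ∨
        ∃ i, ∃ N : ℕ, ∀ m ≥ N, m % T = a % T →
          ∃ s : k, x m = fun j => s * (c i j).eval (m : k) := by
  classical
  obtain ⟨B, hB⟩ := seqX_all n d t
  refine ⟨B, fun k _ _ FF hFF G hG W _ _ σ hσ hcur x hx hX => ?_⟩
  obtain ⟨F0, hF0, hF0'⟩ := exists_finite_eqs FF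
  choose p hp hrec using hx
  choose M hM using fun j => rec_terms (p j) (hp j) (fun m => x m j) (hrec j)
  let S : Finset k := ((insert G F0).biUnion fun F => F.coeffs.biUnion fun c => c.coeffs) ∪
    (Finset.univ.biUnion fun j => Finset.univ.biUnion fun i => (p j i).coeffs) ∪
    (Finset.univ.biUnion fun j => (Finset.range (M j)).image fun m => x m j)
  set K := IntermediateField.adjoin ℚ (S : Set k) with hKdef
  have hS : ∀ a ∈ S, a ∈ K := fun a ha => IntermediateField.subset_adjoin ℚ _ ha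
  have hHP : HP K := hp_adjoin S
  have hcount : Countable K := countable_adjoin S
  obtain ⟨σ0, hσ0⟩ := exists_embX K
  let τ : K →+* k := algebraMap K k
  have hτ : Function.Injective τ := τ.injective
  have hτr : ∀ a, a ∈ K → a ∈ Set.range τ := fun a ha => ⟨⟨a, ha⟩, rfl⟩
  let φ : K[X] →+* k[X] := mapRingHom τ
  have hφ : Function.Injective φ := Polynomial.map_injective τ hτ
  -- polynomials over `K`
  have hlift : ∀ q : k[X], (∀ a ∈ q.coeffs, a ∈ K) → ∃ q0 : K[X], q0.map τ = q := by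
    intro q hq
    have h1 : q ∈ Polynomial.lifts τ := by
      rw [Polynomial.lifts_iff_coeffs_subset_range]
      intro a ha
      exact hτr a (hq a ha)
    exact (Polynomial.mem_lifts q).1 h1
  have hpK : ∀ j i, ∀ a ∈ (p j i).coeffs, a ∈ K := by
    intro j i a ha
    apply hS
    simp only [S, Finset.mem_union, Finset.mem_biUnion, Finset.mem_univ, true_and]
    exact Or.inl (Or.inr ⟨j, i, ha⟩)
  choose p0 hp0 using fun j i => hlift (p j i) (hpK j i)
  have hFK : ∀ F ∈ insert G F0, ∃ F' : MvPolynomial (Fin (n + 1)) K[X],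
      MvPolynomial.map φ F' = F := by
    intro F hF
    have h1 : F ∈ Set.range (MvPolynomial.map (σ := Fin (n + 1)) φ) := by
      rw [MvPolynomial.mem_range_map_iff_coeffs_subset]
      intro c hc
      obtain ⟨q0, hq0⟩ := hlift c (fun a ha => by
        apply hS
        simp only [S, Finset.mem_union, Finset.mem_biUnion]
        exact Or.inl (Or.inl ⟨F, hF, c, hc, ha⟩))
      exact ⟨q0, hq0⟩
    exact h1
  obtain ⟨G', hG'⟩ := hFK G (Finset.mem_insert_self _ _)
  let FF' : Set (MvPolynomial (Fin (n + 1)) K[X]) := {F' | MvPolynomial.map φ F' ∈ F0}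
  -- the sequence over `K`
  have hxK : ∀ j m, x m j ∈ K := by
    intro j m
    refine hM j K.toSubfield ?_ ?_ m
    · intro i l
      by_cases h0 : (p j i).coeff l = 0
      · rw [h0]
        exact K.zero_mem
      · exact hpK j i _ (Polynomial.coeff_mem_coeffs h0)
    · intro m' hm'
      apply hS
      simp only [S, Finset.mem_union, Finset.mem_biUnion, Finset.mem_univ, true_and,
        Finset.mem_image, Finset.mem_range]
      exact Or.inr ⟨j, m', hm', rfl⟩
  let x0 : ℕ → Fin (n + 1) → K := fun m j => ⟨x m j, hxK j m⟩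
  have hx0 : ∀ m j, τ (x0 m j) = x m j := fun m j => rfl
  have hev : ∀ (m : ℕ) (F' : MvPolynomial (Fin (n + 1)) K[X]),
      MvPolynomial.eval₂ (evalRingHom (m : k)) (x m) (MvPolynomial.map φ F') =
        τ (MvPolynomial.eval₂ (evalRingHom (m : K)) (x0 m) F') := fun m F' =>
    evX_map τ m (x0 m) F'
  obtain ⟨c0, hc0, T, hT, hcl⟩ := hB K hHP FF' (by
    intro F' hF'
    obtain ⟨m, hm, h⟩ := hFF _ (hF0 hF')
    exact ⟨m, hm, h.of_map hφ⟩) G' (by
    obtain ⟨m, hm, h⟩ := hG
    rw [← hG'] at h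
    exact ⟨m, hm, h.of_map hφ⟩) σ0 hσ0 (by
    refine curOff_gen (σ.comp φ) σ0 (hσ.comp hφ) hσ0 FF' {G'} ?_
    intro q hq hG0
    have h1 : ∀ F' : MvPolynomial (Fin (n + 1)) K[X],
        MvPolynomial.eval₂ (C.comp (σ.comp φ)) q F' =
          MvPolynomial.eval₂ (C.comp σ) q (MvPolynomial.map φ F') := by
      intro F'
      rw [MvPolynomial.eval₂_map]
      rfl
    refine hcur q ?_ ?_
    · intro F hF
      refine hF0' W[X] (MvPolynomial.eval₂Hom (C.comp σ) q) ?_ F hF
      intro F hF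
      obtain ⟨F', hF'⟩ := hFK F (Finset.mem_insert_of_mem hF)
      have h2 := hq F' (by
        change MvPolynomial.map φ F' ∈ F0
        rw [hF']
        exact hF)
      rw [h1, hF'] at h2
      exact h2
    · obtain ⟨_, rfl, hne⟩ := hG0
      refine ⟨G, rfl, ?_⟩
      rw [h1, hG'] at hne
      exact hne) x0 (by
    intro j
    refine ⟨p0 j, ?_, fun m => ?_⟩
    · intro h0
      apply hp j
      funext i
      rw [← hp0 j i, h0]
      simp
    · apply hτ
      rw [map_sum, map_zero, ← hrec j m]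
      refine Finset.sum_congr rfl fun i _ => ?_
      rw [map_mul, hx0, ← hp0 j i, eval_natCast_map]) (by
    obtain ⟨N, hN⟩ := hX
    refine ⟨N, fun m hm F' hF' => ?_⟩
    apply hτ
    rw [← hev, map_zero]
    exact hN m hm _ (hF0 hF'))
  refine ⟨fun i j => (c0 i j).map τ, ?_, T, hT, fun a => ?_⟩
  · intro i F hF
    refine hF0' k[X] (MvPolynomial.eval fun j => (c0 i j).map τ) ?_ F hF
    intro F hF
    obtain ⟨F', hF'⟩ := hFK F (Finset.mem_insert_of_mem hF)
    have h2 := hc0 i F' (by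
      change MvPolynomial.map φ F' ∈ F0
      rw [hF']
      exact hF)
    have h3 := congrArg φ h2
    rw [map_zero] at h3
    have h4 : φ (MvPolynomial.eval₂ (RingHom.id K[X]) (c0 i) F') =
        MvPolynomial.eval₂ (φ.comp (RingHom.id K[X])) (φ ∘ c0 i) F' :=
      MvPolynomial.eval₂_comp_left _ _ _ _
    rw [RingHom.comp_id] at h4
    rw [← hF', MvPolynomial.eval_map]
    exact h4.symm.trans h3
  rcases hcl a with ⟨N, hN⟩ | ⟨i, N, hN⟩
  · left
    refine ⟨N, fun m hm hma => ?_⟩
    rw [← hG', hev, hN m hm hma, map_zero]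
  · right
    refine ⟨i, N, fun m hm hma => ?_⟩
    obtain ⟨s, hs⟩ := hN m hm hma
    refine ⟨τ s, ?_⟩
    funext j
    rw [← hx0, congrFun hs j, map_mul, eval_natCast_map]

end Pool.Agent.Run7.h983
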