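import Pool.Agent.Run7.h983.V9
import Pool.Agent.Run7.h983.H1

/-!
Hyperelliptic curves over arbitrary algebraically closed fields of characteristic zero: no
nonconstant rational curves on the plane model. The proofs are those of `Pool.Agent.H458.Sp.UPencil`,
`Pool.Agent.H458.Sp.UHyper` and `Pool.Agent.Run7.h983.H1` (over the complex numbers).
-/

set_option autoImplicit false
set_option linter.unusedSectionVars false

namespace Pool.Agent.Run7.h983.Hy

open Polynomial Finset Pool.Agent.Run7.h983

variable {L : Type} [Field L] [IsAlgClosed L] [CharZero L]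

theorem pencil_coprime (U W : L[X]) (h : IsCoprime U W) (α β : L) (hαβ : α ≠ β) :
    IsCoprime (U - C α * W) (U - C β * W) := by
  obtain ⟨u, v, huv⟩ := h
  have hne : β - α ≠ 0 := sub_ne_zero.2 (Ne.symm hαβ)
  refine ⟨C (β - α)⁻¹ * (C β * u + v), C (β - α)⁻¹ * (-(C α * u) - v), ?_⟩
  have h1 : C (β - α)⁻¹ * (C β - C α) = 1 := by
    rw [← C_sub, ← C_mul, inv_mul_cancel₀ hne, C_1]
  calc C (β - α)⁻¹ * (C β * u + v) * (U - C α * W) +
      C (β - α)⁻¹ * (-(C α * u) - v) * (U - C β * W) =
      (C (β - α)⁻¹ * (C β - C α)) * (u * U + v * W) := by ring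
    _ = 1 := by rw [h1, huv, one_mul]

theorem pencil_coprime' (U W : L[X]) (h : IsCoprime U W) (α : L) :
    IsCoprime (U - C α * W) W := by
  obtain ⟨u, v, huv⟩ := h
  refine ⟨u, v + C α * u, ?_⟩
  calc u * (U - C α * W) + (v + C α * u) * W = u * U + v * W := by ring
    _ = 1 := huv

/-- **pencil lemma**: if the product of at least five members of a pencil is a square up to
a constant and a power of one more member, the pencil is constant -/
theorem pencil_square (U W : L[X]) (h : IsCoprime U W) (T : Finset L) (hT : 5 ≤ T.card)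
    (a : L) (ha : a ≠ 0) (j : ℕ) (Z : L[X])
    (hZ : Z ^ 2 = C a * W ^ j * ∏ α ∈ T, (U - C α * W)) :
    derivative U = 0 ∧ derivative W = 0 := by
  classical
  rw [← h.wronskian_eq_zero_iff]
  by_contra hw
  set q : L → L[X] := fun α => U - C α * W with hq
  have hwq : ∀ α, wronskian (q α) W = wronskian U W := by
    intro α
    rw [hq]
    unfold wronskian
    simp only [derivative_sub, derivative_C_mul]
    ring
  have hq0 : ∀ α, q α ≠ 0 := by
    intro α h0
    have := hwq α
    rw [h0, wronskian_zero_left] at this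
    exact hw this.symm
  -- every member is a square up to a unit
  have hsq : ∀ α ∈ T, ∃ s : L[X], Associated (s ^ 2) (q α) := by
    intro α hα
    have hcop : IsCoprime (q α) (C a * W ^ j * ∏ β ∈ T.erase α, q β) := by
      refine IsCoprime.mul_right (IsCoprime.mul_right ?_ ?_) ?_
      · refine ⟨0, C a⁻¹, ?_⟩
        rw [zero_mul, zero_add, ← C_mul, inv_mul_cancel₀ ha, C_1]
      · exact (pencil_coprime' U W h α).pow_right
      · refine IsCoprime.prod_right fun β hβ => ?_
        exact pencil_coprime U W h α β (Ne.symm (Finset.ne_of_mem_erase hβ))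
    have h1 : q α * (C a * W ^ j * ∏ β ∈ T.erase α, q β) = Z ^ 2 := by
      rw [hZ, ← Finset.mul_prod_erase T q hα]
      ring
    exact exists_associated_pow_of_mul_eq_pow' hcop h1
  choose! s hs using hsq
  have hs0 : ∀ α ∈ T, s α ≠ 0 := by
    intro α hα h0
    have := hs α hα
    rw [h0, zero_pow two_ne_zero] at this
    exact hq0 α ((associated_zero_iff_eq_zero _).1 this.symm)
  have hdeg : ∀ α ∈ T, (q α).natDegree = 2 * (s α).natDegree := by
    intro α hα
    have h1 := natDegree_eq_of_degree_eq (degree_eq_degree_of_associated (hs α hα))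
    rw [← h1, natDegree_pow]
  have hdvd : ∀ α ∈ T, s α ∣ wronskian U W := by
    intro α hα
    obtain ⟨u, hu⟩ := hs α hα
    have h1 : s α ∣ q α := by
      rw [← hu, pow_two, mul_assoc]
      exact dvd_mul_right _ _
    have h2 : s α ∣ derivative (q α) := by
      rw [← hu, derivative_mul, derivative_pow]
      refine dvd_add ?_ ?_
      · refine Dvd.dvd.mul_right (Dvd.dvd.mul_right ?_ _) _
        exact Dvd.dvd.mul_left (by simp) _
      · rw [pow_two, mul_assoc]
        exact dvd_mul_right _ _
    rw [← hwq α]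
    unfold wronskian
    exact dvd_sub (h1.mul_right _) (h2.mul_right _)
  have hprod : ∏ α ∈ T, s α ∣ wronskian U W := by
    refine Finset.prod_dvd_of_coprime ?_ hdvd
    intro α hα β hβ hαβ
    have h1 : IsCoprime (q α) (q β) := pencil_coprime U W h α β hαβ
    obtain ⟨u, hu⟩ := hs α hα
    obtain ⟨v, hv⟩ := hs β hβ
    have h2 : s α ∣ q α := by
      rw [← hu, pow_two, mul_assoc]
      exact dvd_mul_right _ _
    have h3 : s β ∣ q β := by
      rw [← hv, pow_two, mul_assoc]
      exact dvd_mul_right _ _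
    exact h1.of_isCoprime_of_dvd_left h2 |>.of_isCoprime_of_dvd_right h3
  have hle : ∑ α ∈ T, (s α).natDegree ≤ (wronskian U W).natDegree := by
    have h1 := natDegree_le_of_dvd hprod hw
    rwa [natDegree_prod _ _ hs0] at h1
  have hlt := natDegree_wronskian_lt_add hw
  have hmax : ∀ α β, α ≠ β → max U.natDegree W.natDegree ≤
      max (q α).natDegree (q β).natDegree := by
    intro α β hαβ
    have hne : β - α ≠ 0 := sub_ne_zero.2 (Ne.symm hαβ)
    refine max_le ?_ ?_
    · have h1 : C (β - α) * U = C β * q α - C α * q β := by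
        rw [hq, C_sub]
        ring
      rw [← natDegree_C_mul hne, h1]
      refine (natDegree_sub_le _ _).trans (max_le_max ?_ ?_)
      · exact natDegree_C_mul_le _ _
      · exact natDegree_C_mul_le _ _
    · have h1 : C (β - α) * W = q α - q β := by
        rw [hq, C_sub]
        ring
      rw [← natDegree_C_mul hne, h1]
      exact natDegree_sub_le _ _
  set D := max U.natDegree W.natDegree with hD
  have hU : U.natDegree ≤ D := le_max_left _ _
  have hW : W.natDegree ≤ D := le_max_right _ _
  have hsum : ∑ α ∈ T, (q α).natDegree = 2 * ∑ α ∈ T, (s α).natDegree := by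
    rw [Finset.mul_sum]
    exact Finset.sum_congr rfl hdeg
  have h4D : 4 * D ≤ ∑ α ∈ T, (q α).natDegree := by
    by_cases hall : ∀ α ∈ T, D ≤ (q α).natDegree
    · calc 4 * D ≤ T.card * D := Nat.mul_le_mul_right _ (by omega)
        _ = ∑ _α ∈ T, D := by rw [Finset.sum_const, smul_eq_mul]
        _ ≤ _ := Finset.sum_le_sum hall
    · push Not at hall
      obtain ⟨α, hα, hlt⟩ := hall
      calc 4 * D ≤ (T.erase α).card * D :=
            Nat.mul_le_mul_right _ (by rw [Finset.card_erase_of_mem hα]; omega)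
        _ = ∑ _β ∈ T.erase α, D := by rw [Finset.sum_const, smul_eq_mul]
        _ ≤ ∑ β ∈ T.erase α, (q β).natDegree := by
          refine Finset.sum_le_sum fun β hβ => ?_
          have h1 := hmax α β (Ne.symm (Finset.ne_of_mem_erase hβ))
          rcases le_max_iff.1 h1 with h2 | h2
          · omega
          · exact h2
        _ ≤ _ := Finset.sum_le_sum_of_subset (Finset.erase_subset _ _)
  omega

/-- homogenisation of a product of linear factors -/
theorem homog_prod (T : Finset L) (a : L) (f : L[X]) (hf : f = C a * ∏ α ∈ T, (X - C α))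
    (D : ℕ) (hD : T.card ≤ D) (U W : L[X]) (hW : W ≠ 0) :
    ∑ k ∈ range (D + 1), C (f.coeff k) * U ^ k * W ^ (D - k) =
      C a * W ^ (D - T.card) * ∏ α ∈ T, (U - C α * W) := by
  classical
  apply IsFractionRing.injective L[X] (FractionRing L[X])
  set φ := algebraMap L[X] (FractionRing L[X]) with hφ
  have hφW : φ W ≠ 0 := by
    rw [hφ, Ne, IsFractionRing.to_map_eq_zero_iff]
    exact hW
  have hdeg : f.natDegree < D + 1 := by
    rw [hf]
    refine Nat.lt_succ_of_le ((natDegree_C_mul_le _ _).trans ?_)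
    rw [natDegree_prod_of_monic _ _ (fun α _ => monic_X_sub_C α)]
    simp only [natDegree_X_sub_C, Finset.sum_const, smul_eq_mul, mul_one]
    exact hD
  have h1 : eval₂ (φ.comp C) (φ U / φ W) f =
      ∑ k ∈ range (D + 1), (φ.comp C) (f.coeff k) * (φ U / φ W) ^ k :=
    eval₂_eq_sum_range' _ hdeg _
  have h2 : eval₂ (φ.comp C) (φ U / φ W) f =
      φ (C a) * ∏ α ∈ T, (φ U / φ W - φ (C α)) := by
    rw [hf, eval₂_mul, eval₂_C, eval₂_finsetProd]
    congr 1
    refine Finset.prod_congr rfl fun α _ => ?_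
    rw [eval₂_sub, eval₂_X, eval₂_C]
    rfl
  rw [map_sum, map_mul, map_mul, map_prod, map_pow]
  have h3 : ∑ k ∈ range (D + 1), φ (C (f.coeff k) * U ^ k * W ^ (D - k)) =
      φ W ^ D * ∑ k ∈ range (D + 1), (φ.comp C) (f.coeff k) * (φ U / φ W) ^ k := by
    rw [Finset.mul_sum]
    refine Finset.sum_congr rfl fun k hk => ?_
    have hkD : k ≤ D := by
      rw [Finset.mem_range] at hk
      omega
    obtain ⟨t, ht⟩ : ∃ t, D = k + t := ⟨D - k, by omega⟩
    rw [map_mul, map_mul, map_pow, map_pow, ht, Nat.add_sub_cancel_left, div_pow, pow_add]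
    simp only [RingHom.comp_apply]
    field_simp
  rw [h3, ← h1, h2]
  obtain ⟨t, ht⟩ : ∃ t, D = T.card + t := ⟨D - T.card, by omega⟩
  rw [ht, Nat.add_sub_cancel_left, pow_add, ← Finset.prod_const]
  have h4 : (∏ _α ∈ T, φ W) * ∏ α ∈ T, (φ U / φ W - φ (C α)) = ∏ α ∈ T, φ (U - C α * W) := by
    rw [← Finset.prod_mul_distrib]
    refine Finset.prod_congr rfl fun α _ => ?_
    rw [map_sub, map_mul]
    field_simp
  rw [← h4]
  ring

theorem hyper_const (f : L[X]) (hsep : f.Separable) (D : ℕ) (h5 : 5 ≤ f.natDegree)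
    (hD : f.natDegree ≤ D) (U W V W' : L[X]) (hW : W ≠ 0) (hW' : W' ≠ 0)
    (hid : V ^ 2 * W ^ D = W' ^ 2 * ∑ k ∈ range (D + 1), C (f.coeff k) * U ^ k * W ^ (D - k)) :
    ∃ (g : L[X]) (u w : L), U = C u * g ∧ W = C w * g := by
  classical
  set T := f.roots.toFinset with hT
  have hnd : f.roots.Nodup := nodup_roots hsep
  have hTval : T.val = f.roots := by
    rw [hT, Multiset.toFinset_val, Multiset.dedup_eq_self.2 hnd]
  have hsp : f.Splits := IsAlgClosed.splits f
  have hcard : T.card = f.natDegree := by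
    rw [Finset.card_def, hTval]
    exact hsp.natDegree_eq_card_roots.symm
  have hf : f = C f.leadingCoeff * ∏ α ∈ T, (X - C α) := by
    conv_lhs => rw [hsp.eq_prod_roots]
    congr 1
    unfold Finset.prod
    rw [hTval]
  have ha : f.leadingCoeff ≠ 0 := by
    rw [Ne, leadingCoeff_eq_zero]
    intro h
    rw [h, natDegree_zero] at h5
    omega
  rw [homog_prod T f.leadingCoeff f hf D (by omega) U W hW] at hid
  set g := EuclideanDomain.gcd U W with hg
  have hg0 : g ≠ 0 := by
    intro h
    exact hW (EuclideanDomain.gcd_eq_zero_iff.1 h).2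
  obtain ⟨U1, hU1⟩ := EuclideanDomain.gcd_dvd_left U W
  obtain ⟨W1, hW1⟩ := EuclideanDomain.gcd_dvd_right U W
  rw [← hg] at hU1 hW1
  have hcop : IsCoprime U1 W1 := by
    refine ⟨EuclideanDomain.gcdA U W, EuclideanDomain.gcdB U W, ?_⟩
    have h1 : g = U * EuclideanDomain.gcdA U W + W * EuclideanDomain.gcdB U W :=
      EuclideanDomain.gcd_eq_gcd_ab U W
    refine mul_left_cancel₀ hg0 ?_
    calc g * (EuclideanDomain.gcdA U W * U1 + EuclideanDomain.gcdB U W * W1) =
        (g * U1) * EuclideanDomain.gcdA U W + (g * W1) * EuclideanDomain.gcdB U W := by ring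
      _ = g * 1 := by rw [← hU1, ← hW1, ← h1, mul_one]
  obtain ⟨t, ht⟩ : ∃ t, D = T.card + t := ⟨D - T.card, by omega⟩
  have hid2 : V ^ 2 * W1 ^ D = W' ^ 2 * (C f.leadingCoeff * W1 ^ t *
      ∏ α ∈ T, (U1 - C α * W1)) := by
    have h1 : ∏ α ∈ T, (U - C α * W) = g ^ T.card * ∏ α ∈ T, (U1 - C α * W1) := by
      rw [← Finset.prod_const, ← Finset.prod_mul_distrib]
      refine Finset.prod_congr rfl fun α _ => ?_
      rw [hU1, hW1]
      ring
    rw [h1, hW1, ht, Nat.add_sub_cancel_left] at hid
    refine mul_left_cancel₀ (pow_ne_zero (T.card + t) hg0) ?_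
    rw [ht]
    calc g ^ (T.card + t) * (V ^ 2 * W1 ^ (T.card + t)) =
        V ^ 2 * (g * W1) ^ (T.card + t) := by rw [mul_pow]; ring
      _ = _ := hid
      _ = _ := by rw [mul_pow, pow_add]; ring
  have hdv : W' ∣ V * W1 ^ D := by
    rw [← IsIntegrallyClosed.pow_dvd_pow_iff (two_ne_zero)]
    refine ⟨C f.leadingCoeff * W1 ^ t * (∏ α ∈ T, (U1 - C α * W1)) * W1 ^ D, ?_⟩
    calc (V * W1 ^ D) ^ 2 = (V ^ 2 * W1 ^ D) * W1 ^ D := by ring
      _ = _ := by rw [hid2]; ring
  obtain ⟨Z, hZ⟩ := hdv
  have hZ2 : Z ^ 2 = C f.leadingCoeff * W1 ^ (t + D) * ∏ α ∈ T, (U1 - C α * W1) := by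
    refine mul_left_cancel₀ (pow_ne_zero 2 hW') ?_
    calc W' ^ 2 * Z ^ 2 = (V * W1 ^ D) ^ 2 := by rw [hZ]; ring
      _ = (V ^ 2 * W1 ^ D) * W1 ^ D := by ring
      _ = _ := by rw [hid2, pow_add]; ring
  obtain ⟨h1, h2⟩ := pencil_square U1 W1 hcop T (by omega) f.leadingCoeff ha _ Z hZ2
  have h3 := derivative_eq_zero.1 h1
  have h4 := derivative_eq_zero.1 h2
  refine ⟨g, U1.coeff 0, W1.coeff 0, ?_, ?_⟩
  · rw [← eq_C_of_natDegree_eq_zero h3, mul_comm]
    exact hU1
  · rw [← eq_C_of_natDegree_eq_zero h4, mul_comm]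
    exact hW1

/-- there are no nonconstant rational curves on the plane model -/
theorem hyp_curL {K : Type} [Field K] [CharZero K] (σ : K →+* L) (f : K[X]) (hf : Squarefree f)
    (h5 : 5 ≤ f.natDegree) : CurOff σ ({hyp f} : Set (MvPolynomial (Fin (2 + 1)) K)) {1} := by
  classical
  intro q hq _ i j a b
  have h0 := hq (hyp f) rfl
  set D := f.natDegree with hD
  set fC := f.map σ with hfC
  have hdeg : fC.natDegree = D := natDegree_map _
  have hsep : fC.Separable := (PerfectField.separable_iff_squarefree.2 hf).map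
  have hid : q 1 ^ 2 * q 2 ^ (D - 2) = ∑ k ∈ Finset.range (D + 1),
      C (fC.coeff k) * q 0 ^ k * q 2 ^ (D - k) := by
    have h1 : MvPolynomial.eval₂ (C.comp σ) q (hyp f) =
        q 1 ^ 2 * q 2 ^ (D - 2) - ∑ k ∈ Finset.range (D + 1),
          C (fC.coeff k) * q 0 ^ k * q 2 ^ (D - k) := by
      unfold hyp
      simp only [MvPolynomial.eval₂_sub, MvPolynomial.eval₂_mul, MvPolynomial.eval₂_pow,
        MvPolynomial.eval₂_X, MvPolynomial.eval₂_sum, MvPolynomial.eval₂_C, hfC, coeff_map,
        RingHom.comp_apply]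
      rfl
    rw [h1] at h0
    exact sub_eq_zero.1 h0
  -- all coordinates are multiples of one polynomial
  have hall : ∃ (g : L[X]) (c : Fin (2 + 1) → L), ∀ l, q l = C (c l) * g := by
    by_cases h2 : q 2 = 0
    · have h3 : q 0 = 0 := by
        rw [h2, zero_pow (by omega), mul_zero, Finset.sum_range_succ, Finset.sum_eq_zero,
          zero_add, Nat.sub_self, pow_zero, mul_one] at hid
        · have h4 : fC.coeff D ≠ 0 := by
            rw [← hdeg]
            exact leadingCoeff_ne_zero.2 (by
              intro h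
              rw [h, natDegree_zero] at hdeg
              omega)
          have h5' := (mul_eq_zero.1 hid.symm).resolve_left (C_ne_zero.2 h4)
          exact (pow_eq_zero_iff (by omega)).1 h5'
        · intro k hk
          have := Finset.mem_range.1 hk
          rw [zero_pow (by omega), mul_zero]
      refine ⟨q 1, ![0, 1, 0], fun l => ?_⟩
      fin_cases l
      · simpa using h3
      · simp
      · simpa using h2
    · obtain ⟨g, u, w, hU, hW⟩ := hyper_const fC hsep D (by omega) (by omega)
        (q 0) (q 2) (q 1) (q 2) h2 h2 (by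
          rw [← hid, mul_left_comm, ← pow_add, show 2 + (D - 2) = D by omega])
      have hg : g ≠ 0 := by
        rintro rfl
        exact h2 (by rw [hW, mul_zero])
      have hw : w ≠ 0 := by
        rintro rfl
        exact h2 (by rw [hW, C_0, zero_mul])
      set c : L := ∑ k ∈ Finset.range (D + 1), fC.coeff k * u ^ k * w ^ (D - k) with hc
      have h3 : q 1 ^ 2 * C (w ^ (D - 2)) = C c * g ^ 2 := by
        have h4 : g ^ (D - 2) * (q 1 ^ 2 * C (w ^ (D - 2))) = g ^ (D - 2) * (C c * g ^ 2) := by
          calc g ^ (D - 2) * (q 1 ^ 2 * C (w ^ (D - 2))) = q 1 ^ 2 * q 2 ^ (D - 2) := by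
                rw [hW, mul_pow, C_pow]
                ring
            _ = ∑ k ∈ Finset.range (D + 1), C (fC.coeff k * u ^ k * w ^ (D - k)) * g ^ D := by
                rw [hid]
                refine Finset.sum_congr rfl fun k hk => ?_
                have hk' : k ≤ D := Nat.lt_succ_iff.1 (Finset.mem_range.1 hk)
                have h6 : g ^ D = g ^ k * g ^ (D - k) := by
                  rw [← pow_add, Nat.add_sub_cancel' hk']
                rw [hU, hW, mul_pow, mul_pow, h6, C_mul, C_mul, C_pow, C_pow]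
                ring
            _ = C c * g ^ D := by
                rw [← Finset.sum_mul, hc, map_sum]
            _ = g ^ (D - 2) * (C c * g ^ 2) := by
                have h6 : g ^ D = g ^ (D - 2) * g ^ 2 := by
                  rw [← pow_add, Nat.sub_add_cancel (by omega)]
                rw [h6]
                ring
        exact mul_left_cancel₀ (pow_ne_zero _ hg) h4
      obtain ⟨s, hs⟩ := IsAlgClosed.exists_pow_nat_eq (c / w ^ (D - 2)) (n := 2) (by norm_num)
      have h7 : q 1 ^ 2 = (C s * g) ^ 2 := by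
        have hw2 : (C (w ^ (D - 2)) : L[X]) ≠ 0 := C_ne_zero.2 (pow_ne_zero _ hw)
        apply mul_right_cancel₀ hw2
        rw [h3, mul_pow, ← C_pow, hs]
        have h8 : (C c : L[X]) = C (c / w ^ (D - 2)) * C (w ^ (D - 2)) := by
          rw [← C_mul, div_mul_cancel₀ _ (pow_ne_zero _ hw)]
        rw [h8]
        ring
      rcases sq_eq_sq_iff_eq_or_eq_neg.1 h7 with h9 | h9
      · refine ⟨g, ![u, s, w], fun l => ?_⟩
        fin_cases l
        · simpa using hU
        · simpa using h9
        · simpa using hW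
      · refine ⟨g, ![u, -s, w], fun l => ?_⟩
        fin_cases l
        · simpa using hU
        · simpa using h9
        · simpa using hW
  obtain ⟨g, c, hc⟩ := hall
  rw [hc i, hc j]
  simp only [eval_mul, eval_C]
  ring

end Pool.Agent.Run7.h983.Hy
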