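import Pool.Agent.Run7.h983.W1

/-!
P-recursive sequences of points on the members of a family of hyperelliptic curves.
-/

set_option autoImplicit false

namespace Pool.Agent.Run7.h983

open Polynomial Pool.Agent.N419.HQ Pool.Agent.N419.HU

/-- the plane model over a ring -/
noncomputable def hypR {R : Type} [CommRing R] (f : R[X]) : MvPolynomial (Fin 3) R :=
  MvPolynomial.X 1 ^ 2 * MvPolynomial.X 2 ^ (f.natDegree - 2) -
    ∑ k ∈ Finset.range (f.natDegree + 1),
      MvPolynomial.C (f.coeff k) * MvPolynomial.X 0 ^ k * MvPolynomial.X 2 ^ (f.natDegree - k)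

theorem hypR_hom {R : Type} [CommRing R] (f : R[X]) (h2 : 2 ≤ f.natDegree) :
    (hypR f).IsHomogeneous f.natDegree := by
  unfold hypR
  refine MvPolynomial.IsHomogeneous.sub ?_ ?_
  · have h1 := (MvPolynomial.isHomogeneous_X_pow (R := R) (1 : Fin 3) 2).mul
      (MvPolynomial.isHomogeneous_X_pow (R := R) (2 : Fin 3) (f.natDegree - 2))
    rwa [show 2 + (f.natDegree - 2) = f.natDegree by omega] at h1
  · refine MvPolynomial.IsHomogeneous.sum _ _ _ fun k hk => ?_
    have h1 := ((MvPolynomial.isHomogeneous_C (Fin 3) (f.coeff k)).mul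
      (MvPolynomial.isHomogeneous_X_pow (R := R) (0 : Fin 3) k)).mul
      (MvPolynomial.isHomogeneous_X_pow (R := R) (2 : Fin 3) (f.natDegree - k))
    have hk' : k ≤ f.natDegree := Nat.lt_succ_iff.1 (Finset.mem_range.1 hk)
    rwa [show 0 + k + (f.natDegree - k) = f.natDegree by omega] at h1

theorem hypR_map {R K : Type} [CommRing R] [Field K] (φ : R →+* K) (hφ : Function.Injective φ)
    (f : R[X]) : MvPolynomial.map φ (hypR f) = hyp (f.map φ) := by
  unfold hypR hyp
  rw [natDegree_map_eq_of_injective hφ]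
  simp only [map_sub, map_mul, map_pow, MvPolynomial.map_X, map_sum, MvPolynomial.map_C, coeff_map]

theorem hypR_curOff {R W : Type} [CommRing R] [IsDomain R] [CharZero R] [Field W] [IsAlgClosed W]
    (σ : R →+* W) (hσ : Function.Injective σ) (K : Type) [Field K] [Algebra R K]
    [IsFractionRing R K] (f : R[X]) (hf : Squarefree (f.map (algebraMap R K)))
    (h5 : 5 ≤ f.natDegree) : CurOff σ ({hypR f} : Set (MvPolynomial (Fin (2 + 1)) R)) {1} := by
  have hφ : Function.Injective (algebraMap R K) := IsFractionRing.injective R K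
  have : CharZero K := charZero_of_injective_algebraMap hφ
  have : CharZero W := ⟨fun u u' huv => by
    have h2 : σ (u : R) = σ (u' : R) := by
      rw [map_natCast, map_natCast]
      exact huv
    exact_mod_cast hσ h2⟩
  let τ : K →+* W := IsFractionRing.lift hσ
  have h1 : τ.comp (algebraMap R K) = σ := RingHom.ext fun x => IsFractionRing.lift_algebraMap hσ x
  rw [← h1, ← curOff_map, Set.image_singleton, Set.image_singleton, map_one]
  have h2 := Hy.hyp_curL τ (f.map (algebraMap R K)) hf (by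
    rw [natDegree_map_eq_of_injective hφ]
    exact h5)
  have h3 : MvPolynomial.map (algebraMap R K) (hypR f) = hyp (f.map (algebraMap R K)) :=
    hypR_map _ hφ f
  intro q hq hG
  exact h2 q (fun F hF => hq F (by
    rw [Set.mem_singleton_iff.1 hF]
    exact h3.symm)) hG

theorem ratFunc_eval_div {k : Type} [Field k] [CharZero k] (p r : k[X]) (hr : r ≠ 0) :
    ∃ N : ℕ, ∀ m : ℕ, N ≤ m → r.eval (m : k) ≠ 0 ∧
      RatFunc.eval (RingHom.id k) (m : k) (algebraMap k[X] (RatFunc k) p /
        algebraMap k[X] (RatFunc k) r) = p.eval (m : k) / r.eval (m : k) := by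
  set ξ : RatFunc k := algebraMap k[X] (RatFunc k) p / algebraMap k[X] (RatFunc k) r with hξ
  have hinj : Function.Injective (algebraMap k[X] (RatFunc k)) := IsFractionRing.injective _ _
  have hr0 : algebraMap k[X] (RatFunc k) r ≠ 0 := fun h => hr (hinj (by rw [h, map_zero]))
  have hd0 : algebraMap k[X] (RatFunc k) ξ.denom ≠ 0 := fun h =>
    RatFunc.denom_ne_zero ξ (hinj (by rw [h, map_zero]))
  have h1 : ξ.num * r = p * ξ.denom := by
    apply hinj
    rw [map_mul, map_mul]
    have h2 := RatFunc.num_div_denom ξ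
    have h3 : algebraMap k[X] (RatFunc k) ξ.num / algebraMap k[X] (RatFunc k) ξ.denom =
        algebraMap k[X] (RatFunc k) p / algebraMap k[X] (RatFunc k) r := h2
    rw [div_eq_div_iff hd0 hr0] at h3
    exact h3
  obtain ⟨N1, hN1⟩ := Runs_large hr
  obtain ⟨N2, hN2⟩ := Runs_large (RatFunc.denom_ne_zero ξ)
  refine ⟨max N1 N2, fun m hm => ?_⟩
  have h4 := hN1 m (le_trans (le_max_left _ _) hm)
  have h5 := hN2 m (le_trans (le_max_right _ _) hm)
  refine ⟨h4, ?_⟩
  have h6 := congrArg (Polynomial.eval (m : k)) h1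
  rw [eval_mul, eval_mul] at h6
  rw [RatFunc.eval]
  change ξ.num.eval₂ (RingHom.id k) (m : k) / ξ.denom.eval₂ (RingHom.id k) (m : k) = _
  rw [eval₂_id, eval₂_id, div_eq_div_iff h5 h4]
  exact h6

/-- P-recursive sequences of points on the curves `y ^ 2 = f(m, x)` -/
theorem hyp_fam (D t : ℕ) : ∃ B : ℕ, ∀ (k : Type) [Field k] [CharZero k] (f : k[X][X]),
    Squarefree (f.map (algebraMap k[X] (RatFunc k))) → 5 ≤ f.natDegree → f.natDegree ≤ D →
    ∀ x y : ℕ → k,
    (∃ p : Fin (t + 1) → k[X], p ≠ 0 ∧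
        ∀ m : ℕ, ∑ i : Fin (t + 1), (p i).eval (m : k) * x (m + i) = 0) →
    (∃ p : Fin (t + 1) → k[X], p ≠ 0 ∧
        ∀ m : ℕ, ∑ i : Fin (t + 1), (p i).eval (m : k) * y (m + i) = 0) →
    (∃ M : ℕ, ∀ m ≥ M, y m ^ 2 = (f.map (evalRingHom (m : k))).eval (x m)) →
    ∃ P : Finset (RatFunc k × RatFunc k), P.card ≤ B ∧
      (∀ p ∈ P, p.2 ^ 2 = (f.map (algebraMap k[X] (RatFunc k))).eval p.1) ∧
      ∃ T : ℕ, 1 ≤ T ∧ ∀ a : ℕ, ∃ p ∈ P, ∃ M : ℕ, ∀ m ≥ M, m % T = a % T →
        x m = RatFunc.eval (RingHom.id k) (m : k) p.1 ∧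
        y m = RatFunc.eval (RingHom.id k) (m : k) p.2 := by
  classical
  obtain ⟨B, hB⟩ := fam_all 2 D (t + 1)
  refine ⟨B, ?_⟩
  intro k _ _ f hf h5 hD x y hx hy hon
  obtain ⟨M0, hM0⟩ := hon
  let alg : k[X] →+* RatFunc k := algebraMap k[X] (RatFunc k)
  have halg : Function.Injective alg := IsFractionRing.injective _ _
  let W := AlgebraicClosure (RatFunc k)
  let σ : k[X] →+* W := (algebraMap (RatFunc k) W).comp alg
  have hσ : Function.Injective σ := (algebraMap (RatFunc k) W).injective.comp halg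
  obtain ⟨c, hcF, T, hT, hcl⟩ := hB k {hypR f} (by
    intro F hF
    rw [Set.mem_singleton_iff.1 hF]
    exact ⟨f.natDegree, hD, hypR_hom f (by omega)⟩) 1
    ⟨0, Nat.zero_le _, MvPolynomial.isHomogeneous_one _ _⟩ W σ hσ
    (hypR_curOff σ hσ (RatFunc k) f hf h5) (fun m => ![x m, y m, 1]) (by
    intro j
    fin_cases j
    · exact rec_pad (Nat.le_succ t) x hx
    · exact rec_pad (Nat.le_succ t) y hy
    · refine rec_pad (d' := 1) (by omega) (fun _ => (1 : k)) ⟨![1, -1], ?_, fun m => ?_⟩
      · intro h0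
        have := congrFun h0 0
        simp at this
      · rw [Fin.sum_univ_two]
        simp) ⟨M0, by
    intro m hm F hF
    rw [Set.mem_singleton_iff.1 hF]
    have h1 := hM0 m hm
    unfold hypR
    simp only [MvPolynomial.eval₂_sub, MvPolynomial.eval₂_mul, MvPolynomial.eval₂_pow,
      MvPolynomial.eval₂_X, MvPolynomial.eval₂_sum, MvPolynomial.eval₂_C]
    simp only [Matrix.cons_val_zero, Matrix.cons_val_one, Matrix.cons_val, one_pow, mul_one]
    rw [h1, eval_eq_sum_range' (lt_of_le_of_lt natDegree_map_le (Nat.lt_succ_self _)), sub_eq_zero]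
    refine Finset.sum_congr rfl fun l _ => ?_
    rw [coeff_map]⟩
  let P : Finset (RatFunc k × RatFunc k) := (Finset.univ.filter fun i : Fin B => c i 2 ≠ 0).image
    fun i => (alg (c i 0) / alg (c i 2), alg (c i 1) / alg (c i 2))
  refine ⟨P, ?_, ?_, T, hT, fun a => ?_⟩
  · refine Finset.card_image_le.trans ((Finset.card_filter_le _ _).trans ?_)
    simp
  · intro p hp
    obtain ⟨i, hi, rfl⟩ := Finset.mem_image.1 hp
    have hi2 : c i 2 ≠ 0 := (Finset.mem_filter.1 hi).2
    have hi3 : alg (c i 2) ≠ 0 := fun h => hi2 (halg (by rw [h, map_zero]))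
    have h1 := congrArg alg (hcF i (hypR f) rfl)
    have h2 : alg (MvPolynomial.eval₂ (RingHom.id k[X]) (c i) (hypR f)) =
        MvPolynomial.eval₂ (alg.comp (RingHom.id k[X])) (alg ∘ c i) (hypR f) :=
      MvPolynomial.eval₂_comp_left _ _ _ _
    rw [RingHom.comp_id] at h2
    have h3 : MvPolynomial.eval (alg ∘ c i) (hyp (f.map alg)) = 0 := by
      rw [← hypR_map alg halg, MvPolynomial.eval_map, ← h2]
      rw [map_zero] at h1
      exact h1
    rw [hyp_eval (f.map alg) (alg ∘ c i) hi3 (by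
      rw [natDegree_map_eq_of_injective halg]
      omega)] at h3
    exact sub_eq_zero.1 ((mul_eq_zero.1 h3).resolve_left (pow_ne_zero _ hi3))
  · rcases hcl a with ⟨N, hN⟩ | ⟨i, N, hN⟩
    · exfalso
      have h1 := hN (a + T * N) (by nlinarith) (by simp)
      rw [MvPolynomial.eval₂_one] at h1
      exact one_ne_zero h1
    · have hi2 : c i 2 ≠ 0 := by
        intro h0
        obtain ⟨s, hs⟩ := hN (a + T * N) (by nlinarith) (by simp)
        have e2 := congrFun hs 2
        simp only [Matrix.cons_val] at e2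
        rw [h0, eval_zero, mul_zero] at e2
        exact one_ne_zero e2
      obtain ⟨N0, hN0⟩ := ratFunc_eval_div (c i 0) (c i 2) hi2
      obtain ⟨N1, hN1⟩ := ratFunc_eval_div (c i 1) (c i 2) hi2
      refine ⟨_, Finset.mem_image.2 ⟨i, Finset.mem_filter.2 ⟨Finset.mem_univ _, hi2⟩, rfl⟩,
        max N (max N0 N1), fun m hm hma => ?_⟩
      obtain ⟨s, hs⟩ := hN m (le_trans (le_max_left _ _) hm) hma
      obtain ⟨h3, h4⟩ := hN0 m (le_trans ((le_max_left _ _).trans (le_max_right _ _)) hm)
      obtain ⟨-, h5'⟩ := hN1 m (le_trans ((le_max_right _ _).trans (le_max_right _ _)) hm)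
      have e0 := congrFun hs 0
      have e1 := congrFun hs 1
      have e2 := congrFun hs 2
      simp only [Matrix.cons_val_zero, Matrix.cons_val_one, Matrix.cons_val] at e0 e1 e2
      have hs' : s = 1 / (c i 2).eval (m : k) := by
        rw [eq_div_iff h3, e2]
      refine ⟨?_, ?_⟩
      · change x m = RatFunc.eval (RingHom.id k) (m : k) (algebraMap k[X] (RatFunc k) (c i 0) /
          algebraMap k[X] (RatFunc k) (c i 2))
        rw [h4, e0, hs']
        ring
      · change y m = RatFunc.eval (RingHom.id k) (m : k) (algebraMap k[X] (RatFunc k) (c i 1) /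
          algebraMap k[X] (RatFunc k) (c i 2))
        rw [h5', e1, hs']
        ring

end Pool.Agent.Run7.h983
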