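import Pool.Agent.Run7.h983.V9

/-!
One variety over an arbitrary field of characteristic zero.
-/

set_option autoImplicit false

namespace Pool.Agent.Run7.h983

open Polynomial Matrix Pool.Agent.TH717.GO Pool.Agent.Y377.ST Pool.Agent.N419.HQ
  Pool.Agent.N419.HU Pool.Agent.H391R2

/-- P-recursive sequences of points on one variety, over arbitrary fields of characteristic zero -/
theorem seq_any (n d t : ℕ) : ∃ B : ℕ, ∀ (k : Type) [Field k] [CharZero k]
    (FF : Set (MvPolynomial (Fin (n + 1)) k)), (∀ F ∈ FF, ∃ m ≤ d, F.IsHomogeneous m) →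
    ∀ (W : Type) [Field W] [IsAlgClosed W] (σ : k →+* W), CurOff σ FF {1} →
    ∀ x : ℕ → Fin (n + 1) → k,
      (∀ j, ∃ p : Fin (t + 1) → k[X], p ≠ 0 ∧
        ∀ m : ℕ, ∑ i : Fin (t + 1), (p i).eval (m : k) * x (m + i) j = 0) →
      (∃ N : ℕ, ∀ m ≥ N, ∀ F ∈ FF, MvPolynomial.eval (x m) F = 0) →
      ∃ c : Fin B → Fin (n + 1) → k, ∃ T : ℕ, 1 ≤ T ∧ ∀ a : ℕ, ∃ i, ∃ N : ℕ, ∀ m ≥ N,
        m % T = a % T → ∃ s : k, x m = s • c i := by
  classical
  obtain ⟨B, hB⟩ := fam_all n d t
  refine ⟨B, fun k _ _ FF hFF W _ _ σ hcur x hx hX => ?_⟩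
  let W' := AlgebraicClosure (RatFunc k)
  let σ' : k[X] →+* W' := (algebraMap (RatFunc k) W').comp (algebraMap k[X] (RatFunc k))
  have hσ' : Function.Injective σ' :=
    (algebraMap (RatFunc k) W').injective.comp (IsFractionRing.injective _ _)
  have hcur' : CurOff σ' (MvPolynomial.map C '' FF) {1} := by
    have h1 : (MvPolynomial.map (C : k →+* k[X])) ''
        ({1} : Set (MvPolynomial (Fin (n + 1)) k)) = {1} := by
      rw [Set.image_singleton, map_one]
    rw [← h1, curOff_map]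
    exact curOff_gen σ (σ'.comp C) σ.injective (σ'.comp C).injective _ _ hcur
  have hev : ∀ (m : ℕ) (y : Fin (n + 1) → k) (F : MvPolynomial (Fin (n + 1)) k),
      MvPolynomial.eval₂ (evalRingHom (m : k)) y (MvPolynomial.map C F) =
        MvPolynomial.eval y F := by
    intro m y F
    rw [MvPolynomial.eval₂_map]
    have : (evalRingHom (m : k)).comp C = RingHom.id k := by
      ext z
      simp
    rw [this]
    rfl
  obtain ⟨c, hc, T, hT, hcl⟩ := hB k (MvPolynomial.map C '' FF) (by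
    rintro _ ⟨F, hF, rfl⟩
    obtain ⟨m, hm, h⟩ := hFF F hF
    exact ⟨m, hm, h.map _⟩) 1 ⟨0, Nat.zero_le _, MvPolynomial.isHomogeneous_one _ _⟩ W' σ' hσ'
    hcur' x hx (by
    obtain ⟨N, hN⟩ := hX
    refine ⟨N, ?_⟩
    rintro m hm _ ⟨F, hF, rfl⟩
    rw [hev]
    exact hN m hm F hF)
  -- the sections are constant
  have hconst : ∀ i p q (a b : k), (c i p).eval a * (c i q).eval b =
      (c i q).eval a * (c i p).eval b := by
    intro i p q a b
    have h1 := hcur (fun j => (c i j).map σ) (fun F hF => by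
      have h2 := hc i _ ⟨F, hF, rfl⟩
      rw [MvPolynomial.eval_map] at h2
      have h3 := comp_map_eval₂ σ (RingHom.id k) (c i) F
      rw [RingHom.comp_id, RingHom.comp_id] at h3
      rw [← h3, h2, Polynomial.map_zero]) ⟨1, rfl, by
      rw [MvPolynomial.eval₂_one]
      exact one_ne_zero⟩ p q (σ a) (σ b)
    simp only [eval_map, eval₂_at_apply, ← map_mul] at h1
    exact σ.injective h1
  have hb : ∀ i, ∃ b : ℕ, c i = 0 ∨ (fun j => (c i j).eval (b : k)) ≠ 0 := by
    intro i
    by_cases h : c i = 0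
    · exact ⟨0, Or.inl h⟩
    · obtain ⟨b, hb⟩ := exists_nat_ne (c i) h
      exact ⟨b, Or.inr hb⟩
  choose b hb using hb
  refine ⟨fun i j => (c i j).eval (b i : k), T, hT, fun a => ?_⟩
  rcases hcl a with ⟨N, hN⟩ | ⟨i, N, hN⟩
  · exfalso
    have h1 := hN (a + T * N) (by nlinarith) (by simp)
    rw [MvPolynomial.eval₂_one] at h1
    exact one_ne_zero h1
  · refine ⟨i, N, fun m hm hma => ?_⟩
    obtain ⟨s, hs⟩ := hN m hm hma
    rcases hb i with h0 | h0
    · refine ⟨0, ?_⟩
      rw [hs, zero_smul, h0]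
      funext j
      simp
    · obtain ⟨j0, hj0⟩ := Function.ne_iff.1 h0
      have hj0' : (c i j0).eval (b i : k) ≠ 0 := hj0
      refine ⟨s * ((c i j0).eval (m : k) / (c i j0).eval (b i : k)), ?_⟩
      rw [hs]
      funext j
      rw [Pi.smul_apply, smul_eq_mul, mul_assoc]
      congr 1
      rw [div_mul_eq_mul_div, eq_div_iff hj0']
      exact hconst i j j0 _ _

/-- representatives of finitely many points -/
theorem reps_of_encard {E H : Type} [Field E] {n B : ℕ} (x : H → Fin (n + 1) → E)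
    (h1 : (offPts {1} x).encard ≤ (B : ℕ∞)) :
    ∃ c : Fin (B + 1) → Fin (n + 1) → E, ∀ h, ∃ i, ∃ s : E, x h = s • c i := by
  classical
  have hfin : (offPts {1} x).Finite := Set.finite_of_encard_le_coe h1
  have hcard : hfin.toFinset.card ≤ B := by
    rw [hfin.encard_eq_coe_toFinset_card] at h1
    exact_mod_cast h1
  let e := hfin.toFinset.equivFin
  refine ⟨fun i => if hi : (i : ℕ) < hfin.toFinset.card then
    (((e.symm ⟨i, hi⟩ : hfin.toFinset) : Projectivization E (Fin (n + 1) → E))).rep else 0, ?_⟩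
  intro h
  by_cases h0 : x h = 0
  · exact ⟨0, 0, by rw [zero_smul]; exact h0⟩
  · have hm : Projectivization.mk E (x h) h0 ∈ hfin.toFinset := by
      rw [Set.Finite.mem_toFinset]
      exact ⟨h, h0, ⟨1, rfl, by rw [map_one]; exact one_ne_zero⟩, rfl⟩
    have hlt : ((e ⟨_, hm⟩ : Fin _) : ℕ) < hfin.toFinset.card := (e ⟨_, hm⟩).2
    refine ⟨⟨(e ⟨_, hm⟩ : Fin _), by omega⟩, ?_⟩
    simp only [hlt, dif_pos]
    have h2 : e.symm ⟨((e ⟨_, hm⟩ : Fin _) : ℕ), hlt⟩ = ⟨_, hm⟩ := by
      have : (⟨((e ⟨_, hm⟩ : Fin _) : ℕ), hlt⟩ : Fin hfin.toFinset.card) = e ⟨_, hm⟩ := rfl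
      rw [this, Equiv.symm_apply_apply]
    rw [h2]
    obtain ⟨a, ha⟩ := Projectivization.exists_smul_eq_mk_rep E (x h) h0
    refine ⟨((a⁻¹ : Eˣ) : E), ?_⟩
    rw [← ha, Units.smul_def, smul_smul, Units.inv_mul, one_smul]

/-- a representation of a finitely generated group is defined over a finitely generated field -/
theorem lift_rep {k : Type} [Field k] [CharZero k] {H : Type} [Group H] {r : ℕ}
    (ρ : H →* GL (Fin r) k) (S : Set H) (hS : Subgroup.closure S = ⊤) (K : IntermediateField ℚ k)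
    (h1 : ∀ g ∈ S, ∀ i j, (ρ g : Matrix (Fin r) (Fin r) k) i j ∈ K)
    (h2 : ∀ g ∈ S, ∀ i j, ((ρ g)⁻¹ : GL (Fin r) k).val i j ∈ K) :
    ∃ ρ0 : H →* GL (Fin r) K, ∀ h,
      (ρ h : Matrix (Fin r) (Fin r) k) =
        (ρ0 h : Matrix (Fin r) (Fin r) K).map (algebraMap K k) := by
  classical
  let f : GL (Fin r) K →* GL (Fin r) k := Matrix.GeneralLinearGroup.map (algebraMap K k)
  have hfv : ∀ A : GL (Fin r) K, (f A : Matrix (Fin r) (Fin r) k) =
      (A : Matrix (Fin r) (Fin r) K).map (algebraMap K k) := fun A => rfl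
  have hf : Function.Injective f := by
    intro A A' h
    apply Units.ext
    ext i j
    have h3 := congrArg (fun u : GL (Fin r) k => (u : Matrix (Fin r) (Fin r) k) i j) h
    have h4 : ((A : Matrix (Fin r) (Fin r) K) i j : k) = ((A' : Matrix (Fin r) (Fin r) K) i j : k) :=
      h3
    exact_mod_cast h4
  have hle : (⊤ : Subgroup H) ≤ f.range.comap ρ := by
    rw [← hS, Subgroup.closure_le]
    intro g hg
    let A : Matrix (Fin r) (Fin r) K := Matrix.of fun i j => ⟨_, h1 g hg i j⟩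
    let A' : Matrix (Fin r) (Fin r) K := Matrix.of fun i j => ⟨_, h2 g hg i j⟩
    have hA : A.map (algebraMap K k) = (ρ g : Matrix (Fin r) (Fin r) k) := by
      ext i j
      rfl
    have hA' : A'.map (algebraMap K k) = ((ρ g)⁻¹ : GL (Fin r) k).val := by
      ext i j
      rfl
    have hinj : Function.Injective fun B : Matrix (Fin r) (Fin r) K => B.map (algebraMap K k) :=
      Matrix.map_injective (algebraMap K k).injective
    have e1 : A * A' = 1 := by
      apply hinj
      simp only [Matrix.map_mul]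
      rw [hA, hA', Matrix.map_one _ (map_zero _) (map_one _)]
      exact (ρ g).mul_inv
    have e2 : A' * A = 1 := by
      apply hinj
      simp only [Matrix.map_mul]
      rw [hA, hA', Matrix.map_one _ (map_zero _) (map_one _)]
      exact (ρ g).inv_mul
    refine ⟨⟨A, A', e1, e2⟩, ?_⟩
    apply Units.ext
    exact hA
  have hr : ∀ h, ρ h ∈ f.range := fun h => hle (Subgroup.mem_top h)
  let e : GL (Fin r) K ≃* f.range := MonoidHom.ofInjective hf
  refine ⟨e.symm.toMonoidHom.comp (ρ.codRestrict f.range hr), fun h => ?_⟩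
  have h3 : f (e.symm ⟨ρ h, hr h⟩) = ρ h := by
    have h4 : e (e.symm ⟨ρ h, hr h⟩) = ⟨ρ h, hr h⟩ := e.apply_symm_apply _
    exact congrArg Subtype.val h4
  have h5 := congrArg (fun u : GL (Fin r) k => (u : Matrix (Fin r) (Fin r) k)) h3
  exact h5.symm

end Pool.Agent.Run7.h983
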