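import Pool.Agent.Run7.h983.X1

/-!
Orbits of finitely generated matrix groups over arbitrary fields of characteristic zero;
polynomial families of points on rational curves.
-/

set_option autoImplicit false

namespace Pool.Agent.Run7.h983

open Polynomial Matrix Pool.Agent.TH717.GO Pool.Agent.Y377.ST Pool.Agent.N419.HQ
  Pool.Agent.N419.HU Pool.Agent.H391R2

/-- orbits of finitely generated groups on one variety, over arbitrary fields of characteristic
zero -/
theorem orb_any (n d r : ℕ) : ∃ B : ℕ, ∀ (k : Type) [Field k] [CharZero k]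
    (FF : Set (MvPolynomial (Fin (n + 1)) k)), (∀ F ∈ FF, ∃ m ≤ d, F.IsHomogeneous m) →
    ∀ (W : Type) [Field W] [IsAlgClosed W] (σ : k →+* W), CurOff σ FF {1} →
    ∀ (H : Type) [Group H] [Group.FG H] (ρ : H →* GL (Fin r) k)
      (M : Matrix (Fin (n + 1)) (Fin r) k) (v : Fin r → k),
      (∀ h, ∀ F ∈ FF, MvPolynomial.eval
        (M.mulVec ((ρ h : Matrix (Fin r) (Fin r) k).mulVec v)) F = 0) →
      ∃ c : Fin B → Fin (n + 1) → k, ∀ h, ∃ i, ∃ s : k,
        M.mulVec ((ρ h : Matrix (Fin r) (Fin r) k).mulVec v) = s • c i := by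
  classical
  obtain ⟨B, hB⟩ := uniform_all n d 1 r 1
  refine ⟨B + 1, ?_⟩
  intro k _ _ FF hFF W _ _ σ hcur H _ hfg ρ M v hX
  obtain ⟨F0, hF0, hF0'⟩ := exists_finite_eqs FF
  obtain ⟨S, hS⟩ := Group.fg_def.1 hfg
  let SS : Finset k := (F0.biUnion fun F => F.coeffs) ∪
    (Finset.univ.biUnion fun i => Finset.univ.image fun j => M i j) ∪
    (Finset.univ.image v) ∪
    (S.biUnion fun g => Finset.univ.biUnion fun i => Finset.univ.image fun j =>
      (ρ g : Matrix (Fin r) (Fin r) k) i j) ∪
    (S.biUnion fun g => Finset.univ.biUnion fun i => Finset.univ.image fun j =>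
      ((ρ g)⁻¹ : GL (Fin r) k).val i j)
  set K := IntermediateField.adjoin ℚ (SS : Set k) with hKdef
  have hSS : ∀ a ∈ SS, a ∈ K := fun a ha => IntermediateField.subset_adjoin ℚ _ ha
  have hcount : Countable K := countable_adjoin SS
  obtain ⟨ι⟩ := Pool.Agent.Y899.ILPER.emb_complex K
  let τ : K →+* k := algebraMap K k
  have hτ : Function.Injective τ := τ.injective
  obtain ⟨ρ0, hρ0⟩ := lift_rep ρ (S : Set H) hS K (by
    intro g hg i j
    apply hSS
    simp only [SS, Finset.mem_union, Finset.mem_biUnion, Finset.mem_image, Finset.mem_univ,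
      true_and]
    exact Or.inl (Or.inr ⟨g, hg, i, j, rfl⟩)) (by
    intro g hg i j
    apply hSS
    simp only [SS, Finset.mem_union, Finset.mem_biUnion, Finset.mem_image, Finset.mem_univ,
      true_and]
    exact Or.inr ⟨g, hg, i, j, rfl⟩)
  have hMK : ∀ i j, M i j ∈ K := by
    intro i j
    apply hSS
    simp only [SS, Finset.mem_union, Finset.mem_biUnion, Finset.mem_image, Finset.mem_univ,
      true_and]
    exact Or.inl (Or.inl (Or.inl (Or.inr ⟨i, j, rfl⟩)))
  have hvK : ∀ j, v j ∈ K := by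
    intro j
    apply hSS
    simp only [SS, Finset.mem_union, Finset.mem_biUnion, Finset.mem_image, Finset.mem_univ,
      true_and]
    exact Or.inl (Or.inl (Or.inr ⟨j, rfl⟩))
  let M0 : Matrix (Fin (n + 1)) (Fin r) K := Matrix.of fun i j => ⟨M i j, hMK i j⟩
  let v0 : Fin r → K := fun j => ⟨v j, hvK j⟩
  have hM0 : M0.map τ = M := by
    ext i j
    rfl
  have hFK : ∀ F ∈ F0, ∃ F' : MvPolynomial (Fin (n + 1)) K, MvPolynomial.map τ F' = F := by
    intro F hF
    have h1 : F ∈ Set.range (MvPolynomial.map (σ := Fin (n + 1)) τ) := by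
      rw [MvPolynomial.mem_range_map_iff_coeffs_subset]
      intro a ha
      have h2 : a ∈ K := by
        apply hSS
        simp only [SS, Finset.mem_union, Finset.mem_biUnion]
        exact Or.inl (Or.inl (Or.inl (Or.inl ⟨F, hF, ha⟩)))
      exact ⟨⟨a, h2⟩, rfl⟩
    exact h1
  let FF' : Set (MvPolynomial (Fin (n + 1)) K) := {F' | MvPolynomial.map τ F' ∈ F0}
  have hx0 : ∀ h, M.mulVec ((ρ h : Matrix (Fin r) (Fin r) k).mulVec v) =
      fun j => τ (M0.mulVec ((ρ0 h : Matrix (Fin r) (Fin r) K).mulVec v0) j) := by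
    intro h
    have e1 : (fun j => τ (v0 j)) = v := rfl
    rw [← main_mulVec_map τ M0, ← main_mulVec_map τ (ρ0 h : Matrix (Fin r) (Fin r) K) v0, e1,
      hM0, hρ0 h]
  have hcur' : CurIn ι FF' {1} := by
    have h1 : CurOff ι FF' {1} := by
      refine curOff_gen (σ.comp τ) ι (σ.comp τ).injective ι.injective FF' {1} ?_
      intro q hq _
      have h2 : ∀ F' : MvPolynomial (Fin (n + 1)) K,
          MvPolynomial.eval₂ (C.comp (σ.comp τ)) q F' =
            MvPolynomial.eval₂ (C.comp σ) q (MvPolynomial.map τ F') := by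
        intro F'
        rw [MvPolynomial.eval₂_map]
        rfl
      refine hcur q ?_ ⟨1, rfl, by
        rw [MvPolynomial.eval₂_one]
        exact one_ne_zero⟩
      intro F hF
      refine hF0' W[X] (MvPolynomial.eval₂Hom (C.comp σ) q) ?_ F hF
      intro F hF
      obtain ⟨F', hF'⟩ := hFK F hF
      have h3 := hq F' (by
        change MvPolynomial.map τ F' ∈ F0
        rw [hF']
        exact hF)
      rw [h2, hF'] at h3
      exact h3
    exact h1
  have h1 := hB K ι FF' {1} (by
    intro F' hF'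
    obtain ⟨m, hm, h⟩ := hFF _ (hF0 hF')
    exact ⟨m, hm, h.of_map hτ⟩) (by
    intro F hF
    rw [Set.mem_singleton_iff.1 hF]
    exact ⟨0, Nat.zero_le _, MvPolynomial.isHomogeneous_one _ _⟩) hcur' H (orb M0 ρ0 v0)
    (iterVec_orb M0 ρ0 v0) (by
    intro h F' hF'
    apply hτ
    rw [map_zero]
    have h2 := hX h _ (hF0 hF')
    rw [hx0 h, MvPolynomial.eval_map] at h2
    have h3 : τ (MvPolynomial.eval₂ (RingHom.id K) (orb M0 ρ0 v0 h) F') =
        MvPolynomial.eval₂ (τ.comp (RingHom.id K)) (τ ∘ orb M0 ρ0 v0 h) F' :=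
      MvPolynomial.eval₂_comp_left _ _ _ _
    rw [RingHom.comp_id] at h3
    exact h3.trans h2)
  obtain ⟨c, hc⟩ := reps_of_encard (orb M0 ρ0 v0) h1
  refine ⟨fun i j => τ (c i j), fun h => ?_⟩
  obtain ⟨i, s, hs⟩ := hc h
  refine ⟨i, τ s, ?_⟩
  rw [hx0 h]
  funext j
  have h2 : M0.mulVec ((ρ0 h : Matrix (Fin r) (Fin r) K).mulVec v0) j = s * c i j :=
    congrFun hs j
  rw [h2, map_mul]
  rfl

/-- a nonzero vector of polynomials is a multiple of a unimodular one -/
theorem primitive {k : Type} [Field k] {n : ℕ} (q : Fin (n + 1) → k[X]) (hq : q ≠ 0) :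
    ∃ (g : k[X]) (q' a : Fin (n + 1) → k[X]), g ≠ 0 ∧ (∀ i, q i = g * q' i) ∧
      ∑ i, a i * q' i = 1 := by
  let I : Ideal k[X] := Ideal.span (Set.range q)
  let g := Submodule.IsPrincipal.generator I
  have h1 : ∀ i, g ∣ q i := fun i =>
    (Submodule.IsPrincipal.mem_iff_generator_dvd I).1 (Ideal.subset_span ⟨i, rfl⟩)
  choose q' hq' using h1
  have hg : g ≠ 0 := by
    intro h0
    apply hq
    funext i
    rw [hq' i, h0, zero_mul]
    rfl
  have h2 : g ∈ Ideal.span (Set.range q) := Submodule.IsPrincipal.generator_mem I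
  obtain ⟨a, ha⟩ := (Ideal.mem_span_range_iff_exists_fun).1 h2
  refine ⟨g, q', a, hg, hq', ?_⟩
  apply mul_left_cancel₀ hg
  rw [mul_one, Finset.mul_sum]
  conv_rhs => rw [← ha]
  refine Finset.sum_congr rfl fun i _ => ?_
  rw [hq' i]
  ring

/-- polynomials are P-recursive -/
theorem prec_poly {k : Type} [Field k] (p : k[X]) : PRec fun m => p.eval (m : k) := by
  by_cases hp : p = 0
  · refine ⟨0, fun _ => 1, fun h => ?_, fun m => ?_⟩
    · exact one_ne_zero (congrFun h 0)
    · simp [hp]
  · refine ⟨1, ![-(p.comp (X + 1)), p], fun h => ?_, fun m => ?_⟩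
    · exact hp (congrFun h 1)
    · rw [Fin.sum_univ_two]
      simp only [Matrix.cons_val_zero, Matrix.cons_val_one, eval_neg, eval_comp, eval_add, eval_X,
        eval_one]
      simp only [Fin.val_zero, Fin.val_one, add_zero]
      push_cast
      ring

/-- a curve with infinitely many parameters that give the same point is constant -/
theorem const_of_inf {k : Type} [Field k] {n : ℕ} (q : Fin (n + 1) → k[X])
    (y : Fin (n + 1) → k) (S : Set k) (hS : S.Infinite)
    (h : ∀ m ∈ S, ∃ s : k, (fun j => (q j).eval m) = s • y) (i j : Fin (n + 1)) (a b : k) :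
    (q i).eval a * (q j).eval b = (q j).eval a * (q i).eval b := by
  have h1 : ∀ i j, q i * C (y j) = q j * C (y i) := by
    intro i j
    apply Polynomial.eq_of_infinite_eval_eq
    refine hS.mono fun m hm => ?_
    obtain ⟨s, hs⟩ := h m hm
    have e1 : (q i).eval m = s * y i := congrFun hs i
    have e2 : (q j).eval m = s * y j := congrFun hs j
    change (q i * C (y j)).eval m = (q j * C (y i)).eval m
    rw [eval_mul, eval_mul, eval_C, eval_C, e1, e2]
    ring
  by_cases hy : y = 0
  · have h2 : ∀ i, q i = 0 := by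
      intro i
      apply Polynomial.eq_zero_of_infinite_isRoot
      refine hS.mono fun m hm => ?_
      obtain ⟨s, hs⟩ := h m hm
      have e1 : (q i).eval m = s * y i := congrFun hs i
      rw [hy] at e1
      change (q i).eval m = 0
      rw [e1]
      simp
    rw [h2 i, h2 j]
  · obtain ⟨j0, hj0⟩ := Function.ne_iff.1 hy
    have hj0' : y j0 ≠ 0 := hj0
    have h2 : ∀ i (a : k), (q i).eval a = (q j0).eval a * (y i / y j0) := by
      intro i a
      have h3 := congrArg (Polynomial.eval a) (h1 i j0)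
      rw [eval_mul, eval_mul, eval_C, eval_C] at h3
      field_simp
      exact h3
    rw [h2 i a, h2 j b, h2 j a, h2 i b]
    ring

end Pool.Agent.Run7.h983
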