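import Pool.Agent.Run7.h983.X2

/-!
Varieties without rational curves: equivalent conditions on families of points.
-/

set_option autoImplicit false

namespace Pool.Agent.Run7.h983

open Polynomial Matrix Pool.Agent.TH717.GO Pool.Agent.Y377.ST Pool.Agent.N419.HQ
  Pool.Agent.N419.HU Pool.Agent.H391R2

/-- the vectors `x(h)` are multiples of finitely many vectors -/
def FinMany {k H : Type} [Field k] {n : ℕ} (x : H → Fin (n + 1) → k) : Prop :=
  ∃ (B : ℕ) (c : Fin B → Fin (n + 1) → k), ∀ h, ∃ i, ∃ s : k, x h = s • c i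

/-- a polynomial curve whose points for natural parameters are finite in number is constant -/
theorem const_of_finMany {k : Type} [Field k] [CharZero k] {n : ℕ} (q : Fin (n + 1) → k[X])
    (h : FinMany fun (m : ℕ) j => (q j).eval (m : k)) (i j : Fin (n + 1)) (a b : k) :
    (q i).eval a * (q j).eval b = (q j).eval a * (q i).eval b := by
  obtain ⟨B, c, hc⟩ := h
  choose f hf using hc
  obtain ⟨l, hl⟩ := Finite.exists_infinite_fiber f
  have h1 : (f ⁻¹' {l}).Infinite := Set.infinite_coe_iff.1 hl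
  refine const_of_inf q (c l) ((fun m : ℕ => (m : k)) '' (f ⁻¹' {l}))
    (h1.image (Nat.cast_injective.injOn)) ?_ i j a b
  rintro _ ⟨m, hm, rfl⟩
  have h2 : f m = l := hm
  have h3 := hf m
  rw [h2] at h3
  exact h3

theorem smul_poly {k : Type} [Field k] {n e : ℕ} {F : MvPolynomial (Fin (n + 1)) k}
    (hF : F.IsHomogeneous e) (g : k[X]) (q : Fin (n + 1) → k[X]) :
    MvPolynomial.aeval (fun i => g * q i) F = g ^ e * MvPolynomial.aeval q F := by
  rw [MvPolynomial.aeval_def, MvPolynomial.aeval_def, MvPolynomial.eval₂_eq',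
    MvPolynomial.eval₂_eq', Finset.mul_sum]
  refine Finset.sum_congr rfl fun d hd => ?_
  have h1 : ∑ i, d i = e := by
    have := hF (MvPolynomial.mem_support_iff.mp hd)
    rw [Finsupp.weight_apply, Finsupp.sum_fintype] at this
    · simpa using this
    · simp
  simp only [mul_pow, Finset.prod_mul_distrib, Finset.prod_pow_eq_pow_sum, h1]
  ring

/-- sequences of integral points suffice -/
theorem no_of_int {k : Type} [Field k] [CharZero k] {n : ℕ}
    (FF : Set (MvPolynomial (Fin (n + 1)) k)) (hFF : ∀ F ∈ FF, ∃ m, F.IsHomogeneous m)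
    (h : ∀ (S : Finset k) (x : ℕ → Fin (n + 1) → k), (∀ j, PRec fun m => x m j) →
      (∀ m j, x m j ∈ Subring.closure (S : Set k)) →
      (∀ m, ∃ b : Fin (n + 1) → k, (∀ j, b j ∈ Subring.closure (S : Set k)) ∧
        ∑ j, b j * x m j = 1) →
      (∀ m, ∀ F ∈ FF, MvPolynomial.eval (x m) F = 0) → FinMany x)
    (q : Fin (n + 1) → k[X]) (hq : ∀ F ∈ FF, MvPolynomial.aeval q F = 0) (i j : Fin (n + 1))
    (a b : k) : (q i).eval a * (q j).eval b = (q j).eval a * (q i).eval b := by
  classical
  by_cases hq0 : q = 0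
  · rw [hq0]
    simp
  obtain ⟨g, q', u, hg, hqq, hu⟩ := primitive q hq0
  have hq' : ∀ F ∈ FF, MvPolynomial.aeval q' F = 0 := by
    intro F hF
    obtain ⟨e, he⟩ := hFF F hF
    have h1 := smul_poly he g q'
    have h2 : (fun i => g * q' i) = q := by
      funext i
      rw [← hqq i]
    rw [h2, hq F hF] at h1
    exact (mul_eq_zero.1 h1.symm).resolve_left (pow_ne_zero e hg)
  let S : Finset k := Finset.univ.biUnion fun i => (q' i).coeffs ∪ (u i).coeffs
  have hmem : ∀ (p : k[X]), (∀ l, p.coeff l ∈ Subring.closure (S : Set k)) → ∀ m : ℕ,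
      p.eval (m : k) ∈ Subring.closure (S : Set k) := by
    intro p hp m
    rw [Polynomial.eval_eq_sum_range]
    exact sum_mem fun l _ => mul_mem (hp l) (pow_mem (natCast_mem _ m) l)
  have hc1 : ∀ i l, (q' i).coeff l ∈ Subring.closure (S : Set k) := by
    intro i l
    by_cases h0 : (q' i).coeff l = 0
    · rw [h0]
      exact zero_mem _
    · apply Subring.subset_closure
      simp only [S, Finset.mem_coe, Finset.mem_biUnion, Finset.mem_univ, true_and,
        Finset.mem_union]
      exact ⟨i, Or.inl (coeff_mem_coeffs h0)⟩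
  have hc2 : ∀ i l, (u i).coeff l ∈ Subring.closure (S : Set k) := by
    intro i l
    by_cases h0 : (u i).coeff l = 0
    · rw [h0]
      exact zero_mem _
    · apply Subring.subset_closure
      simp only [S, Finset.mem_coe, Finset.mem_biUnion, Finset.mem_univ, true_and,
        Finset.mem_union]
      exact ⟨i, Or.inr (coeff_mem_coeffs h0)⟩
  have h1 := h S (fun m j => (q' j).eval (m : k)) (fun j => prec_poly (q' j))
    (fun m j => hmem _ (hc1 j) m)
    (fun m => ⟨fun j => (u j).eval (m : k), fun j => hmem _ (hc2 j) m, by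
      have h2 := congrArg (Polynomial.eval (m : k)) hu
      rw [eval_finsetSum, eval_one] at h2
      simp only [eval_mul] at h2
      exact h2⟩)
    (fun m F hF => by
      rw [← Runs_eval, hq' F hF, eval_zero])
  have h2 := const_of_finMany q' h1
  rw [hqq i, hqq j, eval_mul, eval_mul, eval_mul, eval_mul]
  have h3 := h2 i j a b
  linear_combination g.eval a * g.eval b * h3

/-- the matrix of the binomial coefficients -/
noncomputable def pascal (k : Type) [Field k] (D : ℕ) : Matrix (Fin (D + 1)) (Fin (D + 1)) k :=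
  Matrix.of fun i j => ((i : ℕ).choose j : k)

theorem pascal_det (k : Type) [Field k] (D : ℕ) : (pascal k D).det = 1 := by
  rw [Matrix.det_of_isLowerTriangular]
  · simp [pascal]
  · intro i j hij
    have h1 : (i : ℕ) < j := hij
    change ((i : ℕ).choose j : k) = 0
    rw [Nat.choose_eq_zero_of_lt h1, Nat.cast_zero]

theorem pascal_mulVec (k : Type) [Field k] (D : ℕ) (a : k) :
    (pascal k D).mulVec (fun j : Fin (D + 1) => a ^ (j : ℕ)) =
      fun j : Fin (D + 1) => (a + 1) ^ (j : ℕ) := by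
  funext i
  have h1 : (pascal k D).mulVec (fun j : Fin (D + 1) => a ^ (j : ℕ)) i =
      ∑ j : Fin (D + 1), ((i : ℕ).choose j : k) * a ^ (j : ℕ) := rfl
  rw [h1, Fin.sum_univ_eq_sum_range (fun j => ((i : ℕ).choose j : k) * a ^ j) (D + 1), add_pow]
  symm
  have h2 : ∑ m ∈ Finset.range ((i : ℕ) + 1), a ^ m * 1 ^ ((i : ℕ) - m) * ((i : ℕ).choose m : k) =
      ∑ m ∈ Finset.range ((i : ℕ) + 1), ((i : ℕ).choose m : k) * a ^ m := by
    refine Finset.sum_congr rfl fun m _ => ?_
    rw [one_pow, mul_one, mul_comm]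
  rw [h2]
  refine Finset.sum_subset (Finset.range_subset_range.2 (by have := i.2; omega)) ?_
  intro m _ hm
  rw [Nat.choose_eq_zero_of_lt (by
    rw [Finset.mem_range] at hm
    omega), Nat.cast_zero, zero_mul]

/-- the matrix of the binomial coefficients as an invertible matrix -/
noncomputable def pascalGL (k : Type) [Field k] (D : ℕ) : GL (Fin (D + 1)) k :=
  Matrix.GeneralLinearGroup.mkOfDetNeZero (pascal k D) (by
    rw [pascal_det]
    exact one_ne_zero)

theorem pascalGL_zpow (k : Type) [Field k] (D : ℕ) (m : ℤ) (a : k) :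
    ((pascalGL k D ^ m : GL (Fin (D + 1)) k) : Matrix (Fin (D + 1)) (Fin (D + 1)) k).mulVec
      (fun j : Fin (D + 1) => a ^ (j : ℕ)) = fun j : Fin (D + 1) => (a + m) ^ (j : ℕ) := by
  induction m using Int.induction_on generalizing a with
  | zero => simp
  | succ m ih =>
    rw [_root_.zpow_add, _root_.zpow_one, Units.val_mul, ← Matrix.mulVec_mulVec]
    have h1 : ((pascalGL k D : GL (Fin (D + 1)) k) : Matrix (Fin (D + 1)) (Fin (D + 1)) k).mulVec
        (fun j : Fin (D + 1) => a ^ (j : ℕ)) = fun j : Fin (D + 1) => (a + 1) ^ (j : ℕ) :=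
          pascal_mulVec k D a
    rw [h1, ih]
    funext j
    congr 1
    push_cast
    ring
  | pred m ih =>
    have h2 : (fun j : Fin (D + 1) => a ^ (j : ℕ)) =
        ((pascalGL k D : GL (Fin (D + 1)) k) : Matrix (Fin (D + 1)) (Fin (D + 1)) k).mulVec
          (fun j : Fin (D + 1) => (a - 1) ^ (j : ℕ)) := by
      have h1 : ((pascalGL k D : GL (Fin (D + 1)) k) : Matrix (Fin (D + 1)) (Fin (D + 1)) k).mulVec
        (fun j : Fin (D + 1) => (a - 1) ^ (j : ℕ)) = fun j : Fin (D + 1) => (a - 1 + 1) ^ (j : ℕ) :=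
          pascal_mulVec k D (a - 1)
      rw [h1]
      funext j
      congr 1
      ring
    rw [h2, Matrix.mulVec_mulVec, ← Units.val_mul, ← _root_.zpow_add_one, sub_add_cancel, ih]
    funext j
    congr 1
    push_cast
    ring

/-- orbits of the group of the integers suffice -/
theorem no_of_orb {k : Type} [Field k] [CharZero k] {n : ℕ}
    (FF : Set (MvPolynomial (Fin (n + 1)) k))
    (h : ∀ (r : ℕ) (ρ : Multiplicative ℤ →* GL (Fin r) k) (M : Matrix (Fin (n + 1)) (Fin r) k)
      (v : Fin r → k), (∀ g, ∀ F ∈ FF, MvPolynomial.eval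
        (M.mulVec ((ρ g : Matrix (Fin r) (Fin r) k).mulVec v)) F = 0) →
      FinMany fun g => M.mulVec ((ρ g : Matrix (Fin r) (Fin r) k).mulVec v))
    (q : Fin (n + 1) → k[X]) (hq : ∀ F ∈ FF, MvPolynomial.aeval q F = 0) (i j : Fin (n + 1))
    (a b : k) : (q i).eval a * (q j).eval b = (q j).eval a * (q i).eval b := by
  classical
  set D : ℕ := Finset.univ.sup fun i => (q i).natDegree with hD
  have hDi : ∀ i, (q i).natDegree ≤ D := fun i =>
    Finset.le_sup (f := fun i => (q i).natDegree) (Finset.mem_univ i)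
  let M : Matrix (Fin (n + 1)) (Fin (D + 1)) k := Matrix.of fun i j => (q i).coeff j
  let v : Fin (D + 1) → k := fun j => (0 : k) ^ (j : ℕ)
  let ρ : Multiplicative ℤ →* GL (Fin (D + 1)) k := zpowersHom _ (pascalGL k D)
  have hx : ∀ g : Multiplicative ℤ, M.mulVec
      ((ρ g : Matrix (Fin (D + 1)) (Fin (D + 1)) k).mulVec v) =
        fun i => (q i).eval ((Multiplicative.toAdd g : ℤ) : k) := by
    intro g
    have h1 : (ρ g : Matrix (Fin (D + 1)) (Fin (D + 1)) k).mulVec v =
        fun j : Fin (D + 1) => (0 + ((Multiplicative.toAdd g : ℤ) : k)) ^ (j : ℕ) :=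
      pascalGL_zpow k D (Multiplicative.toAdd g) 0
    rw [h1, zero_add]
    funext i
    rw [eval_eq_sum_range' (Nat.lt_succ_of_le (hDi i)),
      ← Fin.sum_univ_eq_sum_range (fun l => (q i).coeff l * ((Multiplicative.toAdd g : ℤ) : k) ^ l)]
    rfl
  obtain ⟨B, c, hc⟩ := h (D + 1) ρ M v (by
    intro g F hF
    rw [hx, ← Runs_eval, hq F hF, eval_zero])
  refine const_of_finMany q ⟨B, c, fun m => ?_⟩ i j a b
  obtain ⟨l, s, hs⟩ := hc (Multiplicative.ofAdd (m : ℤ))
  refine ⟨l, s, ?_⟩
  have h1 := hx (Multiplicative.ofAdd (m : ℤ))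
  rw [← hs]
  change _ = M.mulVec _
  rw [h1]
  funext i
  simp

end Pool.Agent.Run7.h983
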