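import Pool.Agent.Run7.h983.W1

/-!
Weierstrass cubics: no nonconstant rational curves on the generic member.
-/

set_option autoImplicit false
set_option linter.unusedSectionVars false

namespace Pool.Agent.Run7.h983.Hy

open Polynomial Finset Pool.Agent.Run7.h983

variable {L : Type} [Field L] [IsAlgClosed L] [CharZero L]

/-- if the product of four members of a pencil is a square up to a constant, the pencil is
constant -/
theorem pencil_four (U W : L[X]) (h : IsCoprime U W) (T : Finset L) (hT : T.card = 3)
    (Z : L[X]) (hZ : Z ^ 2 = W * ∏ α ∈ T, (U - C α * W)) :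
    derivative U = 0 ∧ derivative W = 0 := by
  classical
  rw [← h.wronskian_eq_zero_iff]
  by_contra hw
  -- the members
  let q : Option L → L[X] := fun o => o.elim W fun α => U - C α * W
  have hqs : ∀ α, q (some α) = U - C α * W := fun _ => rfl
  have hqn : q none = W := rfl
  have hwq : ∀ α, wronskian (q (some α)) W = wronskian U W := by
    intro α
    rw [hqs]
    unfold wronskian
    simp only [derivative_sub, derivative_C_mul]
    ring
  let T' : Finset (Option L) := Finset.insertNone T
  have hT' : T'.card = 4 := by
    rw [Finset.card_insertNone, hT]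
  have hcop : ∀ o o' : Option L, o ≠ o' → IsCoprime (q o) (q o') := by
    intro o o' hoo
    match o, o' with
    | none, none => exact absurd rfl hoo
    | none, some β => exact (pencil_coprime' U W h β).symm
    | some α, none => exact pencil_coprime' U W h α
    | some α, some β => exact pencil_coprime U W h α β (fun h => hoo (by rw [h]))
  have hq0 : ∀ o, q o ≠ 0 := by
    intro o h0
    match o with
    | none =>
      rw [hqn] at h0
      rw [h0, wronskian_zero_right] at hw
      exact hw rfl
    | some α =>
      have := hwq α
      rw [h0, wronskian_zero_left] at this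
      exact hw this.symm
  have hprodq : Z ^ 2 = ∏ o ∈ T', q o := by
    rw [Finset.prod_insertNone, hZ]
    rfl
  have hsq : ∀ o ∈ T', ∃ s : L[X], Associated (s ^ 2) (q o) := by
    intro o ho
    have hc : IsCoprime (q o) (∏ o' ∈ T'.erase o, q o') :=
      IsCoprime.prod_right fun o' ho' => hcop o o' (Ne.symm (Finset.ne_of_mem_erase ho'))
    have h1 : q o * ∏ o' ∈ T'.erase o, q o' = Z ^ 2 := by
      rw [hprodq, Finset.mul_prod_erase T' q ho]
    exact exists_associated_pow_of_mul_eq_pow' hc h1
  choose! s hs using hsq
  have hs0 : ∀ o ∈ T', s o ≠ 0 := by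
    intro o ho h0
    have := hs o ho
    rw [h0, zero_pow two_ne_zero] at this
    exact hq0 o ((associated_zero_iff_eq_zero _).1 this.symm)
  have hdeg : ∀ o ∈ T', (q o).natDegree = 2 * (s o).natDegree := by
    intro o ho
    have h1 := natDegree_eq_of_degree_eq (degree_eq_degree_of_associated (hs o ho))
    rw [← h1, natDegree_pow]
  -- the Wronskian of the pencil up to sign
  have hdvd : ∀ o ∈ T', s o ∣ wronskian U W := by
    intro o ho
    obtain ⟨u, hu⟩ := hs o ho
    have h1 : s o ∣ q o := by
      rw [← hu, pow_two, mul_assoc]
      exact dvd_mul_right _ _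
    have h2 : s o ∣ derivative (q o) := by
      rw [← hu, derivative_mul, derivative_pow]
      refine dvd_add ?_ ?_
      · refine Dvd.dvd.mul_right (Dvd.dvd.mul_right ?_ _) _
        exact Dvd.dvd.mul_left (by simp) _
      · rw [pow_two, mul_assoc]
        exact dvd_mul_right _ _
    match o, h1, h2 with
    | none, h1, h2 =>
      rw [hqn] at h1 h2
      unfold wronskian
      exact dvd_sub (h2.mul_left _) (h1.mul_left _)
    | some α, h1, h2 =>
      rw [← hwq α]
      unfold wronskian
      exact dvd_sub (h1.mul_right _) (h2.mul_right _)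
  have hprod : ∏ o ∈ T', s o ∣ wronskian U W := by
    refine Finset.prod_dvd_of_coprime ?_ hdvd
    intro o ho o' ho' hoo
    have h1 : IsCoprime (q o) (q o') := hcop o o' hoo
    obtain ⟨u, hu⟩ := hs o ho
    obtain ⟨v, hv⟩ := hs o' ho'
    have h2 : s o ∣ q o := by
      rw [← hu, pow_two, mul_assoc]
      exact dvd_mul_right _ _
    have h3 : s o' ∣ q o' := by
      rw [← hv, pow_two, mul_assoc]
      exact dvd_mul_right _ _
    exact h1.of_isCoprime_of_dvd_left h2 |>.of_isCoprime_of_dvd_right h3
  have hle : ∑ o ∈ T', (s o).natDegree ≤ (wronskian U W).natDegree := by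
    have h1 := natDegree_le_of_dvd hprod hw
    rwa [natDegree_prod _ _ hs0] at h1
  have hsum : ∑ o ∈ T', (q o).natDegree = 2 * ∑ o ∈ T', (s o).natDegree := by
    rw [Finset.mul_sum]
    exact Finset.sum_congr rfl hdeg
  -- the Wronskian of two members
  have hwab : ∀ o o' : Option L, o ≠ o' →
      (wronskian U W).natDegree < (q o).natDegree + (q o').natDegree := by
    intro o o' hoo
    match o, o' with
    | none, none => exact absurd rfl hoo
    | none, some β =>
      have h1 := natDegree_wronskian_lt_add (a := q (some β)) (b := W) (by rw [hwq]; exact hw)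
      rw [hwq] at h1
      rw [hqn]
      omega
    | some α, none =>
      have h1 := natDegree_wronskian_lt_add (a := q (some α)) (b := W) (by rw [hwq]; exact hw)
      rw [hwq] at h1
      rw [hqn]
      exact h1
    | some α, some β =>
      have hne : α - β ≠ 0 := sub_ne_zero.2 (fun h => hoo (by rw [h]))
      have h2 : wronskian (q (some α)) (q (some β)) = C (α - β) * wronskian U W := by
        rw [hqs, hqs]
        unfold wronskian
        simp only [derivative_sub, derivative_C_mul, C_sub]
        ring
      have h3 : wronskian (q (some α)) (q (some β)) ≠ 0 := by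
        rw [h2]
        exact mul_ne_zero (C_ne_zero.2 hne) hw
      have h1 := natDegree_wronskian_lt_add h3
      rw [h2, natDegree_C_mul hne] at h1
      exact h1
  -- two members of minimal degree
  obtain ⟨o1, ho1, hmin1⟩ := Finset.exists_min_image T' (fun o => (q o).natDegree)
    (Finset.card_pos.1 (by omega))
  obtain ⟨o2, ho2, hmin2⟩ := Finset.exists_min_image (T'.erase o1) (fun o => (q o).natDegree)
    (Finset.card_pos.1 (by rw [Finset.card_erase_of_mem ho1]; omega))
  have h12 : o1 ≠ o2 := Ne.symm (Finset.ne_of_mem_erase ho2)
  have h5 := hwab o1 o2 h12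
  have h6 : ∑ o ∈ T', (q o).natDegree = (q o1).natDegree +
      ((q o2).natDegree + ∑ o ∈ (T'.erase o1).erase o2, (q o).natDegree) := by
    rw [← Finset.add_sum_erase T' _ ho1, ← Finset.add_sum_erase (T'.erase o1) _ ho2]
  have h7 : 2 * (q o2).natDegree ≤ ∑ o ∈ (T'.erase o1).erase o2, (q o).natDegree := by
    calc 2 * (q o2).natDegree = ∑ _o ∈ (T'.erase o1).erase o2, (q o2).natDegree := by
          rw [Finset.sum_const, smul_eq_mul, Finset.card_erase_of_mem ho2,
            Finset.card_erase_of_mem ho1, hT']
      _ ≤ _ := Finset.sum_le_sum fun o ho => hmin2 o (Finset.mem_of_mem_erase ho)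
  have h8 : (q o1).natDegree ≤ (q o2).natDegree := hmin1 o2 (Finset.mem_of_mem_erase ho2)
  omega

end Pool.Agent.Run7.h983.Hy
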