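import Pool.Agent.Run7.h983.Y1
import Pool.Agent.Run7.h983.W2

/-!
Cubic curves in Weierstrass form: no nonconstant rational curves; P-recursive sequences of integral
points on the members of a family.
-/

set_option autoImplicit false
set_option linter.unusedSectionVars false

namespace Pool.Agent.Run7.h983.Hy

open Polynomial Finset Pool.Agent.Run7.h983

section

variable {L : Type} [Field L] [IsAlgClosed L] [CharZero L]

theorem cub_sep (α β : L) (h : 4 * α ^ 3 + 27 * β ^ 2 ≠ 0) :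
    (X ^ 3 + C α * X + C β : L[X]).Separable := by
  refine ⟨C (4 * α ^ 3 + 27 * β ^ 2)⁻¹ * -(C (18 * α) * X - C (27 * β)),
    C (4 * α ^ 3 + 27 * β ^ 2)⁻¹ * (C (6 * α) * X ^ 2 - C (9 * β) * X + C (4 * α ^ 2)), ?_⟩
  have h1 : C (4 * α ^ 3 + 27 * β ^ 2)⁻¹ * C (4 * α ^ 3 + 27 * β ^ 2) = (1 : L[X]) := by
    rw [← C_mul, inv_mul_cancel₀ h, C_1]
  have h2 : derivative (X ^ 3 + C α * X + C β : L[X]) = 3 * X ^ 2 + C α := by
    rw [derivative_add, derivative_add, derivative_X_pow, derivative_C_mul, derivative_X,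
      derivative_C, mul_one, add_zero]
    have h3 : (C 3 : L[X]) = 3 := C_ofNat 3
    norm_num
    exact h3
  rw [h2]
  calc _ = C (4 * α ^ 3 + 27 * β ^ 2)⁻¹ * (4 * C α ^ 3 + 27 * C β ^ 2) := by
        simp only [C_mul, C_pow, C_ofNat]
        ring
    _ = C (4 * α ^ 3 + 27 * β ^ 2)⁻¹ * C (4 * α ^ 3 + 27 * β ^ 2) := by
        simp only [C_add, C_mul, C_pow, C_ofNat]
    _ = 1 := h1

theorem cub_facts (α β : L) (h : 4 * α ^ 3 + 27 * β ^ 2 ≠ 0) :
    ∃ T : Finset L, T.card = 3 ∧ ∀ U W : L[X], W ≠ 0 →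
      U ^ 3 + C α * U * W ^ 2 + C β * W ^ 3 = ∏ e ∈ T, (U - C e * W) := by
  classical
  set f : L[X] := X ^ 3 + C α * X + C β with hf0
  have hsep : f.Separable := cub_sep α β h
  have hdeg : f.natDegree = 3 := by
    rw [hf0]
    compute_degree!
  set T := f.roots.toFinset with hT
  have hnd : f.roots.Nodup := nodup_roots hsep
  have hTval : T.val = f.roots := by
    rw [hT, Multiset.toFinset_val, Multiset.dedup_eq_self.2 hnd]
  have hsp : f.Splits := IsAlgClosed.splits f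
  have hcard : T.card = 3 := by
    rw [Finset.card_def, hTval, ← hdeg]
    exact hsp.natDegree_eq_card_roots.symm
  have hf : f = C f.leadingCoeff * ∏ α ∈ T, (X - C α) := by
    conv_lhs => rw [hsp.eq_prod_roots]
    congr 1
    unfold Finset.prod
    rw [hTval]
  have hlc : f.leadingCoeff = 1 := by
    unfold leadingCoeff
    rw [hdeg, hf0]
    simp [coeff_X]
  refine ⟨T, hcard, fun U W hW => ?_⟩
  have h1 := homog_prod T f.leadingCoeff f hf 3 (by omega) U W hW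
  rw [hlc, hcard, Nat.sub_self, pow_zero, C_1, one_mul, one_mul] at h1
  rw [← h1]
  have c0 : f.coeff 0 = β := by rw [hf0]; simp
  have c1 : f.coeff 1 = α := by rw [hf0]; simp [coeff_X, coeff_C]
  have c2 : f.coeff 2 = 0 := by rw [hf0]; simp [coeff_X, coeff_C]
  have c3 : f.coeff 3 = 1 := by rw [hf0]; simp [coeff_X, coeff_C]
  simp only [Finset.sum_range_succ, Finset.sum_range_zero, c0, c1, c2, c3, C_0, C_1]
  ring

theorem cub_line (α β : L) (h : 4 * α ^ 3 + 27 * β ^ 2 ≠ 0) (q0 q1 q2 : L[X])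
    (hid : q1 ^ 2 * q2 = q0 ^ 3 + C α * q0 * q2 ^ 2 + C β * q2 ^ 3) :
    ∃ (g : L[X]) (c : Fin 3 → L), q0 = C (c 0) * g ∧ q1 = C (c 1) * g ∧ q2 = C (c 2) * g := by
  classical
  by_cases h2 : q2 = 0
  · have h3 : q0 = 0 := by
      rw [h2] at hid
      have h4 : q0 ^ 3 = 0 := by
        linear_combination -hid
      exact (pow_eq_zero_iff (by norm_num)).1 h4
    exact ⟨q1, ![0, 1, 0], by simp [h3], by simp, by simp [h2]⟩
  obtain ⟨T, hT, hprod⟩ := cub_facts α β h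
  set g := EuclideanDomain.gcd q0 q2 with hg
  have hg0 : g ≠ 0 := by
    intro h
    exact h2 (EuclideanDomain.gcd_eq_zero_iff.1 h).2
  obtain ⟨U, hU⟩ := EuclideanDomain.gcd_dvd_left q0 q2
  obtain ⟨W, hW⟩ := EuclideanDomain.gcd_dvd_right q0 q2
  rw [← hg] at hU hW
  have hcop : IsCoprime U W := by
    refine ⟨EuclideanDomain.gcdA q0 q2, EuclideanDomain.gcdB q0 q2, ?_⟩
    have h1 : g = q0 * EuclideanDomain.gcdA q0 q2 + q2 * EuclideanDomain.gcdB q0 q2 :=
      EuclideanDomain.gcd_eq_gcd_ab q0 q2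
    refine mul_left_cancel₀ hg0 ?_
    calc g * (EuclideanDomain.gcdA q0 q2 * U + EuclideanDomain.gcdB q0 q2 * W) =
        (g * U) * EuclideanDomain.gcdA q0 q2 + (g * W) * EuclideanDomain.gcdB q0 q2 := by ring
      _ = g * 1 := by rw [← hU, ← hW, ← h1, mul_one]
  have hW0 : W ≠ 0 := by
    rintro rfl
    exact h2 (by rw [hW, mul_zero])
  have h3 : q1 ^ 2 * W = g ^ 2 * ∏ e ∈ T, (U - C e * W) := by
    rw [← hprod U W hW0]
    refine mul_left_cancel₀ hg0 ?_
    have h4 : q1 ^ 2 * (g * W) = (g * U) ^ 3 + C α * (g * U) * (g * W) ^ 2 + C β * (g * W) ^ 3 := by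
      rw [← hU, ← hW]
      exact hid
    linear_combination h4
  have hdv : g ∣ q1 * W := by
    rw [← IsIntegrallyClosed.pow_dvd_pow_iff (two_ne_zero)]
    refine ⟨(∏ e ∈ T, (U - C e * W)) * W, ?_⟩
    linear_combination W * h3
  obtain ⟨S, hS⟩ := hdv
  have hS2 : S ^ 2 = W * ∏ e ∈ T, (U - C e * W) := by
    refine mul_left_cancel₀ (pow_ne_zero 2 hg0) ?_
    calc g ^ 2 * S ^ 2 = (q1 * W) ^ 2 := by rw [hS]; ring
      _ = _ := by linear_combination W * h3
  obtain ⟨h5, h6⟩ := pencil_four U W hcop T hT S hS2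
  have h7 := eq_C_of_natDegree_eq_zero (derivative_eq_zero.1 h5)
  have h8 := eq_C_of_natDegree_eq_zero (derivative_eq_zero.1 h6)
  set u := U.coeff 0 with hu
  set w := W.coeff 0 with hw
  have hw0 : w ≠ 0 := by
    intro h0
    rw [h0, C_0] at h8
    exact hW0 h8
  have h9 : S ^ 2 = C (w * ∏ e ∈ T, (u - e * w)) := by
    rw [hS2, h7, h8, C_mul, map_prod]
    simp only [C_sub, C_mul]
  have h10 : S.natDegree = 0 := by
    have h11 := congrArg natDegree h9
    rw [natDegree_pow, natDegree_C] at h11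
    omega
  have h12 := eq_C_of_natDegree_eq_zero h10
  refine ⟨g, ![u, S.coeff 0 / w, w], ?_, ?_, ?_⟩
  · simp only [Matrix.cons_val_zero]
    rw [hU, h7, mul_comm]
  · simp only [Matrix.cons_val_one, Matrix.cons_val_zero]
    have h13 : (C w : L[X]) ≠ 0 := C_ne_zero.2 hw0
    refine mul_right_cancel₀ h13 ?_
    have h14 : C (S.coeff 0 / w) * C w = (C (S.coeff 0) : L[X]) := by
      rw [← C_mul, div_mul_cancel₀ _ hw0]
    calc q1 * C w = q1 * W := by rw [← h8]
      _ = g * S := hS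
      _ = g * C (S.coeff 0) := by rw [← h12]
      _ = _ := by rw [← h14]; ring
  · simp only [Matrix.cons_val]
    rw [hW, h8, mul_comm]

end

/-- the plane cubic `y² z = x³ + A x z² + B z³` -/
noncomputable def wei {R : Type} [CommRing R] (A B : R) : MvPolynomial (Fin (2 + 1)) R :=
  MvPolynomial.X 1 ^ 2 * MvPolynomial.X 2 - MvPolynomial.X 0 ^ 3 -
    MvPolynomial.C A * MvPolynomial.X 0 * MvPolynomial.X 2 ^ 2 -
    MvPolynomial.C B * MvPolynomial.X 2 ^ 3

theorem wei_hom {R : Type} [CommRing R] (A B : R) : (wei A B).IsHomogeneous 3 := by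
  unfold wei
  refine MvPolynomial.IsHomogeneous.sub (MvPolynomial.IsHomogeneous.sub
    (MvPolynomial.IsHomogeneous.sub ?_ ?_) ?_) ?_
  · exact (MvPolynomial.isHomogeneous_X_pow (R := R) (1 : Fin 3) 2).mul
      (MvPolynomial.isHomogeneous_X R (2 : Fin 3))
  · exact MvPolynomial.isHomogeneous_X_pow (R := R) (0 : Fin 3) 3
  · have h1 := ((MvPolynomial.isHomogeneous_C (Fin 3) A).mul
      (MvPolynomial.isHomogeneous_X R (0 : Fin 3))).mul
      (MvPolynomial.isHomogeneous_X_pow (R := R) (2 : Fin 3) 2)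
    exact h1
  · have h1 := (MvPolynomial.isHomogeneous_C (Fin 3) B).mul
      (MvPolynomial.isHomogeneous_X_pow (R := R) (2 : Fin 3) 3)
    rwa [zero_add] at h1

theorem wei_eval₂ {R S : Type} [CommRing R] [CommRing S] (φ : R →+* S) (A B : R)
    (q : Fin (2 + 1) → S) : MvPolynomial.eval₂ φ q (wei A B) =
      q 1 ^ 2 * q 2 - q 0 ^ 3 - φ A * q 0 * q 2 ^ 2 - φ B * q 2 ^ 3 := by
  unfold wei
  simp only [MvPolynomial.eval₂_sub, MvPolynomial.eval₂_mul, MvPolynomial.eval₂_pow,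
    MvPolynomial.eval₂_X, MvPolynomial.eval₂_C]

theorem wei_curOff {R L : Type} [CommRing R] [Field L] [IsAlgClosed L] [CharZero L] (σ : R →+* L)
    (A B : R) (h : σ (4 * A ^ 3 + 27 * B ^ 2) ≠ 0) :
    CurOff σ ({wei A B} : Set (MvPolynomial (Fin (2 + 1)) R)) {1} := by
  intro q hq _ i j a b
  have h0 := hq (wei A B) rfl
  rw [wei_eval₂] at h0
  simp only [map_add, map_mul, map_pow, map_ofNat] at h
  simp only [RingHom.comp_apply] at h0
  obtain ⟨g, c, h1, h2, h3⟩ := cub_line (σ A) (σ B) h (q 0) (q 1) (q 2) (by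
    linear_combination h0)
  have hc : ∀ l, q l = C (c l) * g := by
    intro l
    fin_cases l
    · exact h1
    · exact h2
    · exact h3
  rw [hc i, hc j]
  simp only [eval_mul, eval_C]
  ring

/-- a quotient of polynomials with integral values is a polynomial -/
theorem int_rat (p q : ℚ[X]) (hq : q ≠ 0) (h : ∀ N : ℕ, ∃ m ≥ N, ∃ z : ℤ,
    p.eval (m : ℚ) = z * q.eval (m : ℚ)) : q ∣ p := by
  rw [← EuclideanDomain.mod_eq_zero]
  by_contra hr
  set r := p % q with hr0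
  set u := p / q with hu0
  have hdiv : q * u + r = p := EuclideanDomain.div_add_mod p q
  have hlt : r.degree < q.degree := EuclideanDomain.mod_lt p hq
  obtain ⟨d', hd', hd''⟩ := IsLocalization.integerNormalization_spec (nonZeroDivisors ℤ) u
  obtain ⟨d, hd⟩ : ∃ d : nonZeroDivisors ℤ, (IsLocalization.integerNormalization (nonZeroDivisors ℤ) u).map
      (algebraMap ℤ ℚ) = (d : ℤ) • u := ⟨⟨d', hd'⟩, hd''⟩
  set U := IsLocalization.integerNormalization (nonZeroDivisors ℤ) u with hU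
  have hd0 : (d : ℤ) ≠ 0 := nonZeroDivisors.coe_ne_zero d
  have hval : ∀ m : ℕ, ((U.eval (m : ℤ) : ℤ) : ℚ) = (d : ℤ) * u.eval (m : ℚ) := by
    intro m
    have h1 := congrArg (eval (m : ℚ)) hd
    rw [eval_map, eval_smul] at h1
    have h2 : eval₂ (algebraMap ℤ ℚ) (m : ℚ) U = ((U.eval (m : ℤ) : ℤ) : ℚ) := by
      have h3 := hom_eval₂ U (RingHom.id ℤ) (algebraMap ℤ ℚ) (m : ℤ)
      rw [eval₂_id] at h3
      rw [RingHom.comp_id] at h3
      have h4 : algebraMap ℤ ℚ (m : ℤ) = (m : ℚ) := by simp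
      rw [h4] at h3
      rw [← h3]
      rfl
    rw [← h2, h1, Algebra.smul_def]
    rfl
  -- the remainder tends to zero
  set f : ℝ →  ℝ := fun x => (r.map (algebraMap ℚ ℝ)).eval x / (q.map (algebraMap ℚ ℝ)).eval x
    with hf
  have hlim : Filter.Tendsto f Filter.atTop (nhds 0) := by
    apply Polynomial.div_tendsto_atTop_zero_of_degree_lt
    rw [degree_map, degree_map]
    exact hlt
  have hev := (Metric.tendsto_atTop.1 hlim) (1 / |((d : ℤ) : ℝ)|) (by
    have : (0 : ℝ) < |((d : ℤ) : ℝ)| := abs_pos.2 (by exact_mod_cast hd0)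
    positivity)
  obtain ⟨x0, hx0⟩ := hev
  obtain ⟨N1, hN1⟩ := Pool.Agent.N419.HQ.Runs_large hq
  obtain ⟨N2, hN2⟩ := Pool.Agent.N419.HQ.Runs_large hr
  obtain ⟨m, hm, z, hz⟩ := h (max ⌈x0⌉₊ (max N1 N2))
  have hm0 : x0 ≤ (m : ℝ) := by
    have h1 : ⌈x0⌉₊ ≤ m := le_trans (le_max_left _ _) hm
    exact le_trans (Nat.le_ceil x0) (by exact_mod_cast h1)
  have h2 := hx0 (m : ℝ) hm0
  have hq' : q.eval (m : ℚ) ≠ 0 := hN1 m (le_trans ((le_max_left _ _).trans (le_max_right _ _)) hm)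
  have hr' : r.eval (m : ℚ) ≠ 0 := hN2 m (le_trans ((le_max_right _ _).trans (le_max_right _ _)) hm)
  have h3 : ∀ s : ℚ[X], (s.map (algebraMap ℚ ℝ)).eval (m : ℝ) = ((s.eval (m : ℚ) : ℚ) : ℝ) := by
    intro s
    have h4 := hom_eval₂ s (RingHom.id ℚ) (algebraMap ℚ ℝ) (m : ℚ)
    rw [eval₂_id, RingHom.comp_id] at h4
    have h5 : algebraMap ℚ ℝ (m : ℚ) = (m : ℝ) := by simp
    rw [h5] at h4
    rw [eval_map, ← h4]
    rfl
  -- d r(m) / q(m) is an integer
  have h4 : (d : ℤ) * (r.eval (m : ℚ) / q.eval (m : ℚ)) = (((d : ℤ) * z - U.eval (m : ℤ) : ℤ) : ℚ) := by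
    push_cast
    rw [hval]
    have h5 := congrArg (eval (m : ℚ)) hdiv
    rw [eval_add, eval_mul, hz] at h5
    field_simp
    linear_combination h5
  set w : ℤ := (d : ℤ) * z - U.eval (m : ℤ) with hw
  have hw0 : w ≠ 0 := by
    intro h0
    rw [h0] at h4
    have h5 : ((d : ℤ) : ℚ) ≠ 0 := by exact_mod_cast hd0
    have h6 : r.eval (m : ℚ) / q.eval (m : ℚ) ≠ 0 := div_ne_zero hr' hq'
    apply mul_ne_zero h5 h6
    rw [h4]
    simp
  have hdR : (0 : ℝ) < |((d : ℤ) : ℝ)| := abs_pos.2 (by exact_mod_cast hd0)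
  have h5 : |((d : ℤ) : ℝ)| * |f (m : ℝ)| < 1 := by
    rw [Real.dist_eq, sub_zero] at h2
    calc |((d : ℤ) : ℝ)| * |f (m : ℝ)| < |((d : ℤ) : ℝ)| * (1 / |((d : ℤ) : ℝ)|) := by
          exact mul_lt_mul_of_pos_left h2 hdR
      _ = 1 := by field_simp
  have h6 : ((d : ℤ) : ℝ) * f (m : ℝ) = (w : ℝ) := by
    have h7 : (((d : ℤ) * (r.eval (m : ℚ) / q.eval (m : ℚ)) : ℚ) : ℝ) = ((w : ℚ) : ℝ) := by
      rw [h4]
    rw [hf]
    change ((d : ℤ) : ℝ) * ((r.map (algebraMap ℚ ℝ)).eval (m : ℝ) /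
      (q.map (algebraMap ℚ ℝ)).eval (m : ℝ)) = (w : ℝ)
    rw [h3, h3]
    push_cast at h7
    exact h7
  rw [← abs_mul, h6] at h5
  have h7 : (1 : ℝ) ≤ |(w : ℝ)| := by
    have : (1 : ℤ) ≤ |w| := Int.one_le_abs hw0
    exact_mod_cast this
  linarith

end Pool.Agent.Run7.h983.Hy
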