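import Pool.Agent.Run7.h983.Y2

/-!
P-recursive sequences of integral points on the members of a family of cubic curves.
-/

set_option autoImplicit false
set_option linter.unusedSectionVars false

namespace Pool.Agent.Run7.h983.Hy

open Polynomial Finset Pool.Agent.Run7.h983 Pool.Agent.N419.HQ Pool.Agent.N419.HU

theorem cub_fam (t : ℕ) : ∃ Bd : ℕ, ∀ (A B : ℚ[X]), 4 * A ^ 3 + 27 * B ^ 2 ≠ 0 →
    ∀ x y : ℕ → ℤ,
    (∃ p : Fin (t + 1) → ℚ[X], p ≠ 0 ∧
      ∀ m : ℕ, ∑ i : Fin (t + 1), (p i).eval (m : ℚ) * (x (m + i) : ℚ) = 0) →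
    (∃ p : Fin (t + 1) → ℚ[X], p ≠ 0 ∧
      ∀ m : ℕ, ∑ i : Fin (t + 1), (p i).eval (m : ℚ) * (y (m + i) : ℚ) = 0) →
    (∃ M : ℕ, ∀ m ≥ M, (y m : ℚ) ^ 2 = (x m : ℚ) ^ 3 + A.eval (m : ℚ) * x m + B.eval (m : ℚ)) →
    ∃ P : Finset (ℚ[X] × ℚ[X]), P.card ≤ Bd ∧ (∀ p ∈ P, p.2 ^ 2 = p.1 ^ 3 + A * p.1 + B) ∧
      ∃ T : ℕ, 1 ≤ T ∧ ∀ a : ℕ, ∃ p ∈ P, ∃ M : ℕ, ∀ m ≥ M, m % T = a % T →
        (x m : ℚ) = p.1.eval (m : ℚ) ∧ (y m : ℚ) = p.2.eval (m : ℚ) := by
  classical
  obtain ⟨Bd, hB⟩ := fam_all 2 3 (t + 1)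
  refine ⟨Bd, ?_⟩
  intro A B hΔ x y hx hy hon
  obtain ⟨M0, hM0⟩ := hon
  let alg : ℚ[X] →+* RatFunc ℚ := algebraMap ℚ[X] (RatFunc ℚ)
  have halg : Function.Injective alg := IsFractionRing.injective _ _
  let W := AlgebraicClosure (RatFunc ℚ)
  let σ : ℚ[X] →+* W := (algebraMap (RatFunc ℚ) W).comp alg
  have hσ : Function.Injective σ := (algebraMap (RatFunc ℚ) W).injective.comp halg
  have hW : CharZero W := charZero_of_injective_algebraMap (algebraMap (RatFunc ℚ) W).injective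
  obtain ⟨c, hcF, T, hT, hcl⟩ := hB ℚ {wei A B} (by
    intro F hF
    rw [Set.mem_singleton_iff.1 hF]
    exact ⟨3, le_rfl, wei_hom A B⟩) 1
    ⟨0, Nat.zero_le _, MvPolynomial.isHomogeneous_one _ _⟩ W σ hσ
    (wei_curOff σ A B (fun h => hΔ (hσ (by rw [h, map_zero]))))
    (fun m => ![(x m : ℚ), (y m : ℚ), 1]) (by
    intro j
    fin_cases j
    · exact rec_pad (Nat.le_succ t) (fun m => (x m : ℚ)) hx
    · exact rec_pad (Nat.le_succ t) (fun m => (y m : ℚ)) hy
    · refine rec_pad (d' := 1) (by omega) (fun _ => (1 : ℚ)) ⟨![1, -1], ?_, fun m => ?_⟩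
      · intro h0
        have := congrFun h0 0
        simp at this
      · rw [Fin.sum_univ_two]
        simp) ⟨M0, by
    intro m hm F hF
    rw [Set.mem_singleton_iff.1 hF, wei_eval₂]
    have h1 := hM0 m hm
    simp only [Matrix.cons_val_zero, Matrix.cons_val_one, Matrix.cons_val, one_pow, mul_one,
      coe_evalRingHom]
    rw [h1]
    ring⟩
  let P : Finset (ℚ[X] × ℚ[X]) :=
    (Finset.univ.filter fun i : Fin Bd => c i 2 ≠ 0 ∧ c i 2 ∣ c i 0 ∧ c i 2 ∣ c i 1).image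
      fun i => (c i 0 / c i 2, c i 1 / c i 2)
  have hdv : ∀ p q : ℚ[X], q ≠ 0 → q ∣ p → p = q * (p / q) := by
    intro p q hq hpq
    exact (EuclideanDomain.mul_div_cancel' hq hpq).symm
  refine ⟨P, ?_, ?_, T, hT, fun a => ?_⟩
  · refine Finset.card_image_le.trans ((Finset.card_filter_le _ _).trans ?_)
    simp
  · intro p hp
    obtain ⟨i, hi, rfl⟩ := Finset.mem_image.1 hp
    obtain ⟨hi2, hd0, hd1⟩ := (Finset.mem_filter.1 hi).2
    have h1 := hcF i (wei A B) rfl
    have h2 : MvPolynomial.eval (c i) (wei A B) =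
        c i 1 ^ 2 * c i 2 - c i 0 ^ 3 - A * c i 0 * c i 2 ^ 2 - B * c i 2 ^ 3 :=
      wei_eval₂ (RingHom.id _) A B (c i)
    rw [h2] at h1
    have e0 := hdv _ _ hi2 hd0
    have e1 := hdv _ _ hi2 hd1
    set u := c i 0 / c i 2 with hu
    set v := c i 1 / c i 2 with hv
    rw [e0, e1] at h1
    have h3 : c i 2 ^ 3 * (v ^ 2 - (u ^ 3 + A * u + B)) = 0 := by
      linear_combination h1
    exact sub_eq_zero.1 ((mul_eq_zero.1 h3).resolve_left (pow_ne_zero _ hi2))
  · rcases hcl a with ⟨N, hN⟩ | ⟨i, N, hN⟩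
    · exfalso
      have h1 := hN (a + T * N) (by nlinarith) (by simp)
      rw [MvPolynomial.eval₂_one] at h1
      exact one_ne_zero h1
    · have hi2 : c i 2 ≠ 0 := by
        intro h0
        obtain ⟨s, hs⟩ := hN (a + T * N) (by nlinarith) (by simp)
        have e2 := congrFun hs 2
        simp only [Matrix.cons_val] at e2
        rw [h0, eval_zero, mul_zero] at e2
        exact one_ne_zero e2
      -- the values
      have key : ∀ m ≥ N, m % T = a % T →
          (c i 0).eval (m : ℚ) = x m * (c i 2).eval (m : ℚ) ∧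
          (c i 1).eval (m : ℚ) = y m * (c i 2).eval (m : ℚ) := by
        intro m hm hma
        obtain ⟨s, hs⟩ := hN m hm hma
        have e0 := congrFun hs 0
        have e1 := congrFun hs 1
        have e2 := congrFun hs 2
        simp only [Matrix.cons_val_zero, Matrix.cons_val_one, Matrix.cons_val] at e0 e1 e2
        constructor
        · rw [e0]
          linear_combination (c i 0).eval (m : ℚ) * e2
        · rw [e1]
          linear_combination (c i 1).eval (m : ℚ) * e2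
      have hd0 : c i 2 ∣ c i 0 := int_rat _ _ hi2 fun K => ⟨a + T * (N + K), by nlinarith, x _,
        (key (a + T * (N + K)) (by nlinarith) (by simp)).1⟩
      have hd1 : c i 2 ∣ c i 1 := int_rat _ _ hi2 fun K => ⟨a + T * (N + K), by nlinarith, y _,
        (key (a + T * (N + K)) (by nlinarith) (by simp)).2⟩
      obtain ⟨N1, hN1⟩ := Pool.Agent.N419.HQ.Runs_large hi2
      refine ⟨_, Finset.mem_image.2 ⟨i, Finset.mem_filter.2 ⟨Finset.mem_univ _, hi2, hd0, hd1⟩,
        rfl⟩, max N N1, fun m hm hma => ?_⟩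
      obtain ⟨k0, k1⟩ := key m (le_trans (le_max_left _ _) hm) hma
      have h2 := hN1 m (le_trans (le_max_right _ _) hm)
      have e0 := congrArg (eval (m : ℚ)) (hdv _ _ hi2 hd0)
      have e1 := congrArg (eval (m : ℚ)) (hdv _ _ hi2 hd1)
      rw [eval_mul] at e0 e1
      constructor
      · apply mul_right_cancel₀ h2
        rw [← k0, e0, mul_comm]
      · apply mul_right_cancel₀ h2
        rw [← k1, e1, mul_comm]

end Pool.Agent.Run7.h983.Hy
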