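import Mathlib

/-!
Integral points over the polynomial ring on cubic curves: bounds for the degrees.
-/

set_option autoImplicit false
set_option linter.unusedSectionVars false

namespace Pool.Agent.Run7.h983.Hy

open Polynomial

/-- the derivation `X d/dX` -/
noncomputable def th (p : ℚ[X]) : ℚ[X] := X * derivative p

theorem th_add (p q : ℚ[X]) : th (p + q) = th p + th q := by
  unfold th
  rw [derivative_add]
  ring

theorem th_sub (p q : ℚ[X]) : th (p - q) = th p - th q := by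
  unfold th
  rw [derivative_sub]
  ring

theorem th_mul (p q : ℚ[X]) : th (p * q) = th p * q + p * th q := by
  unfold th
  rw [derivative_mul]
  ring

theorem th_num (n : ℕ) [n.AtLeastTwo] : th (OfNat.ofNat n : ℚ[X]) = 0 := by
  unfold th
  rw [derivative_ofNat, mul_zero]

theorem th_sq (p : ℚ[X]) : th (p ^ 2) = 2 * p * th p := by
  rw [pow_two, th_mul]
  ring

theorem th_cube (p : ℚ[X]) : th (p ^ 3) = 3 * p ^ 2 * th p := by
  rw [show p ^ 3 = p * p * p by ring, th_mul, th_mul]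
  ring

/-- `p` has degree at most `d`, with coefficient `c` -/
structure Top (p : ℚ[X]) (d : ℕ) (c : ℚ) : Prop where
  le : p.natDegree ≤ d
  co : p.coeff d = c

theorem Top.self (p : ℚ[X]) : Top p p.natDegree p.leadingCoeff := ⟨le_rfl, rfl⟩

theorem Top.mk' {p : ℚ[X]} {d : ℕ} (h : p.natDegree ≤ d) : Top p d (p.coeff d) := ⟨h, rfl⟩

theorem Top.low {p : ℚ[X]} {d : ℕ} (h : p.natDegree < d) : Top p d 0 :=
  ⟨h.le, coeff_eq_zero_of_natDegree_lt h⟩

theorem Top.mul {p q : ℚ[X]} {d e : ℕ} {a b : ℚ} (h : Top p d a) (k : Top q e b) :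
    Top (p * q) (d + e) (a * b) := by
  refine ⟨natDegree_mul_le_of_le h.le k.le, ?_⟩
  rw [coeff_mul_add_eq_of_natDegree_le h.le k.le, h.co, k.co]

theorem Top.add {p q : ℚ[X]} {d : ℕ} {a b : ℚ} (h : Top p d a) (k : Top q d b) :
    Top (p + q) d (a + b) := by
  refine ⟨natDegree_add_le_of_degree_le h.le k.le, ?_⟩
  rw [coeff_add, h.co, k.co]

theorem Top.neg {p : ℚ[X]} {d : ℕ} {a : ℚ} (h : Top p d a) : Top (-p) d (-a) := by
  refine ⟨?_, ?_⟩
  · rw [natDegree_neg]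
    exact h.le
  · rw [coeff_neg, h.co]

theorem Top.sub {p q : ℚ[X]} {d : ℕ} {a b : ℚ} (h : Top p d a) (k : Top q d b) :
    Top (p - q) d (a - b) := by
  rw [sub_eq_add_neg, sub_eq_add_neg]
  exact h.add k.neg

theorem Top.num (n : ℕ) [n.AtLeastTwo] : Top (OfNat.ofNat n : ℚ[X]) 0 (OfNat.ofNat n : ℚ) := by
  refine ⟨(natDegree_ofNat n).le, ?_⟩
  rw [← C_ofNat, coeff_C_zero]

theorem Top.nmul {p : ℚ[X]} {d : ℕ} {a : ℚ} (n : ℕ) [n.AtLeastTwo] (h : Top p d a) :
    Top ((OfNat.ofNat n : ℚ[X]) * p) d ((OfNat.ofNat n : ℚ) * a) := by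
  have h1 := (Top.num n).mul h
  rwa [zero_add] at h1

theorem Top.th {p : ℚ[X]} {d : ℕ} {a : ℚ} (h : Top p d a) : Top (th p) d (d * a) := by
  unfold Hy.th
  rcases d with _ | d
  · have h1 : p = C (p.coeff 0) := eq_C_of_natDegree_le_zero h.le
    rw [h1, derivative_C, mul_zero]
    exact ⟨by simp, by simp⟩
  · refine ⟨?_, ?_⟩
    · refine (natDegree_mul_le_of_le natDegree_X_le (natDegree_derivative_le p)).trans ?_
      have := h.le
      omega
    · rw [coeff_X_mul, coeff_derivative, h.co]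
      push_cast
      ring

theorem Top.cast {p : ℚ[X]} {d d' : ℕ} {a a' : ℚ} (h : Top p d a) (hd : d = d') (ha : a = a') :
    Top p d' a' := by
  rw [← hd, ← ha]
  exact h

theorem Top.uniq {p : ℚ[X]} {d : ℕ} {a a' : ℚ} (h : Top p d a) (h' : Top p d a') : a = a' := by
  rw [← h.co, h'.co]

section ident

variable {R : Type} [CommRing R]

theorem id_Q (A B A' B' a b a' b' : R) (h2 : b ^ 2 = a ^ 3 + A * a + B)
    (h3 : 2 * b * b' = (3 * a ^ 2 + A) * a' + A' * a + B') :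
    b * (2 * (6 * A * a ^ 2 - 9 * B * a + 4 * A ^ 2) * b' -
      ((18 * A * a - 27 * B) * a' + 6 * A * A') * b) =
    (4 * A ^ 3 + 27 * B ^ 2) * a' + 3 * (2 * A * B' - 3 * A' * B) * a ^ 2 -
      (2 * A ^ 2 * A' + 9 * B * B') * a + 2 * A * (2 * A * B' - 3 * A' * B) := by
  linear_combination (6 * A * a ^ 2 - 9 * B * a + 4 * A ^ 2) * h3 -
    ((18 * A * a - 27 * B) * a' + 6 * A * A') * h2

theorem id_P (A B a b a' Δ w ε Q P : R) (h2 : b ^ 2 = a ^ 3 + A * a + B)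
    (h5 : b * Q = Δ * a' + 3 * w * a ^ 2 - ε * a + 2 * A * w) (h1 : a * Q = P + 3 * w * b) :
    b * P = Δ * a * a' - ε * a ^ 2 - A * w * a - 3 * w * B := by
  linear_combination a * h5 - 3 * w * h2 - b * h1

theorem id_M (A B A' B' a b a' b' Δ w ε Q P w' Q' P' : R) (h2 : b ^ 2 = a ^ 3 + A * a + B)
    (h3 : 2 * b * b' = (3 * a ^ 2 + A) * a' + A' * a + B')
    (h4 : b * P = Δ * a * a' - ε * a ^ 2 - A * w * a - 3 * w * B)
    (h1 : a * Q = P + 3 * w * b) (h1' : a' * Q + a * Q' = P' + 3 * (w' * b + w * b')) :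
    a ^ 2 * b * (2 * w * Δ * Q' - 3 * w ^ 2 * P - (2 * w' * Δ + w * ε) * Q) =
      2 * w * Δ * (a * P' - a' * P) * b - (2 * w' * Δ + w * ε) * a * P * b +
      w ^ 2 * (3 * A * w * a ^ 3 + (3 * Δ * (-(A * a * a') + A' * a ^ 2 + B' * a - 2 * B * a') +
        9 * w * B * a ^ 2 - 3 * ε * A * a ^ 2 - 3 * ε * B * a)) := by
  linear_combination (2 * w * Δ * a * b) * h1' +
    (b * (-2 * w * Δ * a' - (2 * w' * Δ + w * ε) * a)) * h1 +
    (-6 * w ^ 2 * Δ * a' - 3 * w ^ 2 * ε * a) * h2 + (3 * w ^ 2 * Δ * a) * h3 -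
    3 * w ^ 2 * a ^ 2 * h4

end ident

end Pool.Agent.Run7.h983.Hy
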