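import Pool.Agent.Run7.h983.Y4

/-!
Integral points over the polynomial ring on cubic curves: the bound for the degrees.
-/

set_option autoImplicit false
set_option linter.unusedSectionVars false

namespace Pool.Agent.Run7.h983.Hy

open Polynomial

theorem Top.sq {p : ℚ[X]} {d : ℕ} {a : ℚ} (h : Top p d a) : Top (p ^ 2) (d + d) (a * a) := by
  rw [pow_two]
  exact h.mul h

theorem Top.cu {p : ℚ[X]} {d : ℕ} {a : ℚ} (h : Top p d a) :
    Top (p ^ 3) (d + d + d) (a * a * a) := by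
  rw [show p ^ 3 = p * p * p by ring]
  exact (h.mul h).mul h

theorem ff_core (A B a b : ℚ[X]) (hΔ0 : 4 * A ^ 3 + 27 * B ^ 2 ≠ 0)
    (h2 : b ^ 2 = a ^ 3 + A * a + B) (μ n : ℕ) (hA : A.natDegree ≤ μ) (hB : B.natDegree ≤ μ)
    (ha : a.natDegree = 2 * n) (hb : b.natDegree = 3 * n) : n ≤ 8 * μ := by
  by_contra hn
  have hn : 8 * μ < n := not_le.1 hn
  obtain ⟨A', hA'⟩ : ∃ q, q = th A := ⟨_, rfl⟩
  obtain ⟨B', hB'⟩ : ∃ q, q = th B := ⟨_, rfl⟩
  obtain ⟨a', ha'⟩ : ∃ q, q = th a := ⟨_, rfl⟩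
  obtain ⟨b', hb'⟩ : ∃ q, q = th b := ⟨_, rfl⟩
  obtain ⟨Δ, hΔ⟩ : ∃ q, q = 4 * A ^ 3 + 27 * B ^ 2 := ⟨_, rfl⟩
  obtain ⟨w, hw⟩ : ∃ q, q = 2 * A * B' - 3 * A' * B := ⟨_, rfl⟩
  obtain ⟨ε, hε⟩ : ∃ q, q = 2 * A ^ 2 * A' + 9 * B * B' := ⟨_, rfl⟩
  obtain ⟨Q, hQ⟩ : ∃ q, q = 2 * (6 * A * a ^ 2 - 9 * B * a + 4 * A ^ 2) * b' -
      ((18 * A * a - 27 * B) * a' + 6 * A * A') * b := ⟨_, rfl⟩
  obtain ⟨P, hP⟩ : ∃ q, q = a * Q - 3 * w * b := ⟨_, rfl⟩
  have h3 : 2 * b * b' = (3 * a ^ 2 + A) * a' + A' * a + B' := by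
    have h := congrArg th h2
    rw [th_sq, th_add, th_add, th_cube, th_mul] at h
    rw [hb', h, hA', hB', ha']
    ring
  have h5 : b * Q = Δ * a' + 3 * w * a ^ 2 - ε * a + 2 * A * w := by
    rw [hQ, hΔ, hw, hε]
    exact id_Q A B A' B' a b a' b' h2 h3
  have h1 : a * Q = P + 3 * w * b := by
    rw [hP]
    ring
  have h4 := id_P A B a b a' Δ w ε Q P h2 h5 h1
  have h1' : a' * Q + a * th Q = th P + 3 * (th w * b + w * b') := by
    have h := congrArg th h1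
    rw [th_mul, th_add, th_mul (3 * w) b, th_mul 3 w, th_num] at h
    rw [ha', h, hb']
    ring
  have hthΔ : th Δ = 6 * ε := by
    rw [hΔ, hε, hA', hB', th_add, th_mul, th_mul, th_num, th_num, th_cube, th_sq]
    ring
  have r1 : 9 * B * w = 2 * A * ε - A' * Δ := by
    rw [hΔ, hw, hε]
    ring
  have r2 : 2 * A ^ 2 * w = B' * Δ - 3 * B * ε := by
    rw [hΔ, hw, hε]
    ring
  rw [← hΔ] at hΔ0
  -- degrees
  have hn0 : 0 < n := by omega
  have ha0 : a ≠ 0 := by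
    rintro rfl
    rw [natDegree_zero] at ha
    omega
  have hb0 : b ≠ 0 := by
    rintro rfl
    rw [natDegree_zero] at hb
    omega
  have tAμ := Top.mk' hA
  have tBμ := Top.mk' hB
  have hδ : Δ.natDegree ≤ 3 * μ := by
    rw [hΔ]
    refine natDegree_add_le_of_degree_le ?_ ?_
    · exact (natDegree_mul_le_of_le (natDegree_ofNat 4).le (natDegree_pow_le_of_le 3 hA)).trans
        (by omega)
    · exact (natDegree_mul_le_of_le (natDegree_ofNat 27).le (natDegree_pow_le_of_le 2 hB)).trans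
        (by omega)
  have hω : w.natDegree ≤ 2 * μ := by
    rw [hw, hA', hB']
    exact (((((tAμ.nmul 2).mul tBμ.th).sub ((tAμ.th.nmul 3).mul tBμ)).le).trans (by omega))
  have ta : Top a (2 * n) a.leadingCoeff := ha ▸ Top.self a
  have tb : Top b (3 * n) b.leadingCoeff := hb ▸ Top.self b
  have tΔ := Top.self Δ
  have ta' := ta.th
  rw [← ha'] at ta'
  have hla : a.leadingCoeff ≠ 0 := leadingCoeff_ne_zero.2 ha0
  have hlb : b.leadingCoeff ≠ 0 := leadingCoeff_ne_zero.2 hb0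
  have hlΔ : Δ.leadingCoeff ≠ 0 := leadingCoeff_ne_zero.2 hΔ0
  set a0 := a.leadingCoeff with ha0'
  set b0 := b.leadingCoeff with hb0'
  set Δ0 := Δ.leadingCoeff with hΔ0'
  set δ := Δ.natDegree with hδ'
  have tε : Top ε δ (δ * Δ0 / 6) := by
    have h6 : ε = C (1 / 6 : ℚ) * th Δ := by
      rw [hthΔ, ← mul_assoc, ← C_ofNat, ← C_mul]
      norm_num
    rw [h6]
    have h7 : Top (C (1 / 6 : ℚ)) 0 (1 / 6) := ⟨(natDegree_C _).le, coeff_C_zero⟩
    exact (h7.mul tΔ.th).cast (by omega) (by ring)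
  by_cases hw0 : w = 0
  · rw [hw0] at h5
    by_cases hQ0 : Q = 0
    · have h6 : Δ * a' = ε * a := by
        rw [hQ0] at h5
        linear_combination -h5
      have h7 := tΔ.mul ta'
      rw [h6] at h7
      have h8 := h7.uniq (tε.mul ta)
      have h9 : (12 * n : ℚ) = δ := by
        have h10 : Δ0 * a0 * (12 * n : ℚ) = Δ0 * a0 * δ := by
          push_cast at h8
          linear_combination 6 * h8
        exact mul_left_cancel₀ (mul_ne_zero hlΔ hla) h10
      have h11 : 12 * n = δ := by exact_mod_cast h9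
      omega
    · have h6 : b * Q = Δ * a' - ε * a := by
        linear_combination h5
      have h7 := ((tΔ.mul ta').sub (tε.mul ta)).le
      rw [← h6, natDegree_mul hb0 hQ0, hb] at h7
      omega
  have hA0 : A ≠ 0 := by
    rintro rfl
    apply hw0
    rw [hw, hA']
    unfold th
    simp
  have hB0 : B ≠ 0 := by
    rintro rfl
    apply hw0
    rw [hw, hB']
    unfold th
    simp
  have hlw : w.leadingCoeff ≠ 0 := leadingCoeff_ne_zero.2 hw0
  have tw := Top.self w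
  set w0 := w.leadingCoeff with hw0'
  set ω := w.natDegree with hω'
  have hlA : A.leadingCoeff ≠ 0 := leadingCoeff_ne_zero.2 hA0
  have hlB : B.leadingCoeff ≠ 0 := leadingCoeff_ne_zero.2 hB0
  have tA := Top.self A
  have tB := Top.self B
  set A0 := A.leadingCoeff with hA0'
  set B0 := B.leadingCoeff with hB0'
  set α := A.natDegree with hα'
  set β := B.natDegree with hβ'
  have tA' := tA.th
  rw [← hA'] at tA'
  have tB' := tB.th
  rw [← hB'] at tB'
  -- the product `A w²`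
  have hAw : A * w ^ 2 ≠ 0 := mul_ne_zero hA0 (pow_ne_zero 2 hw0)
  have h18 : 18 * (A * B) * (A * w ^ 2) =
      (2 * (A * ε) - A' * Δ) * (B' * Δ - 3 * (B * ε)) := by
    linear_combination (2 * A ^ 2 * w) * r1 + (2 * A * ε - A' * Δ) * r2
  have tN := (((tA.mul tε).nmul 2).sub (tA'.mul tΔ)).mul ((tB'.mul tΔ).sub ((tB.mul tε).nmul 3))
  have hdegAw : (A * w ^ 2).natDegree ≤ 2 * δ := by
    have h6 := tN.le
    rw [← h18, natDegree_mul (mul_ne_zero (by norm_num) (mul_ne_zero hA0 hB0)) hAw,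
      natDegree_mul (by norm_num) (mul_ne_zero hA0 hB0), natDegree_mul hA0 hB0,
      natDegree_ofNat] at h6
    omega
  have tAw := Top.mk' hdegAw
  set κ := (A * w ^ 2).coeff (2 * δ) with hκ
  have hκ2 : 108 * κ = Δ0 ^ 2 * ((δ : ℚ) - 3 * α) * (2 * β - δ) := by
    have h6 := (((tA.mul tB).nmul 18).mul tAw)
    rw [h18] at h6
    have h7 := (h6.cast (by omega) rfl).uniq tN
    have h8 : A0 * B0 * (108 * κ) = A0 * B0 * (Δ0 ^ 2 * ((δ : ℚ) - 3 * α) * (2 * β - δ)) := by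
      linear_combination 6 * h7
    exact mul_left_cancel₀ (mul_ne_zero hlA hlB) h8
  -- the polynomial `P`
  have tR : Top (Δ * a * a' - ε * a ^ 2 - A * w * a - 3 * w * B) (4 * n + δ)
      (Δ0 * a0 * ((2 * n : ℕ) * a0) - δ * Δ0 / 6 * (a0 * a0) - 0 - 0) := by
    refine Top.sub (Top.sub (Top.sub ?_ ?_) ?_) ?_
    · exact ((tΔ.mul ta).mul ta').cast (by omega) rfl
    · exact (tε.mul ta.sq).cast (by omega) rfl
    · refine Top.low (lt_of_le_of_lt ((tAμ.mul tw).mul ta).le ?_)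
      omega
    · refine Top.low (lt_of_le_of_lt ((tw.nmul 3).mul tBμ).le ?_)
      omega
  have hPd : P.natDegree ≤ n + δ := by
    by_cases hP0 : P = 0
    · rw [hP0, natDegree_zero]
      omega
    · have h6 := tR.le
      rw [← h4, natDegree_mul hb0 hP0, hb] at h6
      omega
  have tP := Top.mk' hPd
  set p0 := P.coeff (n + δ) with hp0
  have hp : b0 * p0 = Δ0 * a0 ^ 2 * (2 * n - δ / 6) := by
    have h6 := tb.mul tP
    rw [h4] at h6
    have h7 := (h6.cast (by omega) rfl).uniq tR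
    rw [h7]
    push_cast
    ring
  have tP' := tP.th
  -- the polynomial `M`
  have h6 := id_M A B A' B' a b a' b' Δ w ε Q P (th w) (th Q) (th P) h2 h3 h4 h1 h1'
  have tZ : Top (2 * w * Δ * (a * th P - a' * P) * b - (2 * th w * Δ + w * ε) * a * P * b +
      w ^ 2 * (3 * A * w * a ^ 3 + (3 * Δ * (-(A * a * a') + A' * a ^ 2 + B' * a - 2 * B * a') +
        9 * w * B * a ^ 2 - 3 * ε * A * a ^ 2 - 3 * ε * B * a))) (6 * n + ω + 2 * δ)
      (2 * w0 * Δ0 * (a0 * ((n + δ : ℕ) * p0) - (2 * n : ℕ) * a0 * p0) * b0 -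
        (2 * (ω * w0) * Δ0 + w0 * (δ * Δ0 / 6)) * a0 * p0 * b0 +
        (3 * κ * w0 * (a0 * a0 * a0) + 0)) := by
    refine Top.add (Top.sub ?_ ?_) ?_
    · exact ((((tw.nmul 2).mul tΔ).mul ((ta.mul tP').sub ((ta'.mul tP).cast (by omega) rfl))).mul
        tb).cast (by omega) rfl
    · exact ((((((tw.th.nmul 2).mul tΔ).add (tw.mul tε)).mul ta).mul tP).mul tb).cast
        (by omega) rfl
    · have e1 : w ^ 2 * (3 * A * w * a ^ 3 +
          (3 * Δ * (-(A * a * a') + A' * a ^ 2 + B' * a - 2 * B * a') +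
          9 * w * B * a ^ 2 - 3 * ε * A * a ^ 2 - 3 * ε * B * a)) =
          3 * (A * w ^ 2) * w * a ^ 3 + w ^ 2 *
          (3 * Δ * (-(A * a * a') + A' * a ^ 2 + B' * a - 2 * B * a') +
          9 * w * B * a ^ 2 - 3 * ε * A * a ^ 2 - 3 * ε * B * a) := by ring
      rw [e1]
      refine Top.add ?_ ?_
      · exact (((tAw.nmul 3).mul tw).mul ta.cu).cast (by omega) rfl
      · have tA'μ : Top A' μ _ := hA' ▸ tAμ.th
        have tB'μ : Top B' μ _ := hB' ▸ tBμ.th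
        have tl : ∀ {p : ℚ[X]} {d : ℕ} {c : ℚ}, Top p d c → ∀ e, d ≤ e → p.natDegree ≤ e :=
          fun h e he => h.le.trans he
        have l1 : (3 * Δ * (-(A * a * a') + A' * a ^ 2 + B' * a - 2 * B * a')).natDegree ≤
            δ + μ + 4 * n := by
          have h7 : (-(A * a * a') + A' * a ^ 2 + B' * a - 2 * B * a').natDegree ≤ μ + 4 * n := by
            have g1 : (-(A * a * a')).natDegree ≤ μ + 4 * n :=
              tl ((tAμ.mul ta).mul ta').neg _ (by omega)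
            have g2 : (A' * a ^ 2).natDegree ≤ μ + 4 * n := tl (tA'μ.mul ta.sq) _ (by omega)
            have g3 : (B' * a).natDegree ≤ μ + 4 * n := tl (tB'μ.mul ta) _ (by omega)
            have g4 : (2 * B * a').natDegree ≤ μ + 4 * n := tl ((tBμ.nmul 2).mul ta') _ (by omega)
            exact (natDegree_sub_le_of_le (natDegree_add_le_of_degree_le
              (natDegree_add_le_of_degree_le g1 g2) g3) g4).trans (le_of_eq (max_self _))
          exact ((tΔ.nmul 3).mul (Top.mk' h7)).le.trans (by omega)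
        have l2 : (9 * w * B * a ^ 2).natDegree ≤ δ + 4 * μ + 4 * n :=
          tl (((tw.nmul 9).mul tBμ).mul ta.sq) _ (by omega)
        have l3 : (3 * ε * A * a ^ 2).natDegree ≤ δ + 4 * μ + 4 * n :=
          tl (((tε.nmul 3).mul tAμ).mul ta.sq) _ (by omega)
        have l4 : (3 * ε * B * a).natDegree ≤ δ + 4 * μ + 4 * n :=
          tl (((tε.nmul 3).mul tBμ).mul ta) _ (by omega)
        have l5 : (3 * Δ * (-(A * a * a') + A' * a ^ 2 + B' * a - 2 * B * a') +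
          9 * w * B * a ^ 2 - 3 * ε * A * a ^ 2 - 3 * ε * B * a).natDegree ≤ δ + 4 * μ + 4 * n :=
          (natDegree_sub_le_of_le (natDegree_sub_le_of_le (natDegree_add_le_of_degree_le
            (l1.trans (by omega)) l2) l3) l4).trans (by rw [max_self, max_self])
        refine Top.low (lt_of_le_of_lt (tw.sq.mul (Top.mk' l5)).le ?_)
        omega
  obtain ⟨M, hM⟩ : ∃ q, q = 2 * w * Δ * th Q - 3 * w ^ 2 * P - (2 * th w * Δ + w * ε) * Q :=
    ⟨_, rfl⟩
  rw [← hM] at h6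
  have hM0 : M = 0 := by
    by_contra hM0
    have h7 := tZ.le
    rw [← h6, natDegree_mul (mul_ne_zero (pow_ne_zero 2 ha0) hb0) hM0,
      natDegree_mul (pow_ne_zero 2 ha0) hb0, natDegree_pow, ha, hb] at h7
    omega
  rw [hM0, mul_zero] at h6
  have h7 := tZ.co
  rw [← h6, coeff_zero] at h7
  -- the contradiction
  have h8 : w0 * a0 ^ 3 * Δ0 ^ 2 * ((2 * n - δ / 6) * (2 * (δ - n) - 2 * ω - δ / 6) +
      ((δ : ℚ) - 3 * α) * (2 * β - δ) / 36) = 0 := by
    push_cast at h7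
    linear_combination (-1 : ℚ) * h7 - w0 * a0 * Δ0 * (2 * (δ - n) - 2 * ω - δ / 6) * hp -
      (w0 * a0 ^ 3 / 36) * hκ2
  have h9 := (mul_eq_zero.1 h8).resolve_left
    (mul_ne_zero (mul_ne_zero hlw (pow_ne_zero 3 hla)) (pow_ne_zero 2 hlΔ))
  have hnq : (8 * μ : ℚ) < n := by exact_mod_cast hn
  have hδq : (δ : ℚ) ≤ 3 * μ := by exact_mod_cast hδ
  have hαq : (α : ℚ) ≤ μ := by exact_mod_cast hA
  have hβq : (β : ℚ) ≤ μ := by exact_mod_cast hB
  have hδ0 : (0 : ℚ) ≤ δ := Nat.cast_nonneg _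
  have hω0 : (0 : ℚ) ≤ ω := Nat.cast_nonneg _
  have hα0 : (0 : ℚ) ≤ α := Nat.cast_nonneg _
  have hβ0 : (0 : ℚ) ≤ β := Nat.cast_nonneg _
  have hμ0 : (0 : ℚ) ≤ μ := Nat.cast_nonneg _
  have hn0q : (0 : ℚ) < n := by exact_mod_cast hn0
  have e1 : (n + μ : ℚ) ≤ 2 * n - δ / 6 := by linarith
  have e2 : (n + μ : ℚ) ≤ -(2 * (δ - n) - 2 * ω - δ / 6) := by linarith
  have e3 : (n + μ : ℚ) * (n + μ) ≤ (2 * n - δ / 6) * -(2 * (δ - n) - 2 * ω - δ / 6) :=
    mul_le_mul e1 e2 (by positivity) (by linarith)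
  have e4 : ((δ : ℚ) - 3 * α) * (2 * β - δ) ≤ 9 * (μ : ℚ) ^ 2 := by
    have e5 : |(δ : ℚ) - 3 * α| ≤ 3 * μ := abs_le.2 ⟨by linarith, by linarith⟩
    have e6 : |2 * (β : ℚ) - δ| ≤ 3 * μ := abs_le.2 ⟨by linarith, by linarith⟩
    calc ((δ : ℚ) - 3 * α) * (2 * β - δ) ≤ |((δ : ℚ) - 3 * α) * (2 * β - δ)| := le_abs_self _
      _ = |(δ : ℚ) - 3 * α| * |2 * (β : ℚ) - δ| := abs_mul _ _
      _ ≤ (3 * μ) * (3 * μ) := mul_le_mul e5 e6 (abs_nonneg _) (by positivity)
      _ = _ := by ring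
  nlinarith

end Pool.Agent.Run7.h983.Hy
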